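import Pool.Agent.Helper78.BI.Fr
import Pool.Agent.Helper9.FP.Fr3
import Pool.Agent.Helper96.HN.Rep
import Pool.Agent.Helper43.TA.SRep

/-!
# Project TZ (MP_0f6f3f_an): the targets

Discrete subgroups of `PSL(n, ℝ)`, `PSL(n, ℂ)`, `PSL(n, ℍ)`: proper projective representations with frames fixed by `σ`, and their trivial gaps.
-/

set_option autoImplicit false
set_option linter.unusedSectionVars false

open Matrix
open scoped ComplexConjugate

namespace Pool.Agent.Helper78.BI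

open Pool.Agent.Helper90.RK Pool.Agent.Helper84.NI Pool.Agent.Helper66.RKS Pool.Agent.Helper9.Fra
open Pool.Agent.Helper9.QH Pool.Agent.Helper43.TH Pool.Agent.Helper96.RK Pool.Agent.Helper9.Lin

section Rep

variable {𝕜 : Type} [RCLike 𝕜] {n : ℕ}

private theorem fin78 {G : Type} [Group G] [TopologicalSpace G] [IsTopologicalGroup G] [T2Space G] (Γ : Subgroup G)
    (h : DiscreteTopology Γ) {K : Set G} (hK : IsCompact K) : {g : Γ | (g : G) ∈ K}.Finite := by
  have hcl : IsClosed (Γ : Set G) := Subgroup.isClosed_of_discrete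
  have hemb : Topology.IsClosedEmbedding (Subtype.val : Γ → G) := hcl.isClosedEmbedding_subtypeVal
  have h1 : IsCompact ((Subtype.val : Γ → G) ⁻¹' K) := hemb.isCompact_preimage hK
  exact isCompact_iff_finite.1 h1

private theorem cpt78 (R : ℝ) : IsCompact {A : SpecialLinearGroup (Fin n) 𝕜 | ∀ i j, ‖A.1 i j‖ ≤ R} := by
  refine Pool.Agent.Helper96.FR.isCompact_SL ?_ (M := R) fun A hA x y => hA x y
  have hc : ∀ i j, Continuous fun A : SpecialLinearGroup (Fin n) 𝕜 => ‖A.1 i j‖ := by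
    intro i j
    have h2 : Continuous fun A : SpecialLinearGroup (Fin n) 𝕜 => (A.1 : Matrix (Fin n) (Fin n) 𝕜) :=
      continuous_subtype_val
    exact (h2.matrix_elem i j).norm
  have e : {A : SpecialLinearGroup (Fin n) 𝕜 | ∀ i j, ‖A.1 i j‖ ≤ R} =
      ⋂ i, ⋂ j, {A : SpecialLinearGroup (Fin n) 𝕜 | ‖A.1 i j‖ ≤ R} := by
    ext A
    simp only [Set.mem_ofPred_eq, Set.mem_iInter]
  rw [e]
  exact isClosed_iInter fun i => isClosed_iInter fun j => isClosed_le (hc i j) continuous_const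

/-- Discrete subgroups of `PSL(n, 𝕜)`: a representation by matrices over `𝕜`. -/
theorem rep_PSL (φ : 𝕜 →+* ℂ) (hφ : ∀ x, ‖φ x‖ = ‖x‖) (Γ : Subgroup (ProjectiveSpecialLinearGroup (Fin n) 𝕜))
    (h : DiscreteTopology Γ) : ∃ ρ : PRep Γ n, ∀ g, ∃ A : Matrix (Fin n) (Fin n) 𝕜, ρ.ι g = A.map φ := by
  rcases n with _ | r
  · have hs : Subsingleton (ProjectiveSpecialLinearGroup (Fin 0) 𝕜) := by
      refine ⟨fun a b => ?_⟩
      obtain ⟨x, rfl⟩ := QuotientGroup.mk_surjective a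
      obtain ⟨y, rfl⟩ := QuotientGroup.mk_surjective b
      rw [Subsingleton.elim x y]
    refine ⟨⟨fun g => 1, fun g => ?_, fun g h => ⟨1, norm_one, ?_⟩, fun R => ?_⟩, fun g => ⟨0, ?_⟩⟩
    · rw [det_one, norm_one]
    · rw [one_smul, mul_one]
    · exact Set.toFinite _
    · exact Subsingleton.elim _ _
  · have hT2 : T2Space (ProjectiveSpecialLinearGroup (Fin (r + 1)) 𝕜) := by
      have : IsClosed (Subgroup.center (SpecialLinearGroup (Fin (r + 1)) 𝕜) : Set (SpecialLinearGroup (Fin (r + 1)) 𝕜)) :=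
        Pool.Agent.Helper96.FR.isCompact_center.isClosed
      have h3 : T3Space (SpecialLinearGroup (Fin (r + 1)) 𝕜 ⧸ Subgroup.center (SpecialLinearGroup (Fin (r + 1)) 𝕜)) :=
        @QuotientGroup.instT3Space _ _ _ _ _ _ this
      exact (inferInstance : T2Space (SpecialLinearGroup (Fin (r + 1)) 𝕜 ⧸ Subgroup.center (SpecialLinearGroup (Fin (r + 1)) 𝕜)))
    have hout : ∀ x : ProjectiveSpecialLinearGroup (Fin (r + 1)) 𝕜,
        ((Quotient.out x : SpecialLinearGroup (Fin (r + 1)) 𝕜) : ProjectiveSpecialLinearGroup (Fin (r + 1)) 𝕜) = x :=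
      fun x => QuotientGroup.out_eq' x
    refine ⟨⟨fun g => ((Quotient.out g.1 : SpecialLinearGroup (Fin (r + 1)) 𝕜).1).map φ, fun g => ?_, fun g h => ?_,
      fun R => ?_⟩, fun g => ⟨_, rfl⟩⟩
    · have h1 : (((Quotient.out g.1 : SpecialLinearGroup (Fin (r + 1)) 𝕜).1).map φ).det =
          φ (Quotient.out g.1 : SpecialLinearGroup (Fin (r + 1)) 𝕜).1.det := by
        rw [← RingHom.mapMatrix_apply, ← RingHom.map_det]
      rw [h1, (Quotient.out g.1 : SpecialLinearGroup (Fin (r + 1)) 𝕜).2, map_one, norm_one]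
    · obtain ⟨a, ha⟩ : ∃ a, a = (Quotient.out g.1 : SpecialLinearGroup (Fin (r + 1)) 𝕜) := ⟨_, rfl⟩
      obtain ⟨b, hb⟩ : ∃ b, b = (Quotient.out h.1 : SpecialLinearGroup (Fin (r + 1)) 𝕜) := ⟨_, rfl⟩
      obtain ⟨c, hc⟩ : ∃ c, c = (Quotient.out (g * h).1 : SpecialLinearGroup (Fin (r + 1)) 𝕜) := ⟨_, rfl⟩
      rw [← ha, ← hb, ← hc]
      have h1 : (((a * b : SpecialLinearGroup (Fin (r + 1)) 𝕜) : ProjectiveSpecialLinearGroup (Fin (r + 1)) 𝕜)) =
          (c : ProjectiveSpecialLinearGroup (Fin (r + 1)) 𝕜) := by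
        rw [QuotientGroup.mk_mul, ha, hb, hc, hout, hout, hout]
        rfl
      have h2 : (a * b)⁻¹ * c ∈ Subgroup.center (SpecialLinearGroup (Fin (r + 1)) 𝕜) := QuotientGroup.eq.1 h1
      obtain ⟨z, hz, hzA⟩ := Matrix.SpecialLinearGroup.mem_center_iff.1 h2
      have hz1 : ‖z‖ = 1 := by
        have h3 := congrArg norm hz
        rw [norm_pow, norm_one, Fintype.card_fin] at h3
        exact (pow_eq_one_iff_of_nonneg (norm_nonneg z) (Nat.succ_ne_zero r)).1 h3
      refine ⟨φ z, by rw [hφ, hz1], ?_⟩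
      have h4 : c = (a * b) * ((a * b)⁻¹ * c) := by group
      have h5 : c.1 = (a.1 * b.1) * scalar (Fin (r + 1)) z := by
        rw [hzA]
        exact congrArg Subtype.val h4
      have h6 : c.1 = z • (a.1 * b.1) := by
        rw [h5, scalar_apply, ← smul_one_eq_diagonal, mul_smul_comm, mul_one]
      rw [h6]
      ext i j
      rw [Matrix.map_apply, Matrix.smul_apply, smul_eq_mul, map_mul, Matrix.smul_apply, smul_eq_mul, ← Matrix.map_mul,
        Matrix.map_apply]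
    · have hK := (cpt78 (𝕜 := 𝕜) (n := r + 1) R).image
        (QuotientGroup.continuous_mk (N := Subgroup.center (SpecialLinearGroup (Fin (r + 1)) 𝕜)))
      refine (fin78 Γ h hK).subset fun g hg => ?_
      refine ⟨Quotient.out g.1, fun i j => ?_, hout g.1⟩
      have h1 := hg i j
      rw [Matrix.map_apply, hφ] at h1
      exact h1

end Rep

/-- The index of the trivial gap of matrices of type `A`. -/
def T0A (N : ℕ) : Finset (Fin N) := Finset.univ.filter fun i => (i : ℕ) + 1 = N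

theorem triv_T0A {G : Type} [Group G] {N : ℕ} {P : PH G N} (S : Sv P) : Triv S (T0A N) := by
  intro γ i hi
  rw [T0A, Finset.mem_filter] at hi
  unfold lg gp
  rw [dif_neg (by omega), Real.log_one]

theorem card_T0A {N : ℕ} (hN : 0 < N) : (T0A N).card = 1 := by
  rw [Finset.card_eq_one]
  refine ⟨⟨N - 1, by omega⟩, ?_⟩
  ext i
  rw [T0A, Finset.mem_filter, Finset.mem_singleton, Fin.ext_iff]
  have := i.2
  simp only [Finset.mem_univ, true_and]
  omega

theorem card_T0H {n : ℕ} (hn : 0 < n) : (T0H (2 * n)).card = n + 1 := by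
  obtain ⟨k, rfl⟩ : ∃ k, n = k + 1 := ⟨n - 1, by omega⟩
  have h1 : T0H (2 * (k + 1)) = insert ⟨2 * k + 1, by omega⟩
      ((Finset.univ : Finset (Fin (k + 1))).image fun i : Fin (k + 1) => (⟨2 * (i : ℕ), by omega⟩ : Fin (2 * (k + 1)))) := by
    ext i
    rw [T0H, Finset.mem_filter, Finset.mem_insert, Finset.mem_image]
    simp only [Finset.mem_univ, true_and]
    have := i.2
    constructor
    · intro h
      rcases h with h | h
      · exact Or.inr ⟨⟨(i : ℕ) / 2, by omega⟩, Fin.ext (by show 2 * ((i : ℕ) / 2) = i; omega)⟩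
      · exact Or.inl (Fin.ext (by show (i : ℕ) = 2 * k + 1; omega))
    · rintro (h | ⟨j, hj⟩)
      · right
        have h2 := congrArg Fin.val h
        change (i : ℕ) = 2 * k + 1 at h2
        omega
      · left
        have h2 := congrArg Fin.val hj
        change 2 * (j : ℕ) = i at h2
        omega
  rw [h1, Finset.card_insert_of_notMem, Finset.card_image_of_injective, Finset.card_univ, Fintype.card_fin]
  · intro a b hab
    have h2 := congrArg Fin.val hab
    change 2 * (a : ℕ) = 2 * (b : ℕ) at h2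
    exact Fin.ext (by omega)
  · rw [Finset.mem_image]
    rintro ⟨j, -, hj⟩
    have h2 := congrArg Fin.val hj
    change 2 * (j : ℕ) = 2 * k + 1 at h2
    omega

/-- Real matrices. -/
theorem rep_R {n : ℕ} (Λ : Subgroup (ProjectiveSpecialLinearGroup (Fin n) ℝ)) (h : DiscreteTopology Λ) :
    ∃ ρ : PRep Λ n, ∀ g, cjM (ρ.ph.ι g) = ρ.ph.ι g := by
  obtain ⟨ρ, hρ⟩ := rep_PSL (algebraMap ℝ ℂ) (fun x => by simp) Λ h
  refine ⟨ρ, fun g => ?_⟩
  obtain ⟨A, hA⟩ := hρ g
  change cjM (ρ.ι g) = ρ.ι g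
  rw [hA]
  ext i j
  rw [cjM_apply, map_apply]
  exact Complex.conj_ofReal _

/-- Complex matrices. -/
theorem rep_C {n : ℕ} (Λ : Subgroup (ProjectiveSpecialLinearGroup (Fin n) ℂ)) (h : DiscreteTopology Λ) :
    Nonempty (PRep Λ n) := by
  obtain ⟨ρ, -⟩ := rep_PSL (RingHom.id ℂ) (fun x => by simp) Λ h
  exact ⟨ρ⟩

/-- Real targets. -/
theorem tgt_R {n : ℕ} (Λ : Subgroup (ProjectiveSpecialLinearGroup (Fin n) ℝ)) (h : DiscreteTopology Λ) (q : Fin n) :
    ∃ (ρ : PRep Λ n) (S : Sv ρ.ph), Fra (sgR n q) S ∧ Triv S (T0A n) := by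
  obtain ⟨ρ, h1⟩ := rep_R Λ h
  obtain ⟨S, h2, -, h3⟩ := exists_sv_R ρ.ph q h1
  exact ⟨ρ, S, ⟨h1, h2, h3⟩, triv_T0A S⟩

/-- Complex targets. -/
theorem tgt_C {n : ℕ} (Λ : Subgroup (ProjectiveSpecialLinearGroup (Fin n) ℂ)) (h : DiscreteTopology Λ) (q : Fin n) :
    ∃ (ρ : PRep Λ n) (S : Sv ρ.ph), Fra (sgC n q) S ∧ Triv S (T0A n) := by
  obtain ⟨ρ⟩ := rep_C Λ h
  obtain ⟨S, h2, -, h3⟩ := exists_sv_C ρ.ph q
  exact ⟨ρ, S, ⟨fun g => rfl, h2, h3⟩, triv_T0A S⟩

section Quat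

variable {n : ℕ}

/-- the reindexing -/
def eP (n : ℕ) : Fin n ⊕ Fin n ≃ Fin (2 * n) where
  toFun x := Sum.elim (fun i : Fin n => (⟨2 * (i : ℕ), by omega⟩ : Fin (2 * n)))
    (fun i : Fin n => (⟨2 * (i : ℕ) + 1, by omega⟩ : Fin (2 * n))) x
  invFun k := if (k : ℕ) % 2 = 0 then Sum.inl ⟨(k : ℕ) / 2, by omega⟩ else Sum.inr ⟨(k : ℕ) / 2, by omega⟩
  left_inv x := by
    rcases x with i | i
    · have h1 : (2 * (i : ℕ)) % 2 = 0 := by omega
      simp only [Sum.elim_inl]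
      rw [if_pos h1]
      congr 1
      exact Fin.ext (by show 2 * (i : ℕ) / 2 = i; omega)
    · have h1 : ¬ (2 * (i : ℕ) + 1) % 2 = 0 := by omega
      simp only [Sum.elim_inr]
      rw [if_neg h1]
      congr 1
      exact Fin.ext (by show (2 * (i : ℕ) + 1) / 2 = i; omega)
  right_inv k := by
    by_cases h : (k : ℕ) % 2 = 0
    · simp only [if_pos h, Sum.elim_inl]
      exact Fin.ext (by show 2 * ((k : ℕ) / 2) = k; omega)
    · simp only [if_neg h, Sum.elim_inr]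
      exact Fin.ext (by show 2 * ((k : ℕ) / 2) + 1 = k; omega)

theorem eP_inl (i : Fin n) : ((eP n (Sum.inl i) : Fin (2 * n)) : ℕ) = 2 * i := rfl

theorem eP_inr (i : Fin n) : ((eP n (Sum.inr i) : Fin (2 * n)) : ℕ) = 2 * i + 1 := rfl

/-- The quaternionic structure in the new coordinates. -/
theorem reindex_J : reindex (eP n) (eP n) (J (Fin n) ℂ) = JH (2 * n) := by
  ext a b
  obtain ⟨x, rfl⟩ := (eP n).surjective a
  obtain ⟨y, rfl⟩ := (eP n).surjective b
  rw [reindex_apply, submatrix_apply, Equiv.symm_apply_apply, Equiv.symm_apply_apply]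
  unfold JH J
  rcases x with i | i <;> rcases y with j | j
  · rw [fromBlocks_apply₁₁, eP_inl, eP_inl, if_neg (by omega), if_neg (by omega)]
    rfl
  · rw [fromBlocks_apply₁₂, eP_inl, eP_inr, if_neg (by omega), neg_apply, one_apply]
    by_cases h : i = j
    · rw [if_pos h, if_pos ⟨by omega, by rw [h]⟩]
    · rw [if_neg h, if_neg fun h' => h (Fin.ext (by omega)), neg_zero]
  · rw [fromBlocks_apply₂₁, eP_inl, eP_inr, one_apply]
    by_cases h : i = j
    · rw [if_pos h, if_pos ⟨by omega, by rw [h]⟩]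
    · rw [if_neg h, if_neg fun h' => h (Fin.ext (by omega)), if_neg (by omega)]
  · rw [fromBlocks_apply₂₂, eP_inr, eP_inr, if_neg (by omega), if_neg (by omega)]
    rfl

open Pool.Agent.Helper96.HN in
/-- Discrete subgroups of `PSL(n, ℍ)`. -/
theorem rep_PSLH' (Λ : Subgroup (PSLH n)) (h : DiscreteTopology Λ) :
    ∃ ρ : PRep Λ (2 * n), ∀ g, ∃ A : SLH n, ρ.ι g = reindex (eP n) (eP n) (val A) := by
  have hout : ∀ x : PSLH n, ((Quotient.out x : SLH n) : PSLH n) = x := fun x => QuotientGroup.out_eq' x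
  refine ⟨{ ι := fun g => reindex (eP n) (eP n) (val (Quotient.out g.1 : SLH n))
            norm_det := fun g => by rw [det_reindex_self, det_val, norm_one]
            mul := fun g h => ?_
            proper := fun R => ?_ }, fun g => ⟨_, rfl⟩⟩
  · obtain ⟨a, ha⟩ : ∃ a, a = (Quotient.out g.1 : SLH n) := ⟨_, rfl⟩
    obtain ⟨b, hb⟩ : ∃ b, b = (Quotient.out h.1 : SLH n) := ⟨_, rfl⟩
    obtain ⟨c, hc⟩ : ∃ c, c = (Quotient.out (g * h).1 : SLH n) := ⟨_, rfl⟩
    rw [← ha, ← hb, ← hc]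
    have h1 : ((a * b : SLH n) : PSLH n) = (c : PSLH n) := by
      rw [QuotientGroup.mk_mul, ha, hb, hc, hout, hout, hout]
      rfl
    have h2 : (a * b)⁻¹ * c ∈ Subgroup.center (SLH n) := QuotientGroup.eq.1 h1
    have h4 : c = (a * b) * ((a * b)⁻¹ * c) := by group
    have h5 : val c = (val a * val b) * val ((a * b)⁻¹ * c) := by
      rw [← val_mul, ← val_mul, ← h4]
    rcases center_SLH h2 with h3 | h3
    · refine ⟨1, norm_one, ?_⟩
      rw [one_smul, h5, h3, Matrix.mul_one]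
      simp only [reindex_apply]
      rw [submatrix_mul_equiv]
    · refine ⟨-1, by rw [norm_neg, norm_one], ?_⟩
      rw [neg_one_smul, h5, h3, Matrix.mul_neg, Matrix.mul_one]
      simp only [reindex_apply]
      rw [submatrix_mul_equiv]
      rfl
  · have hK := (isCompact_bdd (n := n) R).image (QuotientGroup.continuous_mk (N := Subgroup.center (SLH n)))
    refine (fin78 Λ h hK).subset fun g hg => ?_
    refine ⟨Quotient.out g.1, fun i j => ?_, hout g.1⟩
    have h1 := hg (eP n i) (eP n j)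
    rw [reindex_apply, submatrix_apply, Equiv.symm_apply_apply, Equiv.symm_apply_apply] at h1
    exact h1

open Pool.Agent.Helper96.HN in
/-- Quaternionic matrices. -/
theorem rep_H (Λ : Subgroup (PSLH n)) (h : DiscreteTopology Λ) :
    ∃ ρ : PRep Λ (2 * n), ∀ g, JH (2 * n) * cjM (ρ.ph.ι g) * (JH (2 * n))ᴴ = ρ.ph.ι g := by
  obtain ⟨ρ, hρ⟩ := rep_PSLH' Λ h
  refine ⟨ρ, fun g => ?_⟩
  obtain ⟨A, hA⟩ := hρ g
  change JH (2 * n) * cjM (ρ.ι g) * (JH (2 * n))ᴴ = ρ.ι g
  have h2 : JH (2 * n) * cjM (ρ.ι g) = ρ.ι g * JH (2 * n) := by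
    rw [hA, ← reindex_J]
    have h3 : cjM (reindex (eP n) (eP n) (val A)) = reindex (eP n) (eP n) ((val A).map (starRingEnd ℂ)) := rfl
    rw [h3]
    simp only [reindex_apply]
    rw [submatrix_mul_equiv, submatrix_mul_equiv, val_J]
  rw [h2, Matrix.mul_assoc, JH_unit ⟨n, two_mul n⟩, Matrix.mul_one]

open Pool.Agent.Helper96.HN in
/-- Quaternionic targets. -/
theorem tgt_H (Λ : Subgroup (PSLH n)) (h : DiscreteTopology Λ) (q : Fin (2 * n)) (hN : Even (2 * n)) (hq : Odd (q : ℕ)) :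
    ∃ (ρ : PRep Λ (2 * n)) (S : Sv ρ.ph), Fra (sgH (2 * n) q hN hq) S ∧ Triv S (T0H (2 * n)) ∧ Quat ρ.ph (JH (2 * n)) := by
  obtain ⟨ρ, h1⟩ := rep_H Λ h
  obtain ⟨S, h2, -, h3⟩ := exists_sv_H ρ.ph q hN hq h1
  have hQ : Quat ρ.ph (JH (2 * n)) :=
    ⟨mul_eq_one_comm.1 (JH_unit hN), JH_transpose hN, quat_of ρ.ph q hN hq h1⟩
  exact ⟨ρ, S, ⟨h1, h2, h3⟩, triv_quat S hQ, hQ⟩

end Quat

end Pool.Agent.Helper78.BI
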