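import Pool.Agent.Helper78.BI.ErgD
import Pool.Agent.Helper66.RK.StmtDef
import Pool.Agent.Helper84.TU.Main
import Pool.Agent.Helper84.GVN.Bridge

/-!
# Project TZ (MP_0f6f3f_an): isomorphisms and icc groups

`icc_of_iso`: a group with the group von Neumann algebra of an icc group is icc (central elements). `exists_emb_iso`: the full embedding given by an isomorphism.
-/

set_option autoImplicit false

open Filter Topology

namespace Pool.Agent.Helper78.BI

open Pool.Agent.Helper84 Pool.Agent.Helper84.NI Pool.Agent.Helper84.GVN Pool.Agent.Helper84.GN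
open Pool.Agent.Helper66.RKS Pool.Agent.Helper84.TU Pool.Agent.Helper55.FR
open Pool.Agent.Helper78.BM (FullE)

variable {Γ Λ : Type} [Group Γ] [Group Λ]

/-- The elements of `L(Γ)` commuting with the canonical unitaries are scalars if `Γ` is icc. -/
theorem scalar_of_comm (hicc : IsICC Γ) {x : LG Γ} (hx : ∀ g : Γ, uu g * x = x * uu g) : ∃ c : ℂ, x = c • (1 : LG Γ) := by
  obtain ⟨v, hv⟩ : ∃ v : L2 Γ, v = op x (dl 1) := ⟨_, rfl⟩
  have h1 : ∀ g, cW g v = v := by
    intro g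
    rw [hv, ← op_conj, hx g, mul_assoc]
    have h2 : uu g * star (uu g) = (1 : LG Γ) := by
      rw [star_uu, ← uu_mul, mul_inv_cancel]
      exact Subtype.ext (by ext f k; simp [uu])
    rw [h2, mul_one]
  have h2 : ∀ g k : Γ, v (g * k * g⁻¹) = v k := by
    intro g k
    have h3 := congrArg (fun f : L2 Γ => f k) (h1 g⁻¹)
    simp only [cW_apply, inv_inv] at h3
    exact h3
  have h3 : ∀ k : Γ, k ≠ 1 → v k = 0 := by
    intro k hk
    by_contra hne
    have h4 : Set.Finite {i : Γ | ‖v k‖ ^ 2 ≤ ‖v i‖ ^ 2} := by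
      have h5 : ∀ᶠ i in cofinite, ‖v i‖ ^ 2 < ‖v k‖ ^ 2 :=
        (summable_sq v).tendsto_cofinite_zero.eventually_lt_const (by positivity)
      rw [eventually_cofinite] at h5
      refine h5.subset fun i hi => ?_
      simpa using hi
    refine hicc k hk (h4.subset ?_)
    rintro _ ⟨g, rfl⟩
    change ‖v k‖ ^ 2 ≤ ‖v (g * k * g⁻¹)‖ ^ 2
    rw [h2]
  refine ⟨v 1, Subtype.ext ?_⟩
  refine clm_ext fun g => ?_
  change op x (dl g) = (v 1) • dl g
  have h4 : (dl g : L2 Γ) = rhoU g⁻¹ (dl 1) := by rw [rhoU_dl, inv_inv, one_mul]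
  have h5 : v = v 1 • (dl 1 : L2 Γ) := by
    refine l2_ext fun k => ?_
    change v k = v 1 * (dl 1 : L2 Γ) k
    by_cases hk : k = 1
    · rw [hk, dl_self, mul_one]
    · rw [h3 k hk, dl_apply, if_neg hk, mul_zero]
  rw [h4, op_rhoU, ← hv]
  conv_lhs => rw [h5]
  rw [map_smul]

/-- The elements commuting with the canonical unitaries are central. -/
theorem central_of_comm {x : LG Γ} (hx : ∀ g : Γ, uu g * x = x * uu g) (y : LG Γ) : x * y = y * x := by
  refine Subtype.ext ?_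
  refine mem_groupVN.1 y.2 (x : L2 Γ →L[ℂ] L2 Γ) fun g => ?_
  have h1 := congrArg (fun z : LG Γ => (z : L2 Γ →L[ℂ] L2 Γ)) (hx g)
  exact h1.symm

/-- **A group with the group von Neumann algebra of an icc group is icc.** -/
theorem icc_of_iso (hicc : IsICC Γ) (θ : LG Γ ≃⋆ₐ[ℂ] LG Λ) : IsICC Λ := by
  intro γ hγ hfin
  have hfin' : (Set.range fun g : Λ => g * γ * g⁻¹).Finite := hfin
  classical
  obtain ⟨C, hC⟩ : ∃ C : Finset Λ, ∀ c, c ∈ C ↔ ∃ g : Λ, g * γ * g⁻¹ = c :=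
    ⟨hfin'.toFinset, fun c => by rw [Set.Finite.mem_toFinset, Set.mem_range]⟩
  obtain ⟨z, hz⟩ : ∃ z : LG Λ, z = ∑ c ∈ C, uu c := ⟨_, rfl⟩
  have h1 : ∀ g : Λ, uu g * z = z * uu g := by
    intro g
    rw [hz, Finset.mul_sum, Finset.sum_mul]
    refine Finset.sum_bij' (fun c _ => g * c * g⁻¹) (fun c _ => g⁻¹ * c * g) ?_ ?_ ?_ ?_ ?_
    · intro c hc
      obtain ⟨h, rfl⟩ := (hC _).1 hc
      exact (hC _).2 ⟨g * h, by group⟩
    · intro c hc
      obtain ⟨h, rfl⟩ := (hC _).1 hc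
      exact (hC _).2 ⟨g⁻¹ * h, by group⟩
    · intro c _
      group
    · intro c _
      group
    · intro c _
      rw [← uu_mul, ← uu_mul]
      congr 1
      group
  have h2 : ∀ g : Γ, uu g * θ.symm z = θ.symm z * uu g := by
    intro g
    have hs : θ (θ.symm z) = z := θ.apply_symm_apply z
    have hi : Function.Injective (θ : LG Γ → LG Λ) := θ.injective
    refine hi ?_
    have e1 : θ (uu g * θ.symm z) = θ (uu g) * z := by rw [map_mul, hs]
    have e2 : θ (θ.symm z * uu g) = z * θ (uu g) := by rw [map_mul, hs]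
    rw [e1, e2]
    exact (central_of_comm h1 _).symm
  obtain ⟨c, hc⟩ := scalar_of_comm hicc h2
  have h3 : z = c • (1 : LG Λ) := by
    have h4 := congrArg θ hc
    rw [StarAlgEquiv.apply_symm_apply] at h4
    rw [h4]
    have h5 : θ (c • (1 : LG Γ)) = c • θ 1 := map_smul θ c 1
    rw [h5, map_one]
  have h4 : (z : L2 Λ →L[ℂ] L2 Λ) (dl 1) γ = (1 : ℂ) := by
    rw [hz, AddSubmonoidClass.coe_finsetSum, _root_.sum_apply]
    have h5 : ∀ c : Λ, ((uu c : LG Λ) : L2 Λ →L[ℂ] L2 Λ) (dl 1) = dl c := fun c => uu_dl c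
    have h6 : (∑ c ∈ C, ((uu c : LG Λ) : L2 Λ →L[ℂ] L2 Λ) (dl 1)) γ = ∑ c ∈ C, (dl c : L2 Λ) γ := by
      rw [Finset.sum_congr rfl fun c _ => h5 c, lp.coeFn_sum, Finset.sum_apply]
    rw [h6]
    have h7 : ∀ c ∈ C, (dl c : L2 Λ) γ = if c = γ then 1 else 0 := by
      intro c _
      rw [dl_apply]
      by_cases h : c = γ
      · rw [if_pos h, if_pos h.symm]
      · rw [if_neg h, if_neg (Ne.symm h)]
    rw [Finset.sum_congr rfl h7, Finset.sum_ite_eq', if_pos ((hC γ).2 ⟨1, by group⟩)]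
  rw [h3] at h4
  have h5 : ((c • (1 : LG Λ) : LG Λ) : L2 Λ →L[ℂ] L2 Λ) (dl 1) γ = c * (dl (1 : Λ) : L2 Λ) γ := rfl
  rw [h5, dl_apply, if_neg hγ, mul_zero] at h4
  exact zero_ne_one h4

/-- **The full embedding given by an isomorphism.** -/
theorem exists_emb_iso (hicc : IsICC Γ) (h : IsoL Γ Λ) : ∃ E : Emb Γ Λ, FullE E ∧ IsICC Λ := by
  obtain ⟨e⟩ := h
  let e' : LG Γ ≃⋆ₐ[ℂ] LG Λ := (bridge Γ).symm.trans (e.trans (bridge Λ))
  have ht : ∀ x, Pool.Agent.Helper84.GVN.tr (e' x) = Pool.Agent.Helper84.GVN.tr x :=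
    fun x => Pool.Agent.Helper84.TU.tr_iso hicc e' x
  have hs : Function.Surjective e'.toStarAlgHom := fun y => ⟨e'.symm y, e'.apply_symm_apply y⟩
  exact ⟨homEmb e'.toStarAlgHom fun x => ht x, fullE_hom _ _ hs, icc_of_iso hicc e'⟩

end Pool.Agent.Helper78.BI
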