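import Pool.Agent.Helper78.BM.Erg
import Pool.Agent.Helper55.FR.Pre
import Pool.Agent.Helper43.TZ.Src

/-!
# Project TZ (MP_0f6f3f_an): ergodicity

`fullE_hom`: the embedding given by a surjective trace preserving homomorphism is full. `invT_of`: the vectors fixed by `vgR μ a (adR E)` are multiples of `1 ⊗ δ₁`. `ergU_dir`: `ErgU` for the contracted elements of a sequence
of a direction.
-/

set_option autoImplicit false
set_option linter.unusedSectionVars false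

open MeasureTheory Filter Topology

namespace Pool.Agent.Helper78.BI

open Pool.Agent.Helper84 Pool.Agent.Helper84.GN Pool.Agent.Helper84.GN.S3 Pool.Agent.Helper84.GN.S3.X
open Pool.Agent.Helper84.NI Pool.Agent.Helper84.GVN Pool.Agent.Helper90.RK
open Pool.Agent.Helper96.RK Pool.Agent.Helper66.FR Pool.Agent.Helper84.FR Pool.Agent.Helper55.FR
open Pool.Agent.Helper78.BM (adR FullE InvT ErgU ergU_of fix_ad Kcont contVec_vg)

section Full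

variable {Γ Λ : Type} [Group Γ] [Group Λ]

theorem norm_sq_tr (y : LG Γ) : (inner ℂ ((y : L2 Γ →L[ℂ] L2 Γ) (dl 1)) ((y : L2 Γ →L[ℂ] L2 Γ) (dl 1)) : ℂ) =
    Pool.Agent.Helper84.GVN.tr (star y * y) := by
  change _ = ((star (y : L2 Γ →L[ℂ] L2 Γ) * (y : L2 Γ →L[ℂ] L2 Γ)) (dl 1)) 1
  rw [← inner_dl_left]
  change _ = inner ℂ (dl (1 : Γ)) (star (y : L2 Γ →L[ℂ] L2 Γ) ((y : L2 Γ →L[ℂ] L2 Γ) (dl 1)))
  rw [ContinuousLinearMap.star_eq_adjoint, ContinuousLinearMap.adjoint_inner_right]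

/-- The embedding given by a surjective homomorphism is full. -/
theorem fullE_hom (θ : LG Λ →⋆ₐ[ℂ] LG Γ) (hτ : ∀ x, Pool.Agent.Helper84.GVN.tr (θ x) = Pool.Agent.Helper84.GVN.tr x)
    (hs : Function.Surjective θ) : FullE (homEmb θ hτ) := by
  intro w hw
  have hw' : ∀ l, (inner ℂ ((θ (uu l) : L2 Γ →L[ℂ] L2 Γ) (dl 1)) w : ℂ) = 0 := hw
  have key : ∀ x : LG Λ, (inner ℂ ((θ x : L2 Γ →L[ℂ] L2 Γ) (dl 1)) w : ℂ) = 0 := by
    intro x
    obtain ⟨ξ, hξ⟩ : ∃ ξ : L2 Λ, ξ = (x : L2 Λ →L[ℂ] L2 Λ) (dl 1) := ⟨_, rfl⟩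
    obtain ⟨p, hp⟩ : ∃ p : Finset Λ → LG Λ, ∀ s, p s = ∑ l ∈ s, ξ l • uu l := ⟨_, fun s => rfl⟩
    have hp1 : ∀ s, ((p s : LG Λ) : L2 Λ →L[ℂ] L2 Λ) (dl 1) = ∑ l ∈ s, ξ l • (dl l : L2 Λ) := by
      intro s
      rw [hp]
      have h1 : ((∑ l ∈ s, ξ l • uu l : LG Λ) : L2 Λ →L[ℂ] L2 Λ) = ∑ l ∈ s, ξ l • ((uu l : LG Λ) : L2 Λ →L[ℂ] L2 Λ) := by
        rw [AddSubmonoidClass.coe_finsetSum]
        rfl
      rw [h1, _root_.sum_apply]
      refine Finset.sum_congr rfl fun l _ => ?_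
      rw [_root_.smul_apply, uu_dl]
    have hn : ∀ s, ‖((θ x : LG Γ) : L2 Γ →L[ℂ] L2 Γ) (dl 1) - ((θ (p s) : LG Γ) : L2 Γ →L[ℂ] L2 Γ) (dl 1)‖ =
        ‖ξ - ∑ l ∈ s, ξ l • (dl l : L2 Λ)‖ := by
      intro s
      have h1 : ((θ x : LG Γ) : L2 Γ →L[ℂ] L2 Γ) (dl 1) - ((θ (p s) : LG Γ) : L2 Γ →L[ℂ] L2 Γ) (dl 1) =
          ((θ (x - p s) : LG Γ) : L2 Γ →L[ℂ] L2 Γ) (dl 1) := by
        rw [map_sub]
        rfl
      have h2 : ξ - ∑ l ∈ s, ξ l • (dl l : L2 Λ) = (((x - p s : LG Λ)) : L2 Λ →L[ℂ] L2 Λ) (dl 1) := by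
        rw [← hp1, hξ]
        rfl
      rw [h1, h2]
      have h3 := norm_sq_tr (θ (x - p s))
      have h4 := norm_sq_tr (x - p s)
      rw [← map_star, ← map_mul, hτ, ← h4, inner_self_eq_norm_sq_to_K, inner_self_eq_norm_sq_to_K] at h3
      have h5 : ‖((θ (x - p s) : LG Γ) : L2 Γ →L[ℂ] L2 Γ) (dl 1)‖ ^ 2 =
          ‖(((x - p s : LG Λ)) : L2 Λ →L[ℂ] L2 Λ) (dl 1)‖ ^ 2 := by
        apply Complex.ofReal_injective
        rw [Complex.ofReal_pow, Complex.ofReal_pow]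
        exact h3
      exact (pow_left_inj₀ (norm_nonneg _) (norm_nonneg _) two_ne_zero).1 h5
    have hz : ∀ s, (inner ℂ (((θ (p s) : LG Γ) : L2 Γ →L[ℂ] L2 Γ) (dl 1)) w : ℂ) = 0 := by
      intro s
      have h1 : ((θ (p s) : LG Γ) : L2 Γ →L[ℂ] L2 Γ) (dl 1) = ∑ l ∈ s, ξ l • ((θ (uu l) : LG Γ) : L2 Γ →L[ℂ] L2 Γ) (dl 1) := by
        rw [hp, map_sum]
        have h2 : ((∑ l ∈ s, θ (ξ l • uu l) : LG Γ) : L2 Γ →L[ℂ] L2 Γ) =
            ∑ l ∈ s, ξ l • ((θ (uu l) : LG Γ) : L2 Γ →L[ℂ] L2 Γ) := by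
          rw [AddSubmonoidClass.coe_finsetSum]
          refine Finset.sum_congr rfl fun l _ => ?_
          rw [map_smul]
          rfl
        rw [h2, _root_.sum_apply]
        rfl
      rw [h1, sum_inner]
      refine Finset.sum_eq_zero fun l _ => ?_
      rw [inner_smul_left, hw', mul_zero]
    have hlim : Tendsto (fun s : Finset Λ => ((θ (p s) : LG Γ) : L2 Γ →L[ℂ] L2 Γ) (dl 1)) atTop
        (𝓝 (((θ x : LG Γ) : L2 Γ →L[ℂ] L2 Γ) (dl 1))) := by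
      have h1 : Tendsto (fun s : Finset Λ => ξ - ∑ l ∈ s, ξ l • (dl l : L2 Λ)) atTop (𝓝 0) := by
        have h2 : Tendsto (fun s : Finset Λ => ∑ l ∈ s, ξ l • (dl l : L2 Λ)) atTop (𝓝 ξ) := hasSum_dl ξ
        have h3 := (tendsto_const_nhds (x := ξ)).sub h2
        rwa [sub_self] at h3
      have h4 := h1.norm
      rw [norm_zero] at h4
      rw [tendsto_iff_norm_sub_tendsto_zero]
      refine h4.congr fun s => ?_
      rw [← hn, norm_sub_rev]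
    have h5 : Tendsto (fun s : Finset Λ => (inner ℂ (((θ (p s) : LG Γ) : L2 Γ →L[ℂ] L2 Γ) (dl 1)) w : ℂ)) atTop
        (𝓝 (inner ℂ (((θ x : LG Γ) : L2 Γ →L[ℂ] L2 Γ) (dl 1)) w)) := hlim.inner tendsto_const_nhds
    refine tendsto_nhds_unique h5 (tendsto_const_nhds.congr fun s => (hz s).symm)
  refine l2_ext fun g => ?_
  obtain ⟨x, hx⟩ := hs (uu g)
  have h1 := key x
  rw [hx, uu_dl, inner_dl_left] at h1
  exact h1

end Full

variable {G1 X G Λ : Type} [Group G1] [TopologicalSpace G1] [IsTopologicalGroup G1] [MeasurableSpace X] [MulAction G1 X]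
  [MeasurableConstSMul G1 X] [Group G] [Group Λ] [Countable Λ] {μ : Measure X} [SMulInvariantMeasure G1 X μ]
  [IsProbabilityMeasure μ] {a : Cocy G1 X Λ} {E : Emb Λ G}

/-- The vectors fixed by `vgR μ a (adR E)`. -/
theorem invT_of (hE : FullE E) (hicc : ∀ k : G, k ≠ 1 → (Set.range fun h : G => h * k * h⁻¹).Infinite)
    (hinv : ∀ (H : Type) (_ : NormedAddCommGroup H) (_ : InnerProductSpace ℂ H) (T : Λ →* (H ≃ₗᵢ[ℂ] H)) (φ : X → H),
      StronglyMeasurable φ → (∀ g : G1, ∀ᵐ x ∂μ, φ (g • x) = T (a.a g x) (φ x)) →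
      ∃ v : H, (∀ l, T l v = v) ∧ ∀ᵐ x ∂μ, φ x = v) : InvT μ a E := by
  intro φ hφ
  obtain ⟨v, hv, hφv⟩ := hinv (L2 G) inferInstance inferInstance (adR E) φ (Lp.stronglyMeasurable φ) (fun g => by
    have h1 := vg_apply (μ := μ) a (adR E) g φ
    rw [hφ g] at h1
    have h2 := (measurePreserving_smul g μ).quasiMeasurePreserving.ae h1
    filter_upwards [h2] with x hx
    rw [hx, inv_smul_smul])
  obtain ⟨c, hc⟩ := fix_ad hE hicc hv
  refine ⟨c, ?_⟩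
  refine xl_ext ?_
  filter_upwards [hφv, cst_apply (μ := μ) (dl (1 : G)), Lp.coeFn_smul c (cst μ (dl (1 : G)) : XL μ (L2 G))] with x h1 h2 h3
  rw [h1, h3, Pi.smul_apply, h2, hc]

/-- **Ergodicity of the contracted elements.** -/
theorem ergU_dir {F : Subgroup G1} {par : G1 → ℝ} {d : ℕ} (D : Pool.Agent.Helper43.TZ.Dir G1 F par d) (hinv : InvT μ a E)
    (h3 : Tendsto (fun g : G1 => μ {x | a.a g x ≠ 1}) (𝓝 1) (𝓝 0)) (hK : Kcont G1 μ) {b : ℕ → G1} (hb : ∀ n, b n ∈ F)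
    (hpar : Tendsto (fun n => par (b n)) (hyperfilter ℕ : Filter ℕ) atTop) : ErgU μ a E (Pool.Agent.Helper78.BM.Ctr b) :=
  ergU_of hinv fun φ hφ => D.maut b (hyperfilter ℕ : Filter ℕ) hb hpar (vgR μ a (adR E)) φ (contVec_vg h3 hK (adR E) φ)
    fun q hq => hφ q hq

end Pool.Agent.Helper78.BI
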