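import Pool.Agent.Helper43.TH.Mid
import Pool.Agent.Helper43.TA.Fin
import Pool.Agent.Helper43.TH.Ext
import Pool.Agent.Helper9.QH.Q5
import Pool.Agent.Helper78.BM.Main

/-!
# Project FP/TZ (MP_0f6f3f_an): existence of the boundary map over the stratum of the last nontrivial gap

`startF`: a sequence which leaves the compact sets has mass outside the bounded gaps. `exists_start`: if `F` commutes with `r` elements as in `Dat` and there are `r + 1` nontrivial gaps, then for a sequence `f n ∈ F` which leaves the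
compact sets a subsequence of `f` or of `f⁻¹` has a component over the stratum of the last nontrivial gap. `exists_bmapG`: the boundary map for this component.
-/

set_option autoImplicit false
set_option linter.unusedSectionVars false

open MeasureTheory Filter Topology

namespace Pool.Agent.Helper78.BI

open Pool.Agent.Helper84.NI Pool.Agent.Helper84.GVN Pool.Agent.Helper90.RK
open Pool.Agent.Helper84.GN hiding toReg
open Pool.Agent.Helper84.GN.S3 Pool.Agent.Helper84.GN.S3.X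
open Pool.Agent.Helper96.RK Pool.Agent.Helper66.FR Pool.Agent.Helper84.FR Pool.Agent.Helper96.FR Pool.Agent.Helper55.FR
open Pool.Agent.Helper43.TA Pool.Agent.Helper43.TH Pool.Agent.Helper9.QH
open Pool.Agent.Helper78.BM (BMap ErgU exists_mass)

variable {G1 X G Λ : Type} [Group G1] [TopologicalSpace G1] [IsTopologicalGroup G1] [T2Space G1] [MeasurableSpace X]
  {μ : Measure X} [MulAction G1 X] [MeasurableConstSMul G1 X] [SMulInvariantMeasure G1 X μ] [IsProbabilityMeasure μ]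
  [Group G] [Group Λ] [Countable Λ] {a : Cocy G1 X Λ} {E : Emb Λ G} {N : ℕ} {P : PH G N} {S : Sv P}
  {F : Subgroup G1} {r : ℕ} {T0 : Finset (Fin N)}

theorem startF (D : Dat μ a F r) {f : ℕ → G1} (hf : Tendsto f atTop (cocompact G1)) :
    ∃ k : ℕ → ℕ, (∀ m, m ≤ k m) ∧ ∀ m : ℕ,
      1 / 2 ≤ ‖cl μ (ind ℂ (TC S ([] : List (Finset (Fin N))) m \ WC S (hd []) m)) (zx μ a E (f (k m)))‖ := by
  have key : ∀ m : ℕ, ∃ k, m ≤ k ∧
      1 / 2 ≤ ‖cl μ (ind ℂ (TC S ([] : List (Finset (Fin N))) m \ WC S (hd []) m)) (zx μ a E (f k))‖ := by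
    intro m
    obtain ⟨g, ⟨k, hk, hkg⟩, hg⟩ := startX S (z := zx μ a E) (V := {g | ∃ k, m ≤ k ∧ f k = g})
      (fun g _ => norm_zx g) (fun T hT => by
        have h1 := tendsto_mass (μ := μ) E (f := fun k : ℕ => zx μ a E (f k))
          (c := fun k x => a.a (f k) ((f k)⁻¹ • x)) (fun k l => (mea_a _ _) l)
          (fun k => zv_apply (mea_a (a := a) (f k) (f k)⁻¹)) (fun l => by
            have h2 := (ENNReal.tendsto_toReal ENNReal.zero_ne_top).comp ((D.hF2 l).comp hf)
            rw [ENNReal.toReal_zero] at h2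
            refine h2.congr fun k => ?_
            have h3 := (measurePreserving_smul (f k)⁻¹ μ).measure_preimage
              (s := a.a (f k) ⁻¹' {l}) ((a.meas (f k)) l).nullMeasurableSet
            change (μ (a.a (f k) ⁻¹' {l})).toReal = (μ ((fun x => (f k)⁻¹ • x) ⁻¹' (a.a (f k) ⁻¹' {l}))).toReal
            rw [h3]) hT.toFinset
        obtain ⟨k, hk1, hk2⟩ := ((h1.eventually (gt_mem_nhds (show (0 : ℝ) < 3 / 4 by norm_num))).and
          (eventually_ge_atTop m)).exists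
        rw [hT.coe_toFinset] at hk1
        exact ⟨f k, ⟨k, hk2, rfl⟩, hk1.le⟩) m
    exact ⟨k, hk, by rw [hkg]; exact hg⟩
  choose k h1 h2 using key
  exact ⟨k, h1, h2⟩

theorem mass_comp' {J : Finset (Fin N)} {c : List (Finset (Fin N))} {b : ℕ → G1}
    (h : HasComp (toReg (chStr S J c)) (zx μ a E) zx_bound b) : ∃ β : ℝ, 0 < β ∧ ∀ m : ℕ, ∃ n, m ≤ n ∧
      β ≤ ‖cl μ (ind ℂ (TC S (J :: c) m)) (zx μ a E (b n))‖ := by
  have hρ := (hasComp_iff (μ := μ) (a := a) (E := E) _ b).1 h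
  set ρ := mR μ a E (toReg (chStr S J c)) Set.univ b with hρd
  refine ⟨Real.sqrt (ρ / 2), Real.sqrt_pos.2 (by linarith), fun m => ?_⟩
  have h1 := mR_carried (μ := μ) (a := a) (E := E) (toReg (chStr S J c)) (s := TC S (J :: c) m)
    (fun n => TC_mem_FC S J c m n) Set.univ b
  rw [Set.inter_univ] at h1
  have h2 := mR_le_ms (μ := μ) (a := a) (E := E) (toReg (chStr S J c)) (TC S (J :: c) m) b
  rw [h1, ← hρd] at h2
  have h3 := ms_tendsto (μ := μ) (a := a) (E := E) (TC S (J :: c) m) b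
  obtain ⟨n, hn, hm⟩ := ((h3.eventually (lt_mem_nhds (show ρ / 2 < _ by linarith))).and
    (Nat.hyperfilter_le_atTop (eventually_ge_atTop m))).exists
  exact ⟨n, hm, (Real.sqrt_le_left (norm_nonneg _)).2 hn.le⟩

/-- The type is `univ \ {q}`. -/
theorem type_erase (hT0 : Triv S T0) (D : Dat μ a F r) (hr : r + 1 + T0.card = N) {J : Finset (Fin N)} {b : ℕ → G1}
    (hbF : ∀ n, b n ∈ F) (hcomp : HasComp (toReg (chStr S J [])) (zx μ a E) zx_bound b) {q : Fin N} (hq : q ∉ J) :
    J = Finset.univ.erase q := by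
  obtain ⟨β, hβ, hm⟩ := mass_comp hcomp
  ext i
  rw [Finset.mem_erase]
  refine ⟨fun hi => ⟨fun h => hq (h ▸ hi), Finset.mem_univ i⟩, fun hi => ?_⟩
  by_contra hcon
  obtain ⟨R, hR⟩ := no_twoT (E := E) (S := S) hT0 D hr hβ
  obtain ⟨n, hn⟩ := hm (R + 1)
  have h1 := cl_mono44 (TC_two (S := S) hcon hq hi.1 R) (zx μ a E (b n))
  exact absurd (hR (b n) (hbF n)) (not_lt.2 (hn.trans h1))

/-- **Existence of a component over the stratum of the last nontrivial gap.** -/
theorem exists_start (hT0 : Triv S T0) (D : Dat μ a F r) (hr : r + 1 + T0.card = N) {f : ℕ → G1} (hfF : ∀ n, f n ∈ F)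
    (hf : Tendsto f atTop (cocompact G1)) {q p : Fin N} (hq : q ∉ T0) (hqm : ∀ j, j ∉ T0 → j ≤ q)
    (hp : p ∉ T0) (hpm : ∀ j, j ∉ T0 → p ≤ j) (hpq : (p : ℕ) + q + 2 = N) :
    ∃ k : ℕ → ℕ, (∀ n, n ≤ k n) ∧
      (XPpr (toReg (chStr S (Finset.univ.erase q) [])) (vec μ a E fun n => f (k n)) ≠ 0 ∨
        XPpr (toReg (chStr S (Finset.univ.erase q) [])) (vec μ a E fun n => (f (k n))⁻¹) ≠ 0) := by
  obtain ⟨k, hk, hk1⟩ := startF (E := E) (S := S) D hf
  have hb : Tendsto (fun n => f (k n)) atTop (cocompact G1) := hf.comp (tendsto_atTop_mono hk tendsto_id)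
  obtain ⟨J, -, hJ1, hcomp⟩ := selectK S [] {Finset.univ} (zx μ a E) zx_bound (β := 1 / 2) (by norm_num) (fun n => f (k n))
    (fun m => by
      have h1 : {γ : G | ∃ K ∈ ({Finset.univ} : Finset (Finset (Fin N))), γ ∈ WC S K m} =
          WC S (hd []) m := by
        ext γ
        simp [hd]
      rw [h1]
      exact hk1 m)
  have hJ2 : ¬ Finset.univ ⊆ J := hJ1 _ (Finset.mem_singleton_self _)
  obtain ⟨q', hq'⟩ : ∃ q', q' ∉ J := by
    by_contra hcon
    push Not at hcon
    exact hJ2 fun i _ => hcon i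
  have hTJ : T0 ⊆ J := by
    obtain ⟨γ, hγ⟩ := TC_nonemptyX hcomp 1
    exact triv_sub hT0 le_rfl hγ J (List.mem_singleton.2 rfl)
  have hq0 : q' ∉ T0 := fun h => hq' (hTJ h)
  have hJe := type_erase hT0 D hr (fun n => hfF _) hcomp hq'
  rw [hJe] at hcomp
  have hcases : q' = p ∨ q' = q := by
    by_contra hcon
    push Not at hcon
    refine no_midT hT0 D hr (fun n => hfF (k n)) hb (x0 := p) (y0 := q) hp ?_ hq ?_ hcomp
    · exact lt_of_le_of_ne (hpm q' hq0) fun h => hcon.1 h.symm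
    · exact lt_of_le_of_ne (hqm q' hq0) hcon.2
  have hne : ∀ {b : ℕ → G1}, HasComp (toReg (chStr S (Finset.univ.erase q) [])) (zx μ a E) zx_bound b →
      XPpr (toReg (chStr S (Finset.univ.erase q) [])) (vec μ a E b) ≠ 0 := by
    intro b h h0
    have h1 := (hasComp_iff (μ := μ) (a := a) (E := E) _ b).1 h
    unfold mR at h1
    rw [h0, ZeroMemClass.coe_zero, map_zero, norm_zero] at h1
    norm_num at h1
  rcases hcases with h | h
  · -- the first gap
    subst h
    obtain ⟨β, hβ, hm⟩ := mass_comp' hcomp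
    choose n hn hn1 using fun m => hm (m + 1)
    have hmass : ∀ m : ℕ, β ≤ ‖cl μ (ind ℂ (TC S ([] : List (Finset (Fin N))) m \
        {γ | ∃ K ∈ ({{q}} : Finset (Finset (Fin N))), γ ∈ WC S K m})) (zx μ a E ((f (k (n m)))⁻¹))‖ := by
      intro m
      rw [mass_invX]
      refine (hn1 m).trans (cl_mono44 ?_ _)
      intro γ hγ
      have h1 := TC_gap (S := S) (q := q') (Finset.notMem_erase q' _) m hγ
      have h2 : (m : ℝ) < lg S γ q' := h1
      have h3 : lg S γ⁻¹ q = lg S γ q' := lg_inv S γ (by omega)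
      refine ⟨?_, ?_⟩
      · intro I hI
        exact absurd hI List.not_mem_nil
      · rintro ⟨K, hK, h4⟩
        rw [Finset.mem_singleton.1 hK] at h4
        have h5 := h4 q (Finset.mem_singleton_self q)
        rw [h3] at h5
        exact absurd h2 (not_lt.2 h5)
    obtain ⟨v, hv⟩ : ∃ v : ℕ → G1, ∀ m, v m = (f (k (n m)))⁻¹ := ⟨_, fun m => rfl⟩
    have hmass' : ∀ m : ℕ, β ≤ ‖cl μ (ind ℂ (TC S ([] : List (Finset (Fin N))) m \
        {γ | ∃ K ∈ ({{q}} : Finset (Finset (Fin N))), γ ∈ WC S K m})) (zx μ a E (v m))‖ := fun m => by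
      rw [hv]
      exact hmass m
    obtain ⟨J', -, hJ'1, hcomp'⟩ := selectK S [] {{q}} (zx μ a E) zx_bound hβ v (fun m => by
      exact hmass' m)
    have hq1 : q ∉ J' := fun h1 => hJ'1 _ (Finset.mem_singleton_self _) (Finset.singleton_subset_iff.2 h1)
    have hJe' := type_erase hT0 D hr (fun m => by rw [hv]; exact F.inv_mem (hfF _)) hcomp' hq1
    rw [hJe'] at hcomp'
    have hkn : ∀ m, m ≤ k (n m) := fun m => ((Nat.le_succ m).trans (hn m)).trans (hk (n m))
    have h6 := hne hcomp'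
    have hv' : v = fun m => (f (k (n m)))⁻¹ := funext hv
    rw [hv'] at h6
    exact ⟨fun m => k (n m), hkn, Or.inr h6⟩
  · subst h
    exact ⟨k, hk, Or.inl (hne hcomp)⟩

/-- **Existence of the boundary map** over the stratum of the last nontrivial gap. -/
theorem exists_bmapG (hT0 : Triv S T0) (D : Dat μ a F r) (hr : r + 1 + T0.card = N) {q : Fin N} (hS : SepA S q)
    (hq1 : (q : ℕ) + 1 < N) (hmk : N < 2 * ((q : ℕ) + 1)) {b : ℕ → G1} (hbF : ∀ n, b n ∈ F)
    (hE : ErgU μ a E (Pool.Agent.Helper78.BM.Ctr b))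
    (h0 : XPpr (toReg (chStr S (Finset.univ.erase q) [])) (vec μ a E b) ≠ 0) :
    Nonempty (BMap μ a E (Pool.Agent.Helper84.GN.toReg (chStr S (Finset.univ.erase q) []))
      (posPD S (chStr S (Finset.univ.erase q) []).b) b) := by
  refine ⟨⟨‖XPpr (toReg (chStr S (Finset.univ.erase q) [])) (vec μ a E b)‖ ^ 2, by positivity, exists_mass hE D.h3, ?_⟩⟩
  refine loc_mainG S (flG_q S hS hq1 hmk) F (fun β hβ => ?_) hbF F.one_mem F.one_mem
  obtain ⟨R, hR⟩ := no_twoT (E := E) (S := S) hT0 D hr hβ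
  refine ⟨Real.exp R, fun f hf => (cl_mono44 ?_ _).trans (hR f hf).le⟩
  rintro γ ⟨h1, i, hi, h2⟩
  refine ⟨i, q, hi, ?_, ?_⟩
  · rw [gp_eq_exp] at h2
    exact Real.exp_lt_exp.1 h2
  · rw [gp_eq_exp] at h1
    exact Real.exp_lt_exp.1 h1

end Pool.Agent.Helper78.BI
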