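import Pool.Agent.Helper78.BI.GeoI

/-!
# Project FP/TZ (MP_0f6f3f_an): topological properties of `GG`
-/

set_option autoImplicit false
set_option linter.unusedSectionVars false

open Filter Topology Matrix

namespace Pool.Agent.Helper78.BI

open Pool.Agent.Helper90.RK Pool.Agent.Helper84.NI Pool.Agent.Helper9 Pool.Agent.Helper35.FP

variable {N : ℕ} {q : Fin N}

namespace Sg

variable (s : Sg N q)

theorem isClosed_Qh' : IsClosed (s.Qh : Set s.M) := by
  have h : Continuous fun g : s.M => Ef q * s.mt g * Ee q := (continuous_const.mul s.continuous_mt).mul continuous_const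
  exact isClosed_eq h continuous_const

theorem pr_mem_QG {g : s.M} : s.pr g ∈ s.QG ↔ g ∈ s.Qh := by
  constructor
  · rintro ⟨h, hh, e⟩
    have h1 : h⁻¹ * g ∈ s.Z0 := QuotientGroup.eq.1 e
    have h2 := s.Qh.mul_mem hh (s.Z0_le h1)
    rwa [mul_inv_cancel_left] at h2
  · intro h
    exact ⟨g, h, rfl⟩

theorem isClosed_Q : IsClosed (s.geo.Q : Set s.GG) := by
  have h : IsQuotientMap s.pr := isQuotientMap_quotient_mk'
  rw [← h.isClosed_preimage]
  have h1 : s.pr ⁻¹' (s.geo.Q : Set s.GG) = (s.Qh : Set s.M) := by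
    ext g
    exact s.pr_mem_QG
  rw [h1]
  exact s.isClosed_Qh'

theorem isCompact_KG : IsCompact (s.KG : Set s.SL) := Lin.isCompact_Kc.image continuous_quotient_mk'

theorem isClosed_Z0 : IsClosed (s.Z0 : Set s.M) := by
  have h : (s.Z0 : Set s.M) = {g | ‖s.mt g q q‖ = 1 ∧ s.mt g = (s.mt g q q) • (1 : MN N)} := by
    ext g
    constructor
    · rintro ⟨c, hc, h⟩
      have h1 : s.mt g q q = c := by rw [h, Matrix.smul_apply, Matrix.one_apply_eq, smul_eq_mul, mul_one]
      refine ⟨by rw [h1, hc], ?_⟩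
      rw [h1]
      exact h
    · rintro ⟨h1, h2⟩
      exact ⟨_, h1, h2⟩
  rw [h]
  have hc : Continuous fun g : s.M => s.mt g q q := (continuous_id.matrix_elem q q).comp s.continuous_mt
  exact (isClosed_eq hc.norm continuous_const).inter (isClosed_eq s.continuous_mt (hc.smul continuous_const))

instance isClosed_Z0' : IsClosed (s.Z0 : Set s.M) := s.isClosed_Z0

/-- Elements with bounded entries and determinant bounded below. -/
theorem isCompact_bl (R : ℝ) {δ : ℝ} (hδ : 0 < δ) : IsCompact {g : s.M | (∀ i j, ‖s.mt g i j‖ ≤ R) ∧ δ ≤ ‖(s.mt g).det‖} := by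
  let C : Set (MN N) := {A | (∀ i j, ‖A i j‖ ≤ R) ∧ δ ≤ ‖A.det‖ ∧ s.σ A = A}
  have hC : IsCompact C := by
    have h1 : IsCompact {A : MN N | ∀ i j, A i j ∈ Metric.closedBall (0 : ℂ) R} := by
      have h2 : IsCompact (Set.pi Set.univ fun _ : Fin N => Set.pi Set.univ fun _ : Fin N => Metric.closedBall (0 : ℂ) R) :=
        isCompact_univ_pi fun _ => isCompact_univ_pi fun _ => isCompact_closedBall _ _
      convert! h2 using 1
      ext A
      exact ⟨fun h i _ j _ => h i j, fun h i j => h i (Set.mem_univ i) j (Set.mem_univ j)⟩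
    have h2 : IsClosed {A : MN N | δ ≤ ‖A.det‖ ∧ s.σ A = A} :=
      (isClosed_le continuous_const continuous_id.matrix_det.norm).inter (isClosed_eq s.cont continuous_id)
    have h3 : C = {A : MN N | ∀ i j, A i j ∈ Metric.closedBall (0 : ℂ) R} ∩ {A : MN N | δ ≤ ‖A.det‖ ∧ s.σ A = A} := by
      ext A
      simp only [C, Set.mem_inter_iff, Set.mem_ofPred_eq, mem_closedBall_zero_iff]
    rw [h3]
    exact h1.inter_right h2
  have hdet : ∀ A : C, (A : MN N).det ≠ 0 := fun A h0 => by
    have := A.2.2.1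
    rw [h0, norm_zero] at this
    exact absurd hδ (not_lt.2 this)
  let F : C → s.M := fun A => s.mkm (A : MN N) ((A : MN N).det⁻¹ • (A : MN N).adjugate)
    (by rw [Matrix.mul_smul, Matrix.mul_adjugate, smul_smul, inv_mul_cancel₀ (hdet A), one_smul]) A.2.2.2
  have hF : Continuous F := by
    refine s.continuous_to ?_ ?_
    · exact continuous_subtype_val
    · change Continuous fun A : C => (A : MN N).det⁻¹ • (A : MN N).adjugate
      exact (continuous_subtype_val.matrix_det.inv₀ hdet).smul continuous_subtype_val.matrix_adjugate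
  have hR : {g : s.M | (∀ i j, ‖s.mt g i j‖ ≤ R) ∧ δ ≤ ‖(s.mt g).det‖} = Set.range F := by
    ext g
    constructor
    · intro hg
      exact ⟨⟨s.mt g, hg.1, hg.2, s.σ_mt g⟩, s.mt_inj rfl⟩
    · rintro ⟨A, rfl⟩
      exact ⟨A.2.1, A.2.2.1⟩
  rw [hR]
  have : CompactSpace C := isCompact_iff_compactSpace.1 hC
  exact isCompact_range hF

instance locallyCompact_M : LocallyCompactSpace s.M := by
  refine (s.isCompact_bl 2 (δ := 1 / 2) (by norm_num)).locallyCompactSpace_of_mem_nhds_of_group (x := 1) ?_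
  have h1 : ∀ i j, ∀ᶠ g : s.M in 𝓝 1, ‖s.mt g i j‖ < 2 := by
    intro i j
    have hc : Continuous fun g : s.M => ‖s.mt g i j‖ := ((continuous_id.matrix_elem i j).comp s.continuous_mt).norm
    refine (hc.tendsto 1).eventually (gt_mem_nhds ?_)
    rw [mt_one, Matrix.one_apply]
    split_ifs <;> norm_num
  have h2 : ∀ᶠ g : s.M in 𝓝 1, 1 / 2 < ‖(s.mt g).det‖ := by
    have hc : Continuous fun g : s.M => ‖(s.mt g).det‖ := s.continuous_mt.matrix_det.norm
    refine (hc.tendsto 1).eventually (lt_mem_nhds ?_)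
    rw [mt_one, det_one, norm_one]
    norm_num
  filter_upwards [eventually_all.2 fun i => eventually_all.2 fun j => h1 i j, h2] with g hg hg'
  exact ⟨fun i j => (hg i j).le, hg'.le⟩

instance t2_M : T2Space s.M := inferInstance

instance : IsTopologicalGroup s.GG := inferInstance

instance locallyCompact_GG : LocallyCompactSpace s.GG := inferInstance

instance t2_GG : T2Space s.GG := inferInstance

end Sg

end Pool.Agent.Helper78.BI
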