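import Mathlib
import Pool.Agent.Helper22.GC.Rep

/-!
# Chebyshev bias of the circle problem: constants
-/

open scoped Real

namespace Pool.Agent.Helper78.BI

open Pool.Agent.Helper22.GC (gr)

noncomputable section

/-- The number `ζ(3/2)`. -/
def Z32 : ℝ := ∑' n : ℕ, (n : ℝ) ^ (-(3 / 2) : ℝ)

/-- The number `ζ(3)`. -/
def Z3 : ℝ := ∑' n : ℕ, (n : ℝ) ^ (-3 : ℝ)

/-- The number `L(3/2, χ₄)`. -/
def L32 : ℝ := ∑' n : ℕ, ((ZMod.χ₄ (n : ZMod 4) : ℤ) : ℝ) * (n : ℝ) ^ (-(3 / 2) : ℝ)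

/-- The sum of `r₂(j²) j^(-3/2)`. -/
def M1 : ℝ := ∑' j : ℕ, (gr (j ^ 2) : ℝ) * (j : ℝ) ^ (-(3 / 2) : ℝ)

/-- The sum of `r₂(k)² k^(-3/2)`. -/
def T2 : ℝ := ∑' k : ℕ, (gr k : ℝ) ^ 2 * (k : ℝ) ^ (-(3 / 2) : ℝ)

end

end Pool.Agent.Helper78.BI
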