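import Mathlib
import Pool.Agent.Helper78.GC.Mean

/-!
# Moments of a cosine series with one irrational frequency and one phase
-/

open Set Filter
open scoped Real ComplexConjugate Topology

namespace Pool.Agent.Helper78.BI

open Pool.Agent.Helper22.GC (ee ee_add ee_zero ee_int norm_ee conj_ee)
open Pool.Agent.Helper78.GC

noncomputable section

/-- Nonnegative combinations of characters. -/
def PC : AddSubmonoid (ℕ → ℂ) :=
  AddSubmonoid.closure {u | ∃ (c : ℝ) (θ : ℝ), 0 ≤ c ∧ u = (c : ℂ) • ch θ}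

lemma PC_ch {c θ : ℝ} (hc : 0 ≤ c) : (c : ℂ) • ch θ ∈ PC := AddSubmonoid.subset_closure ⟨c, θ, hc, rfl⟩

lemma PC_mem_TP {u : ℕ → ℂ} (hu : u ∈ PC) : u ∈ TP ⊤ := by
  induction hu using AddSubmonoid.closure_induction with
  | mem x hx =>
    obtain ⟨c, θ, _, rfl⟩ := hx
    exact (TP ⊤).smul_mem (ch_mem (AddSubgroup.mem_top _)) _
  | zero => exact (TP ⊤).zero_mem
  | add x y _ _ hx hy => exact (TP ⊤).add_mem hx hy

lemma PC_mul {u v : ℕ → ℂ} (hu : u ∈ PC) (hv : v ∈ PC) : u * v ∈ PC := by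
  induction hu using AddSubmonoid.closure_induction with
  | mem x hx =>
    obtain ⟨c, θ, hc, rfl⟩ := hx
    induction hv using AddSubmonoid.closure_induction with
    | mem y hy =>
      obtain ⟨d, η, hd, rfl⟩ := hy
      have : ((c : ℂ) • ch θ) * ((d : ℂ) • ch η) = ((c * d : ℝ) : ℂ) • ch (θ + η) := by
        rw [smul_mul_smul_comm, ch_mul]; push_cast; rfl
      rw [this]
      exact PC_ch (mul_nonneg hc hd)
    | zero => rw [mul_zero]; exact PC.zero_mem
    | add y z _ _ hy hz => rw [mul_add]; exact PC.add_mem hy hz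
  | zero => rw [zero_mul]; exact PC.zero_mem
  | add x y _ _ hx hy => rw [add_mul]; exact PC.add_mem hx hy

lemma PC_conj {u : ℕ → ℂ} (hu : u ∈ PC) : (fun n => conj (u n)) ∈ PC := by
  induction hu using AddSubmonoid.closure_induction with
  | mem x hx =>
    obtain ⟨c, θ, hc, rfl⟩ := hx
    have : (fun n => conj (((c : ℂ) • ch θ) n)) = (c : ℂ) • ch (-θ) := by
      funext n
      simp only [Pi.smul_apply, smul_eq_mul, map_mul, Complex.conj_ofReal, conj_ch]
    rw [this]
    exact PC_ch hc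
  | zero =>
    have : (fun n => conj ((0 : ℕ → ℂ) n)) = 0 := by funext n; simp
    rw [this]; exact PC.zero_mem
  | add x y _ _ hx hy =>
    have : (fun n => conj ((x + y) n)) = (fun n => conj (x n)) + (fun n => conj (y n)) := by
      funext n; simp
    rw [this]; exact PC.add_mem hx hy

lemma PC_Lc {u : ℕ → ℂ} (hu : u ∈ PC) : ∃ r : ℝ, 0 ≤ r ∧ Lc u = r := by
  classical
  induction hu using AddSubmonoid.closure_induction with
  | mem x hx =>
    obtain ⟨c, θ, hc, rfl⟩ := hx
    rw [Lc_smul _ (ch_mem (AddSubgroup.mem_top θ)), Lc_ch]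
    split_ifs
    · exact ⟨c, hc, by simp⟩
    · exact ⟨0, le_rfl, by simp⟩
  | zero => exact ⟨0, le_rfl, by rw [Lc_zero]; simp⟩
  | add x y hx hy ihx ihy =>
    obtain ⟨a, ha, ha'⟩ := ihx
    obtain ⟨b, hb, hb'⟩ := ihy
    refine ⟨a + b, add_nonneg ha hb, ?_⟩
    rw [Lc_add (PC_mem_TP hx) (PC_mem_TP hy), ha', hb']
    push_cast; rfl

/-- Combinations of the characters with positive multiples of the frequency `θ`. -/
def SP (θ : ℝ) : Submodule ℂ (ℕ → ℂ) :=
  Submodule.span ℂ {u | ∃ m : ℕ, 1 ≤ m ∧ u = ch (m * θ)}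

lemma SP_ch {θ : ℝ} {m : ℕ} (hm : 1 ≤ m) : ch (m * θ) ∈ SP θ := Submodule.subset_span ⟨m, hm, rfl⟩

lemma SP_mem_TP {θ : ℝ} {u : ℕ → ℂ} (hu : u ∈ SP θ) : u ∈ TP ⊤ := by
  induction hu using Submodule.span_induction with
  | mem x hx => obtain ⟨m, _, rfl⟩ := hx; exact ch_mem (AddSubgroup.mem_top _)
  | zero => exact (TP ⊤).zero_mem
  | add x y _ _ hx hy => exact (TP ⊤).add_mem hx hy
  | smul c x _ hx => exact (TP ⊤).smul_mem hx c

lemma SP_mul {θ : ℝ} {u v : ℕ → ℂ} (hu : u ∈ SP θ) (hv : v ∈ SP θ) : u * v ∈ SP θ := by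
  induction hu using Submodule.span_induction with
  | mem x hx =>
    obtain ⟨m, hm, rfl⟩ := hx
    induction hv using Submodule.span_induction with
    | mem y hy =>
      obtain ⟨k, hk, rfl⟩ := hy
      rw [ch_mul]
      have : (m : ℝ) * θ + k * θ = ((m + k : ℕ) : ℝ) * θ := by push_cast; ring
      rw [this]
      exact SP_ch (by omega)
    | zero => rw [mul_zero]; exact (SP θ).zero_mem
    | add y z _ _ hy hz => rw [mul_add]; exact (SP θ).add_mem hy hz
    | smul c y _ hy => rw [mul_smul_comm]; exact (SP θ).smul_mem c hy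
  | zero => rw [zero_mul]; exact (SP θ).zero_mem
  | add x y _ _ hx hy => rw [add_mul]; exact (SP θ).add_mem hx hy
  | smul c x _ hx => rw [smul_mul_assoc]; exact (SP θ).smul_mem c hx

lemma SP_Lc {θ : ℝ} (hθ : ∀ m : ℕ, 1 ≤ m → ¬ ∃ k : ℤ, (m : ℝ) * θ = k) {u : ℕ → ℂ}
    (hu : u ∈ SP θ) : Lc u = 0 := by
  classical
  induction hu using Submodule.span_induction with
  | mem x hx => obtain ⟨m, hm, rfl⟩ := hx; rw [Lc_ch, if_neg (hθ m hm)]
  | zero => exact Lc_zero
  | add x y hx hy ihx ihy => rw [Lc_add (SP_mem_TP hx) (SP_mem_TP hy), ihx, ihy, add_zero]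
  | smul c x hx ih => rw [Lc_smul c (SP_mem_TP hx), ih, mul_zero]

/-- The real part of a complex trigonometric polynomial. -/
lemma re_mem {u : ℕ → ℂ} (hu : u ∈ TP ⊤) : (fun n => (u n).re) ∈ RT ⊤ ∧ Lr (fun n => (u n).re) = (Lc u).re := by
  have h : (fun n => conj (u n)) ∈ TP ⊤ := by
    refine TP_induction (p := fun u => (fun n => conj (u n)) ∈ TP ⊤) ?_ ?_ ?_ ?_ hu
    · intro θ _
      have : (fun n => conj (ch θ n)) = ch (-θ) := by funext n; exact conj_ch θ n
      rw [this]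
      exact ch_mem (AddSubgroup.mem_top _)
    · have : (fun n => conj ((0 : ℕ → ℂ) n)) = 0 := by funext n; simp
      rw [this]; exact (TP ⊤).zero_mem
    · intro u v hu hv
      have : (fun n => conj ((u + v) n)) = (fun n => conj (u n)) + (fun n => conj (v n)) := by
        funext n; simp
      rw [this]; exact (TP ⊤).add_mem hu hv
    · intro c u hu
      have : (fun n => conj ((c • u) n)) = (conj c) • (fun n => conj (u n)) := by
        funext n; simp
      rw [this]; exact (TP ⊤).smul_mem hu _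
  have h1 : (fun n => (((u n).re : ℝ) : ℂ)) ∈ TP ⊤ := by
    have : (fun n => (((u n).re : ℝ) : ℂ)) = (1 / 2 : ℂ) • (u + fun n => conj (u n)) := by
      funext n
      simp only [Pi.smul_apply, Pi.add_apply, smul_eq_mul, Complex.add_conj]
      push_cast; ring
    rw [this]
    exact (TP ⊤).smul_mem ((TP ⊤).add_mem hu h) _
  refine ⟨h1, ?_⟩
  refine Lr_eq (Θ := ⊤) h1 ?_
  have h2 := (Complex.continuous_re.tendsto _).comp (tendsto_Lc hu)
  refine h2.congr fun p => ?_
  rw [Function.comp_apply, mn, mr]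
  have : ((1 : ℂ) / (p.2 : ℂ)) = (((1 : ℝ) / (p.2 : ℝ) : ℝ) : ℂ) := by push_cast; rfl
  rw [this, Complex.re_ofReal_mul, Complex.re_sum]

end

end Pool.Agent.Helper78.BI
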