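import Mathlib
import Pool.Agent.Helper78.BI.Mom

/-!
# Moments of a cosine series with one irrational frequency and one phase, continued
-/

open Set Filter
open scoped Real ComplexConjugate Topology

namespace Pool.Agent.Helper78.BI

open Pool.Agent.Helper22.GC (ee ee_add ee_zero ee_int norm_ee conj_ee)
open Pool.Agent.Helper78.GC

noncomputable section

/-- The phase `exp(-3πi/4)`. -/
def om : ℂ := ⟨-(√2 / 2), -(√2 / 2)⟩

lemma cos_34 : Real.cos (3 * π / 4) = -(√2 / 2) := by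
  have : 3 * π / 4 = π - π / 4 := by ring
  rw [this, Real.cos_pi_sub, Real.cos_pi_div_four]

lemma sin_34 : Real.sin (3 * π / 4) = √2 / 2 := by
  have : 3 * π / 4 = π - π / 4 := by ring
  rw [this, Real.sin_pi_sub, Real.sin_pi_div_four]

lemma sq2 : √2 * √2 = 2 := Real.mul_self_sqrt (by norm_num)

lemma om_normSq : om * conj om = 1 := by
  apply Complex.ext
  · simp only [om, Complex.mul_re, Complex.conj_re, Complex.conj_im, Complex.one_re]
    nlinarith [sq2]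
  · simp only [om, Complex.mul_im, Complex.conj_re, Complex.conj_im, Complex.one_im]
    ring

lemma om_sq : om ^ 2 = Complex.I := by
  rw [sq]
  apply Complex.ext
  · simp only [om, Complex.mul_re, Complex.I_re]; ring
  · simp only [om, Complex.mul_im, Complex.I_im]; nlinarith [sq2]

lemma norm_om : ‖om‖ = 1 := by
  have h := om_normSq
  rw [Complex.mul_conj] at h
  have h2 : Complex.normSq om = 1 := by exact_mod_cast h
  rw [Complex.norm_def, h2, Real.sqrt_one]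

/-- The cosine polynomial. -/
def Wc (θ : ℝ) (J : Finset ℕ) (c : ℕ → ℝ) (n : ℕ) : ℝ :=
  ∑ j ∈ J, c j * Real.cos (2 * π * (n * (j * θ)) - 3 * π / 4)

/-- The complex polynomial. -/
def Gc (θ : ℝ) (J : Finset ℕ) (c : ℕ → ℝ) : ℕ → ℂ := ∑ j ∈ J, (c j : ℂ) • ch (j * θ)

lemma ee_re_im (x : ℝ) : ee x = ⟨Real.cos (2 * π * x), Real.sin (2 * π * x)⟩ := by
  rw [ee]
  have : (2 * (π : ℂ) * Complex.I * (x : ℂ)) = ((2 * π * x : ℝ) : ℂ) * Complex.I := by push_cast; ring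
  rw [this]
  apply Complex.ext
  · rw [Complex.exp_ofReal_mul_I_re]
  · rw [Complex.exp_ofReal_mul_I_im]

lemma Wc_eq (θ : ℝ) (J : Finset ℕ) (c : ℕ → ℝ) (n : ℕ) : Wc θ J c n = (om * Gc θ J c n).re := by
  rw [Wc, Gc, Finset.sum_apply, Finset.mul_sum, Complex.re_sum]
  refine Finset.sum_congr rfl fun j _ => ?_
  rw [Pi.smul_apply, smul_eq_mul, mul_left_comm om, Complex.re_ofReal_mul, ch, ee_re_im, Complex.mul_re,
    Real.cos_sub, cos_34, sin_34]
  simp only [om]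
  ring

variable {θ : ℝ} {J : Finset ℕ} {c : ℕ → ℝ}

lemma Gc_PC (hc : ∀ j ∈ J, 0 ≤ c j) : Gc θ J c ∈ PC := PC.sum_mem fun j hj => PC_ch (hc j hj)

lemma Gc_SP (hJ : ∀ j ∈ J, 1 ≤ j) : Gc θ J c ∈ SP θ :=
  (SP θ).sum_mem fun j hj => (SP θ).smul_mem _ (SP_ch (hJ j hj))

lemma irr_mul (hθ : Irrational θ) : ∀ m : ℕ, 1 ≤ m → ¬ ∃ k : ℤ, (m : ℝ) * θ = k := by
  rintro m hm ⟨k, hk⟩
  have h : Irrational ((m : ℝ) * θ) := by
    have := hθ.natCast_mul (m := m) (by omega)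
    simpa using this
  exact h ⟨k, by rw [hk]; push_cast; rfl⟩

lemma Lc_Gc_conj (hθ : Irrational θ) (J : Finset ℕ) (c : ℕ → ℝ) (k : ℤ) :
    Lc (fun n => (∑ j ∈ J, (c j : ℂ) • ch (((j : ℤ) - k : ℤ) * θ)) n *
      conj ((∑ j ∈ J, (c j : ℂ) • ch (((j : ℤ) - k : ℤ) * θ)) n)) = ((∑ j ∈ J, c j ^ 2 : ℝ) : ℂ) := by
  classical
  have e : (fun n => (∑ j ∈ J, (c j : ℂ) • ch (((j : ℤ) - k : ℤ) * θ)) n *
      conj ((∑ j ∈ J, (c j : ℂ) • ch (((j : ℤ) - k : ℤ) * θ)) n))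
      = ∑ i ∈ J, ∑ j ∈ J, ((c i * c j : ℝ) : ℂ) • ch (((i : ℤ) - j : ℤ) * θ) := by
    funext n
    simp only [Finset.sum_apply, Pi.smul_apply, smul_eq_mul, map_sum, map_mul, Complex.conj_ofReal,
      conj_ch]
    rw [Finset.sum_mul_sum]
    refine Finset.sum_congr rfl fun i _ => Finset.sum_congr rfl fun j _ => ?_
    have h := congrFun (ch_mul ((((i : ℤ) - k : ℤ) : ℝ) * θ) (-((((j : ℤ) - k : ℤ) : ℝ) * θ))) n
    rw [Pi.mul_apply] at h
    have h2 : (((i : ℤ) - k : ℤ) : ℝ) * θ + -((((j : ℤ) - k : ℤ) : ℝ) * θ) = (((i : ℤ) - j : ℤ) : ℝ) * θ := by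
      push_cast; ring
    rw [h2] at h
    rw [← h]
    push_cast
    ring
  have hT : ∀ a b : ℕ, ((c a * c b : ℝ) : ℂ) • ch (((a : ℤ) - b : ℤ) * θ) ∈ TP ⊤ := fun a b =>
    (TP ⊤).smul_mem (ch_mem (AddSubgroup.mem_top _)) _
  have hsum : ∀ (S : Finset ℕ) (f : ℕ → ℕ → ℂ), (∀ i ∈ S, f i ∈ TP ⊤) →
      Lc (∑ i ∈ S, f i) = ∑ i ∈ S, Lc (f i) := by
    intro S f hf
    induction S using Finset.induction_on with
    | empty => simp [Lc_zero]
    | insert a S ha ih =>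
      rw [Finset.sum_insert ha, Finset.sum_insert ha, Lc_add (hf a (Finset.mem_insert_self _ _))
        ((TP ⊤).sum_mem fun i hi => hf i (Finset.mem_insert_of_mem hi)),
        ih fun i hi => hf i (Finset.mem_insert_of_mem hi)]
  rw [e, hsum _ _ fun i _ => (TP ⊤).sum_mem fun j _ => hT i j, Complex.ofReal_sum]
  refine Finset.sum_congr rfl fun i hi => ?_
  rw [hsum _ _ fun j _ => hT i j, Finset.sum_eq_single i]
  · rw [Lc_smul _ (ch_mem (AddSubgroup.mem_top _)), Lc_ch, if_pos ⟨0, by simp⟩]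
    push_cast; ring
  · intro j _ hj
    rw [Lc_smul _ (ch_mem (AddSubgroup.mem_top _)), Lc_ch, if_neg, mul_zero]
    rintro ⟨m, hm⟩
    have hne : ((i : ℤ) - j : ℤ) ≠ 0 := by
      intro h0
      apply hj
      omega
    have h : Irrational ((((i : ℤ) - j : ℤ) : ℝ) * θ) := hθ.intCast_mul hne
    exact h ⟨m, by rw [hm]; push_cast; rfl⟩
  · intro h; exact absurd hi h

lemma Gc_int (θ : ℝ) (J : Finset ℕ) (c : ℕ → ℝ) :
    Gc θ J c = ∑ j ∈ J, (c j : ℂ) • ch (((j : ℤ) - (0 : ℤ) : ℤ) * θ) := by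
  rw [Gc]
  refine Finset.sum_congr rfl fun j _ => ?_
  push_cast
  rw [sub_zero]

lemma Wc_mem (θ : ℝ) (J : Finset ℕ) (c : ℕ → ℝ) : Wc θ J c ∈ RT ⊤ := by
  have h1 : (fun n => (om * Gc θ J c n)) ∈ TP ⊤ := by
    have : (fun n => (om * Gc θ J c n)) = om • Gc θ J c := rfl
    rw [this]
    exact (TP ⊤).smul_mem ((TP ⊤).sum_mem fun j _ => (TP ⊤).smul_mem (ch_mem (AddSubgroup.mem_top _)) _) _
  have h2 := (re_mem h1).1
  have : Wc θ J c = fun n => (om * Gc θ J c n).re := by funext n; exact Wc_eq θ J c n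
  rw [this]; exact h2

/-- First moment. -/
lemma Lr_Wc (hθ : Irrational θ) (hJ : ∀ j ∈ J, 1 ≤ j) : Lr (Wc θ J c) = 0 := by
  have hG := Gc_SP (θ := θ) (c := c) hJ
  have h1 : (om • Gc θ J c) ∈ TP ⊤ := (TP ⊤).smul_mem (SP_mem_TP hG) _
  have : Wc θ J c = fun n => ((om • Gc θ J c) n).re := by funext n; exact Wc_eq θ J c n
  rw [this, (re_mem h1).2, Lc_smul _ (SP_mem_TP hG), SP_Lc (irr_mul hθ) hG]
  simp

lemma normSq_eq (z : ℂ) : ((‖z‖ ^ 2 : ℝ) : ℂ) = z * conj z := by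
  rw [Complex.mul_conj, Complex.normSq_eq_norm_sq]

/-- Second moment. -/
lemma Lr_Wc_sq (hθ : Irrational θ) (hJ : ∀ j ∈ J, 1 ≤ j) (hc : ∀ j ∈ J, 0 ≤ c j) :
    Lr (fun n => Wc θ J c n ^ 2) = (∑ j ∈ J, c j ^ 2) / 2 := by
  set G := Gc θ J c with hGdef
  have hG := Gc_SP (θ := θ) (c := c) hJ
  have hP := Gc_PC (θ := θ) hc
  have e : (fun n => Wc θ J c n ^ 2) = fun n =>
      ((1 / 2 : ℂ) • (G * fun n => conj (G n)) + (Complex.I / 2) • (G * G) : ℕ → ℂ) n |>.re := by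
    funext n
    rw [Wc_eq]
    simp only [Pi.add_apply, Pi.smul_apply, Pi.mul_apply, smul_eq_mul]
    have h1 : (((om * G n).re ^ 2 : ℝ) : ℂ) = (1 / 2 : ℂ) * (G n * conj (G n))
        + (Complex.I / 2 * (G n * G n) + conj (Complex.I / 2 * (G n * G n))) / 2 := by
      have h2 : (((om * G n).re : ℝ) : ℂ) = (om * G n + conj (om * G n)) / 2 := by
        rw [Complex.add_conj]; push_cast; ring
      have h3 : om ^ 2 * G n ^ 2 = Complex.I * G n ^ 2 := by rw [om_sq]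
      have h4 : conj om ^ 2 * conj (G n) ^ 2 = -Complex.I * conj (G n) ^ 2 := by
        rw [← map_pow, om_sq, Complex.conj_I]
      push_cast
      rw [h2]
      simp only [map_mul, map_div₀, Complex.conj_I, Complex.conj_ofNat]
      linear_combination (1 / 4 : ℂ) * h3 + (1 / 4 : ℂ) * h4 + (1 / 2 : ℂ) * (G n * conj (G n)) * om_normSq
    have h5 := congrArg Complex.re h1
    rw [Complex.ofReal_re] at h5
    rw [h5]
    simp only [Complex.add_re, Complex.div_ofNat_re, Complex.conj_re]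
    ring
  have t1 : (G * fun n => conj (G n)) ∈ TP ⊤ := PC_mem_TP (PC_mul hP (PC_conj hP))
  have t2 : (G * G) ∈ TP ⊤ := SP_mem_TP (SP_mul hG hG)
  have t3 : (1 / 2 : ℂ) • (G * fun n => conj (G n)) + (Complex.I / 2) • (G * G) ∈ TP ⊤ :=
    (TP ⊤).add_mem ((TP ⊤).smul_mem t1 _) ((TP ⊤).smul_mem t2 _)
  have t4 : Lc (G * fun n => conj (G n)) = ((∑ j ∈ J, c j ^ 2 : ℝ) : ℂ) := by
    have := Lc_Gc_conj hθ J c 0
    rw [← Gc_int, ← hGdef] at this
    exact this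
  rw [e, (re_mem t3).2, Lc_add ((TP ⊤).smul_mem t1 _) ((TP ⊤).smul_mem t2 _), Lc_smul _ t1,
    Lc_smul _ t2, t4, SP_Lc (irr_mul hθ) (SP_mul hG hG), mul_zero, add_zero]
  have : (1 / 2 : ℂ) * ((∑ j ∈ J, c j ^ 2 : ℝ) : ℂ) = (((∑ j ∈ J, c j ^ 2) / 2 : ℝ) : ℂ) := by
    push_cast; ring
  rw [this, Complex.ofReal_re]

/-- Third moment. -/
lemma Lr_Wc_cube (hθ : Irrational θ) (hJ : ∀ j ∈ J, 1 ≤ j) (hc : ∀ j ∈ J, 0 ≤ c j) :
    Lr (fun n => Wc θ J c n ^ 3) ≤ 0 := by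
  set G := Gc θ J c with hGdef
  have hG := Gc_SP (θ := θ) (c := c) hJ
  have hP := Gc_PC (θ := θ) hc
  have e : (fun n => Wc θ J c n ^ 3) = fun n =>
      ((3 / 4 * om : ℂ) • ((G * G) * fun n => conj (G n)) + (om ^ 3 / 4) • ((G * G) * G) : ℕ → ℂ) n |>.re := by
    funext n
    rw [Wc_eq]
    simp only [Pi.add_apply, Pi.smul_apply, Pi.mul_apply, smul_eq_mul]
    set z := om * G n with hz
    have h1 : ((z.re ^ 3 : ℝ) : ℂ) = (3 / 4 * om * (G n * G n * conj (G n))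
        + om ^ 3 / 4 * (G n * G n * G n) + conj (3 / 4 * om * (G n * G n * conj (G n))
        + om ^ 3 / 4 * (G n * G n * G n))) / 2 := by
      have h2 : ((z.re : ℝ) : ℂ) = (z + conj z) / 2 := by
        rw [Complex.add_conj]; push_cast; ring
      push_cast
      rw [h2, hz]
      simp only [map_add, map_mul, map_div₀, map_pow, Complex.conj_conj, Complex.conj_ofNat]
      linear_combination (3 / 8 : ℂ) * (om * G n * G n * conj (G n) + conj om * conj (G n) * conj (G n) * G n) * om_normSq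
    have h5 := congrArg Complex.re h1
    rw [Complex.ofReal_re, Complex.add_conj] at h5
    rw [h5]
    simp only [Complex.div_ofNat_re, Complex.ofReal_re, Complex.re_ofNat, Complex.im_ofNat,
      Complex.ofReal_im]
    ring
  have t1 : ((G * G) * fun n => conj (G n)) ∈ PC := PC_mul (PC_mul hP hP) (PC_conj hP)
  have t2 : ((G * G) * G) ∈ SP θ := SP_mul (SP_mul hG hG) hG
  obtain ⟨r, hr, hr'⟩ := PC_Lc t1
  have t3 := (TP ⊤).add_mem ((TP ⊤).smul_mem (PC_mem_TP t1) (3 / 4 * om : ℂ)) ((TP ⊤).smul_mem (SP_mem_TP t2) (om ^ 3 / 4 : ℂ))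
  rw [e, (re_mem t3).2, Lc_add ((TP ⊤).smul_mem (PC_mem_TP t1) _) ((TP ⊤).smul_mem (SP_mem_TP t2) _),
    Lc_smul _ (PC_mem_TP t1), Lc_smul _ (SP_mem_TP t2), hr', SP_Lc (irr_mul hθ) t2, mul_zero, add_zero]
  have : (3 / 4 * om * (r : ℂ)).re = 3 / 4 * r * om.re := by
    have : (3 / 4 * om * (r : ℂ)) = ((3 / 4 * r : ℝ) : ℂ) * om := by push_cast; ring
    rw [this, Complex.re_ofReal_mul]
  rw [this]
  have h2 : om.re ≤ 0 := by
    simp only [om]
    have := Real.sqrt_nonneg 2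
    linarith
  nlinarith [mul_nonneg hr (neg_nonneg.mpr h2)]

end

end Pool.Agent.Helper78.BI
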