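import Mathlib
import Pool.Agent.Helper78.BI.Mom2

/-!
# The fourth moment of a cosine series with one irrational frequency and one phase
-/

open Set Filter
open scoped Real ComplexConjugate Topology

namespace Pool.Agent.Helper78.BI

open Pool.Agent.Helper22.GC (ee ee_add ee_zero ee_int norm_ee conj_ee)
open Pool.Agent.Helper78.GC

noncomputable section

lemma norm_add_pow_four {a ρ : ℝ} (ha : 0 ≤ a) {w : ℂ} (hw : ‖w‖ ≤ ρ) :
    ‖(a : ℂ) + w‖ ^ 4 ≤ a ^ 4 + (2 * a + ρ) ^ 2 * ‖w‖ ^ 2 + 2 * a ^ 2 * (w ^ 2).re + 4 * a ^ 3 * w.re := by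
  have hρ : 0 ≤ ρ := (norm_nonneg w).trans hw
  have h1 : ‖(a : ℂ) + w‖ ^ 2 = a ^ 2 + 2 * a * w.re + ‖w‖ ^ 2 := by
    rw [← Complex.normSq_eq_norm_sq, ← Complex.normSq_eq_norm_sq, Complex.normSq_apply, Complex.normSq_apply]
    simp only [Complex.add_re, Complex.ofReal_re, Complex.add_im, Complex.ofReal_im]
    ring
  have h2 : ‖(a : ℂ) + w‖ ^ 4 = (a ^ 2 + 2 * a * w.re + ‖w‖ ^ 2) ^ 2 := by
    rw [← h1]; ring
  have h3 : w.re ^ 2 = (‖w‖ ^ 2 + (w ^ 2).re) / 2 := by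
    rw [← Complex.normSq_eq_norm_sq, Complex.normSq_apply, sq w, Complex.mul_re]
    ring
  have h4 : w.re ≤ ‖w‖ := Complex.re_le_norm w
  have h5 : 0 ≤ ‖w‖ := norm_nonneg w
  have h6 : ‖w‖ ^ 2 * w.re ≤ ρ * ‖w‖ ^ 2 := by nlinarith [mul_nonneg h5 h5]
  have h7 : ‖w‖ ^ 4 ≤ ρ ^ 2 * ‖w‖ ^ 2 := by
    have : ‖w‖ ^ 2 ≤ ρ ^ 2 := pow_le_pow_left₀ h5 hw 2
    nlinarith [sq_nonneg ‖w‖]
  rw [h2]
  have e : (a ^ 2 + 2 * a * w.re + ‖w‖ ^ 2) ^ 2 = a ^ 4 + 4 * a ^ 2 * w.re ^ 2 + ‖w‖ ^ 4 + 4 * a ^ 3 * w.re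
      + 2 * a ^ 2 * ‖w‖ ^ 2 + 4 * a * (‖w‖ ^ 2 * w.re) := by ring
  rw [e, h3]
  have h8 := mul_le_mul_of_nonneg_left h6 ha
  nlinarith [h7, h8]

variable {θ : ℝ} {J : Finset ℕ} {c : ℕ → ℝ}

/-- Fourth moment in terms of the modulus. -/
lemma Lr_Wc_four_eq (hθ : Irrational θ) (hJ : ∀ j ∈ J, 1 ≤ j) (hc : ∀ j ∈ J, 0 ≤ c j) :
    Lr (fun n => Wc θ J c n ^ 4) = 3 / 8 * Lr (fun n => ‖Gc θ J c n‖ ^ 4) := by
  set G := Gc θ J c with hGdef
  have hG := Gc_SP (θ := θ) (c := c) hJ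
  have hP := Gc_PC (θ := θ) hc
  set Gb : ℕ → ℂ := fun n => conj (G n) with hGb
  have e : (fun n => Wc θ J c n ^ 4) = fun n =>
      ((3 / 8 : ℂ) • ((G * G) * (Gb * Gb)) + ((Complex.I / 2) • ((G * G) * G * Gb)
        + (-1 / 8 : ℂ) • ((G * G) * (G * G))) : ℕ → ℂ) n |>.re := by
    funext n
    rw [Wc_eq]
    simp only [Pi.add_apply, Pi.smul_apply, Pi.mul_apply, smul_eq_mul, hGb]
    set z := om * G n with hz
    have h1 : ((z.re ^ 4 : ℝ) : ℂ) = (3 / 8 * (G n * G n * (conj (G n) * conj (G n)))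
        + (Complex.I / 2 * (G n * G n * G n * conj (G n)) + -1 / 8 * (G n * G n * (G n * G n)))
        + conj (3 / 8 * (G n * G n * (conj (G n) * conj (G n)))
        + (Complex.I / 2 * (G n * G n * G n * conj (G n)) + -1 / 8 * (G n * G n * (G n * G n))))) / 2 := by
      have h2 : ((z.re : ℝ) : ℂ) = (z + conj z) / 2 := by
        rw [Complex.add_conj]; push_cast; ring
      have h3 : om ^ 2 = Complex.I := om_sq
      have h4 : conj om ^ 2 = -Complex.I := by rw [← map_pow, om_sq, Complex.conj_I]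
      have h5 : om * conj om = 1 := om_normSq
      have hI : Complex.I ^ 2 = -1 := Complex.I_sq
      push_cast
      rw [h2, hz]
      simp only [map_add, map_mul, map_div₀, map_neg, map_one, Complex.conj_conj, Complex.conj_ofNat,
        Complex.conj_I]
      have k1 : (om * G n + conj om * conj (G n)) ^ 2 = Complex.I * G n ^ 2 + 2 * (G n * conj (G n))
          - Complex.I * conj (G n) ^ 2 := by
        linear_combination G n ^ 2 * h3 + conj (G n) ^ 2 * h4 + 2 * (G n * conj (G n)) * h5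
      have k2 : ((om * G n + conj om * conj (G n)) / 2) ^ 4
          = (Complex.I * G n ^ 2 + 2 * (G n * conj (G n)) - Complex.I * conj (G n) ^ 2) ^ 2 / 16 := by
        rw [← k1]; ring
      rw [k2]
      linear_combination ((G n ^ 4 + conj (G n) ^ 4 - 2 * G n ^ 2 * conj (G n) ^ 2) / 16) * hI
    have h5 := congrArg Complex.re h1
    rw [Complex.ofReal_re, Complex.add_conj] at h5
    rw [h5]
    simp only [Complex.div_ofNat_re, Complex.ofReal_re]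
    ring
  have t1 : ((G * G) * (Gb * Gb)) ∈ TP ⊤ := PC_mem_TP (PC_mul (PC_mul hP hP) (PC_mul (PC_conj hP) (PC_conj hP)))
  have t2 : ((G * G) * G * Gb) ∈ PC := PC_mul (PC_mul (PC_mul hP hP) hP) (PC_conj hP)
  have t3 : ((G * G) * (G * G)) ∈ SP θ := SP_mul (SP_mul hG hG) (SP_mul hG hG)
  obtain ⟨r, hr, hr'⟩ := PC_Lc t2
  have s1 := (TP ⊤).smul_mem t1 (3 / 8 : ℂ)
  have s2 := (TP ⊤).smul_mem (PC_mem_TP t2) (Complex.I / 2 : ℂ)
  have s3 := (TP ⊤).smul_mem (SP_mem_TP t3) (-1 / 8 : ℂ)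
  have hL : Lc ((G * G) * (Gb * Gb)) = ((Lr (fun n => ‖G n‖ ^ 4) : ℝ) : ℂ) := by
    have e2 : (fun n => ((‖G n‖ ^ 4 : ℝ) : ℂ)) = (G * G) * (Gb * Gb) := by
      funext n
      have := normSq_eq (G n)
      simp only [Pi.mul_apply, hGb]
      have h4 : ((‖G n‖ ^ 4 : ℝ) : ℂ) = ((‖G n‖ ^ 2 : ℝ) : ℂ) ^ 2 := by push_cast; ring
      rw [h4, this]; ring
    have h5 : (fun n => ‖G n‖ ^ 4) ∈ RT ⊤ := by
      rw [mem_RT, e2]; exact t1
    rw [← Lc_ofReal h5, e2]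
  rw [e, (re_mem ((TP ⊤).add_mem s1 ((TP ⊤).add_mem s2 s3))).2, Lc_add s1 ((TP ⊤).add_mem s2 s3), Lc_add s2 s3,
    Lc_smul _ t1, Lc_smul _ (PC_mem_TP t2), Lc_smul _ (SP_mem_TP t3), hr', SP_Lc (irr_mul hθ) t3, hL]
  simp only [mul_zero, add_zero, Complex.add_re, Complex.mul_re, Complex.ofReal_re, Complex.ofReal_im,
    Complex.div_ofNat_re, Complex.div_ofNat_im, Complex.I_re, Complex.I_im, Complex.re_ofNat, Complex.im_ofNat]
  ring

/-- Fourth moment bound. -/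
lemma Lr_Wc_four (hθ : Irrational θ) (hJ : ∀ j ∈ J, 1 ≤ j) (h1J : 1 ∈ J) (hc : ∀ j ∈ J, 0 ≤ c j) :
    Lr (fun n => Wc θ J c n ^ 4) ≤ 3 / 8 * (c 1 ^ 4 + (2 * c 1 + ∑ j ∈ J.erase 1, c j) ^ 2
      * ∑ j ∈ J.erase 1, c j ^ 2) := by
  classical
  rw [Lr_Wc_four_eq hθ hJ hc]
  refine mul_le_mul_of_nonneg_left ?_ (by norm_num)
  set w : ℕ → ℂ := ∑ j ∈ J.erase 1, (c j : ℂ) • ch (((j : ℤ) - (1 : ℤ) : ℤ) * θ) with hw
  have hJ2 : ∀ j ∈ J.erase 1, 2 ≤ j := by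
    intro j hj
    rw [Finset.mem_erase] at hj
    have := hJ j hj.2
    omega
  have hwS : w ∈ SP θ := by
    refine (SP θ).sum_mem fun j hj => (SP θ).smul_mem _ ?_
    have h2 := hJ2 j hj
    have : ((((j : ℤ) - (1 : ℤ) : ℤ) : ℝ)) = ((j - 1 : ℕ) : ℝ) := by
      push_cast [Nat.cast_sub (by omega : 1 ≤ j)]
      rfl
    rw [this]
    exact SP_ch (by omega)
  have hcw : ∀ j ∈ J.erase 1, 0 ≤ c j := fun j hj => hc j (Finset.mem_of_mem_erase hj)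
  have hGw : ∀ n, Gc θ J c n = ch θ n * ((c 1 : ℂ) + w n) := by
    intro n
    rw [Gc, ← Finset.add_sum_erase J _ h1J, Pi.add_apply, mul_add, hw, Finset.sum_apply, Finset.sum_apply,
      Finset.mul_sum]
    congr 1
    · rw [Pi.smul_apply, smul_eq_mul, Nat.cast_one, one_mul, mul_comm]
    · refine Finset.sum_congr rfl fun j _ => ?_
      rw [Pi.smul_apply, Pi.smul_apply, smul_eq_mul, smul_eq_mul, mul_left_comm]
      have h := congrFun (ch_mul θ ((((j : ℤ) - (1 : ℤ) : ℤ) : ℝ) * θ)) n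
      rw [Pi.mul_apply] at h
      rw [h]
      congr 2
      push_cast; ring
  have hnorm : ∀ n, ‖Gc θ J c n‖ = ‖(c 1 : ℂ) + w n‖ := by
    intro n
    rw [hGw, norm_mul, ch, norm_ee, one_mul]
  have hwb : ∀ n, ‖w n‖ ≤ ∑ j ∈ J.erase 1, c j := by
    intro n
    rw [hw, Finset.sum_apply]
    refine (norm_sum_le _ _).trans (Finset.sum_le_sum fun j hj => ?_)
    rw [Pi.smul_apply, norm_smul, Complex.norm_real, Real.norm_of_nonneg (hcw j hj), ch, norm_ee, mul_one]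
  have hw2 : w * w ∈ SP θ := SP_mul hwS hwS
  have m1 : (fun n => ‖Gc θ J c n‖ ^ 4) ∈ RT ⊤ := by
    have e2 : (fun n => ((‖Gc θ J c n‖ ^ 4 : ℝ) : ℂ)) = (Gc θ J c * Gc θ J c) *
        ((fun n => conj (Gc θ J c n)) * fun n => conj (Gc θ J c n)) := by
      funext n
      have := normSq_eq (Gc θ J c n)
      simp only [Pi.mul_apply]
      have h4 : ((‖Gc θ J c n‖ ^ 4 : ℝ) : ℂ) = ((‖Gc θ J c n‖ ^ 2 : ℝ) : ℂ) ^ 2 := by push_cast; ring
      rw [h4, this]; ring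
    have hP := Gc_PC (θ := θ) hc
    rw [mem_RT, e2]
    exact PC_mem_TP (PC_mul (PC_mul hP hP) (PC_mul (PC_conj hP) (PC_conj hP)))
  have hwP : w ∈ PC := PC.sum_mem fun j hj => PC_ch (hcw j hj)
  have m2 : (fun n => ‖w n‖ ^ 2) ∈ RT ⊤ ∧ Lr (fun n => ‖w n‖ ^ 2) = ∑ j ∈ J.erase 1, c j ^ 2 := by
    have e2 : (fun n => ((‖w n‖ ^ 2 : ℝ) : ℂ)) = fun n => w n * conj (w n) := by
      funext n; exact normSq_eq (w n)
    have h1 : (fun n => ‖w n‖ ^ 2) ∈ RT ⊤ := by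
      rw [mem_RT, e2]
      exact PC_mem_TP (PC_mul hwP (PC_conj hwP))
    refine ⟨h1, ?_⟩
    have h2 := Lc_ofReal h1
    rw [e2, hw, Lc_Gc_conj hθ (J.erase 1) c 1] at h2
    exact (Complex.ofReal_injective h2).symm
  obtain ⟨m3, m3'⟩ := re_mem (SP_mem_TP hw2)
  obtain ⟨m4, m4'⟩ := re_mem (SP_mem_TP hwS)
  rw [SP_Lc (irr_mul hθ) hw2] at m3'
  rw [SP_Lc (irr_mul hθ) hwS] at m4'
  set a := c 1 with ha
  set ρ := ∑ j ∈ J.erase 1, c j with hρ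
  have ha0 : 0 ≤ a := hc 1 h1J
  have hrhs : Lr ((fun _ : ℕ => a ^ 4) + ((fun n => (2 * a + ρ) ^ 2 * ‖w n‖ ^ 2)
      + ((fun n => 2 * a ^ 2 * ((w * w) n).re) + fun n => 4 * a ^ 3 * (w n).re)))
      = a ^ 4 + (2 * a + ρ) ^ 2 * ∑ j ∈ J.erase 1, c j ^ 2 := by
    have s1 := const_mem_RT ⊤ (a ^ 4)
    have s2 := const_mul_mem_RT ((2 * a + ρ) ^ 2) m2.1
    have s3 := const_mul_mem_RT (2 * a ^ 2) m3
    have s4 := const_mul_mem_RT (4 * a ^ 3) m4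
    rw [Lr_add s1 ((RT ⊤).add_mem s2 ((RT ⊤).add_mem s3 s4)), Lr_add s2 ((RT ⊤).add_mem s3 s4), Lr_add s3 s4,
      Lr_const, Lr_const_mul _ m2.1, Lr_const_mul _ m3, Lr_const_mul _ m4, m2.2, m3', m4']
    simp
  rw [← hrhs]
  have s1 := const_mem_RT ⊤ (a ^ 4)
  have s2 := const_mul_mem_RT ((2 * a + ρ) ^ 2) m2.1
  have s3 := const_mul_mem_RT (2 * a ^ 2) m3
  have s4 := const_mul_mem_RT (4 * a ^ 3) m4
  refine Lr_mono m1 ((RT ⊤).add_mem s1 ((RT ⊤).add_mem s2 ((RT ⊤).add_mem s3 s4))) fun n => ?_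
  rw [hnorm]
  have h := norm_add_pow_four ha0 (hwb n)
  simp only [Pi.add_apply, Pi.mul_apply]
  rw [sq (w n)] at h
  linarith

end

end Pool.Agent.Helper78.BI
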