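import Mathlib
import Pool.Agent.Helper78.GC.Decomp
import Pool.Agent.Helper78.BI.Mom3

/-!
# Moments of sums of independent parts
-/

open Set Filter
open scoped Real ComplexConjugate Topology

namespace Pool.Agent.Helper78.BI

open Pool.Agent.Helper22.GC (ee ee_add ee_zero ee_int norm_ee conj_ee rho rho_nonneg)
open Pool.Agent.Helper78.GC

noncomputable section

/-- Moments of a sum of two independent trigonometric polynomials with mean zero. -/
lemma moments_add {Θ₀ Θ₁ : AddSubgroup ℝ} (h : Indep Θ₀ Θ₁) {f g : ℕ → ℝ} (hf : f ∈ RT Θ₀)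
    (hg : g ∈ RT Θ₁) (hf1 : Lr f = 0) (hg1 : Lr g = 0) :
    Lr (fun n => f n + g n) = 0 ∧
    Lr (fun n => (f n + g n) ^ 2) = Lr (fun n => f n ^ 2) + Lr (fun n => g n ^ 2) ∧
    Lr (fun n => (f n + g n) ^ 3) = Lr (fun n => f n ^ 3) + Lr (fun n => g n ^ 3) ∧
    Lr (fun n => (f n + g n) ^ 4) = Lr (fun n => f n ^ 4) + 6 * (Lr (fun n => f n ^ 2) * Lr (fun n => g n ^ 2))
      + Lr (fun n => g n ^ 4) := by
  have p1 : ∀ k, (fun n => f n ^ k) ∈ RT Θ₀ := fun k => pow_mem_RT hf k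
  have p2 : ∀ k, (fun n => g n ^ k) ∈ RT Θ₁ := fun k => pow_mem_RT hg k
  have q1 : ∀ k, (fun n => f n ^ k) ∈ RT ⊤ := fun k => RT_mono le_top (p1 k)
  have q2 : ∀ k, (fun n => g n ^ k) ∈ RT ⊤ := fun k => RT_mono le_top (p2 k)
  have m : ∀ i j, Lr (fun n => f n ^ i * g n ^ j) = Lr (fun n => f n ^ i) * Lr (fun n => g n ^ j) :=
    fun i j => Lr_mul h (p1 i) (p2 j)
  have mm : ∀ i j, (fun n => f n ^ i * g n ^ j) ∈ RT ⊤ := fun i j => mul_mem_RT (q1 i) (q2 j)
  have f1 : Lr (fun n => f n ^ 1) = 0 := by simpa using hf1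
  have g1 : Lr (fun n => g n ^ 1) = 0 := by simpa using hg1
  refine ⟨?_, ?_, ?_, ?_⟩
  · have e : (fun n => f n + g n) = f + g := rfl
    rw [e, Lr_add (RT_mono le_top hf) (RT_mono le_top hg), hf1, hg1, add_zero]
  · have e : (fun n => (f n + g n) ^ 2) = (fun n => f n ^ 2) + ((fun n => 2 * (f n ^ 1 * g n ^ 1)) + fun n => g n ^ 2) := by
      funext n; simp only [Pi.add_apply]; ring
    rw [e, Lr_add (q1 2) ((RT ⊤).add_mem (const_mul_mem_RT 2 (mm 1 1)) (q2 2)),
      Lr_add (const_mul_mem_RT 2 (mm 1 1)) (q2 2), Lr_const_mul 2 (mm 1 1), m, f1, g1]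
    ring
  · have e : (fun n => (f n + g n) ^ 3) = (fun n => f n ^ 3) + ((fun n => 3 * (f n ^ 2 * g n ^ 1))
        + ((fun n => 3 * (f n ^ 1 * g n ^ 2)) + fun n => g n ^ 3)) := by
      funext n; simp only [Pi.add_apply]; ring
    have s1 := const_mul_mem_RT 3 (mm 2 1)
    have s2 := const_mul_mem_RT 3 (mm 1 2)
    rw [e, Lr_add (q1 3) ((RT ⊤).add_mem s1 ((RT ⊤).add_mem s2 (q2 3))),
      Lr_add s1 ((RT ⊤).add_mem s2 (q2 3)), Lr_add s2 (q2 3), Lr_const_mul 3 (mm 2 1), Lr_const_mul 3 (mm 1 2),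
      m, m, f1, g1]
    ring
  · have e : (fun n => (f n + g n) ^ 4) = (fun n => f n ^ 4) + ((fun n => 4 * (f n ^ 3 * g n ^ 1))
        + ((fun n => 6 * (f n ^ 2 * g n ^ 2)) + ((fun n => 4 * (f n ^ 1 * g n ^ 3)) + fun n => g n ^ 4))) := by
      funext n; simp only [Pi.add_apply]; ring
    have s1 := const_mul_mem_RT 4 (mm 3 1)
    have s2 := const_mul_mem_RT 6 (mm 2 2)
    have s3 := const_mul_mem_RT 4 (mm 1 3)
    rw [e, Lr_add (q1 4) ((RT ⊤).add_mem s1 ((RT ⊤).add_mem s2 ((RT ⊤).add_mem s3 (q2 4)))),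
      Lr_add s1 ((RT ⊤).add_mem s2 ((RT ⊤).add_mem s3 (q2 4))), Lr_add s2 ((RT ⊤).add_mem s3 (q2 4)),
      Lr_add s3 (q2 4), Lr_const_mul 4 (mm 3 1), Lr_const_mul 6 (mm 2 2), Lr_const_mul 4 (mm 1 3),
      m, m, m, f1, g1]
    ring

/-- Moments of a sum of independent parts with mean zero. -/
theorem moments_sum {α : ℝ} {Q₀ : Finset ℕ} (hb : Bad α Q₀) (S : Finset ℕ)
    (hS : ∀ q ∈ S, Squarefree q) (hS0 : ∀ q ∈ S, q ∉ Q₀) (f : ℕ → ℕ → ℝ)
    (hf : ∀ q ∈ S, f q ∈ RT (Th α {q})) (hf1 : ∀ q ∈ S, Lr (f q) = 0) :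
    Lr (fun n => ∑ q ∈ S, f q n) = 0 ∧
    Lr (fun n => (∑ q ∈ S, f q n) ^ 2) = ∑ q ∈ S, Lr (fun n => f q n ^ 2) ∧
    Lr (fun n => (∑ q ∈ S, f q n) ^ 3) = ∑ q ∈ S, Lr (fun n => f q n ^ 3) ∧
    Lr (fun n => (∑ q ∈ S, f q n) ^ 4) = 3 * (∑ q ∈ S, Lr (fun n => f q n ^ 2)) ^ 2
      + ∑ q ∈ S, (Lr (fun n => f q n ^ 4) - 3 * Lr (fun n => f q n ^ 2) ^ 2) := by
  classical
  induction S using Finset.induction_on with
  | empty =>
    simp only [Finset.sum_empty]
    refine ⟨Lr_const 0, ?_, ?_, ?_⟩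
    · have := Lr_const ((0 : ℝ) ^ 2); rw [this]; norm_num
    · have := Lr_const ((0 : ℝ) ^ 3); rw [this]; norm_num
    · have := Lr_const ((0 : ℝ) ^ 4); rw [this]; norm_num
  | insert a S ha ih =>
    obtain ⟨i1, i2, i3, i4⟩ := ih (fun q hq => hS q (Finset.mem_insert_of_mem hq))
      (fun q hq => hS0 q (Finset.mem_insert_of_mem hq)) (fun q hq => hf q (Finset.mem_insert_of_mem hq))
      (fun q hq => hf1 q (Finset.mem_insert_of_mem hq))
    have hmem : (fun n => ∑ q ∈ S, f q n) ∈ RT (Th α S) := by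
      refine sum_mem_RT S fun q hq => ?_
      exact RT_mono (Th_mono (Finset.singleton_subset_iff.mpr hq)) (hf q (Finset.mem_insert_of_mem hq))
    have hind : Indep (Th α S) (Th α {a}) := by
      refine indep_Th hb (fun q hq => hS q (Finset.mem_insert_of_mem hq)) ?_ ?_ ?_
      · intro q hq; rw [Finset.mem_singleton] at hq; subst hq
        exact hS q (Finset.mem_insert_self _ _)
      · rw [Finset.disjoint_singleton_right]; exact ha
      · intro q hq; rw [Finset.mem_singleton] at hq; subst hq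
        exact hS0 q (Finset.mem_insert_self _ _)
    obtain ⟨j1, j2, j3, j4⟩ := moments_add hind hmem (hf a (Finset.mem_insert_self _ _)) i1
      (hf1 a (Finset.mem_insert_self _ _))
    have e : ∀ n, ∑ q ∈ insert a S, f q n = (∑ q ∈ S, f q n) + f a n := by
      intro n; rw [Finset.sum_insert ha, add_comm]
    refine ⟨?_, ?_, ?_, ?_⟩
    · simp only [e]; exact j1
    · simp only [e]; rw [j2, i2, Finset.sum_insert ha]; ring
    · simp only [e]; rw [j3, i3, Finset.sum_insert ha]; ring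
    · simp only [e]; rw [j4, i4, i2, Finset.sum_insert ha, Finset.sum_insert ha]; ring

/-- At slope one only the rational part is bad. -/
lemma bad_one : Bad 1 {1} := by
  classical
  intro Q m b hQ h q hq hq1
  have hq1' : q ≠ 1 := fun h => hq1 (by rw [h]; exact Finset.mem_singleton_self 1)
  -- subtract the integer as a coefficient of √1
  set m' : ℕ → ℤ := fun p => (if p ∈ Q then m p else 0) - (if p = 1 then b else 0) with hm'
  have h1 : ∑ p ∈ insert 1 Q, (m' p : ℝ) * √(p : ℝ) = 0 := by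
    have e1 : ∑ p ∈ insert 1 Q, (m' p : ℝ) * √(p : ℝ)
        = ∑ p ∈ insert 1 Q, (if p ∈ Q then (m p : ℝ) * √(p : ℝ) else 0)
          - ∑ p ∈ insert 1 Q, (if p = 1 then (b : ℝ) else 0) := by
      rw [← Finset.sum_sub_distrib]
      refine Finset.sum_congr rfl fun p _ => ?_
      rw [hm']
      push_cast
      by_cases hp : p = 1
      · subst hp
        simp only [if_true, Nat.cast_one, Real.sqrt_one, mul_one]
      · simp only [if_neg hp, sub_zero]
        split_ifs <;> simp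
    rw [e1]
    have e2 : ∑ p ∈ insert 1 Q, (if p ∈ Q then (m p : ℝ) * √(p : ℝ) else 0)
        = ∑ p ∈ Q, (m p : ℝ) * √(p : ℝ) := by
      rw [← Finset.sum_filter]
      congr 1
      ext p
      rw [Finset.mem_filter, Finset.mem_insert]
      tauto
    have e3 : ∑ p ∈ insert 1 Q, (if p = 1 then (b : ℝ) else 0) = b := by
      rw [Finset.sum_ite_eq', if_pos (Finset.mem_insert_self 1 Q)]
    rw [e2, e3]
    simp only [one_mul] at h
    rw [h]
    ring
  have h2 := sqrt_indep (insert 1 Q) (by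
    intro p hp
    rcases Finset.mem_insert.mp hp with rfl | hp
    · exact squarefree_one
    · exact hQ p hp) m' h1 q (Finset.mem_insert_of_mem hq)
  rw [hm'] at h2
  simp only [if_pos hq, if_neg hq1', sub_zero] at h2
  exact h2

/-- The coefficients of the part with squarefree part `q`. -/
def cq (q j : ℕ) : ℝ := 1 / π * rho (q * j ^ 2)

lemma cq_nonneg (q j : ℕ) : 0 ≤ cq q j := mul_nonneg (by positivity) (rho_nonneg _)

lemma X_eq_Wc (K q n : ℕ) : X 1 1 0 K q n = Wc (√(q : ℝ)) (sqj K q) (cq q) n := by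
  rw [X, Wc]
  refine Finset.sum_congr rfl fun j _ => ?_
  rw [cq]
  congr 2
  push_cast
  ring

lemma irr_sqrt {q : ℕ} (hq : Squarefree q) (hq1 : q ≠ 1) : Irrational √(q : ℝ) := by
  rw [irrational_sqrt_natCast_iff]
  rintro ⟨r, hr⟩
  have h1 := hq r ⟨1, by rw [mul_one]; exact hr⟩
  rw [Nat.isUnit_iff] at h1
  subst h1
  exact hq1 (by rw [hr])

end

end Pool.Agent.Helper78.BI
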