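import Mathlib
import Pool.Agent.Helper59.GC.LimitLaw
import Pool.Agent.Helper78.BI.Sum

/-!
# The distribution of a trigonometric polynomial in square roots is the same in all progressions
-/

open Set Filter
open scoped Real ComplexConjugate Topology

namespace Pool.Agent.Helper78.BI

open Pool.Agent.Helper22.GC (ee ee_add ee_zero ee_int norm_ee conj_ee rho rho_nonneg)
open Pool.Agent.Helper78.GC

noncomputable section

lemma int_of_mul_int {S : Finset ℕ} (hS : ∀ q ∈ S, Squarefree q) {d : ℕ} (hd : 1 ≤ d) {θ : ℝ}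
    (hθ : θ ∈ Th 1 S) {m : ℤ} (h : (d : ℝ) * θ = m) : ∃ k : ℤ, θ = k := by
  classical
  obtain ⟨c, hc⟩ := exists_coeff hθ
  have h1 : ∑ q ∈ S, (((d : ℤ) * c q : ℤ) : ℝ) * (1 * √(q : ℝ)) = m := by
    rw [← h, hc, Finset.mul_sum]
    refine Finset.sum_congr rfl fun q _ => ?_
    push_cast; ring
  have h2 := bad_one S (fun q => (d : ℤ) * c q) m hS h1
  have h3 : ∀ q ∈ S, q ≠ 1 → c q = 0 := by
    intro q hq hq1
    have := h2 q hq (by rw [Finset.mem_singleton]; exact hq1)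
    rcases mul_eq_zero.mp this with h | h
    · omega
    · exact h
  refine ⟨if 1 ∈ S then c 1 else 0, ?_⟩
  rw [hc]
  split_ifs with h1S
  · rw [Finset.sum_eq_single 1]
    · simp
    · intro q hq hq1
      rw [h3 q hq hq1]; simp
    · intro h; exact absurd h1S h
  · push_cast
    refine Finset.sum_eq_zero fun q hq => ?_
    have : q ≠ 1 := fun h => h1S (h ▸ hq)
    rw [h3 q hq this]; simp

lemma Lc_shift {S : Finset ℕ} (hS : ∀ q ∈ S, Squarefree q) {d : ℕ} (hd : 1 ≤ d) (b : ℕ)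
    {u : ℕ → ℂ} (hu : u ∈ TP (Th 1 S)) :
    (fun n => u (d * n + b)) ∈ TP ⊤ ∧ Lc (fun n => u (d * n + b)) = Lc u := by
  classical
  have hch : ∀ θ : ℝ, (fun n => ch θ (d * n + b)) = ee (b * θ) • ch (d * θ) := by
    intro θ
    funext n
    rw [ch, Pi.smul_apply, ch, smul_eq_mul, ← ee_add]
    congr 1
    push_cast; ring
  rw [mem_TP_iff] at hu
  induction hu using Submodule.span_induction with
  | mem x hx =>
    obtain ⟨θ, hθ, rfl⟩ := hx
    rw [hch]
    refine ⟨(TP ⊤).smul_mem (ch_mem (AddSubgroup.mem_top _)) _, ?_⟩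
    rw [Lc_smul _ (ch_mem (AddSubgroup.mem_top _)), Lc_ch, Lc_ch]
    by_cases h : ∃ m : ℤ, (d : ℝ) * θ = m
    · obtain ⟨m, hm⟩ := h
      obtain ⟨k, hk⟩ := int_of_mul_int hS hd hθ hm
      rw [if_pos ⟨m, hm⟩, if_pos ⟨k, hk⟩, mul_one, hk]
      have : (b : ℝ) * (k : ℝ) = ((b * k : ℤ) : ℝ) := by push_cast; ring
      rw [this, ee_int]
    · rw [if_neg h, if_neg, mul_zero]
      rintro ⟨k, hk⟩
      exact h ⟨d * k, by rw [hk]; push_cast; ring⟩
  | zero => exact ⟨(TP ⊤).zero_mem, rfl⟩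
  | add x y hx hy ihx ihy =>
    refine ⟨(TP ⊤).add_mem ihx.1 ihy.1, ?_⟩
    have e : (fun n => (x + y) (d * n + b)) = (fun n => x (d * n + b)) + (fun n => y (d * n + b)) := rfl
    rw [e, Lc_add ihx.1 ihy.1, ihx.2, ihy.2, Lc_add (Θ := Th 1 S) hx hy]
  | smul c x hx ih =>
    refine ⟨(TP ⊤).smul_mem ih.1 c, ?_⟩
    have e : (fun n => (c • x) (d * n + b)) = c • (fun n => x (d * n + b)) := rfl
    rw [e, Lc_smul c ih.1, ih.2, Lc_smul (Θ := Th 1 S) c hx]

lemma Lr_shift {S : Finset ℕ} (hS : ∀ q ∈ S, Squarefree q) {d : ℕ} (hd : 1 ≤ d) (b : ℕ)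
    {f : ℕ → ℝ} (hf : f ∈ RT (Th 1 S)) :
    (fun n => f (d * n + b)) ∈ RT ⊤ ∧ Lr (fun n => f (d * n + b)) = Lr f := by
  have h := Lc_shift hS hd b (mem_RT.mp hf)
  exact ⟨h.1, by rw [Lr, Lr]; exact congrArg Complex.re h.2⟩

lemma poly_mem {Θ : AddSubgroup ℝ} {w : ℕ → ℝ} (hw : w ∈ RT Θ) (p : Polynomial ℝ) :
    (fun n => p.eval (w n)) ∈ RT Θ := by
  induction p using Polynomial.induction_on' with
  | add p q hp hq =>
    have : (fun n => (p + q).eval (w n)) = (fun n => p.eval (w n)) + fun n => q.eval (w n) := by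
      funext n; simp
    rw [this]; exact (RT Θ).add_mem hp hq
  | monomial k a =>
    have : (fun n => (Polynomial.monomial k a).eval (w n)) = fun n => a * w n ^ k := by
      funext n; simp
    rw [this]; exact const_mul_mem_RT a (pow_mem_RT hw k)

/-- Continuous functions of the polynomial have the same mean in all progressions. -/
theorem mean_shift {S : Finset ℕ} (hS : ∀ q ∈ S, Squarefree q) {d : ℕ} (hd : 1 ≤ d) (b : ℕ)
    {w : ℕ → ℝ} (hw : w ∈ RT (Th 1 S)) {φ : ℝ → ℝ} (hφ : Continuous φ) :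
    ∃ a, Tendsto (mr (fun n => φ (w n))) Gf (𝓝 a) ∧
      Tendsto (mr (fun n => φ (w (d * n + b)))) Gf (𝓝 a) := by
  obtain ⟨B, hB⟩ := Pool.Agent.Helper59.GC.bounded_of_mem_RT hw
  have hmem : ∀ n, w n ∈ Icc (-B) B := fun n => abs_le.mp (hB n)
  have hpol := fun (ε : ℝ) (hε : 0 < ε) => exists_polynomial_near_of_continuousOn (-B) B φ hφ.continuousOn ε hε
  obtain ⟨a, ha⟩ := Pool.Agent.Helper59.GC.exists_tendsto_of_approx (F := Gf) (f := mr (fun n => φ (w n))) (by
    intro ε hε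
    obtain ⟨p, hp⟩ := hpol ε hε
    refine ⟨mr (fun n => p.eval (w n)), ⟨_, tendsto_Lr (poly_mem hw p)⟩, ?_⟩
    filter_upwards [eventually_one_le] with q hq
    refine Pool.Agent.Helper59.GC.mr_abs_sub_le (fun n => ?_) hq
    rw [abs_sub_comm]
    exact (hp (w n) (hmem n)).le)
  refine ⟨a, ha, ?_⟩
  rw [Metric.tendsto_nhds]
  intro ε hε
  obtain ⟨p, hp⟩ := hpol (ε / 5) (by positivity)
  have h1 := (tendsto_Lr (poly_mem hw p))
  obtain ⟨h2, h3⟩ := Lr_shift hS hd b (poly_mem hw p)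
  have h4 := tendsto_Lr h2
  rw [h3] at h4
  have hA : |a - Lr (fun n => p.eval (w n))| ≤ ε / 5 := by
    refine le_of_tendsto ((ha.sub h1).abs) ?_
    filter_upwards [eventually_one_le] with q hq
    refine Pool.Agent.Helper59.GC.mr_abs_sub_le (fun n => ?_) hq
    rw [abs_sub_comm]
    exact (hp (w n) (hmem n)).le
  filter_upwards [eventually_one_le, (Metric.tendsto_nhds.mp h4) (ε / 5) (by positivity)] with q hq hq2
  rw [Real.dist_eq] at hq2 ⊢
  have h5 : |mr (fun n => φ (w (d * n + b))) q - mr (fun n => p.eval (w (d * n + b))) q| ≤ ε / 5 := by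
    refine Pool.Agent.Helper59.GC.mr_abs_sub_le (fun n => ?_) hq
    rw [abs_sub_comm]
    exact (hp _ (hmem _)).le
  have h6 := abs_sub_le (mr (fun n => φ (w (d * n + b))) q) (mr (fun n => p.eval (w (d * n + b))) q) a
  have h7 := abs_sub_le (mr (fun n => p.eval (w (d * n + b))) q) (Lr (fun n => p.eval (w n))) a
  rw [abs_sub_comm (Lr _) a] at h7
  linarith

end

end Pool.Agent.Helper78.BI
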