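import Mathlib
import Pool.Agent.Helper78.GC.Main
import Pool.Agent.Helper78.BI.Shift

/-!
# The limit law is the same for all progressions of integers
-/

open Set Filter MeasureTheory
open scoped Real ComplexConjugate Topology BoundedContinuousFunction

namespace Pool.Agent.Helper78.BI

open Pool.Agent.Helper22.GC (ee ee_add ee_zero ee_int norm_ee conj_ee rho rho_nonneg TK uu)
open Pool.Agent.Helper78.GC

noncomputable section

/-- The limit property of a measure for the radii `d n + b`. -/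
def IsLaw (d b : ℕ) (μ : ProbabilityMeasure (Fin 1 → ℝ)) : Prop :=
  ∀ ε : ℝ, 0 < ε → ∀ φ : (Fin 1 → ℝ) →ᵇ ℝ,
    Tendsto (mr (fun n => φ (fun _ => uu d b n))) (Seg ε) (𝓝 (∫ x, φ x ∂(μ : Measure (Fin 1 → ℝ))))

lemma exists_law {d : ℕ} (hd : 1 ≤ d) (b : ℕ) : ∃ μ, IsLaw d b μ := by
  obtain ⟨μ, hμ⟩ := limit_exists (ι := Fin 1) (α := 1) one_pos (r := fun _ => d) (fun _ => (b : ℝ)) (fun _ => hd)
  refine ⟨μ, fun ε hε φ => ?_⟩
  refine (hμ ε hε φ).congr fun p => ?_
  congr 1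
  funext n
  congr 1
  funext i
  rw [vv, one_mul]

/-- The approximation in the mean. -/
lemma approx {d : ℕ} (hd : 1 ≤ d) (b : ℕ) {ε : ℝ} (hε : 0 < ε) : ∃ C : ℝ, 0 < C ∧ ∀ K : ℕ, 1 ≤ K →
    ∀ᶠ p in Seg ε, mr (fun n => (uu d b n - TK K ((d * n + b : ℕ) : ℝ)) ^ 2) p
      ≤ C * (K : ℝ) ^ (-(1 / 8) : ℝ) := by
  obtain ⟨C, hC, h⟩ := seg_approx (d : ℝ) (b : ℝ) (by exact_mod_cast hd) hε
  refine ⟨C, hC, fun K hK => ?_⟩
  filter_upwards [h K hK] with p hp
  refine (le_of_eq ?_).trans hp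
  congr 1
  funext n
  push_cast
  rfl

lemma TK_mem (K : ℕ) : (fun n : ℕ => TK K (n : ℝ)) ∈ RT (Th 1 (sqf K)) := by
  have e : (fun n : ℕ => TK K (n : ℝ)) = fun n => ∑ q ∈ sqf K, X 1 1 0 K q n := by
    funext n
    rw [← TK_decomp]
    congr 1
    push_cast; ring
  rw [e]
  refine sum_mem_RT _ fun q hq => ?_
  exact RT_mono (Th_mono (Finset.singleton_subset_iff.mpr hq)) (X_mem _ _ _ _ _)

lemma sqf_squarefree {K : ℕ} : ∀ q ∈ sqf K, Squarefree q := fun _ hq => (mem_sqf.mp hq).2.2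

/-- Bounded Lipschitz functions have equal integrals. -/
lemma integral_eq_of_lipschitz {d : ℕ} (hd : 1 ≤ d) {b : ℕ} {μ ν : ProbabilityMeasure (Fin 1 → ℝ)}
    (hμ : IsLaw d b μ) (hν : IsLaw 1 0 ν) {φ : ℝ → ℝ} {L B : ℝ} (hL : 0 ≤ L)
    (hφ : ∀ x y, |φ x - φ y| ≤ L * |x - y|) (hc : Continuous φ) (hB : ∀ x, |φ x| ≤ B) :
    ∫ x, φ (x 0) ∂(μ : Measure (Fin 1 → ℝ)) = ∫ x, φ (x 0) ∂(ν : Measure (Fin 1 → ℝ)) := by
  have := Seg_neBot (le_refl (1 / 2 : ℝ))
  set F := Seg (1 / 2) with hF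
  let Φ : (Fin 1 → ℝ) →ᵇ ℝ := BoundedContinuousFunction.ofNormedAddCommGroup (fun x => φ (x 0))
    (by fun_prop) B (fun x => hB (x 0))
  have h1 : Tendsto (mr (fun n => φ (uu d b n))) F (𝓝 (∫ x, φ (x 0) ∂(μ : Measure (Fin 1 → ℝ)))) :=
    hμ (1 / 2) (by norm_num) Φ
  have h2 : Tendsto (mr (fun n => φ (uu 1 0 n))) F (𝓝 (∫ x, φ (x 0) ∂(ν : Measure (Fin 1 → ℝ)))) := by
    have := hν (1 / 2) (by norm_num) Φ
    rw [Nat.cast_one, Nat.cast_zero] at this
    exact this
  obtain ⟨C, hC, hA⟩ := approx hd b (by norm_num : (0 : ℝ) < 1 / 2)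
  obtain ⟨C', hC', hA'⟩ := approx (le_refl 1) 0 (by norm_num : (0 : ℝ) < 1 / 2)
  have hle : F ≤ Gf := Seg_le_Gf (by norm_num)
  have key : ∀ (u w : ℕ → ℝ) (A a : ℝ) (η : ℝ), Tendsto (mr (fun n => φ (u n))) F (𝓝 A) →
      Tendsto (mr (fun n => φ (w n))) F (𝓝 a) → (∀ᶠ p in F, mr (fun n => (u n - w n) ^ 2) p ≤ η) →
      |A - a| ≤ L * √η := by
    intro u w A a η hu hw hη
    refine le_of_tendsto ((hu.sub hw).abs) ?_
    filter_upwards [hη, hle eventually_one_le] with p hp hp1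
    rw [← mr_sub]
    refine (abs_mr_le _ _).trans ?_
    have h3 : mr (fun n => |φ (u n) - φ (w n)|) p ≤ mr (fun n => L * |u n - w n|) p :=
      mr_mono fun n _ => hφ _ _
    refine h3.trans ?_
    rw [mr_const_mul]
    exact mul_le_mul_of_nonneg_left ((mr_abs_le_sqrt _ hp1).trans (Real.sqrt_le_sqrt hp)) hL
  set A := ∫ x, φ (x 0) ∂(μ : Measure (Fin 1 → ℝ)) with hAdef
  set A' := ∫ x, φ (x 0) ∂(ν : Measure (Fin 1 → ℝ)) with hAdef'
  have hall : ∀ K : ℕ, 1 ≤ K → |A - A'| ≤ L * √(C * (K : ℝ) ^ (-(1 / 8) : ℝ)) + L * √(C' * (K : ℝ) ^ (-(1 / 8) : ℝ)) := by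
    intro K hK
    obtain ⟨a, ha, ha'⟩ := mean_shift sqf_squarefree hd b (TK_mem K) hc
    have k1 := key (fun n => uu d b n) (fun n => TK K ((d * n + b : ℕ) : ℝ)) A a _ h1 (ha'.mono_left hle) (hA K hK)
    have k2 := key (fun n => uu 1 0 n) (fun n => TK K (n : ℝ)) A' a (C' * (K : ℝ) ^ (-(1 / 8) : ℝ)) h2 (ha.mono_left hle) (by
      filter_upwards [hA' K hK] with p hp
      refine (le_of_eq ?_).trans hp
      congr 1
      funext n
      push_cast
      simp)
    have k3 := abs_sub_le A a A'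
    rw [abs_sub_comm a A'] at k3
    linarith
  have hlim : Tendsto (fun K : ℕ => L * √(C * (K : ℝ) ^ (-(1 / 8) : ℝ)) + L * √(C' * (K : ℝ) ^ (-(1 / 8) : ℝ)))
      atTop (𝓝 0) := by
    have t1 := ((Real.continuous_sqrt.tendsto 0).comp (tendsto_rate C)).const_mul L
    have t2 := ((Real.continuous_sqrt.tendsto 0).comp (tendsto_rate C')).const_mul L
    have t3 := t1.add t2
    simp only [Real.sqrt_zero, mul_zero, add_zero] at t3
    exact t3
  have : |A - A'| ≤ 0 := by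
    refine ge_of_tendsto hlim ?_
    filter_upwards [eventually_ge_atTop 1] with K hK
    exact hall K hK
  have h0 : A - A' = 0 := abs_eq_zero.mp (le_antisymm this (abs_nonneg _))
  linarith

/-- The limit law does not depend on the progression. -/
theorem law_eq {d : ℕ} (hd : 1 ≤ d) {b : ℕ} {μ ν : ProbabilityMeasure (Fin 1 → ℝ)}
    (hμ : IsLaw d b μ) (hν : IsLaw 1 0 ν) : μ = ν := by
  have hev : Measurable (fun x : Fin 1 → ℝ => x 0) := measurable_pi_apply 0
  have hchar : ∀ (ρ : ProbabilityMeasure (Fin 1 → ℝ)) (t : ℝ),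
      charFun ((ρ : Measure (Fin 1 → ℝ)).map (fun x => x 0)) t
        = ((∫ x, Real.cos (t * x 0) ∂(ρ : Measure (Fin 1 → ℝ)) : ℝ) : ℂ)
          + ((∫ x, Real.sin (t * x 0) ∂(ρ : Measure (Fin 1 → ℝ)) : ℝ) : ℂ) * Complex.I := by
    intro ρ t
    rw [charFun_apply_real, integral_map hev.aemeasurable (by fun_prop)]
    have e : ∀ x : Fin 1 → ℝ, Complex.exp ((t : ℂ) * ((x 0 : ℝ) : ℂ) * Complex.I)
        = ((Real.cos (t * x 0) : ℝ) : ℂ) + ((Real.sin (t * x 0) : ℝ) : ℂ) * Complex.I := by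
      intro x
      have : (t : ℂ) * ((x 0 : ℝ) : ℂ) = ((t * x 0 : ℝ) : ℂ) := by push_cast; rfl
      rw [this, Complex.exp_mul_I, Complex.ofReal_cos, Complex.ofReal_sin]
    have i1 : Integrable (fun x : Fin 1 → ℝ => ((Real.cos (t * x 0) : ℝ) : ℂ)) (ρ : Measure (Fin 1 → ℝ)) := by
      have hr : Integrable (fun x : Fin 1 → ℝ => Real.cos (t * x 0)) (ρ : Measure (Fin 1 → ℝ)) :=
        Integrable.of_bound (C := 1) (Continuous.aestronglyMeasurable
          (Real.continuous_cos.comp (continuous_const.mul (continuous_apply 0))))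
          (Eventually.of_forall fun x => by rw [Real.norm_eq_abs]; exact Real.abs_cos_le_one _)
      exact hr.ofReal
    have i2 : Integrable (fun x : Fin 1 → ℝ => ((Real.sin (t * x 0) : ℝ) : ℂ) * Complex.I) (ρ : Measure (Fin 1 → ℝ)) := by
      refine Integrable.mul_const ?_ _
      have hr : Integrable (fun x : Fin 1 → ℝ => Real.sin (t * x 0)) (ρ : Measure (Fin 1 → ℝ)) :=
        Integrable.of_bound (C := 1) (Continuous.aestronglyMeasurable
          (Real.continuous_sin.comp (continuous_const.mul (continuous_apply 0))))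
          (Eventually.of_forall fun x => by rw [Real.norm_eq_abs]; exact Real.abs_sin_le_one _)
      exact hr.ofReal
    simp only [e]
    rw [integral_add i1 i2, integral_mul_const, integral_complex_ofReal, integral_complex_ofReal]
  have hmap : (μ : Measure (Fin 1 → ℝ)).map (fun x => x 0) = (ν : Measure (Fin 1 → ℝ)).map (fun x => x 0) := by
    have p1 : IsProbabilityMeasure ((μ : Measure (Fin 1 → ℝ)).map (fun x => x 0)) :=
      Measure.isProbabilityMeasure_map hev.aemeasurable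
    have p2 : IsProbabilityMeasure ((ν : Measure (Fin 1 → ℝ)).map (fun x => x 0)) :=
      Measure.isProbabilityMeasure_map hev.aemeasurable
    refine Measure.ext_of_charFun ?_
    funext t
    rw [hchar, hchar]
    have c1 : ∫ x, Real.cos (t * x 0) ∂(μ : Measure (Fin 1 → ℝ)) = ∫ x, Real.cos (t * x 0) ∂(ν : Measure (Fin 1 → ℝ)) :=
      integral_eq_of_lipschitz hd hμ hν (φ := fun y => Real.cos (t * y)) (L := |t|) (B := 1) (abs_nonneg t)
        (fun x y => by
          refine (Real.abs_cos_sub_cos_le _ _).trans ?_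
          rw [← mul_sub, abs_mul]) (by fun_prop) (fun x => Real.abs_cos_le_one _)
    have c2 : ∫ x, Real.sin (t * x 0) ∂(μ : Measure (Fin 1 → ℝ)) = ∫ x, Real.sin (t * x 0) ∂(ν : Measure (Fin 1 → ℝ)) :=
      integral_eq_of_lipschitz hd hμ hν (φ := fun y => Real.sin (t * y)) (L := |t|) (B := 1) (abs_nonneg t)
        (fun x y => by
          refine (Real.abs_sin_sub_sin_le _ _).trans ?_
          rw [← mul_sub, abs_mul]) (by fun_prop) (fun x => Real.abs_sin_le_one _)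
    rw [c1, c2]
  apply Subtype.ext
  have he : (fun x : Fin 1 → ℝ => x 0) = (MeasurableEquiv.funUnique (Fin 1) ℝ) := by
    funext x
    simp [MeasurableEquiv.funUnique]
  rw [he] at hmap
  exact (MeasurableEquiv.funUnique (Fin 1) ℝ).map_measurableEquiv_injective hmap

end

end Pool.Agent.Helper78.BI
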