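import Mathlib
import Pool.Agent.Helper78.BI.Defs
import Pool.Agent.Helper78.BI.Law

/-!
# The truncated sums of Hardy's series at the integers
-/

open Set Filter MeasureTheory
open scoped Real ComplexConjugate Topology BoundedContinuousFunction

namespace Pool.Agent.Helper78.BI

open Pool.Agent.Helper22.GC (ee ee_add ee_zero ee_int norm_ee conj_ee rho rho_nonneg TK uu gr)
open Pool.Agent.Helper78.GC

noncomputable section

/-- The variance bound. -/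
def VarBound : Prop := ∀ K : ℕ, 400 ≤ K →
    ∑ q ∈ (sqf K).erase 1, (∑ j ∈ sqj K q, cq q j ^ 2) / 2 ≤ 1.51

/-- The bound for the fourth cumulants. -/
def FourBound : Prop := ∀ K : ℕ, 400 ≤ K →
    ∑ q ∈ (sqf K).erase 1, (3 / 8 * (cq q 1 ^ 4 + (2 * cq q 1 + ∑ j ∈ (sqj K q).erase 1, cq q j) ^ 2
      * ∑ j ∈ (sqj K q).erase 1, cq q j ^ 2) - 3 * ((∑ j ∈ sqj K q, cq q j ^ 2) / 2) ^ 2) ≤ 2.36

/-- The random part. -/
def YK (K n : ℕ) : ℝ := ∑ q ∈ (sqf K).erase 1, X 1 1 0 K q n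

/-- The constant part, with the opposite sign. -/
def mK (K : ℕ) : ℝ := √2 / 2 * ∑ j ∈ sqj K 1, cq 1 j

lemma X_one (K n : ℕ) : X 1 1 0 K 1 n = -mK K := by
  rw [X_eq_Wc, Wc, mK, Finset.mul_sum, ← Finset.sum_neg_distrib]
  refine Finset.sum_congr rfl fun j _ => ?_
  have : 2 * π * ((n : ℝ) * ((j : ℝ) * √((1 : ℕ) : ℝ))) - 3 * π / 4 = ((n * j : ℕ) : ℝ) * (2 * π) - 3 * π / 4 := by
    rw [Nat.cast_one, Real.sqrt_one]; push_cast; ring
  rw [this, Real.cos_nat_mul_two_pi_sub, cos_34]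
  ring

lemma TK_nat (K n : ℕ) (hK : 1 ≤ K) : TK K (n : ℝ) = -mK K + YK K n := by
  have e : TK K (n : ℝ) = ∑ q ∈ sqf K, X 1 1 0 K q n := by
    rw [← TK_decomp]
    congr 1
    push_cast; ring
  have h1 : 1 ∈ sqf K := by rw [mem_sqf]; exact ⟨le_rfl, hK, squarefree_one⟩
  rw [e, ← Finset.add_sum_erase _ _ h1, X_one, YK]

lemma YK_mem (K : ℕ) : YK K ∈ RT (Th 1 (sqf K)) := by
  refine sum_mem_RT _ fun q hq => ?_
  exact RT_mono (Th_mono (Finset.singleton_subset_iff.mpr (Finset.mem_of_mem_erase hq))) (X_mem _ _ _ _ _)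

lemma one_mem_sqj {K q : ℕ} (hq : q ∈ sqf K) : 1 ∈ sqj K q := by
  rw [mem_sqf] at hq
  rw [mem_sqj' hq.1]
  exact ⟨le_rfl, by rw [one_pow, mul_one]; exact hq.2.1⟩

lemma sqj_pos {K q : ℕ} : ∀ j ∈ sqj K q, 1 ≤ j := fun _ hj => (mem_sqj.mp hj).1

/-- The moments of the random part. -/
theorem YK_moments (hV : VarBound) (hF : FourBound) {K : ℕ} (hK : 400 ≤ K) :
    Lr (YK K) = 0 ∧ Lr (fun n => YK K n ^ 2) ≤ 1.51 ∧ Lr (fun n => YK K n ^ 3) ≤ 0 ∧
      Lr (fun n => YK K n ^ 4) ≤ 9.21 := by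
  have hirr : ∀ q ∈ (sqf K).erase 1, Irrational √(q : ℝ) := by
    intro q hq
    rw [Finset.mem_erase, mem_sqf] at hq
    exact irr_sqrt hq.2.2.2 hq.1
  have hm := moments_sum bad_one ((sqf K).erase 1)
    (fun q hq => sqf_squarefree q (Finset.mem_of_mem_erase hq))
    (fun q hq => by rw [Finset.mem_singleton]; exact Finset.ne_of_mem_erase hq)
    (fun q n => X 1 1 0 K q n) (fun q _ => X_mem _ _ _ _ _)
    (fun q hq => by
      have : (fun n => X 1 1 0 K q n) = Wc (√(q : ℝ)) (sqj K q) (cq q) := by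
        funext n; exact X_eq_Wc K q n
      show Lr (fun n => X 1 1 0 K q n) = 0
      rw [this]
      exact Lr_Wc (hirr q hq) sqj_pos)
  obtain ⟨m1, m2, m3, m4⟩ := hm
  have h2 : ∀ q ∈ (sqf K).erase 1, Lr (fun n => X 1 1 0 K q n ^ 2) = (∑ j ∈ sqj K q, cq q j ^ 2) / 2 := by
    intro q hq
    simp only [X_eq_Wc]
    exact Lr_Wc_sq (hirr q hq) sqj_pos (fun j _ => cq_nonneg q j)
  have h3 : ∀ q ∈ (sqf K).erase 1, Lr (fun n => X 1 1 0 K q n ^ 3) ≤ 0 := by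
    intro q hq
    simp only [X_eq_Wc]
    exact Lr_Wc_cube (hirr q hq) sqj_pos (fun j _ => cq_nonneg q j)
  have h4 : ∀ q ∈ (sqf K).erase 1, Lr (fun n => X 1 1 0 K q n ^ 4) ≤ 3 / 8 * (cq q 1 ^ 4
      + (2 * cq q 1 + ∑ j ∈ (sqj K q).erase 1, cq q j) ^ 2 * ∑ j ∈ (sqj K q).erase 1, cq q j ^ 2) := by
    intro q hq
    simp only [X_eq_Wc]
    exact Lr_Wc_four (hirr q hq) sqj_pos (one_mem_sqj (Finset.mem_of_mem_erase hq)) (fun j _ => cq_nonneg q j)
  have hV' := hV K hK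
  have hs : ∑ q ∈ (sqf K).erase 1, Lr (fun n => X 1 1 0 K q n ^ 2)
      = ∑ q ∈ (sqf K).erase 1, (∑ j ∈ sqj K q, cq q j ^ 2) / 2 := Finset.sum_congr rfl h2
  refine ⟨m1, ?_, ?_, ?_⟩
  · show Lr (fun n => (∑ q ∈ (sqf K).erase 1, X 1 1 0 K q n) ^ 2) ≤ 1.51
    rw [m2, hs]; exact hV'
  · show Lr (fun n => (∑ q ∈ (sqf K).erase 1, X 1 1 0 K q n) ^ 3) ≤ 0
    rw [m3]
    exact Finset.sum_nonpos h3
  · show Lr (fun n => (∑ q ∈ (sqf K).erase 1, X 1 1 0 K q n) ^ 4) ≤ 9.21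
    rw [m4, hs]
    have h0 : 0 ≤ ∑ q ∈ (sqf K).erase 1, (∑ j ∈ sqj K q, cq q j ^ 2) / 2 :=
      Finset.sum_nonneg fun q _ => div_nonneg (Finset.sum_nonneg fun j _ => sq_nonneg _) (by norm_num)
    have hsq : (∑ q ∈ (sqf K).erase 1, (∑ j ∈ sqj K q, cq q j ^ 2) / 2) ^ 2 ≤ 1.51 ^ 2 :=
      pow_le_pow_left₀ h0 hV' 2
    have hF' := hF K hK
    have h5 : ∑ q ∈ (sqf K).erase 1, (Lr (fun n => X 1 1 0 K q n ^ 4) - 3 * Lr (fun n => X 1 1 0 K q n ^ 2) ^ 2)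
        ≤ 2.36 := by
      refine (Finset.sum_le_sum fun q hq => ?_).trans hF'
      rw [h2 q hq]
      have := h4 q hq
      linarith
    norm_num at hsq h5 ⊢
    linarith

/-- The limit of the constant part. -/
lemma tendsto_mK (hs : Summable (fun j : ℕ => (gr (j ^ 2) : ℝ) * (j : ℝ) ^ (-(3 / 2) : ℝ))) :
    Tendsto mK atTop (𝓝 (M1 / (√2 * π))) := by
  have hc : ∀ j : ℕ, 1 ≤ j → cq 1 j = 1 / π * ((gr (j ^ 2) : ℝ) * (j : ℝ) ^ (-(3 / 2) : ℝ)) := by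
    intro j hj
    have hj0 : (0 : ℝ) < j := by exact_mod_cast hj
    rw [cq, rho, one_mul]
    congr 2
    push_cast
    rw [← Real.rpow_natCast (j : ℝ) 2, ← Real.rpow_mul hj0.le]
    norm_num
  have h1 : Tendsto (fun K : ℕ => ∑ j ∈ sqj K 1, (gr (j ^ 2) : ℝ) * (j : ℝ) ^ (-(3 / 2) : ℝ)) atTop (𝓝 M1) := by
    have h2 : HasSum (fun j : ℕ => (gr (j ^ 2) : ℝ) * (j : ℝ) ^ (-(3 / 2) : ℝ)) M1 := hs.hasSum
    have h3 : Tendsto (fun K : ℕ => insert 0 (sqj K 1)) atTop atTop := by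
      refine tendsto_atTop_finset_of_monotone ?_ ?_
      · intro K L hKL j hj
        rcases Finset.mem_insert.mp hj with rfl | hj
        · exact Finset.mem_insert_self _ _
        · refine Finset.mem_insert_of_mem ?_
          rw [mem_sqj' le_rfl] at hj ⊢
          exact ⟨hj.1, hj.2.trans hKL⟩
      · intro j
        refine ⟨j ^ 2, ?_⟩
        rcases Nat.eq_zero_or_pos j with rfl | hj
        · exact Finset.mem_insert_self _ _
        · refine Finset.mem_insert_of_mem ?_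
          rw [mem_sqj' le_rfl]
          exact ⟨hj, by rw [one_mul]⟩
    refine (h2.comp h3).congr fun K => ?_
    rw [Function.comp_apply, Finset.sum_insert]
    · simp [Real.zero_rpow]
    · intro h
      have := (mem_sqj.mp h).1
      omega
  have h2 := h1.const_mul (√2 / 2 * (1 / π))
  have e : √2 / 2 * (1 / π) * M1 = M1 / (√2 * π) := by
    have h3 : √2 ^ 2 = 2 := Real.sq_sqrt (by norm_num)
    have h4 : 0 < √2 := by positivity
    have hπ := Real.pi_pos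
    field_simp
    rw [h3]
  rw [e] at h2
  refine h2.congr fun K => ?_
  rw [mK, mul_assoc, Finset.mul_sum]
  congr 1
  refine Finset.sum_congr rfl fun j hj => ?_
  rw [hc j (mem_sqj.mp hj).1]

end

end Pool.Agent.Helper78.BI
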