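import Mathlib
import Pool.Agent.Helper78.BI.Y

/-!
# The mean of the limit law
-/

open Set Filter MeasureTheory
open scoped Real ComplexConjugate Topology BoundedContinuousFunction

namespace Pool.Agent.Helper78.BI

open Pool.Agent.Helper22.GC (ee ee_add ee_zero ee_int norm_ee conj_ee rho rho_nonneg TK uu gr)
open Pool.Agent.Helper78.GC

noncomputable section

/-- Truncation at the level `L`. -/
def ct (L x : ℝ) : ℝ := max (-L) (min x L)

lemma ct_continuous (L : ℝ) : Continuous (ct L) := by unfold ct; fun_prop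

lemma abs_ct_le {L : ℝ} (hL : 0 ≤ L) (x : ℝ) : |ct L x| ≤ L := by
  rw [ct, abs_le]
  exact ⟨le_max_left _ _, max_le (by linarith) (min_le_right _ _)⟩

lemma abs_ct_le' {L : ℝ} (hL : 0 ≤ L) (x : ℝ) : |ct L x| ≤ |x| := by
  rw [ct, abs_le]
  constructor
  · rcases le_or_gt (-L) (-|x|) with h | h
    · refine le_trans ?_ (le_max_right _ _)
      exact le_min (neg_abs_le x) (by linarith [abs_nonneg x])
    · exact le_trans h.le (le_max_left _ _)
  · refine max_le (by linarith [abs_nonneg x]) ((min_le_left _ _).trans (le_abs_self x))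

lemma ct_lip (L x y : ℝ) : |ct L x - ct L y| ≤ |x - y| := by
  rw [ct, ct]
  refine (abs_max_sub_max_le_max _ _ _ _).trans ?_
  rw [sub_self, abs_zero]
  refine max_le (abs_nonneg _) ?_
  refine (abs_min_sub_min_le_max _ _ _ _).trans ?_
  rw [sub_self, abs_zero]
  exact max_le le_rfl (abs_nonneg _)

lemma ct_eq {L x : ℝ} (h : |x| ≤ L) : ct L x = x := by
  rw [abs_le] at h
  rw [ct, min_eq_left h.2, max_eq_right h.1]

lemma ct_err {L : ℝ} (hL : 0 < L) (x : ℝ) : |ct L x - x| ≤ 1 / L * x ^ 2 := by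
  have h0 : 0 ≤ 1 / L * x ^ 2 := by positivity
  rcases le_or_gt |x| L with h | h
  · rw [ct_eq h, sub_self, abs_zero]; exact h0
  · have h1 : |ct L x - x| ≤ |x| := by
      rcases le_total 0 x with hx | hx
      · rw [abs_of_nonneg hx] at h ⊢
        rw [ct, min_eq_right h.le, max_eq_right (by linarith), abs_le]
        constructor <;> linarith
      · rw [abs_of_nonpos hx] at h ⊢
        rw [ct, min_eq_left (by linarith), max_eq_left (by linarith), abs_le]
        constructor <;> linarith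
    refine h1.trans ?_
    rw [one_div, inv_mul_eq_div, le_div_iff₀ hL, ← sq_abs]
    nlinarith [abs_nonneg x]

/-- Moments of the truncated sums. -/
lemma TK_moments (hV : VarBound) (hF : FourBound) {K : ℕ} (hK : 400 ≤ K) :
    (fun n : ℕ => TK K (n : ℝ)) ∈ RT ⊤ ∧ Lr (fun n : ℕ => TK K (n : ℝ)) = -mK K ∧
      Lr (fun n : ℕ => TK K (n : ℝ) ^ 2) ≤ mK K ^ 2 + 1.51 := by
  obtain ⟨y1, y2, _, _⟩ := YK_moments hV hF hK
  have hY : YK K ∈ RT ⊤ := RT_mono le_top (YK_mem K)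
  have e1 : (fun n : ℕ => TK K (n : ℝ)) = (fun _ => -mK K) + YK K := by
    funext n; rw [TK_nat K n (by omega)]; rfl
  have e2 : (fun n : ℕ => TK K (n : ℝ) ^ 2) = (fun _ => mK K ^ 2) + ((fun n => (-2 * mK K) * YK K n) + fun n => YK K n ^ 2) := by
    funext n; rw [TK_nat K n (by omega)]; simp only [Pi.add_apply]; ring
  refine ⟨RT_mono le_top (TK_mem K), ?_, ?_⟩
  · rw [e1, Lr_add (const_mem_RT ⊤ _) hY, Lr_const, y1, add_zero]
  · rw [e2, Lr_add (const_mem_RT ⊤ _) ((RT ⊤).add_mem (const_mul_mem_RT _ hY) (pow_mem_RT hY 2)),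
      Lr_add (const_mul_mem_RT _ hY) (pow_mem_RT hY 2), Lr_const, Lr_const_mul _ hY, y1, mul_zero, zero_add]
    linarith

/-- The mean of the limit law. -/
theorem law_mean (hV : VarBound) (hF : FourBound)
    (hs : Summable (fun j : ℕ => (gr (j ^ 2) : ℝ) * (j : ℝ) ^ (-(3 / 2) : ℝ)))
    {ν : ProbabilityMeasure (Fin 1 → ℝ)} (hν : IsLaw 1 0 ν) :
    Integrable (fun x : Fin 1 → ℝ => x 0) (ν : Measure (Fin 1 → ℝ)) ∧
      ∫ x : Fin 1 → ℝ, x 0 ∂(ν : Measure (Fin 1 → ℝ)) = -(M1 / (√2 * π)) := by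
  have := Seg_neBot (le_refl (1 / 2 : ℝ))
  set F := Seg (1 / 2) with hFdef
  have hle : F ≤ Gf := Seg_le_Gf (by norm_num)
  set m : ℝ := M1 / (√2 * π) with hm
  obtain ⟨C, hC, hA⟩ := approx (le_refl 1) 0 (by norm_num : (0 : ℝ) < 1 / 2)
  have hA' : ∀ K : ℕ, 1 ≤ K → ∀ᶠ p in F, mr (fun n => (uu 1 0 n - TK K (n : ℝ)) ^ 2) p ≤ C * (K : ℝ) ^ (-(1 / 8) : ℝ) := by
    intro K hK
    filter_upwards [hA K hK] with p hp
    refine (le_of_eq ?_).trans hp
    congr 1
    funext n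
    push_cast
    simp
  -- truncated means
  have hlaw : ∀ L : ℝ, 0 ≤ L → Tendsto (mr (fun n => ct L (uu 1 0 n))) F
      (𝓝 (∫ x, ct L (x 0) ∂(ν : Measure (Fin 1 → ℝ)))) := by
    intro L hL
    let Φ : (Fin 1 → ℝ) →ᵇ ℝ := BoundedContinuousFunction.ofNormedAddCommGroup (fun x => ct L (x 0))
      ((ct_continuous L).comp (continuous_apply 0)) L (fun x => abs_ct_le hL (x 0))
    have := hν (1 / 2) (by norm_num) Φ
    rw [Nat.cast_one, Nat.cast_zero] at this
    exact this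
  have hlawabs : ∀ L : ℝ, 0 ≤ L → Tendsto (mr (fun n => |ct L (uu 1 0 n)|)) F
      (𝓝 (∫ x, |ct L (x 0)| ∂(ν : Measure (Fin 1 → ℝ)))) := by
    intro L hL
    let Φ : (Fin 1 → ℝ) →ᵇ ℝ := BoundedContinuousFunction.ofNormedAddCommGroup (fun x => |ct L (x 0)|)
      (((ct_continuous L).comp (continuous_apply 0)).abs) L (fun x => by
        rw [Real.norm_eq_abs, abs_abs]; exact abs_ct_le hL (x 0))
    have := hν (1 / 2) (by norm_num) Φ
    rw [Nat.cast_one, Nat.cast_zero] at this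
    exact this
  have hsqrt : Tendsto (fun K : ℕ => √(C * (K : ℝ) ^ (-(1 / 8) : ℝ))) atTop (𝓝 0) := by
    have := (Real.continuous_sqrt.tendsto 0).comp (tendsto_rate C)
    rwa [Real.sqrt_zero] at this
  -- bound for the truncated mean
  have hmain : ∀ L : ℝ, 0 < L → |∫ x, ct L (x 0) ∂(ν : Measure (Fin 1 → ℝ)) - -m| ≤ 1 / L * (m ^ 2 + 1.51) := by
    intro L hL
    have hK : ∀ᶠ K : ℕ in atTop, |∫ x, ct L (x 0) ∂(ν : Measure (Fin 1 → ℝ)) - -mK K|
        ≤ √(C * (K : ℝ) ^ (-(1 / 8) : ℝ)) + 1 / L * (mK K ^ 2 + 1.51) := by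
      filter_upwards [eventually_ge_atTop 400] with K hK
      obtain ⟨t0, t1, t2⟩ := TK_moments hV hF hK
      have ht1 := (tendsto_Lr t0).mono_left hle
      have ht2 := (tendsto_Lr (pow_mem_RT t0 2)).mono_left hle
      rw [t1] at ht1
      have h1 : |∫ x, ct L (x 0) ∂(ν : Measure (Fin 1 → ℝ)) - -mK K|
          ≤ √(C * (K : ℝ) ^ (-(1 / 8) : ℝ)) + 1 / L * Lr (fun n : ℕ => TK K (n : ℝ) ^ 2) := by
        refine le_of_tendsto_of_tendsto (((hlaw L hL.le).sub ht1).abs)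
          (tendsto_const_nhds.add (ht2.const_mul (1 / L))) ?_
        filter_upwards [hA' K (by omega), hle eventually_one_le] with p hp hp1
        rw [← mr_sub]
        refine (abs_mr_le _ _).trans ?_
        have h2 : mr (fun n => |ct L (uu 1 0 n) - TK K (n : ℝ)|) p
            ≤ mr (fun n => |uu 1 0 n - TK K (n : ℝ)| + 1 / L * TK K (n : ℝ) ^ 2) p := by
          refine mr_mono fun n _ => ?_
          have a1 := ct_lip L (uu 1 0 n) (TK K (n : ℝ))
          have a2 := ct_err hL (TK K (n : ℝ))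
          have a3 := abs_sub_le (ct L (uu 1 0 n)) (ct L (TK K (n : ℝ))) (TK K (n : ℝ))
          linarith
        refine h2.trans ?_
        rw [mr_add, mr_const_mul]
        have h3 := (mr_abs_le_sqrt (fun n => uu 1 0 n - TK K (n : ℝ)) hp1).trans (Real.sqrt_le_sqrt hp)
        gcongr
      refine h1.trans ?_
      have := mul_le_mul_of_nonneg_left t2 (by positivity : 0 ≤ 1 / L)
      linarith
    have hl : Tendsto (fun K : ℕ => |∫ x, ct L (x 0) ∂(ν : Measure (Fin 1 → ℝ)) - -mK K|) atTop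
        (𝓝 |∫ x, ct L (x 0) ∂(ν : Measure (Fin 1 → ℝ)) - -m|) :=
      ((tendsto_const_nhds.sub (tendsto_mK hs).neg)).abs
    have hr : Tendsto (fun K : ℕ => √(C * (K : ℝ) ^ (-(1 / 8) : ℝ)) + 1 / L * (mK K ^ 2 + 1.51)) atTop
        (𝓝 (0 + 1 / L * (m ^ 2 + 1.51))) :=
      hsqrt.add ((((tendsto_mK hs).pow 2).add_const _).const_mul _)
    rw [zero_add] at hr
    exact le_of_tendsto_of_tendsto hl hr hK
  -- integrability
  obtain ⟨B, hB⟩ : ∃ B : ℝ, ∀ L : ℝ, 0 ≤ L → ∫ x, |ct L (x 0)| ∂(ν : Measure (Fin 1 → ℝ)) ≤ B := by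
    obtain ⟨t0, t1, t2⟩ := TK_moments hV hF (le_refl 400)
    have ht2 := (tendsto_Lr (pow_mem_RT t0 2)).mono_left hle
    refine ⟨√(C * ((400 : ℕ) : ℝ) ^ (-(1 / 8) : ℝ)) + √(Lr (fun n : ℕ => TK 400 (n : ℝ) ^ 2)), fun L hL => ?_⟩
    refine le_of_tendsto_of_tendsto (hlawabs L hL)
      (tendsto_const_nhds.add ((Real.continuous_sqrt.tendsto _).comp ht2)) ?_
    filter_upwards [hA' 400 (by norm_num), hle eventually_one_le] with p hp hp1
    have h2 : mr (fun n => |ct L (uu 1 0 n)|) p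
        ≤ mr (fun n => |uu 1 0 n - TK 400 (n : ℝ)| + |TK 400 (n : ℝ)|) p := by
      refine mr_mono fun n _ => ?_
      have a1 := abs_ct_le' hL (uu 1 0 n)
      have a3 := abs_sub_le (uu 1 0 n) (TK 400 (n : ℝ)) 0
      rw [sub_zero, sub_zero] at a3
      linarith
    refine h2.trans ?_
    rw [mr_add]
    have h3 := (mr_abs_le_sqrt (fun n => uu 1 0 n - TK 400 (n : ℝ)) hp1).trans (Real.sqrt_le_sqrt hp)
    have h4 := mr_abs_le_sqrt (fun n : ℕ => TK 400 (n : ℝ)) hp1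
    exact add_le_add h3 h4
  have hpt : ∀ x : Fin 1 → ℝ, Tendsto (fun N : ℕ => ct N (x 0)) atTop (𝓝 (x 0)) := by
    intro x
    refine tendsto_const_nhds.congr' ?_
    filter_upwards [eventually_ge_atTop ⌈|x 0|⌉₊] with N hN
    rw [ct_eq]
    exact (Nat.le_ceil _).trans (by exact_mod_cast hN)
  have hmeas : ∀ L : ℝ, Measurable (fun x : Fin 1 → ℝ => ct L (x 0)) := fun L =>
    (ct_continuous L).measurable.comp (measurable_pi_apply 0)
  have hint : Integrable (fun x : Fin 1 → ℝ => x 0) (ν : Measure (Fin 1 → ℝ)) := by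
    refine ⟨(measurable_pi_apply 0).aestronglyMeasurable, ?_⟩
    rw [HasFiniteIntegral]
    have h1 : ∫⁻ x : Fin 1 → ℝ, ‖x 0‖ₑ ∂(ν : Measure (Fin 1 → ℝ))
        ≤ liminf (fun N : ℕ => ∫⁻ x : Fin 1 → ℝ, ‖ct N (x 0)‖ₑ ∂(ν : Measure (Fin 1 → ℝ))) atTop := by
      refine le_trans (le_of_eq ?_) (lintegral_liminf_le fun N => (hmeas N).enorm)
      refine lintegral_congr fun x => ?_
      exact ((hpt x).enorm.liminf_eq).symm
    refine h1.trans_lt ?_
    have h2 : ∀ N : ℕ, ∫⁻ x : Fin 1 → ℝ, ‖ct N (x 0)‖ₑ ∂(ν : Measure (Fin 1 → ℝ)) ≤ ENNReal.ofReal B := by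
      intro N
      have hi : Integrable (fun x : Fin 1 → ℝ => ct N (x 0)) (ν : Measure (Fin 1 → ℝ)) :=
        Integrable.of_bound (C := N) (hmeas N).aestronglyMeasurable
          (Eventually.of_forall fun x => abs_ct_le (Nat.cast_nonneg N) (x 0))
      rw [← ofReal_integral_norm_eq_lintegral_enorm hi]
      exact ENNReal.ofReal_le_ofReal (hB N (Nat.cast_nonneg N))
    refine lt_of_le_of_lt ?_ (ENNReal.ofReal_lt_top (r := B))
    exact liminf_le_of_le (by isBoundedDefault) (fun b hb => by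
      obtain ⟨N, hN⟩ := hb.exists
      exact hN.trans (h2 N))
  refine ⟨hint, ?_⟩
  have hlim : Tendsto (fun N : ℕ => ∫ x, ct N (x 0) ∂(ν : Measure (Fin 1 → ℝ))) atTop
      (𝓝 (∫ x : Fin 1 → ℝ, x 0 ∂(ν : Measure (Fin 1 → ℝ)))) := by
    refine tendsto_integral_of_dominated_convergence (fun x : Fin 1 → ℝ => |x 0|)
      (fun N => (hmeas N).aestronglyMeasurable) hint.abs ?_ ?_
    · intro N
      exact Eventually.of_forall fun x => abs_ct_le' (Nat.cast_nonneg N) (x 0)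
    · exact Eventually.of_forall hpt
  have h0 : Tendsto (fun N : ℕ => 1 / (N : ℝ) * (m ^ 2 + 1.51)) atTop (𝓝 0) := by
    have := (tendsto_one_div_atTop_nhds_zero_nat (𝕜 := ℝ)).mul_const (m ^ 2 + 1.51)
    rwa [zero_mul] at this
  have h1 : |∫ x : Fin 1 → ℝ, x 0 ∂(ν : Measure (Fin 1 → ℝ)) - -m| ≤ 0 := by
    refine le_of_tendsto_of_tendsto ((hlim.sub_const _).abs) h0 ?_
    filter_upwards [eventually_ge_atTop 1] with N hN
    exact hmain N (by exact_mod_cast hN)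
  have h2 := abs_eq_zero.mp (le_antisymm h1 (abs_nonneg _))
  linarith

end

end Pool.Agent.Helper78.BI
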