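import Mathlib
import Pool.Agent.Helper78.BI.LawMean

/-!
# The averages in the progressions
-/

open Set Filter MeasureTheory
open scoped Real ComplexConjugate Topology BoundedContinuousFunction

namespace Pool.Agent.Helper78.BI

open Pool.Agent.Helper22.GC (ee ee_add ee_zero ee_int norm_ee conj_ee rho rho_nonneg TK uu gr)
open Pool.Agent.Helper78.GC

noncomputable section

theorem avg_tendsto (hV : VarBound) (hF : FourBound)
    (hs : Summable (fun j : ℕ => (gr (j ^ 2) : ℝ) * (j : ℝ) ^ (-(3 / 2) : ℝ)))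
    {d : ℕ} (hd : 1 ≤ d) (b : ℕ) {ε : ℝ} (hε : 0 < ε) :
    Tendsto (mr (fun n => uu d b n)) (Seg ε) (𝓝 (-(M1 / (√2 * π)))) := by
  obtain ⟨C, hC, hA⟩ := approx hd b hε
  have hle : Seg ε ≤ Gf := Seg_le_Gf hε
  rw [Metric.tendsto_nhds]
  intro δ hδ
  have hsqrt : Tendsto (fun K : ℕ => √(C * (K : ℝ) ^ (-(1 / 8) : ℝ))) atTop (𝓝 0) := by
    have := (Real.continuous_sqrt.tendsto 0).comp (tendsto_rate C)
    rwa [Real.sqrt_zero] at this
  have hK1 : ∀ᶠ K : ℕ in atTop, √(C * (K : ℝ) ^ (-(1 / 8) : ℝ)) < δ / 3 :=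
    hsqrt.eventually (gt_mem_nhds (by positivity))
  have hK2 : ∀ᶠ K : ℕ in atTop, |mK K - M1 / (√2 * π)| < δ / 3 := by
    have := (Metric.tendsto_nhds.mp (tendsto_mK hs)) (δ / 3) (by positivity)
    filter_upwards [this] with K hK
    rwa [Real.dist_eq] at hK
  obtain ⟨K, hK1, hK2, hK⟩ := (hK1.and (hK2.and (eventually_ge_atTop 400))).exists
  obtain ⟨t0, t1, _⟩ := TK_moments hV hF hK
  obtain ⟨s0, s1⟩ := Lr_shift sqf_squarefree hd b (TK_mem K)
  rw [t1] at s1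
  have h3 := (tendsto_Lr s0).mono_left hle
  rw [s1] at h3
  filter_upwards [hA K (by omega), hle eventually_one_le, (Metric.tendsto_nhds.mp h3) (δ / 3) (by positivity)]
    with p hp hp1 hp2
  rw [Real.dist_eq] at hp2 ⊢
  have h4 : |mr (fun n => uu d b n) p - mr (fun n => TK K ((d * n + b : ℕ) : ℝ)) p| ≤ √(C * (K : ℝ) ^ (-(1 / 8) : ℝ)) := by
    rw [← mr_sub]
    exact (abs_mr_le _ _).trans ((mr_abs_le_sqrt _ hp1).trans (Real.sqrt_le_sqrt hp))
  have h5 := abs_sub_le (mr (fun n => uu d b n) p) (mr (fun n => TK K ((d * n + b : ℕ) : ℝ)) p) (-(M1 / (√2 * π)))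
  have h6 := abs_sub_le (mr (fun n => TK K ((d * n + b : ℕ) : ℝ)) p) (-mK K) (-(M1 / (√2 * π)))
  have h7 : |-mK K - -(M1 / (√2 * π))| < δ / 3 := by
    have e : -mK K - -(M1 / (√2 * π)) = -(mK K - M1 / (√2 * π)) := by ring
    rw [e, abs_neg]; exact hK2
  linarith

end

end Pool.Agent.Helper78.BI
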