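import Pool.Agent.Helper78.BI.Fr

/-!
# Project FP/TZ (MP_0f6f3f_an): covariance of the frames

`Fra.cov`: `f (gf (γ k)) - f ((ir k)⁻¹ gf γ) → 0` in the regions, for continuous `f` which are invariant under the elements of `Q` whose block is unitary. `Fra.uc`: the functions on `GG / Q` are uniformly continuous functions of
the position.
-/

set_option autoImplicit false
set_option linter.unusedSectionVars false

open Filter Topology Matrix

namespace Pool.Agent.Helper78.BI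

open Pool.Agent.Helper90.RK Pool.Agent.Helper84.NI Pool.Agent.Helper9 Pool.Agent.Helper35.FP
open Pool.Agent.Helper84.GN.S3

variable {N : ℕ} {q : Fin N} {G : Type} [Group G] {P : PH G N}

section Alg

theorem D_eq {b : Fin N → ℕ} (hb : ∀ i, b i = if q < i then 1 else 0) (A : MN N) :
    D b A = Ef q * A * Ef q + Ee q * A * Ee q := by
  ext i j
  rw [Matrix.add_apply, mul_Ef_apply, Ef_mul_apply, mul_Ee_apply, Ee_mul_apply, D_apply, hb i, hb j]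
  by_cases hi : i ≤ q <;> by_cases hj : j ≤ q <;> simp [hi, hj, not_lt.2, not_le.1]

theorem Ef_D {b : Fin N → ℕ} (hb : ∀ i, b i = if q < i then 1 else 0) (A : MN N) :
    Ef q * D b A = Ef q * A * Ef q := by
  rw [D_eq hb, Matrix.mul_add, ← Matrix.mul_assoc, ← Matrix.mul_assoc, Ef_Ef, ← Matrix.mul_assoc, ← Matrix.mul_assoc, Ef_Ee,
    Matrix.zero_mul, Matrix.zero_mul, add_zero]

theorem D_Ef {b : Fin N → ℕ} (hb : ∀ i, b i = if q < i then 1 else 0) (A : MN N) :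
    D b A * Ef q = Ef q * A * Ef q := by
  rw [D_eq hb, Matrix.add_mul, Matrix.mul_assoc _ (Ef q) (Ef q), Ef_Ef, Matrix.mul_assoc _ (Ee q) (Ef q), Ee_Ef,
    Matrix.mul_zero, add_zero]

/-- A matrix with a positive multiple of the identity as `A* A` in the block. -/
theorem block_scalar {A B : MN N} (hA : Lb q A) (hAB : A * B = 1)
    (h : ∀ i j k l, ((Ef q * A * Ef q)ᴴ * (Ef q * A * Ef q)) i j * (Ef q : MN N) k l =
      ((Ef q * A * Ef q)ᴴ * (Ef q * A * Ef q)) k l * (Ef q : MN N) i j) :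
    ∃ r : ℝ, 0 < r ∧ (bk q A)ᴴ * bk q A = sc q r := by
  obtain ⟨r, hr⟩ : ∃ r : ℝ, r = ∑ k, ‖(Ef q * A * Ef q) k q‖ ^ 2 := ⟨_, rfl⟩
  have h1 : ((Ef q * A * Ef q)ᴴ * (Ef q * A * Ef q)) q q = (r : ℂ) := by
    rw [hr, Matrix.mul_apply]
    push_cast
    refine Finset.sum_congr rfl fun k _ => ?_
    rw [Matrix.conjTranspose_apply, RCLike.star_def, Complex.conj_mul']
  have h2 : (Ef q * A * Ef q)ᴴ * (Ef q * A * Ef q) = (r : ℂ) • Ef q := by
    ext i j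
    have h3 := h i j q q
    have h4 : (Ef q : MN N) q q = 1 := by
      unfold Ef
      rw [diagonal_apply_eq, if_pos le_rfl]
    rw [h4, mul_one, h1] at h3
    rw [h3, Matrix.smul_apply, smul_eq_mul]
  have h3 : (bk q A)ᴴ * bk q A = sc q r := by
    unfold bk
    rw [conjTranspose_add, Ee_star, Matrix.add_mul, Matrix.mul_add, Matrix.mul_add, h2, Ee_Ee, sc_eq]
    have h4 : (Ef q * A * Ef q)ᴴ * Ee q = 0 := by
      rw [conjTranspose_mul, conjTranspose_mul, Ef_star, Matrix.mul_assoc, Matrix.mul_assoc, Ef_Ee, Matrix.mul_zero,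
        Matrix.mul_zero]
    have h5 : Ee q * (Ef q * A * Ef q) = 0 := by
      rw [← Matrix.mul_assoc, ← Matrix.mul_assoc, Ee_Ef, Matrix.zero_mul, Matrix.zero_mul]
    rw [h4, h5, add_zero, zero_add]
  refine ⟨r, lt_of_le_of_ne (by rw [hr]; positivity) fun h0 => ?_, h3⟩
  have h4 : bk q A * bk q B = 1 := by rw [← bk_mul hA, hAB, bk_one]
  have h5 := congrArg Matrix.det h4
  rw [det_mul, det_one] at h5
  have h6 := congrArg Matrix.det h3
  rw [det_mul, det_sc, ← h0, Complex.ofReal_zero, zero_pow (Nat.succ_ne_zero _), det_conjTranspose] at h6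
  rcases mul_eq_zero.1 h6 with h7 | h7
  · rw [star_eq_zero.1 h7, zero_mul] at h5
    exact zero_ne_one h5
  · rw [h7, zero_mul] at h5
    exact zero_ne_one h5

end Alg

namespace Fra

variable {s : Sg N q} {S : Sv P} (F : Fra s S)

/-- The comparison element. -/
noncomputable def pp (k γ : G) : s.M := (F.κ γ * F.dd γ)⁻¹ * F.ie k * (F.κ (γ * k) * F.dd (γ * k))

theorem mt_pp (k γ : G) : s.mt (F.pp k γ) = s.mt (F.dd γ)⁻¹ * S.m 1 k γ * s.mt (F.dd (γ * k)) := by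
  unfold pp Sv.m
  rw [_root_.mul_inv_rev, Sg.mt_mul, Sg.mt_mul, Sg.mt_mul, Sg.mt_mul, mt_κ, mt_κ_inv, mt_ie, inv_one, one_mul]
  simp only [Matrix.mul_assoc]

/-- the block of the comparison element -/
theorem block_pp (T : Str S) (hb : ∀ i, T.b i = if q < i then 1 else 0) {k γ : G} {O : MN N} (hO : D T.b O = O) {c : ℂ}
    (h : T.C 1 k γ * S.X (γ * k) = c • (S.X γ * O)) :
    ∃ z : ℂ, Ef q * s.mt (F.pp k γ) * Ef q = z • (Ef q * O * Ef q) := by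
  obtain ⟨t, ht⟩ : ∃ t : ℝ, t = dt q (S.X γ) := ⟨_, rfl⟩
  obtain ⟨t', ht'⟩ : ∃ t' : ℝ, t' = dt q (S.X (γ * k)) := ⟨_, rfl⟩
  have ht0 : t ≠ 0 := by rw [ht]; exact (dtX_pos γ).ne'
  have ht0' : t' ≠ 0 := by rw [ht']; exact (dtX_pos _).ne'
  have e1 : Ef q * S.X γ = (t : ℂ) • (Ef q * s.mt (F.dd γ)) := by
    rw [ht, mt_dd]
    exact Ef_nu_diag (dtX_pos (q := q) (S := S) γ).ne'
  have e1' : Ef q * S.X (γ * k) = (t' : ℂ) • (Ef q * s.mt (F.dd (γ * k))) := by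
    rw [ht', mt_dd]
    exact Ef_nu_diag (dtX_pos (q := q) (S := S) (γ * k)).ne'
  have c1 : ∀ γ, Ef q * s.mt (F.dd γ) = s.mt (F.dd γ) * Ef q := by
    intro γ
    rw [mt_dd]
    unfold Sv.X
    rw [nu_diag, Ef_diag]
  have c2 : ∀ γ, Ef q * s.mt (F.dd γ)⁻¹ = s.mt (F.dd γ)⁻¹ * Ef q := by
    intro γ
    calc Ef q * s.mt (F.dd γ)⁻¹ = s.mt (F.dd γ)⁻¹ * (s.mt (F.dd γ) * Ef q) * s.mt (F.dd γ)⁻¹ := by
          rw [← Matrix.mul_assoc, s.mt_inv_mul, Matrix.one_mul]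
      _ = s.mt (F.dd γ)⁻¹ * Ef q := by
          rw [← c1, Matrix.mul_assoc, Matrix.mul_assoc, s.mt_mul_inv, Matrix.mul_one]
  have c3 : ∀ γ, Ef q * S.X γ = S.X γ * Ef q := fun γ => Ef_diag _
  have cO : Ef q * O = O * Ef q := by rw [← hO, Ef_D hb, D_Ef hb]
  -- the block of the relation
  have h1 : (t' : ℂ) • (Ef q * S.m 1 k γ * (Ef q * s.mt (F.dd (γ * k)))) = (c * t) • (s.mt (F.dd γ) * (Ef q * O)) := by
    calc (t' : ℂ) • (Ef q * S.m 1 k γ * (Ef q * s.mt (F.dd (γ * k))))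
        = Ef q * S.m 1 k γ * (Ef q * S.X (γ * k)) := by rw [e1', Matrix.mul_smul]
      _ = Ef q * S.m 1 k γ * Ef q * S.X (γ * k) := by rw [Matrix.mul_assoc _ (Ef q)]
      _ = Ef q * (T.C 1 k γ * S.X (γ * k)) := by
          unfold Str.C
          rw [← Matrix.mul_assoc, Ef_D hb]
      _ = c • (Ef q * S.X γ * O) := by rw [h, Matrix.mul_smul, ← Matrix.mul_assoc]
      _ = (c * t) • (s.mt (F.dd γ) * (Ef q * O)) := by
          rw [e1, Matrix.smul_mul, smul_smul, c1, Matrix.mul_assoc]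
  refine ⟨(t' : ℂ)⁻¹ * (c * t), ?_⟩
  have h2 : Ef q * s.mt (F.pp k γ) * Ef q = s.mt (F.dd γ)⁻¹ * (Ef q * S.m 1 k γ * (Ef q * s.mt (F.dd (γ * k)))) := by
    rw [mt_pp, c1 (γ * k)]
    calc Ef q * (s.mt (F.dd γ)⁻¹ * S.m 1 k γ * s.mt (F.dd (γ * k))) * Ef q
        = (Ef q * s.mt (F.dd γ)⁻¹) * S.m 1 k γ * (s.mt (F.dd (γ * k)) * Ef q) := by simp only [Matrix.mul_assoc]
      _ = _ := by
          rw [c2]
          simp only [Matrix.mul_assoc]
  have ht0c : (t' : ℂ) ≠ 0 := Complex.ofReal_ne_zero.2 ht0'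
  have h3 : Ef q * S.m 1 k γ * (Ef q * s.mt (F.dd (γ * k))) = ((t' : ℂ)⁻¹ * (c * t)) • (s.mt (F.dd γ) * (Ef q * O)) := by
    rw [← smul_smul, ← h1, smul_smul, inv_mul_cancel₀ ht0c, one_smul]
  rw [h2, h3, Matrix.mul_smul, ← Matrix.mul_assoc, s.mt_inv_mul, Matrix.one_mul, Matrix.mul_assoc (Ef q) O, ← cO,
    ← Matrix.mul_assoc, Ef_Ef]

/-- The limits of the comparison elements are elements of `Qh` whose block is unitary up to a scalar. -/
theorem lim_pp (T : Str S) (hb : ∀ i, T.b i = if q < i then 1 else 0) (k : G) {n : ℕ} {l : Filter G} [l.NeBot]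
    (hl : l ≤ T.F n) {κ0 κ1 d0 d1 : s.M} (h0 : Tendsto F.κ l (𝓝 κ0)) (h1 : Tendsto (fun γ => F.κ (γ * k)) l (𝓝 κ1))
    (hd0 : Tendsto F.dd l (𝓝 d0)) (hd1 : Tendsto (fun γ => F.dd (γ * k)) l (𝓝 d1)) :
    (κ0 * d0)⁻¹ * F.ie k * (κ1 * d1) ∈ s.Qh ∧
      ∃ r : ℝ, 0 < r ∧ (bk q (s.mt ((κ0 * d0)⁻¹ * F.ie k * (κ1 * d1))))ᴴ *
        bk q (s.mt ((κ0 * d0)⁻¹ * F.ie k * (κ1 * d1))) = sc q r := by
  have hp : Tendsto (F.pp k) l (𝓝 ((κ0 * d0)⁻¹ * F.ie k * (κ1 * d1))) :=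
    ((h0.mul hd0).inv.mul_const _).mul (h1.mul hd1)
  have q0 : d0 ∈ s.Qh := isClosed_Qh.mem_of_tendsto hd0 (Eventually.of_forall fun γ => F.dd_mem γ)
  have q1 : d1 ∈ s.Qh := isClosed_Qh.mem_of_tendsto hd1 (Eventually.of_forall fun γ => F.dd_mem _)
  have qm : κ0⁻¹ * F.ie k * κ1 ∈ s.Qh := by
    have hm : Tendsto (fun γ => (F.κ γ)⁻¹ * F.ie k * F.κ (γ * k)) l (𝓝 (κ0⁻¹ * F.ie k * κ1)) :=
      (h0.inv.mul_const _).mul h1
    have hm' := (s.continuous_mt.tendsto _).comp hm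
    rw [Sg.mem_Qh, lb_iff]
    intro i j hi hj
    have h2 : Tendsto (fun γ => s.mt ((F.κ γ)⁻¹ * F.ie k * F.κ (γ * k)) i j) l (𝓝 (s.mt (κ0⁻¹ * F.ie k * κ1) i j)) :=
      ((continuous_id.matrix_elem i j).tendsto _).comp hm'
    have h3 := (T.tendsto_m 1 k n (i := i) (j := j) (by
      rw [hb, hb, if_neg (not_lt.2 hi), if_pos hj]
      exact zero_lt_one)).mono_left hl
    refine tendsto_nhds_unique h2 (h3.congr fun γ => ?_)
    unfold Sv.m
    rw [Sg.mt_mul, Sg.mt_mul, mt_κ, mt_κ_inv, mt_ie, inv_one, one_mul]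
  have hpq : (κ0 * d0)⁻¹ * F.ie k * (κ1 * d1) ∈ s.Qh := by
    have h2 : (κ0 * d0)⁻¹ * F.ie k * (κ1 * d1) = d0⁻¹ * (κ0⁻¹ * F.ie k * κ1) * d1 := by group
    rw [h2]
    exact s.Qh.mul_mem (s.Qh.mul_mem (s.Qh.inv_mem q0) qm) q1
  refine ⟨hpq, block_scalar hpq (s.mt_mul_inv _) fun i j k' l' => ?_⟩
  obtain ⟨O, hO, hc, hlim⟩ := T.C_right k
  have hpm := (s.continuous_mt.tendsto _).comp hp
  have hcA : Continuous fun A : MN N => (Ef q * A * Ef q)ᴴ * (Ef q * A * Ef q) := by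
    have h2 : Continuous fun A : MN N => Ef q * A * Ef q := (continuous_const.mul continuous_id).mul continuous_const
    exact h2.matrix_conjTranspose.mul h2
  have hA : ∀ i j, Tendsto (fun γ => ((Ef q * s.mt (F.pp k γ) * Ef q)ᴴ * (Ef q * s.mt (F.pp k γ) * Ef q)) i j) l
      (𝓝 (((Ef q * s.mt ((κ0 * d0)⁻¹ * F.ie k * (κ1 * d1)) * Ef q)ᴴ *
        (Ef q * s.mt ((κ0 * d0)⁻¹ * F.ie k * (κ1 * d1)) * Ef q)) i j)) := fun i j =>
    ((hcA.matrix_elem i j).tendsto _).comp hpm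
  have hB : ∀ i j, Tendsto (fun γ => (Ef q * ((O γ)ᴴ * O γ) * Ef q) i j) l (𝓝 ((Ef q : MN N) i j)) := fun i j => by
    have h2 : Continuous fun A : MN N => Ef q * A * Ef q := (continuous_const.mul continuous_id).mul continuous_const
    have h3 := ((h2.matrix_elem i j).tendsto _).comp ((hlim n).mono_left hl)
    rw [Matrix.mul_one, Ef_Ef] at h3
    exact h3
  have hrel : ∀ γ, ((Ef q * s.mt (F.pp k γ) * Ef q)ᴴ * (Ef q * s.mt (F.pp k γ) * Ef q)) i j *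
      (Ef q * ((O γ)ᴴ * O γ) * Ef q) k' l' =
      ((Ef q * s.mt (F.pp k γ) * Ef q)ᴴ * (Ef q * s.mt (F.pp k γ) * Ef q)) k' l' *
      (Ef q * ((O γ)ᴴ * O γ) * Ef q) i j := by
    intro γ
    obtain ⟨c, -, h2⟩ := hc γ
    obtain ⟨z, hz⟩ := F.block_pp T hb (hO γ) h2
    have cO : Ef q * O γ = O γ * Ef q := by rw [← hO γ, Ef_D hb, D_Ef hb]
    have h3 : (Ef q * s.mt (F.pp k γ) * Ef q)ᴴ * (Ef q * s.mt (F.pp k γ) * Ef q) =
        (star z * z) • (Ef q * ((O γ)ᴴ * O γ) * Ef q) := by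
      rw [hz, conjTranspose_smul, Matrix.smul_mul, Matrix.mul_smul, smul_smul]
      congr 1
      rw [conjTranspose_mul, conjTranspose_mul, Ef_star]
      calc Ef q * ((O γ)ᴴ * Ef q) * (Ef q * O γ * Ef q) = Ef q * (O γ)ᴴ * (Ef q * Ef q * O γ) * Ef q := by
            simp only [Matrix.mul_assoc]
        _ = Ef q * ((O γ)ᴴ * O γ) * (Ef q * Ef q) := by
            rw [Ef_Ef (q := q), cO]
            simp only [Matrix.mul_assoc, Ef_Ef]
        _ = _ := by rw [Ef_Ef]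
    rw [h3, Matrix.smul_apply, Matrix.smul_apply, smul_eq_mul, smul_eq_mul]
    ring
  exact tendsto_nhds_unique ((hA i j).mul (hB k' l')) (((hA k' l').mul (hB i j)).congr fun γ => (hrel γ).symm)

theorem exists_lim {X : Type} (𝒰 : Ultrafilter X) {f : X → s.M} {K : Set s.M} (hK : IsCompact K)
    (h : ∀ᶠ x in (𝒰 : Filter X), f x ∈ K) : ∃ g ∈ K, Tendsto f 𝒰 (𝓝 g) := by
  obtain ⟨g, hg, h1⟩ := hK.ultrafilter_le_nhds (𝒰.map f) (le_principal_iff.2 h)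
  exact ⟨g, hg, h1⟩

/-- **Covariance.** -/
theorem cov (T : Str S) (hb : ∀ i, T.b i = if q < i then 1 else 0) {f : s.GG → ℂ} (hf : Continuous f)
    (hinv : ∀ (g : s.GG) (x : s.geo.Q), s.geo.nb x ∈ s.KG → f (g * x) = f g) (k : G) (n : ℕ) :
    Tendsto (fun γ => f (F.gf (γ * k)) - f ((F.ir k)⁻¹ * F.gf γ)) (T.F n) (𝓝 0) := by
  rw [tendsto_iff_ultrafilter]
  intro 𝒰 h𝒰
  have bd : ∀ n, ∃ R : ℝ, ∀ γ ∈ T.W n, F.dd γ ∈ s.Bl R := by
    intro n
    obtain ⟨K, hK⟩ := T.cpt n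
    exact ⟨_, fun γ hγ => F.dd_bound fun i j hi hj => hK γ hγ i j (by rw [hb, hb, if_neg (not_lt.2 hi), if_neg (not_lt.2 hj)])⟩
  obtain ⟨R, hR⟩ := bd n
  obtain ⟨n', hn'⟩ := T.shift 1 k n
  obtain ⟨R', hR'⟩ := bd n'
  have e0 : ∀ᶠ γ in (𝒰 : Filter G), F.dd γ ∈ s.Bl R := by
    filter_upwards [h𝒰 (le_principal_iff.1 (T.le n))] with γ hγ
    exact hR γ hγ
  have e1 : ∀ᶠ γ in (𝒰 : Filter G), F.dd (γ * k) ∈ s.Bl R' := by
    filter_upwards [h𝒰 (hn' (le_principal_iff.1 (T.le n')))] with γ hγ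
    have h2 := hR' _ hγ
    simp only [inv_one, one_mul] at h2
    exact h2
  obtain ⟨κ0, -, hκ0⟩ := exists_lim 𝒰 s.isCompact_UU (f := F.κ) (Eventually.of_forall fun γ => S.uR γ)
  obtain ⟨κ1, -, hκ1⟩ := exists_lim 𝒰 s.isCompact_UU (f := fun γ => F.κ (γ * k)) (Eventually.of_forall fun γ => S.uR _)
  obtain ⟨d0, -, hd0⟩ := exists_lim 𝒰 (s.isCompact_ball R) e0
  obtain ⟨d1, -, hd1⟩ := exists_lim 𝒰 (s.isCompact_ball R') e1
  obtain ⟨hq, r, hr, hu⟩ := F.lim_pp T hb k h𝒰 hκ0 hκ1 hd0 hd1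
  have hpr : Continuous s.pr := continuous_quotient_mk'
  have l1 : Tendsto (fun γ => f (F.gf (γ * k))) 𝒰 (𝓝 (f (s.pr (κ1 * d1)))) :=
    ((hf.comp hpr).tendsto _).comp (hκ1.mul hd1)
  have l2 : Tendsto (fun γ => f ((F.ir k)⁻¹ * F.gf γ)) 𝒰 (𝓝 (f ((F.ir k)⁻¹ * s.pr (κ0 * d0)))) :=
    ((hf.comp (continuous_const.mul hpr)).tendsto _).comp (hκ0.mul hd0)
  have h3 : f (s.pr (κ1 * d1)) = f ((F.ir k)⁻¹ * s.pr (κ0 * d0)) := by
    have h4 : s.pr (κ1 * d1) = (F.ir k)⁻¹ * s.pr (κ0 * d0) *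
        (s.prQ ⟨(κ0 * d0)⁻¹ * F.ie k * (κ1 * d1), hq⟩ : s.QG) := by
      rw [s.prQ_coe, ir_apply, ← map_inv, ← map_mul, ← map_mul]
      congr 1
      group
    rw [h4]
    refine hinv _ _ ?_
    change s.nbG _ ∈ _
    rw [s.nbG_prQ]
    exact s.nb0_mem (isU_nu hr hu)
  have l3 := l1.sub l2
  rw [h3, sub_self] at l3
  exact l3

/-- **The functions on `GG / Q` are uniformly continuous functions of the position.** -/
theorem uc {b : Fin N → ℕ} (hb : ∀ i, b i = if q < i then 1 else 0) {f : s.GG → ℂ} (hf : Yf s.geo f) :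
    UC (posPD S b) fun γ => f (F.gf γ) := by
  by_contra hne
  unfold UC at hne
  push Not at hne
  obtain ⟨ε, hε, h⟩ := hne
  have h' : ∀ n : ℕ, ∃ γ γ' : G, (posPD S b).d γ γ' < 1 / ((n : ℝ) + 1) ∧ ε < ‖f (F.gf γ) - f (F.gf γ')‖ := fun n =>
    h _ (by positivity)
  choose u v huv huv' using h'
  let 𝒰 : Ultrafilter ℕ := hyperfilter ℕ
  obtain ⟨κ0, hU0, hκ0⟩ := exists_lim 𝒰 s.isCompact_UU (f := fun n => F.κ (u n)) (Eventually.of_forall fun γ => S.uR _)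
  obtain ⟨κ1, hU1, hκ1⟩ := exists_lim 𝒰 s.isCompact_UU (f := fun n => F.κ (v n)) (Eventually.of_forall fun γ => S.uR _)
  have hpr : Continuous s.pr := continuous_quotient_mk'
  have hgf : ∀ γ, f (F.gf γ) = f (s.pr (F.κ γ)) := by
    intro γ
    have h1 := hf.inv (s.pr (F.κ γ)) (s.prQ ⟨F.dd γ, F.dd_mem γ⟩)
    rw [s.prQ_coe, ← map_mul] at h1
    exact h1
  have l0 : Tendsto (fun n => f (F.gf (u n))) 𝒰 (𝓝 (f (s.pr κ0))) := by
    simp only [hgf]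
    exact ((hf.cont.comp hpr).tendsto _).comp hκ0
  have l1 : Tendsto (fun n => f (F.gf (v n))) 𝒰 (𝓝 (f (s.pr κ1))) := by
    simp only [hgf]
    exact ((hf.cont.comp hpr).tendsto _).comp hκ1
  have hproj : s.mt κ0 * Ef q * (s.mt κ0)ᴴ = s.mt κ1 * Ef q * (s.mt κ1)ᴴ := by
    have hc : Continuous fun g : s.M => s.mt g * Ef q * (s.mt g)ᴴ :=
      (s.continuous_mt.mul continuous_const).mul s.continuous_mt.matrix_conjTranspose
    have a0 := ((hc.tendsto _).comp hκ0)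
    have a1 := ((hc.tendsto _).comp hκ1)
    have hd : Tendsto (fun n => (posPD S b).d (u n) (v n)) (𝒰 : Filter ℕ) (𝓝 0) := by
      have h1 : Tendsto (fun n : ℕ => 1 / ((n : ℝ) + 1)) (𝒰 : Filter ℕ) (𝓝 0) :=
        tendsto_one_div_add_atTop_nhds_zero_nat.mono_left Nat.hyperfilter_le_atTop
      exact squeeze_zero (fun n => Pool.Agent.Helper78.BM.d_nonneg _ _ _) (fun n => (huv n).le) h1
    ext i j
    have a0' := ((continuous_id.matrix_elem i j).tendsto _).comp a0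
    have a1' := ((continuous_id.matrix_elem i j).tendsto _).comp a1
    have a2 := a0'.sub a1'
    have hz : Tendsto (fun n => (S.kR (u n) * Ef q * (S.kR (u n))ᴴ) i j - (S.kR (v n) * Ef q * (S.kR (v n))ᴴ) i j)
        (𝒰 : Filter ℕ) (𝓝 0) := by
      rw [tendsto_zero_iff_norm_tendsto_zero]
      refine squeeze_zero (fun n => norm_nonneg _) (fun n => ?_) hd
      have hpos : ∀ γ, pos S b γ q = S.kR γ * Ef q * (S.kR γ)ᴴ := by
        intro γ
        unfold pos Ef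
        congr 3
        funext i
        rw [hb, hb, if_neg (lt_irrefl q)]
        by_cases hi : i ≤ q
        · rw [if_neg (not_lt.2 hi), if_pos hi, if_pos rfl]
        · rw [if_pos (not_le.1 hi), if_neg hi, if_neg one_ne_zero]
      have h1 : ‖(pos S b (u n) q - pos S b (v n) q) i j‖ ≤ Real.sqrt (ns (pos S b (u n) q - pos S b (v n) q)) :=
        Pool.Agent.Helper90.RK.norm_apply_le' _ i j
      rw [hpos, hpos, Matrix.sub_apply] at h1
      refine h1.trans ?_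
      change _ ≤ pdist S b (u n) (v n)
      unfold pdist
      rw [← hpos, ← hpos]
      exact Finset.single_le_sum (f := fun j => Real.sqrt (ns (pos S b (u n) j - pos S b (v n) j)))
        (fun j _ => Real.sqrt_nonneg _) (Finset.mem_univ q)
    exact sub_eq_zero.1 (tendsto_nhds_unique a2 hz)
  have hq : κ0⁻¹ * κ1 ∈ s.Qh := by
    have u0 : (s.mt κ0)ᴴ * s.mt κ0 = 1 := hU0
    have u1 : (s.mt κ1)ᴴ * s.mt κ1 = 1 := hU1
    have i0 : s.mt κ0⁻¹ = (s.mt κ0)ᴴ := by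
      calc s.mt κ0⁻¹ = (s.mt κ0)ᴴ * s.mt κ0 * s.mt κ0⁻¹ := by rw [u0, Matrix.one_mul]
        _ = _ := by rw [Matrix.mul_assoc, s.mt_mul_inv, Matrix.mul_one]
    change Lb q (s.mt (κ0⁻¹ * κ1))
    rw [Sg.mt_mul, i0]
    unfold Lb
    calc Ef q * ((s.mt κ0)ᴴ * s.mt κ1) * Ee q
        = (s.mt κ0)ᴴ * (s.mt κ0 * Ef q * (s.mt κ0)ᴴ) * s.mt κ1 * Ee q := by
          have : (s.mt κ0)ᴴ * (s.mt κ0 * Ef q * (s.mt κ0)ᴴ) = Ef q * (s.mt κ0)ᴴ := by
            rw [← Matrix.mul_assoc, ← Matrix.mul_assoc, u0, Matrix.one_mul]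
          rw [this]
          simp only [Matrix.mul_assoc]
      _ = (s.mt κ0)ᴴ * s.mt κ1 * Ef q * ((s.mt κ1)ᴴ * s.mt κ1) * Ee q := by
          rw [hproj]
          simp only [Matrix.mul_assoc]
      _ = 0 := by rw [u1, Matrix.mul_one, Matrix.mul_assoc, Ef_Ee, Matrix.mul_zero]
  have h3 : f (s.pr κ1) = f (s.pr κ0) := by
    have h4 := hf.inv (s.pr κ0) (s.prQ ⟨κ0⁻¹ * κ1, hq⟩)
    rw [s.prQ_coe, ← map_mul, mul_inv_cancel_left] at h4
    exact h4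
  have l3 := (l0.sub l1).norm
  rw [h3, sub_self, norm_zero] at l3
  exact absurd (ge_of_tendsto l3 (Eventually.of_forall fun n => (huv' n).le)) (not_le.2 hε)

end Fra

end Pool.Agent.Helper78.BI
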