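import Mathlib
import Pool.Agent.Helper78.BI.Defs

/-!
# Jacobi's two squares formula for `gr`
-/

open Set

namespace Pool.Agent.Helper78.BI

open Pool.Agent.Helper22.GC (gr gS gS_finite gS_mul_subset isUnit_mem_gS)

lemma mem_gS {n : ℕ} {z : GaussianInt} : z ∈ gS n ↔ z.norm = n := Iff.rfl

lemma gS_one_eq : gS 1 = ({1, -1, ⟨0, 1⟩, ⟨0, -1⟩} : Set GaussianInt) := by
  ext z
  rw [mem_gS, Zsqrtd.norm_def]
  simp only [Set.mem_insert_iff, Set.mem_singleton_iff]
  constructor
  · intro h
    have h' : z.re * z.re + z.im * z.im = 1 := by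
      have : z.re * z.re - -1 * z.im * z.im = 1 := by exact_mod_cast h
      linarith
    have h1 : -1 ≤ z.re := by nlinarith [mul_self_nonneg z.im]
    have h2 : z.re ≤ 1 := by nlinarith [mul_self_nonneg z.im]
    have h3 : -1 ≤ z.im := by nlinarith [mul_self_nonneg z.re]
    have h4 : z.im ≤ 1 := by nlinarith [mul_self_nonneg z.re]
    have hr : z.re = -1 ∨ z.re = 0 ∨ z.re = 1 := by omega
    have hi : z.im = -1 ∨ z.im = 0 ∨ z.im = 1 := by omega
    rcases hr with hr | hr | hr <;> rcases hi with hi | hi | hi <;> rw [hr, hi] at h' <;>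
      first
      | (exfalso; revert h'; norm_num; done)
      | (left; apply Zsqrtd.ext <;> simp [hr, hi]; done)
      | (right; left; apply Zsqrtd.ext <;> simp [hr, hi]; done)
      | (right; right; left; apply Zsqrtd.ext <;> simp [hr, hi]; done)
      | (right; right; right; apply Zsqrtd.ext <;> simp [hr, hi]; done)
  · rintro (rfl | rfl | rfl | rfl) <;> simp

theorem gr_one : gr 1 = 4 := by
  show (gS 1).ncard = 4
  rw [gS_one_eq]
  have : ({1, -1, ⟨0, 1⟩, ⟨0, -1⟩} : Set GaussianInt) =
      ((({1, -1, ⟨0, 1⟩, ⟨0, -1⟩} : Finset GaussianInt)) : Set GaussianInt) := by simp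
  rw [this, Set.ncard_coe_finset]
  decide

lemma isUnit_of_mem {u : GaussianInt} (hu : u ∈ gS 1) : IsUnit u := by
  rw [← Zsqrtd.norm_eq_one_iff' (by norm_num)]
  rw [mem_gS] at hu
  exact_mod_cast hu

lemma mul_star_of_mem {n : ℕ} {z : GaussianInt} (hz : z ∈ gS n) : z * star z = (n : GaussianInt) := by
  rw [mem_gS] at hz
  rw [← Zsqrtd.norm_eq_mul_conj z, hz]
  push_cast
  rfl

lemma star_mem {n : ℕ} {z : GaussianInt} (hz : z ∈ gS n) : star z ∈ gS n := by
  rw [mem_gS] at hz ⊢
  rw [← hz, Zsqrtd.norm_def, Zsqrtd.norm_def]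
  simp

lemma mul_mem {m n : ℕ} {x y : GaussianInt} (hx : x ∈ gS m) (hy : y ∈ gS n) :
    x * y ∈ gS (m * n) := by
  rw [mem_gS] at hx hy ⊢
  rw [Zsqrtd.norm_mul, hx, hy]
  push_cast
  rfl

lemma pow_mem {n : ℕ} {x : GaussianInt} (hx : x ∈ gS n) (e : ℕ) : x ^ e ∈ gS (n ^ e) := by
  induction e with
  | zero =>
    rw [pow_zero, pow_zero]
    exact isUnit_mem_gS isUnit_one
  | succ e ih =>
    rw [pow_succ, pow_succ]
    exact mul_mem ih hx

lemma ne_zero_of_mem {n : ℕ} (hn : 0 < n) {x : GaussianInt} (hx : x ∈ gS n) : x ≠ 0 := by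
  rintro rfl
  rw [mem_gS] at hx
  simp at hx
  omega

/-- A Gaussian integer whose square divides nothing: coprimality of norms. -/
lemma isCoprime_of_mem {m n : ℕ} (h : Nat.Coprime m n) {x y : GaussianInt} (hx : x ∈ gS m)
    (hy : y ∈ gS n) : IsCoprime x y := by
  have h1 : IsCoprime (m : ℤ) (n : ℤ) := Nat.isCoprime_iff_coprime.mpr h
  obtain ⟨a, b, hab⟩ := h1
  refine ⟨(a : GaussianInt) * star x, (b : GaussianInt) * star y, ?_⟩
  have e1 : (a : GaussianInt) * star x * x = (a : GaussianInt) * (m : GaussianInt) := by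
    rw [← mul_star_of_mem hx]; ring
  have e2 : (b : GaussianInt) * star y * y = (b : GaussianInt) * (n : GaussianInt) := by
    rw [← mul_star_of_mem hy]; ring
  rw [e1, e2]
  have : ((a * m + b * n : ℤ) : GaussianInt) = ((1 : ℤ) : GaussianInt) := by rw [hab]
  push_cast at this
  exact this

theorem gr_coprime {m n : ℕ} (hm : 0 < m) (hn : 0 < n) (h : Nat.Coprime m n) :
    4 * gr (m * n) = gr m * gr n := by
  classical
  have e1 : gr m * gr n = ((gS_finite m).toFinset ×ˢ (gS_finite n).toFinset).card := by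
    rw [Finset.card_product, ← Set.ncard_eq_toFinset_card _ (gS_finite m),
      ← Set.ncard_eq_toFinset_card _ (gS_finite n)]
    rfl
  have e2 : gr (m * n) = ((gS_finite (m * n)).toFinset).card :=
    Set.ncard_eq_toFinset_card _ (gS_finite (m * n))
  rw [e1, e2]
  have hmaps : ∀ q ∈ (gS_finite m).toFinset ×ˢ (gS_finite n).toFinset,
      (fun q : GaussianInt × GaussianInt => q.1 * q.2) q ∈ (gS_finite (m * n)).toFinset := by
    intro q hq
    rw [Finset.mem_product, Set.Finite.mem_toFinset, Set.Finite.mem_toFinset] at hq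
    rw [Set.Finite.mem_toFinset]
    exact mul_mem hq.1 hq.2
  rw [Finset.card_eq_sum_card_fiberwise hmaps]
  rw [Finset.sum_const_nat (m := 4)]
  · ring
  intro z hz
  rw [Set.Finite.mem_toFinset] at hz
  obtain ⟨x, hx, y, hy, hxy⟩ := gS_mul_subset hm hn h hz
  have hxy' : x * y = z := hxy
  have hx0 := ne_zero_of_mem hm hx
  have hfib : (Finset.filter (fun q : GaussianInt × GaussianInt => q.1 * q.2 = z)
      ((gS_finite m).toFinset ×ˢ (gS_finite n).toFinset)) =
      ((gS_finite 1).toFinset).image (fun u => (u * x, star u * y)) := by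
    ext ⟨a, b⟩
    rw [Finset.mem_filter, Finset.mem_product, Set.Finite.mem_toFinset, Set.Finite.mem_toFinset,
      Finset.mem_image]
    constructor
    · rintro ⟨⟨ha, hb⟩, hab⟩
      have hab' : a * b = x * y := by rw [hxy']; exact hab
      have hdv : a ∣ x := by
        have h1 : a ∣ x * y := Dvd.intro _ hab'
        exact (isCoprime_of_mem h ha hy).dvd_of_dvd_mul_right h1
      have hdv2 : x ∣ a := by
        have h1 : x ∣ a * b := Dvd.intro _ hab'.symm
        exact (isCoprime_of_mem h hx hb).dvd_of_dvd_mul_right h1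
      obtain ⟨u, hu⟩ := associated_of_dvd_dvd hdv2 hdv
      refine ⟨u, ?_, ?_⟩
      · rw [Set.Finite.mem_toFinset]
        exact isUnit_mem_gS u.isUnit
      · have hu1 : (u : GaussianInt) * star (u : GaussianInt) = 1 := by
          have := mul_star_of_mem (isUnit_mem_gS u.isUnit)
          simpa using this
        have hb' : b = star (u : GaussianInt) * y := by
          have h2 : x * ((u : GaussianInt) * b) = x * y := by
            rw [← mul_assoc, hu, hab']
          have h3 := mul_left_cancel₀ hx0 h2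
          rw [← h3, ← mul_assoc, mul_comm (star _), hu1, one_mul]
        rw [hb', ← hu, mul_comm x]
    · rintro ⟨u, hu, huv⟩
      rw [Set.Finite.mem_toFinset] at hu
      rw [Prod.mk.injEq] at huv
      obtain ⟨rfl, rfl⟩ := huv
      refine ⟨⟨?_, ?_⟩, ?_⟩
      · have := mul_mem hu hx
        rwa [one_mul] at this
      · have := mul_mem (star_mem hu) hy
        rwa [one_mul] at this
      · have h2 := mul_star_of_mem hu
        have h3 : (u * x) * (star u * y) = (u * star u) * (x * y) := by ring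
        show (u * x) * (star u * y) = z
        rw [h3, h2, hxy']
        simp
  show (Finset.filter (fun q : GaussianInt × GaussianInt => q.1 * q.2 = z) _).card = 4
  rw [hfib, Finset.card_image_of_injective]
  · rw [← Set.ncard_eq_toFinset_card _ (gS_finite 1)]
    exact gr_one
  · intro u v huv
    rw [Prod.mk.injEq] at huv
    exact mul_right_cancel₀ hx0 huv.1

theorem gr_two_pow (e : ℕ) : gr (2 ^ e) = 4 := by
  induction e with
  | zero => rw [pow_zero]; exact gr_one
  | succ e ih =>
    have hc : (⟨1, 1⟩ : GaussianInt) ≠ 0 := by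
      intro h
      have := congrArg Zsqrtd.re h
      simp at this
    have himg : gS (2 ^ (e + 1)) = (fun z => (⟨1, 1⟩ : GaussianInt) * z) '' gS (2 ^ e) := by
      ext z
      constructor
      · intro hz
        rw [mem_gS, Zsqrtd.norm_def] at hz
        have hz' : z.re * z.re + z.im * z.im = 2 * 2 ^ e := by
          have : z.re * z.re - -1 * z.im * z.im = 2 ^ (e + 1) := by exact_mod_cast hz
          rw [pow_succ] at this
          linarith
        have hpar : (z.re + z.im) % 2 = 0 := by
          have h1 : (z.re * z.re + z.im * z.im) % 2 = 0 := by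
            rw [hz']; exact Int.mul_emod_right _ _
          rcases Int.emod_two_eq_zero_or_one z.re with h2 | h2 <;>
            rcases Int.emod_two_eq_zero_or_one z.im with h3 | h3 <;>
            simp [Int.add_emod, Int.mul_emod, h2, h3] at h1 ⊢
        obtain ⟨a, ha⟩ : ∃ a, z.re + z.im = 2 * a := ⟨(z.re + z.im) / 2, by omega⟩
        obtain ⟨b, hb⟩ : ∃ b, z.im - z.re = 2 * b := ⟨(z.im - z.re) / 2, by omega⟩
        refine ⟨⟨a, b⟩, ?_, ?_⟩
        · rw [mem_gS, Zsqrtd.norm_def]
          push_cast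
          have : a * a + b * b = 2 ^ e := by
            have h4 : (2 * a) * (2 * a) + (2 * b) * (2 * b) = 2 * (2 * 2 ^ e) := by
              rw [← ha, ← hb, ← hz']; ring
            linarith
          linarith
        · apply Zsqrtd.ext
          · show ((⟨1, 1⟩ : GaussianInt) * ⟨a, b⟩).re = z.re
            rw [Zsqrtd.re_mul]
            show 1 * a + -1 * 1 * b = z.re
            linarith
          · show ((⟨1, 1⟩ : GaussianInt) * ⟨a, b⟩).im = z.im
            rw [Zsqrtd.im_mul]
            show 1 * b + 1 * a = z.im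
            linarith
      · rintro ⟨w, hw, rfl⟩
        have h2 : (⟨1, 1⟩ : GaussianInt) ∈ gS 2 := by
          rw [mem_gS, Zsqrtd.norm_def]; norm_num
        have := mul_mem h2 hw
        rwa [← pow_succ'] at this
    show (gS (2 ^ (e + 1))).ncard = 4
    rw [himg, Set.ncard_image_of_injective _ (mul_right_injective₀ hc)]
    exact ih

lemma dvd_of_mem_pow {p e : ℕ} {z : GaussianInt} (hz : z ∈ gS (p ^ e)) :
    z ∣ (p : GaussianInt) ^ e := by
  refine ⟨star z, ?_⟩
  rw [mul_star_of_mem hz]
  push_cast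
  rfl

theorem gr_pow_three {p : ℕ} (hp : p.Prime) (h : p % 4 = 3) (e : ℕ) :
    gr (p ^ e) = if Even e then 4 else 0 := by
  have hpf : Fact p.Prime := ⟨hp⟩
  have hpr : Prime (p : GaussianInt) := GaussianInt.prime_of_nat_prime_of_mod_four_eq_three p h
  have hpm : (p : GaussianInt) ∈ gS (p ^ 2) := by
    rw [mem_gS, Zsqrtd.norm_natCast]
    push_cast; ring
  have key : ∀ z ∈ gS (p ^ e), ∃ i, 2 * i = e ∧ ∃ u ∈ gS 1, u * (p : GaussianInt) ^ i = z := by
    intro z hz
    obtain ⟨i, hi, hass⟩ := (dvd_prime_pow hpr e).mp (dvd_of_mem_pow hz)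
    obtain ⟨u, hu⟩ := hass.symm
    have hu1 := isUnit_mem_gS u.isUnit
    have h3 : z ∈ gS ((p ^ 2) ^ i * 1) := by
      rw [← hu]
      exact mul_mem (pow_mem hpm i) hu1
    rw [mem_gS] at h3 hz
    rw [hz, mul_one, ← pow_mul] at h3
    have h4 : p ^ e = p ^ (2 * i) := by exact_mod_cast h3
    exact ⟨i, (Nat.pow_right_injective hp.two_le h4).symm, u, hu1, by rw [mul_comm]; exact hu⟩
  split_ifs with he
  · obtain ⟨i, hi⟩ := he
    have himg : gS (p ^ e) = (fun u => u * (p : GaussianInt) ^ i) '' gS 1 := by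
      ext z
      constructor
      · intro hz
        obtain ⟨j, hj, u, hu, huz⟩ := key z hz
        have : j = i := by omega
        subst this
        exact ⟨u, hu, huz⟩
      · rintro ⟨u, hu, rfl⟩
        have h5 := mul_mem hu (pow_mem hpm i)
        rw [one_mul, ← pow_mul] at h5
        have : 2 * i = e := by omega
        rwa [this] at h5
    show (gS (p ^ e)).ncard = 4
    rw [himg, Set.ncard_image_of_injective _ (mul_left_injective₀ (pow_ne_zero _ hpr.ne_zero))]
    exact gr_one
  · have : gS (p ^ e) = ∅ := by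
      rw [Set.eq_empty_iff_forall_notMem]
      intro z hz
      obtain ⟨i, hi, -⟩ := key z hz
      exact he ⟨i, by omega⟩
    show (gS (p ^ e)).ncard = 0
    rw [this, Set.ncard_empty]

lemma prime_of_mem {p : ℕ} (hp : p.Prime) {w : GaussianInt} (hw : w ∈ gS p) : Prime w := by
  refine Irreducible.prime ⟨?_, ?_⟩
  · intro hu
    have h2 := isUnit_mem_gS hu
    rw [mem_gS] at h2 hw
    rw [hw] at h2
    have : p = 1 := by exact_mod_cast h2
    exact hp.one_lt.ne' this
  · intro s t hst
    rw [mem_gS] at hw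
    have h3 : s.norm * t.norm = p := by rw [← Zsqrtd.norm_mul, ← hst, hw]
    obtain ⟨c, hc⟩ := Int.eq_ofNat_of_zero_le (GaussianInt.norm_nonneg s)
    obtain ⟨d, hd⟩ := Int.eq_ofNat_of_zero_le (GaussianInt.norm_nonneg t)
    have hcd : c * d = p := by
      rw [hc, hd] at h3
      exact_mod_cast h3
    rcases (Nat.dvd_prime hp).mp (Dvd.intro _ hcd) with h | h
    · left
      rw [← Zsqrtd.norm_eq_one_iff' (by norm_num), hc, h]; rfl
    · right
      have : d = 1 := by
        rw [h] at hcd
        exact Nat.eq_of_mul_eq_mul_left hp.pos (by rw [hcd, mul_one])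
      rw [← Zsqrtd.norm_eq_one_iff' (by norm_num), hd, this]; rfl

lemma not_dvd_star {p : ℕ} (hp : p.Prime) (h2 : p ≠ 2) {w : GaussianInt} (hw : w ∈ gS p) :
    ¬ w ∣ star w := by
  intro hd
  have hpi : Prime (p : ℤ) := Nat.prime_iff_prime_int.mp hp
  have hodd : ¬ (p : ℤ) ∣ 4 := by
    intro h
    have h' : p ∣ 2 ^ 2 := by exact_mod_cast h
    exact h2 ((Nat.prime_dvd_prime_iff_eq hp Nat.prime_two).mp (hp.dvd_of_dvd_pow h'))
  have h1 : w ∣ ((2 * w.re : ℤ) : GaussianInt) := by
    have : ((2 * w.re : ℤ) : GaussianInt) = w + star w := by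
      apply Zsqrtd.ext
      · simp; ring
      · simp
    rw [this]
    exact dvd_add (dvd_refl _) hd
  have h3 : (p : ℤ) ∣ w.re := by
    obtain ⟨c, hc⟩ := h1
    have h4 := congrArg Zsqrtd.norm hc
    rw [Zsqrtd.norm_mul, Zsqrtd.norm_intCast] at h4
    rw [mem_gS] at hw
    rw [hw] at h4
    have h5 : (p : ℤ) ∣ 4 * (w.re * w.re) := ⟨c.norm, by rw [← h4]; ring⟩
    rcases hpi.dvd_or_dvd h5 with h6 | h6
    · exact absurd h6 hodd
    · rcases hpi.dvd_or_dvd h6 with h7 | h7 <;> exact h7
  have h7 : (p : ℤ) ∣ w.im := by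
    rw [mem_gS, Zsqrtd.norm_def] at hw
    have h8 : w.im * w.im = p - w.re * w.re := by
      have : w.re * w.re - -1 * w.im * w.im = p := hw
      linarith
    have h9 : (p : ℤ) ∣ w.im * w.im := by
      rw [h8]
      exact dvd_sub (dvd_refl _) (Dvd.dvd.mul_right h3 _)
    rcases hpi.dvd_or_dvd h9 with h10 | h10 <;> exact h10
  obtain ⟨a, ha⟩ := h3
  obtain ⟨b, hb⟩ := h7
  rw [mem_gS, Zsqrtd.norm_def, ha, hb] at hw
  have h11 : (p : ℤ) * (p * (a * a + b * b)) = p * 1 := by
    have : (p : ℤ) * a * (p * a) - -1 * (p * b) * (p * b) = p := hw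
    linarith
  have h12 : (p : ℤ) * (a * a + b * b) = 1 :=
    mul_left_cancel₀ hpi.ne_zero h11
  exact hpi.not_isUnit (IsUnit.of_mul_eq_one _ h12)

theorem gr_pow_one {p : ℕ} (hp : p.Prime) (h : p % 4 = 1) (e : ℕ) :
    gr (p ^ e) = 4 * (e + 1) := by
  classical
  have hpf : Fact p.Prime := ⟨hp⟩
  obtain ⟨a, b, hab⟩ := Nat.Prime.sq_add_sq (p := p) (by omega)
  have hp2 : p ≠ 2 := by omega
  set w : GaussianInt := ⟨a, b⟩ with hwdef
  have hw : w ∈ gS p := by
    rw [mem_gS, Zsqrtd.norm_def]
    have : ((a ^ 2 + b ^ 2 : ℕ) : ℤ) = p := by rw [hab]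
    push_cast at this
    show (a : ℤ) * a - -1 * b * b = p
    linarith
  have hs := star_mem hw
  have hwp := prime_of_mem hp hw
  have hsp := prime_of_mem hp hs
  have hnd : ¬ w ∣ star w := not_dvd_star hp hp2 hw
  have hws : (p : GaussianInt) = w * star w := (mul_star_of_mem hw).symm
  have himg : (gS_finite (p ^ e)).toFinset =
      ((gS_finite 1).toFinset ×ˢ Finset.range (e + 1)).image
        (fun q : GaussianInt × ℕ => q.1 * (w ^ q.2 * (star w) ^ (e - q.2))) := by
    ext z
    rw [Set.Finite.mem_toFinset, Finset.mem_image]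
    constructor
    · intro hz
      have hd := dvd_of_mem_pow hz
      rw [hws, mul_pow] at hd
      obtain ⟨s, t, hs', ht, hst⟩ := exists_dvd_and_dvd_of_dvd_mul hd
      obtain ⟨i, hi, hsi⟩ := (dvd_prime_pow hwp e).mp hs'
      obtain ⟨j, hj, htj⟩ := (dvd_prime_pow hsp e).mp ht
      obtain ⟨u, hu⟩ := hsi.symm
      obtain ⟨v, hv⟩ := htj.symm
      have hu1 := isUnit_mem_gS u.isUnit
      have hv1 := isUnit_mem_gS v.isUnit
      have hzz : z ∈ gS (p ^ i * 1 * (p ^ j * 1)) := by
        rw [hst, ← hu, ← hv]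
        exact mul_mem (mul_mem (pow_mem hw i) hu1) (mul_mem (pow_mem hs j) hv1)
      rw [mem_gS] at hzz hz
      rw [hz, mul_one, mul_one, ← pow_add] at hzz
      have h4 : p ^ e = p ^ (i + j) := by exact_mod_cast hzz
      have hij := Nat.pow_right_injective hp.two_le h4
      have hij' : e = i + j := hij
      refine ⟨((u : GaussianInt) * v, i), ?_, ?_⟩
      · rw [Finset.mem_product, Set.Finite.mem_toFinset, Finset.mem_range]
        refine ⟨?_, by show i < e + 1; omega⟩
        have := mul_mem hu1 hv1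
        rwa [one_mul] at this
      · have hji : e - i = j := by omega
        show (u : GaussianInt) * v * (w ^ i * (star w) ^ (e - i)) = z
        rw [hji, hst, ← hu, ← hv]
        ring
    · rintro ⟨⟨u, i⟩, hq, rfl⟩
      rw [Finset.mem_product, Set.Finite.mem_toFinset, Finset.mem_range] at hq
      have h5 := mul_mem hq.1 (mul_mem (pow_mem hw i) (pow_mem hs (e - i)))
      rw [one_mul, ← pow_add] at h5
      have : i + (e - i) = e := by
        have := hq.2
        simp only at this
        omega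
      rwa [this] at h5
  have hinj : Set.InjOn (fun q : GaussianInt × ℕ => q.1 * (w ^ q.2 * (star w) ^ (e - q.2)))
      ((gS_finite 1).toFinset ×ˢ Finset.range (e + 1) : Finset (GaussianInt × ℕ)) := by
    have hlt : ∀ (u v : GaussianInt) (i j : ℕ), u ∈ gS 1 → i < j → j ≤ e →
        u * (w ^ i * (star w) ^ (e - i)) = v * (w ^ j * (star w) ^ (e - j)) → False := by
      intro u v i j hu hij hje heq
      have h6 : u * (star w) ^ (e - i) = v * (w ^ (j - i) * (star w) ^ (e - j)) := by
        have h7 : w ^ i * (u * (star w) ^ (e - i)) =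
            w ^ i * (v * (w ^ (j - i) * (star w) ^ (e - j))) := by
          have h8 : w ^ j = w ^ i * w ^ (j - i) := by rw [← pow_add]; congr 1; omega
          rw [h8] at heq
          linear_combination heq
        exact mul_left_cancel₀ (pow_ne_zero _ hwp.ne_zero) h7
      have h9 : w ∣ u * (star w) ^ (e - i) := by
        rw [h6]
        have : w ∣ w ^ (j - i) := dvd_pow_self _ (by omega)
        exact Dvd.dvd.mul_left (Dvd.dvd.mul_right this _) _
      rcases hwp.dvd_or_dvd h9 with h10 | h10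
      · exact hwp.not_isUnit (isUnit_of_dvd_unit h10 (isUnit_of_mem hu))
      · exact hnd (hwp.dvd_of_dvd_pow h10)
    rintro ⟨u, i⟩ hq ⟨v, j⟩ hq' heq
    rw [Finset.mem_coe, Finset.mem_product, Set.Finite.mem_toFinset, Finset.mem_range] at hq hq'
    have heq' : u * (w ^ i * (star w) ^ (e - i)) = v * (w ^ j * (star w) ^ (e - j)) := heq
    have hi : i < e + 1 := hq.2
    have hj : j < e + 1 := hq'.2
    rcases lt_trichotomy i j with hij | hij | hij
    · exact (hlt u v i j hq.1 hij (by omega) heq').elim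
    · subst hij
      have : u = v := mul_right_cancel₀ (mul_ne_zero (pow_ne_zero _ hwp.ne_zero)
        (pow_ne_zero _ hsp.ne_zero)) heq'
      rw [this]
    · exact (hlt v u j i hq'.1 hij (by omega) heq'.symm).elim
  show (gS (p ^ e)).ncard = 4 * (e + 1)
  rw [Set.ncard_eq_toFinset_card _ (gS_finite (p ^ e)), himg, Finset.card_image_of_injOn hinj,
    Finset.card_product, ← Set.ncard_eq_toFinset_card _ (gS_finite 1), Finset.card_range]
  congr 1
  exact gr_one

end Pool.Agent.Helper78.BI
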