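import Mathlib
import Pool.Agent.Helper78.BI.J

/-!
# Euler products (block E, helper24)
-/

open scoped Real
open Filter Topology Finset

namespace Pool.Agent.Helper78.BI
open Pool.Agent.Helper22.GC (gr gS gr_le)

namespace Eu

/-! ### Summability -/

theorem term_zero : ((0 : ℕ) : ℝ) ^ (-(3 / 2) : ℝ) = 0 := by
  rw [Nat.cast_zero]
  exact Real.zero_rpow (by norm_num)

theorem summable_aux {g : ℕ → ℝ} {C s : ℝ} (hs : s < -1) (h0 : ∀ n, 0 ≤ g n) (hz : g 0 = 0)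
    (h : ∀ n : ℕ, 0 < n → g n ≤ C * (n : ℝ) ^ s) : Summable g := by
  refine Summable.of_norm_bounded (g := fun n : ℕ => |C| * (n : ℝ) ^ s)
    ((Real.summable_nat_rpow.2 hs).mul_left _) fun n => ?_
  rw [Real.norm_eq_abs, abs_of_nonneg (h0 n)]
  rcases Nat.eq_zero_or_pos n with rfl | hn
  · rw [hz]
    positivity
  · refine (h n hn).trans ?_
    exact mul_le_mul_of_nonneg_right (le_abs_self C) (by positivity)

end Eu

open Eu

theorem summable_M1 : Summable (fun j : ℕ => (gr (j ^ 2) : ℝ) * (j : ℝ) ^ (-(3 / 2) : ℝ)) := by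
  obtain ⟨C, hC, h⟩ := gr_le (ε := 1 / 10) (by norm_num)
  refine summable_aux (C := C) (s := -(13 / 10)) (by norm_num) (fun n => by positivity)
    (by rw [term_zero, mul_zero]) fun n hn => ?_
  have h1 := h (n ^ 2) (by positivity)
  have hn' : (0 : ℝ) < n := by exact_mod_cast hn
  have h2 : (((n ^ 2 : ℕ) : ℝ)) ^ (1 / 10 : ℝ) = (n : ℝ) ^ (1 / 5 : ℝ) := by
    push_cast
    rw [← Real.rpow_natCast, ← Real.rpow_mul hn'.le]
    norm_num
  rw [h2] at h1
  calc (gr (n ^ 2) : ℝ) * (n : ℝ) ^ (-(3 / 2) : ℝ)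
      ≤ C * (n : ℝ) ^ (1 / 5 : ℝ) * (n : ℝ) ^ (-(3 / 2) : ℝ) :=
        mul_le_mul_of_nonneg_right h1 (by positivity)
    _ = C * (n : ℝ) ^ (-(13 / 10) : ℝ) := by
        rw [mul_assoc, ← Real.rpow_add hn']
        norm_num

theorem summable_T2 : Summable (fun k : ℕ => (gr k : ℝ) ^ 2 * (k : ℝ) ^ (-(3 / 2) : ℝ)) := by
  obtain ⟨C, hC, h⟩ := gr_le (ε := 1 / 10) (by norm_num)
  refine summable_aux (C := C ^ 2) (s := -(13 / 10)) (by norm_num) (fun n => by positivity)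
    (by rw [term_zero, mul_zero]) fun n hn => ?_
  have h1 := h n hn
  have hn' : (0 : ℝ) < n := by exact_mod_cast hn
  have h2 : (gr n : ℝ) ^ 2 ≤ C ^ 2 * (n : ℝ) ^ (1 / 5 : ℝ) := by
    calc (gr n : ℝ) ^ 2 ≤ (C * (n : ℝ) ^ (1 / 10 : ℝ)) ^ 2 :=
          pow_le_pow_left₀ (Nat.cast_nonneg _) h1 2
      _ = C ^ 2 * (n : ℝ) ^ (1 / 5 : ℝ) := by
          rw [mul_pow, ← Real.rpow_natCast ((n : ℝ) ^ (1 / 10 : ℝ)), ← Real.rpow_mul hn'.le]
          norm_num
  calc (gr n : ℝ) ^ 2 * (n : ℝ) ^ (-(3 / 2) : ℝ)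
      ≤ C ^ 2 * (n : ℝ) ^ (1 / 5 : ℝ) * (n : ℝ) ^ (-(3 / 2) : ℝ) :=
        mul_le_mul_of_nonneg_right h2 (by positivity)
    _ = C ^ 2 * (n : ℝ) ^ (-(13 / 10) : ℝ) := by
        rw [mul_assoc, ← Real.rpow_add hn']
        norm_num

namespace Eu

/-! ### The completely multiplicative functions -/

/-- `n ^ (-3/2)` -/
noncomputable def c : ℕ →*₀ ℝ where
  toFun n := (n : ℝ) ^ (-(3 / 2) : ℝ)
  map_zero' := term_zero
  map_one' := by simp
  map_mul' m n := by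
    push_cast
    exact Real.mul_rpow (Nat.cast_nonneg m) (Nat.cast_nonneg n)

/-- `n ^ (-3)` -/
noncomputable def c3 : ℕ →*₀ ℝ where
  toFun n := (n : ℝ) ^ (-3 : ℝ)
  map_zero' := by
    rw [Nat.cast_zero]
    exact Real.zero_rpow (by norm_num)
  map_one' := by simp
  map_mul' m n := by
    push_cast
    exact Real.mul_rpow (Nat.cast_nonneg m) (Nat.cast_nonneg n)

/-- `χ₄(n) n ^ (-3/2)` -/
noncomputable def cL : ℕ →*₀ ℝ where
  toFun n := ((ZMod.χ₄ (n : ZMod 4) : ℤ) : ℝ) * (n : ℝ) ^ (-(3 / 2) : ℝ)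
  map_zero' := by rw [term_zero, mul_zero]
  map_one' := by simp
  map_mul' m n := by
    push_cast
    rw [map_mul, Real.mul_rpow (Nat.cast_nonneg m) (Nat.cast_nonneg n)]
    push_cast
    ring

theorem hp_Z32 : HasProd (fun p : Nat.Primes => (1 - c p)⁻¹) Z32 := by
  refine EulerProduct.eulerProduct_completely_multiplicative_hasProd (f := c) ?_
  refine (Real.summable_nat_rpow.2 (by norm_num : (-(3 / 2) : ℝ) < -1)).congr fun n => ?_
  rw [Real.norm_eq_abs, abs_of_nonneg]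
  · rfl
  · exact Real.rpow_nonneg (Nat.cast_nonneg n) _

theorem hp_Z3 : HasProd (fun p : Nat.Primes => (1 - c3 p)⁻¹) Z3 := by
  refine EulerProduct.eulerProduct_completely_multiplicative_hasProd (f := c3) ?_
  refine (Real.summable_nat_rpow.2 (by norm_num : (-3 : ℝ) < -1)).congr fun n => ?_
  rw [Real.norm_eq_abs, abs_of_nonneg]
  · rfl
  · exact Real.rpow_nonneg (Nat.cast_nonneg n) _

theorem hp_L32 : HasProd (fun p : Nat.Primes => (1 - cL p)⁻¹) L32 := by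
  refine EulerProduct.eulerProduct_completely_multiplicative_hasProd (f := cL) ?_
  refine Summable.of_nonneg_of_le (fun n => norm_nonneg _) (fun n => ?_)
    (Real.summable_nat_rpow.2 (by norm_num : (-(3 / 2) : ℝ) < -1))
  have h0 : (0 : ℝ) ≤ (n : ℝ) ^ (-(3 / 2) : ℝ) := Real.rpow_nonneg (Nat.cast_nonneg n) _
  show ‖((ZMod.χ₄ (n : ZMod 4) : ℤ) : ℝ) * (n : ℝ) ^ (-(3 / 2) : ℝ)‖ ≤ _
  rw [norm_mul, Real.norm_eq_abs, Real.norm_eq_abs, abs_of_nonneg h0]
  have h1 : |((ZMod.χ₄ (n : ZMod 4) : ℤ) : ℝ)| ≤ 1 := by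
    have : ∀ z : ZMod 4, |((ZMod.χ₄ z : ℤ))| ≤ 1 := by decide
    exact_mod_cast this n
  nlinarith

/-! ### The multiplicative functions -/

/-- the function of the first product -/
noncomputable def F1 (n : ℕ) : ℝ := (gr (n ^ 2) : ℝ) / 4 * c n

/-- the function of the second product -/
noncomputable def F2 (n : ℕ) : ℝ := ((gr n : ℝ) / 4) ^ 2 * c n

theorem gr_mul_real {m n : ℕ} (hm : 0 < m) (hn : 0 < n) (h : Nat.Coprime m n) :
    (gr (m * n) : ℝ) / 4 = (gr m : ℝ) / 4 * ((gr n : ℝ) / 4) := by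
  have := gr_coprime hm hn h
  have h2 : (4 : ℝ) * gr (m * n) = gr m * gr n := by exact_mod_cast this
  linarith

theorem F1_mul {m n : ℕ} (h : Nat.Coprime m n) : F1 (m * n) = F1 m * F1 n := by
  unfold F1
  rw [map_mul]
  rcases Nat.eq_zero_or_pos m with rfl | hm
  · simp
  rcases Nat.eq_zero_or_pos n with rfl | hn
  · simp
  rw [mul_pow, gr_mul_real (by positivity) (by positivity) (Nat.Coprime.pow 2 2 h)]
  ring

theorem F2_mul {m n : ℕ} (h : Nat.Coprime m n) : F2 (m * n) = F2 m * F2 n := by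
  unfold F2
  rw [map_mul]
  rcases Nat.eq_zero_or_pos m with rfl | hm
  · simp
  rcases Nat.eq_zero_or_pos n with rfl | hn
  · simp
  rw [gr_mul_real hm hn h]
  ring

theorem F1_one : F1 1 = 1 := by
  unfold F1
  rw [one_pow, gr_one, map_one]
  norm_num

theorem F2_one : F2 1 = 1 := by
  unfold F2
  rw [gr_one, map_one]
  norm_num

theorem F1_zero : F1 0 = 0 := by unfold F1; rw [map_zero, mul_zero]

theorem F2_zero : F2 0 = 0 := by unfold F2; rw [map_zero, mul_zero]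

theorem F1_nonneg (n : ℕ) : 0 ≤ F1 n :=
  mul_nonneg (by positivity) (Real.rpow_nonneg (Nat.cast_nonneg n) _)

theorem F2_nonneg (n : ℕ) : 0 ≤ F2 n :=
  mul_nonneg (by positivity) (Real.rpow_nonneg (Nat.cast_nonneg n) _)

theorem F1_hasSum : HasSum F1 (M1 / 4) := by
  have h := summable_M1.hasSum.div_const 4
  have e : (fun j : ℕ => (gr (j ^ 2) : ℝ) * (j : ℝ) ^ (-(3 / 2) : ℝ) / 4) = F1 := by
    funext j
    show _ = (gr (j ^ 2) : ℝ) / 4 * (j : ℝ) ^ (-(3 / 2) : ℝ)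
    ring
  rw [e] at h
  exact h

theorem F2_hasSum : HasSum F2 (T2 / 16) := by
  have h := summable_T2.hasSum.div_const 16
  have e : (fun k : ℕ => (gr k : ℝ) ^ 2 * (k : ℝ) ^ (-(3 / 2) : ℝ) / 16) = F2 := by
    funext j
    show _ = ((gr j : ℝ) / 4) ^ 2 * (j : ℝ) ^ (-(3 / 2) : ℝ)
    ring
  rw [e] at h
  exact h

theorem hp_F1 : HasProd (fun p : Nat.Primes => ∑' e, F1 ((p : ℕ) ^ e)) (M1 / 4) := by
  rw [← F1_hasSum.tsum_eq]
  refine EulerProduct.eulerProduct_hasProd F1_one F1_mul ?_ F1_zero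
  refine F1_hasSum.summable.congr fun n => ?_
  rw [Real.norm_eq_abs, abs_of_nonneg (F1_nonneg n)]

theorem hp_F2 : HasProd (fun p : Nat.Primes => ∑' e, F2 ((p : ℕ) ^ e)) (T2 / 16) := by
  rw [← F2_hasSum.tsum_eq]
  refine EulerProduct.eulerProduct_hasProd F2_one F2_mul ?_ F2_zero
  refine F2_hasSum.summable.congr fun n => ?_
  rw [Real.norm_eq_abs, abs_of_nonneg (F2_nonneg n)]

/-! ### Local factors -/

theorem c_pos {p : ℕ} (hp : p.Prime) : 0 < c p :=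
  Real.rpow_pos_of_pos (by exact_mod_cast hp.pos) _

theorem c_lt {p : ℕ} (hp : p.Prime) : c p < 1 :=
  Real.rpow_lt_one_of_one_lt_of_neg (by exact_mod_cast hp.one_lt) (by norm_num)

theorem c3_eq (p : ℕ) : c3 p = c p ^ 2 := by
  show (p : ℝ) ^ (-3 : ℝ) = ((p : ℝ) ^ (-(3 / 2) : ℝ)) ^ 2
  rw [← Real.rpow_natCast ((p : ℝ) ^ (-(3 / 2) : ℝ)), ← Real.rpow_mul (Nat.cast_nonneg p)]
  norm_num

theorem hs0 {x : ℝ} (h0 : 0 < x) (h1 : x < 1) : HasSum (fun e : ℕ => x ^ e) (1 / (1 - x)) := by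
  rw [one_div]
  exact hasSum_geometric_of_lt_one h0.le h1

theorem hs1 {x : ℝ} (h0 : 0 < x) (h1 : x < 1) :
    HasSum (fun e : ℕ => ((e : ℝ) + 1) * x ^ e) (1 / (1 - x) ^ 2) := by
  have h : ‖x‖ < 1 := by rw [Real.norm_eq_abs, abs_of_pos h0]; exact h1
  have h2 := (hasSum_coe_mul_geometric_of_norm_lt_one h).add (hs0 h0 h1)
  have e1 : x / (1 - x) ^ 2 + 1 / (1 - x) = 1 / (1 - x) ^ 2 := by
    have : 1 - x ≠ 0 := by linarith
    field_simp
    ring
  rw [e1] at h2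
  refine h2.congr_fun ?_
  intro e
  ring

theorem hs2 {x : ℝ} (h0 : 0 < x) (h1 : x < 1) :
    HasSum (fun e : ℕ => ((e : ℝ) + 1) ^ 2 * x ^ e) ((1 + x) / (1 - x) ^ 3) := by
  have h : ‖x‖ < 1 := by rw [Real.norm_eq_abs, abs_of_pos h0]; exact h1
  have h2 := ((hasSum_choose_mul_geometric_of_norm_lt_one 2 h).mul_left 2).sub (hs1 h0 h1)
  have e1 : 2 * (1 / (1 - x) ^ (2 + 1)) - 1 / (1 - x) ^ 2 = (1 + x) / (1 - x) ^ 3 := by
    have : 1 - x ≠ 0 := by linarith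
    field_simp
    ring
  rw [e1] at h2
  refine h2.congr_fun ?_
  intro e
  have h3 : 2 * (((e + 2).choose 2 : ℕ) : ℝ) = (e + 2) * (e + 1) := by
    have := Nat.choose_two_right (e + 2)
    rw [Nat.cast_choose_two]
    push_cast
    ring
  have h4 : 2 * (((((e + 2).choose 2 : ℕ) : ℝ)) * x ^ e) = (e + 2) * (e + 1) * x ^ e := by
    rw [← h3]
    ring
  rw [h4]
  ring

theorem hs3 {x : ℝ} (h0 : 0 < x) (h1 : x < 1) :
    HasSum (fun e : ℕ => (2 * (e : ℝ) + 1) * x ^ e) ((1 + x) / (1 - x) ^ 2) := by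
  have h2 := ((hs1 h0 h1).mul_left 2).sub (hs0 h0 h1)
  have e1 : 2 * (1 / (1 - x) ^ 2) - 1 / (1 - x) = (1 + x) / (1 - x) ^ 2 := by
    have : 1 - x ≠ 0 := by linarith
    field_simp
    ring
  rw [e1] at h2
  refine h2.congr_fun ?_
  intro e
  ring

theorem hs4 {x : ℝ} (h0 : 0 < x) (h1 : x < 1) :
    HasSum (fun e : ℕ => (if Even e then (1 : ℝ) else 0) * x ^ e) (1 / (1 - x ^ 2)) := by
  have hm : HasSum (fun e : ℕ => (-x) ^ e) (1 / (1 + x)) := by
    have := hasSum_geometric_of_norm_lt_one (ξ := -x)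
      (by rw [norm_neg, Real.norm_eq_abs, abs_of_pos h0]; exact h1)
    rw [one_div]
    simpa using this
  have h2 := ((hs0 h0 h1).add hm).div_const 2
  have e1 : (1 / (1 - x) + 1 / (1 + x)) / 2 = 1 / (1 - x ^ 2) := by
    have g1 : 1 - x ≠ 0 := by linarith
    have g2 : 1 + x ≠ 0 := by linarith
    have g3 : 1 - x ^ 2 ≠ 0 := by
      have : 0 < 1 - x ^ 2 := by nlinarith
      exact this.ne'
    field_simp
    ring
  rw [e1] at h2
  refine h2.congr_fun ?_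
  intro e
  split_ifs with he
  · rw [he.neg_pow]
    ring
  · rw [Nat.not_even_iff_odd] at he
    rw [he.neg_pow]
    ring

theorem chi_one {p : ℕ} (h : p % 4 = 1) : cL p = c p := by
  show ((ZMod.χ₄ (p : ZMod 4) : ℤ) : ℝ) * (p : ℝ) ^ (-(3 / 2) : ℝ) = (p : ℝ) ^ (-(3 / 2) : ℝ)
  rw [ZMod.χ₄_nat_one_mod_four h]
  simp

theorem chi_three {p : ℕ} (h : p % 4 = 3) : cL p = -c p := by
  show ((ZMod.χ₄ (p : ZMod 4) : ℤ) : ℝ) * (p : ℝ) ^ (-(3 / 2) : ℝ) = -(p : ℝ) ^ (-(3 / 2) : ℝ)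
  rw [ZMod.χ₄_nat_three_mod_four h]
  simp

theorem chi_two : cL 2 = 0 := by
  show ((ZMod.χ₄ ((2 : ℕ) : ZMod 4) : ℤ) : ℝ) * ((2 : ℕ) : ℝ) ^ (-(3 / 2) : ℝ) = 0
  rw [show ZMod.χ₄ ((2 : ℕ) : ZMod 4) = 0 by decide]
  simp

theorem prime_cases {p : ℕ} (hp : p.Prime) : p = 2 ∨ p % 4 = 1 ∨ p % 4 = 3 := by
  rcases hp.eq_two_or_odd with h | h
  · exact Or.inl h
  · omega

theorem loc1 {p : ℕ} (hp : p.Prime) : ∑' e, F1 (p ^ e) =
    if p = 2 then 1 / (1 - c p) else if p % 4 = 1 then (1 + c p) / (1 - c p) ^ 2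
      else 1 / (1 - c p) := by
  have e0 : ∀ e : ℕ, (p ^ e) ^ 2 = p ^ (2 * e) := fun e => by ring
  rcases prime_cases hp with rfl | h | h
  · rw [if_pos rfl]
    refine HasSum.tsum_eq ((hs0 (c_pos hp) (c_lt hp)).congr_fun fun e => ?_)
    unfold F1
    rw [e0, gr_two_pow, map_pow]
    norm_num
  · rw [if_neg (by omega), if_pos h]
    refine HasSum.tsum_eq ((hs3 (c_pos hp) (c_lt hp)).congr_fun fun e => ?_)
    unfold F1
    rw [e0, gr_pow_one hp h, map_pow]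
    push_cast
    ring
  · rw [if_neg (by omega), if_neg (by omega)]
    refine HasSum.tsum_eq ((hs0 (c_pos hp) (c_lt hp)).congr_fun fun e => ?_)
    unfold F1
    rw [e0, gr_pow_three hp h, if_pos (even_two_mul e), map_pow]
    norm_num

theorem loc2 {p : ℕ} (hp : p.Prime) : ∑' e, F2 (p ^ e) =
    if p = 2 then 1 / (1 - c p) else if p % 4 = 1 then (1 + c p) / (1 - c p) ^ 3
      else 1 / (1 - c p ^ 2) := by
  rcases prime_cases hp with rfl | h | h
  · rw [if_pos rfl]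
    refine HasSum.tsum_eq ((hs0 (c_pos hp) (c_lt hp)).congr_fun fun e => ?_)
    unfold F2
    rw [gr_two_pow, map_pow]
    norm_num
  · rw [if_neg (by omega), if_pos h]
    refine HasSum.tsum_eq ((hs2 (c_pos hp) (c_lt hp)).congr_fun fun e => ?_)
    unfold F2
    rw [gr_pow_one hp h, map_pow]
    push_cast
    ring
  · rw [if_neg (by omega), if_neg (by omega)]
    refine HasSum.tsum_eq ((hs4 (c_pos hp) (c_lt hp)).congr_fun fun e => ?_)
    unfold F2
    rw [gr_pow_three hp h, map_pow]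
    split_ifs <;> norm_num

/-- the correction at the prime `2` -/
theorem hp_two : HasProd (fun p : Nat.Primes => if (p : ℕ) = 2 then 1 + c 2 else 1) (1 + c 2) := by
  have h := hasProd_single (f := fun p : Nat.Primes => if (p : ℕ) = 2 then 1 + c 2 else 1)
    ⟨2, Nat.prime_two⟩ (fun b' hb' => if_neg fun e => hb' (Subtype.ext e))
  rwa [if_pos rfl] at h

theorem prod1 : M1 / 4 * Z3 * (1 + c 2) = Z32 * Z32 * L32 := by
  refine ((hp_F1.mul hp_Z3).mul hp_two).unique (((hp_Z32.mul hp_Z32).mul hp_L32).congr_fun ?_)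
  intro p
  have hp := p.2
  have g0 := c_pos hp
  have g1 := c_lt hp
  have n1 : 1 - c (p : ℕ) ≠ 0 := by linarith
  have n2 : 1 + c (p : ℕ) ≠ 0 := by linarith
  have n3 : 1 - c (p : ℕ) ^ 2 ≠ 0 := by
    have : 0 < 1 - c (p : ℕ) ^ 2 := by nlinarith
    exact this.ne'
  rw [loc1 hp, c3_eq]
  rcases prime_cases hp with h | h | h
  · have h' : c 2 = c (p : ℕ) := by rw [h]
    have h'' : cL (p : ℕ) = 0 := by rw [h]; exact chi_two
    rw [if_pos h, if_pos h, h', h'']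
    field_simp
    ring
  · rw [if_neg (by omega), if_pos h, if_neg (by omega), chi_one h]
    field_simp
    ring
  · rw [if_neg (by omega), if_neg (by omega), if_neg (by omega), chi_three h, sub_neg_eq_add]
    field_simp
    ring

theorem prod2 : T2 / 16 * Z3 * (1 + c 2) = Z32 * Z32 * (L32 * L32) := by
  refine ((hp_F2.mul hp_Z3).mul hp_two).unique
    (((hp_Z32.mul hp_Z32).mul (hp_L32.mul hp_L32)).congr_fun ?_)
  intro p
  have hp := p.2
  have g0 := c_pos hp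
  have g1 := c_lt hp
  have n1 : 1 - c (p : ℕ) ≠ 0 := by linarith
  have n2 : 1 + c (p : ℕ) ≠ 0 := by linarith
  have n3 : 1 - c (p : ℕ) ^ 2 ≠ 0 := by
    have : 0 < 1 - c (p : ℕ) ^ 2 := by nlinarith
    exact this.ne'
  rw [loc2 hp, c3_eq]
  rcases prime_cases hp with h | h | h
  · have h' : c 2 = c (p : ℕ) := by rw [h]
    have h'' : cL (p : ℕ) = 0 := by rw [h]; exact chi_two
    rw [if_pos h, if_pos h, h', h'']
    field_simp
    ring
  · rw [if_neg (by omega), if_pos h, if_neg (by omega), chi_one h]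
    field_simp
    ring
  · rw [if_neg (by omega), if_neg (by omega), if_neg (by omega), chi_three h, sub_neg_eq_add]
    field_simp
    ring

theorem Z3_pos : 0 < Z3 := by
  have hs : Summable (fun n : ℕ => (n : ℝ) ^ (-3 : ℝ)) := Real.summable_nat_rpow.2 (by norm_num)
  refine hs.tsum_pos (fun n => Real.rpow_nonneg (Nat.cast_nonneg n) _) 1 ?_
  simp

end Eu

theorem M1_eq : M1 = 4 * Z32 ^ 2 * L32 / ((1 + (2 : ℝ) ^ (-(3 / 2) : ℝ)) * Z3) := by
  have h := prod1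
  have h2 : c 2 = (2 : ℝ) ^ (-(3 / 2) : ℝ) := by
    show ((2 : ℕ) : ℝ) ^ (-(3 / 2) : ℝ) = _
    norm_num
  rw [h2] at h
  have h3 := Z3_pos
  have h4 : (0 : ℝ) < (2 : ℝ) ^ (-(3 / 2) : ℝ) := by positivity
  rw [eq_div_iff (by positivity)]
  linarith

theorem T2_eq : T2 = 16 * Z32 ^ 2 * L32 ^ 2 / ((1 + (2 : ℝ) ^ (-(3 / 2) : ℝ)) * Z3) := by
  have h := prod2
  have h2 : c 2 = (2 : ℝ) ^ (-(3 / 2) : ℝ) := by
    show ((2 : ℕ) : ℝ) ^ (-(3 / 2) : ℝ) = _
    norm_num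
  rw [h2] at h
  have h3 := Z3_pos
  have h4 : (0 : ℝ) < (2 : ℝ) ^ (-(3 / 2) : ℝ) := by positivity
  rw [eq_div_iff (by positivity)]
  linarith

end Pool.Agent.Helper78.BI
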