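import Mathlib
import Pool.Agent.Helper78.BI.Y

/-!
# The upper tail at the integers
-/

open Set Filter MeasureTheory
open scoped Real ComplexConjugate Topology BoundedContinuousFunction

namespace Pool.Agent.Helper78.BI

open Pool.Agent.Helper22.GC (ee ee_add ee_zero ee_int norm_ee conj_ee rho rho_nonneg TK uu gr)
open Pool.Agent.Helper78.GC

noncomputable section

/-- The test polynomial. -/
def Qp (y : ℝ) : ℝ := y ^ 2 + 1.64 * y - 0.75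

lemma Qp_sq (y : ℝ) : Qp y ^ 2 = y ^ 4 + (3.28 * y ^ 3 + (1.1896 * y ^ 2 + (-(2.46) * y + 0.5625))) := by
  rw [Qp]; ring

lemma Qp_mem {f : ℕ → ℝ} (hf : f ∈ RT ⊤) : (fun n => Qp (f n) ^ 2) ∈ RT ⊤ := by
  have e : (fun n => Qp (f n) ^ 2) = (fun n => f n ^ 4) + ((fun n => 3.28 * f n ^ 3) +
      ((fun n => 1.1896 * f n ^ 2) + ((fun n => -(2.46) * f n) + fun _ => 0.5625))) := by
    funext n; rw [Qp_sq]; rfl
  rw [e]
  exact (RT ⊤).add_mem (pow_mem_RT hf 4) ((RT ⊤).add_mem (const_mul_mem_RT _ (pow_mem_RT hf 3))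
    ((RT ⊤).add_mem (const_mul_mem_RT _ (pow_mem_RT hf 2)) ((RT ⊤).add_mem (const_mul_mem_RT _ hf)
      (const_mem_RT ⊤ _))))

lemma Lr_Qp {f : ℕ → ℝ} (hf : f ∈ RT ⊤) (h1 : Lr f = 0) (h2 : Lr (fun n => f n ^ 2) ≤ 1.51)
    (h3 : Lr (fun n => f n ^ 3) ≤ 0) (h4 : Lr (fun n => f n ^ 4) ≤ 9.21) :
    Lr (fun n => Qp (f n) ^ 2) ≤ 11.569 := by
  have e : (fun n => Qp (f n) ^ 2) = (fun n => f n ^ 4) + ((fun n => 3.28 * f n ^ 3) +
      ((fun n => 1.1896 * f n ^ 2) + ((fun n => -(2.46) * f n) + fun _ => 0.5625))) := by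
    funext n; rw [Qp_sq]; rfl
  have s4 := pow_mem_RT hf 4
  have s3 := const_mul_mem_RT (3.28 : ℝ) (pow_mem_RT hf 3)
  have s2 := const_mul_mem_RT (1.1896 : ℝ) (pow_mem_RT hf 2)
  have s1 := const_mul_mem_RT (-(2.46) : ℝ) hf
  have s0 := const_mem_RT ⊤ (0.5625 : ℝ)
  rw [e, Lr_add s4 ((RT ⊤).add_mem s3 ((RT ⊤).add_mem s2 ((RT ⊤).add_mem s1 s0))),
    Lr_add s3 ((RT ⊤).add_mem s2 ((RT ⊤).add_mem s1 s0)), Lr_add s2 ((RT ⊤).add_mem s1 s0), Lr_add s1 s0,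
    Lr_const_mul _ (pow_mem_RT hf 3), Lr_const_mul _ (pow_mem_RT hf 2), Lr_const_mul _ hf, Lr_const, h1]
  norm_num at h2 h4 ⊢
  linarith

lemma Qp_lower {y : ℝ} (hy : 3.26 ≤ y) : 15.224 ≤ Qp y := by
  rw [Qp]
  norm_num at hy ⊢
  nlinarith

/-- The proportion of integers with nonnegative error is less than one twentieth. -/
theorem tail_bound (hV : VarBound) (hF : FourBound)
    (hs : Summable (fun j : ℕ => (gr (j ^ 2) : ℝ) * (j : ℝ) ^ (-(3 / 2) : ℝ)))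
    (hM : 3.261 < M1 / (√2 * π)) {a : ℝ}
    (ha : Tendsto (mr (fun n => @ite _ (0 ≤ uu 1 0 n) (Classical.dec _) 1 0)) (Seg (1 / 2)) (𝓝 a)) :
    a < 0.05 := by
  classical
  have := Seg_neBot (le_refl (1 / 2 : ℝ))
  have hle : Seg (1 / 2) ≤ Gf := Seg_le_Gf (by norm_num)
  obtain ⟨C, hC, hA⟩ := approx (le_refl 1) 0 (by norm_num : (0 : ℝ) < 1 / 2)
  -- choose K
  have hK1 : ∀ᶠ K : ℕ in atTop, 3.261 < mK K := (tendsto_mK hs).eventually (lt_mem_nhds hM)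
  have hK2 : ∀ᶠ K : ℕ in atTop, C * (K : ℝ) ^ (-(1 / 8) : ℝ) < 10 ^ (-(11) : ℤ) :=
    (tendsto_rate C).eventually (gt_mem_nhds (by positivity))
  obtain ⟨K, hKm, hKC, hK⟩ := (hK1.and (hK2.and (eventually_ge_atTop 400))).exists
  obtain ⟨y1, y2, y3, y4⟩ := YK_moments hV hF hK
  have hYmem : YK K ∈ RT ⊤ := RT_mono le_top (YK_mem K)
  have hQ := Lr_Qp hYmem y1 y2 y3 y4
  have hpt : ∀ n : ℕ, @ite _ (0 ≤ uu 1 0 n) (Classical.dec _) (1 : ℝ) 0 ≤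
      1 / 15.224 ^ 2 * Qp (YK K n) ^ 2 + 10 ^ 6 * (uu 1 0 n - TK K (n : ℝ)) ^ 2 := by
    intro n
    have h0 : 0 ≤ 1 / 15.224 ^ 2 * Qp (YK K n) ^ 2 := by positivity
    have h1 : 0 ≤ 10 ^ 6 * (uu 1 0 n - TK K (n : ℝ)) ^ 2 := by positivity
    split_ifs with h
    · by_cases hc : -(0.001) ≤ TK K (n : ℝ)
      · rw [TK_nat K n (by omega)] at hc
        have h2 : 3.26 ≤ YK K n := by norm_num at hc hKm ⊢; linarith
        have h3 := Qp_lower h2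
        have h4 : (15.224 : ℝ) ^ 2 ≤ Qp (YK K n) ^ 2 := pow_le_pow_left₀ (by norm_num) h3 2
        have h5 : 1 ≤ 1 / (15.224 : ℝ) ^ 2 * Qp (YK K n) ^ 2 := by
          rw [one_div, inv_mul_eq_div, one_le_div (by positivity)]
          exact h4
        linarith
      · push Not at hc
        have h2 : (0.001 : ℝ) ≤ uu 1 0 n - TK K (n : ℝ) := by linarith
        have h3 : (0.001 : ℝ) ^ 2 ≤ (uu 1 0 n - TK K (n : ℝ)) ^ 2 := pow_le_pow_left₀ (by norm_num) h2 2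
        norm_num at h3
        linarith
    · linarith
  have hlim : Tendsto (fun p => 1 / 15.224 ^ 2 * mr (fun n => Qp (YK K n) ^ 2) p + 10 ^ 6 * 10 ^ (-(11) : ℤ)) (Seg (1 / 2))
      (𝓝 (1 / 15.224 ^ 2 * Lr (fun n => Qp (YK K n) ^ 2) + 10 ^ 6 * 10 ^ (-(11) : ℤ))) :=
    (((tendsto_Lr (Qp_mem hYmem)).mono_left hle).const_mul _).add_const _
  have h6 : a ≤ 1 / 15.224 ^ 2 * Lr (fun n => Qp (YK K n) ^ 2) + 10 ^ 6 * 10 ^ (-(11) : ℤ) := by
    refine le_of_tendsto_of_tendsto ha hlim ?_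
    filter_upwards [hA K (by omega)] with p hp
    refine (mr_mono fun n _ => hpt n).trans ?_
    rw [mr_add, mr_const_mul, mr_const_mul]
    have h7 : mr (fun n => (uu 1 0 n - TK K (n : ℝ)) ^ 2) p ≤ 10 ^ (-(11) : ℤ) := by
      refine le_trans (le_of_eq ?_) (hp.trans hKC.le)
      congr 1
      funext n
      push_cast
      simp
    gcongr
  refine h6.trans_lt ?_
  have h9 := mul_le_mul_of_nonneg_left hQ (by norm_num : (0 : ℝ) ≤ 1 / 15.224 ^ 2)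
  refine (add_le_add_left h9 _).trans_lt ?_
  norm_num

end

end Pool.Agent.Helper78.BI
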