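import Mathlib
import Pool.Agent.Helper53.GC.D3a
import Pool.Agent.Helper59.GC.SmoothDensity
import Pool.Agent.Helper78.GC.Final
import Pool.Agent.Helper78.BI.Tail
import Pool.Agent.Helper78.BI.LawMean

/-!
# Assembly: the limit law at the integers
-/

open Set Filter MeasureTheory
open scoped Real ComplexConjugate Topology BoundedContinuousFunction

namespace Pool.Agent.Helper78.BI

open Pool.Agent.Helper22.GC (ee ee_add ee_zero ee_int norm_ee conj_ee rho rho_nonneg TK uu gr)
open Pool.Agent.Helper78.GC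

noncomputable section

/-- Existence of the limit law at the integers with its density. -/
theorem exists_density : ∃ (ν : ProbabilityMeasure (Fin 1 → ℝ)) (f : ℝ → ℝ), IsLaw 1 0 ν ∧
    ContDiff ℝ (⊤ : ℕ∞) f ∧ (∀ x, 0 ≤ f x) ∧
    (ν : Measure (Fin 1 → ℝ)).map (fun x => x 0) = volume.withDensity (fun x => ENNReal.ofReal (f x)) ∧
    (∀ U : Set ℝ, IsOpen U → U.Nonempty → 0 < (ν : Measure (Fin 1 → ℝ)) {x | x 0 ∈ U}) := by
  classical
  set r : Fin 1 → ℕ := fun _ => 1 with hr
  set s : Fin 1 → ℝ := fun _ => 0 with hs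
  have hr1 : ∀ i, 1 ≤ r i := fun _ => le_rfl
  have hrs : ∀ i k, r i = r k → s i = s k → i = k := fun i k _ _ => Subsingleton.elim i k
  obtain ⟨ν, hν⟩ := exists_law (le_refl 1) 0
  have hvv : ∀ n, vv 1 r s n = fun _ => uu ((1 : ℕ) : ℝ) ((0 : ℕ) : ℝ) n := by
    intro n; funext i
    rw [vv, hr, hs]
    simp
  have hμ : ∀ ε : ℝ, 0 < ε → ∀ φ : (Fin 1 → ℝ) →ᵇ ℝ,
      Tendsto (mr (fun n => φ (vv 1 r s n))) (Seg ε) (𝓝 (∫ x, φ x ∂(ν : Measure (Fin 1 → ℝ)))) := by
    intro ε hε φ
    refine (hν ε hε φ).congr fun p => ?_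
    congr 1
    funext n
    rw [hvv]
  obtain ⟨C, c, hc, hdec⟩ := char_decay (r := r) (s := s) one_pos hr1 (Pool.Agent.Helper53.GC.D3a_lower hr1 hrs)
    (Pool.Agent.Helper53.GC.D3a_upper hr1) (by norm_num : (0 : ℝ) < 1 / 2) le_rfl (hμ (1 / 2) (by norm_num))
  obtain ⟨g, hg, hg0, hμg⟩ := Pool.Agent.Helper59.GC.D2s (ν : ProbabilityMeasure (Fin 1 → ℝ)) C c hc hdec
  refine ⟨ν, fun x => g (fun _ => x), hν, ?_, fun x => hg0 _, ?_, ?_⟩
  · exact hg.comp (contDiff_pi.mpr fun _ => contDiff_id)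
  · have he : (fun x : Fin 1 → ℝ => x 0) = (MeasurableEquiv.funUnique (Fin 1) ℝ) := by
      funext x; simp [MeasurableEquiv.funUnique]
    have hvp := volume_preserving_funUnique (Fin 1) ℝ
    ext A hA
    rw [Measure.map_apply (measurable_pi_apply 0) hA, hμg, withDensity_apply _ (measurable_pi_apply 0 hA),
      withDensity_apply _ hA]
    rw [he, ← hvp.setLIntegral_comp_preimage_emb (MeasurableEquiv.funUnique (Fin 1) ℝ).measurableEmbedding]
    refine lintegral_congr fun x => ?_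
    congr 2
    funext i
    have : i = 0 := Subsingleton.elim _ _
    subst this
    simp [MeasurableEquiv.funUnique]
  · intro U hU hne
    have hNB := Seg_neBot (le_refl (1 / 2 : ℝ))
    have hU' : IsOpen {x : Fin 1 → ℝ | x 0 ∈ U} := hU.preimage (continuous_apply 0)
    have hne' : {x : Fin 1 → ℝ | x 0 ∈ U}.Nonempty := by
      obtain ⟨y, hy⟩ := hne
      exact ⟨fun _ => y, hy⟩
    exact Pool.Agent.Helper59.GC.T6_pos (F := Seg (1 / 2)) (hμ (1 / 2) (by norm_num))
      (fun y δ hδ => by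
        obtain ⟨c, hc, h⟩ := pos_exists (r := r) (s := s) one_pos hr1 hrs (by norm_num : (0 : ℝ) < 1 / 2) y hδ
        refine ⟨c, hc, ?_⟩
        filter_upwards [h] with p hp
        refine hp.trans (le_of_eq ?_)
        congr 1
        funext n
        congr) hU' hne'

/-- The main theorem in terms of `uu`. -/
theorem main (hV : VarBound) (hF : FourBound)
    (hs : Summable (fun j : ℕ => (gr (j ^ 2) : ℝ) * (j : ℝ) ^ (-(3 / 2) : ℝ)))
    (hM : 3.261 < M1 / (√2 * π)) :
    ∃ f : ℝ → ℝ, ContDiff ℝ (⊤ : ℕ∞) f ∧ (∀ x, 0 ≤ f x) ∧ ∫ x, f x = 1 ∧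
      ∫ x, x * f x = -(M1 / (√2 * π)) ∧
      0.95 < ∫ x in Set.Iio 0, f x ∧ ∫ x in Set.Iio 0, f x < 1 ∧
      ∀ (d b : ℕ) (J : Set ℝ) (ε : ℝ), 1 ≤ d → MeasurableSet J → volume (frontier J) = 0 → 0 < ε →
        Tendsto (mr (fun n => @ite _ (uu d b n ∈ J) (Classical.dec _) 1 0)) (Seg ε) (𝓝 (∫ x in J, f x)) := by
  classical
  obtain ⟨ν, f, hν, hf, hf0, hmap, hpos⟩ := exists_density
  have hev : Measurable (fun x : Fin 1 → ℝ => x 0) := measurable_pi_apply 0
  have hmeas : Measurable f := hf.continuous.measurable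
  -- the real measure of sets
  have hreal : ∀ J : Set ℝ, MeasurableSet J → (ν : Measure (Fin 1 → ℝ)).real {x | x 0 ∈ J} = ∫ x in J, f x := by
    intro J hJ
    have h1 : (ν : Measure (Fin 1 → ℝ)) {x | x 0 ∈ J} = (ν : Measure (Fin 1 → ℝ)).map (fun x => x 0) J := by
      rw [Measure.map_apply hev hJ]; rfl
    rw [measureReal_def, h1, hmap, withDensity_apply _ hJ, integral_eq_lintegral_of_nonneg_ae
      (Eventually.of_forall hf0) hmeas.aestronglyMeasurable]
  have hone : ∫ x, f x = 1 := by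
    have := hreal univ MeasurableSet.univ
    rw [Measure.restrict_univ] at this
    rw [← this]
    simp
  have hfint : Integrable f := by
    by_contra h
    rw [integral_undef h] at hone
    exact zero_ne_one hone
  have hlaw : ∀ (d b : ℕ) (J : Set ℝ) (ε : ℝ), 1 ≤ d → MeasurableSet J → volume (frontier J) = 0 → 0 < ε →
        Tendsto (mr (fun n => @ite _ (uu d b n ∈ J) (Classical.dec _) 1 0)) (Seg ε) (𝓝 (∫ x in J, f x)) := by
    intro d b J ε hd hJ h0 hε
    obtain ⟨μ, hμ⟩ := exists_law hd b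
    have hμν := law_eq hd hμ hν
    subst hμν
    rw [← hreal J hJ]
    have hfr : (μ : Measure (Fin 1 → ℝ)) (frontier {x : Fin 1 → ℝ | x 0 ∈ J}) = 0 := by
      have hc : Continuous (fun x : Fin 1 → ℝ => x 0) := continuous_apply 0
      have h1 : frontier {x : Fin 1 → ℝ | x 0 ∈ J} ⊆ {x | x 0 ∈ frontier J} :=
        hc.frontier_preimage_subset J
      refine measure_mono_null h1 ?_
      have h2 : (μ : Measure (Fin 1 → ℝ)) {x | x 0 ∈ frontier J} = (μ : Measure (Fin 1 → ℝ)).map (fun x => x 0) (frontier J) := by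
        rw [Measure.map_apply hev isClosed_frontier.measurableSet]; rfl
      rw [h2, hmap]
      exact withDensity_absolutelyContinuous _ _ h0
    have h1 := Pool.Agent.Helper59.GC.T6_port (Seg_le_Gf hε) (hμ ε hε) (hev hJ) hfr
    refine h1.congr fun p => ?_
    congr 1
  refine ⟨f, hf, hf0, hone, ?_, ?_, ?_, hlaw⟩
  · obtain ⟨hi, hm⟩ := law_mean hV hF hs hν
    rw [← hm]
    have h1 : ∫ x : Fin 1 → ℝ, x 0 ∂(ν : Measure (Fin 1 → ℝ)) = ∫ y, y ∂((ν : Measure (Fin 1 → ℝ)).map (fun x => x 0)) := by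
      rw [integral_map hev.aemeasurable (by fun_prop)]
    rw [h1, hmap, integral_withDensity_eq_integral_toReal_smul (by fun_prop)
      (Eventually.of_forall fun x => ENNReal.ofReal_lt_top)]
    refine integral_congr_ae (Eventually.of_forall fun x => ?_)
    simp only [ENNReal.toReal_ofReal (hf0 x), smul_eq_mul]
    ring
  · have h1 := hlaw 1 0 (Set.Ici 0) (1 / 2) le_rfl measurableSet_Ici (by rw [frontier_Ici]; simp) (by norm_num)
    have h2 : ∫ x in Set.Ici 0, f x < 0.05 := by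
      refine tail_bound hV hF hs hM (h1.congr fun p => ?_)
      congr 1
      funext n
      rw [Nat.cast_one, Nat.cast_zero]
      congr
    have h3 : (∫ x in Set.Iio 0, f x) + ∫ x in Set.Ici 0, f x = 1 := by
      rw [← hone, ← setIntegral_union (by
        rw [Set.disjoint_left]; intro x hx hx'; exact absurd (Set.mem_Iio.mp hx) (not_lt.mpr (Set.mem_Ici.mp hx')))
        measurableSet_Ici hfint.integrableOn hfint.integrableOn, Set.Iio_union_Ici, Measure.restrict_univ]
    norm_num at h2 ⊢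
    linarith
  · have h3 : (∫ x in Set.Iio 0, f x) + ∫ x in Set.Ici 0, f x = 1 := by
      rw [← hone, ← setIntegral_union (by
        rw [Set.disjoint_left]; intro x hx hx'; exact absurd (Set.mem_Iio.mp hx) (not_lt.mpr (Set.mem_Ici.mp hx')))
        measurableSet_Ici hfint.integrableOn hfint.integrableOn, Set.Iio_union_Ici, Measure.restrict_univ]
    have h4 : 0 < ∫ x in Set.Ici 0, f x := by
      rw [← hreal _ measurableSet_Ici]
      have h5 := hpos (Set.Ioi 0) isOpen_Ioi ⟨1, by norm_num⟩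
      refine ENNReal.toReal_pos (h5.trans_le (measure_mono fun x hx => ?_)).ne' (measure_ne_top _ _)
      exact le_of_lt (show (0 : ℝ) < x 0 from hx)
    linarith

end

end Pool.Agent.Helper78.BI
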