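import Pool.Agent.Helper78.BI.GeoI
import Pool.Agent.Helper9.S3.P0
import Pool.Agent.Helper78.BM.AV

/-!
# Project FP/TZ (MP_0f6f3f_an): frames

`Fra s S`: the right singular vectors and the singular values are fixed by `σ`. `Fra.gf γ`: the class of `κ(γ) d(γ)` in `s.GG`, `κ` the right singular vectors and `d` the normalised inverse singular values of the block.
`Fra.cov`: `f (gf (γ k)) - f ((ir k)⁻¹ gf γ) → 0` for functions `f` of `Bf`.
-/

set_option autoImplicit false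
set_option linter.unusedSectionVars false

open Filter Topology Matrix

namespace Pool.Agent.Helper78.BI

open Pool.Agent.Helper90.RK Pool.Agent.Helper84.NI Pool.Agent.Helper9 Pool.Agent.Helper35.FP

variable {N : ℕ} {q : Fin N} {G : Type} [Group G] {P : PH G N}

/-- The frames are fixed by `σ`. -/
structure Fra (s : Sg N q) (S : Sv P) : Prop where
  ι : ∀ g, s.σ (P.ι g) = P.ι g
  kR : ∀ g, s.σ (S.kR g) = S.kR g
  ds : ∀ g, s.σ (diagonal fun i => (S.s g i : ℂ)) = diagonal fun i => (S.s g i : ℂ)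

namespace Sg

variable (s : Sg N q)

/-- inclusion of the block -/
def shM : s.Sh →* s.M where
  toFun g := ⟨g.1, g.2.1⟩
  map_one' := rfl
  map_mul' _ _ := rfl

theorem mt_shM (g : s.Sh) : s.mt (s.shM g) = s.ms g := rfl

theorem shM_mem (g : s.Sh) : s.shM g ∈ s.Qh := by
  change Lb q (s.ms g)
  rw [← s.bk_ms]
  exact lb_bk _

end Sg

namespace Fra

variable {s : Sg N q} {S : Sv P} (F : Fra s S)

theorem det_ι (g : G) : (P.ι g).det ≠ 0 := by
  intro h0
  have := P.det1 g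
  rw [h0, norm_zero] at this
  exact zero_ne_one this

include F in
/-- an element of `M` from `ι` -/
theorem ι_mul_inv (g : G) : P.ι g * ((P.ι g).det⁻¹ • (P.ι g).adjugate) = 1 := by
  rw [Matrix.mul_smul, Matrix.mul_adjugate, smul_smul, inv_mul_cancel₀ (det_ι g), one_smul]

/-- an element of `M` from `ι` -/
noncomputable def ie (g : G) : s.M := s.mkm (P.ι g) _ (F.ι_mul_inv g) (F.ι g)

theorem mt_ie (g : G) : s.mt (F.ie g) = P.ι g := rfl

/-- The representation of `G` in `M` modulo scalars. -/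
noncomputable def ir : G →* s.GG := MonoidHom.mk' (fun g => s.pr (F.ie g)) (by
  intro g h
  obtain ⟨c, hc, h1⟩ := P.mul' g h
  refine (QuotientGroup.eq (s := s.Z0) (a := F.ie (g * h)) (b := F.ie g * F.ie h)).2 ?_
  refine s.Z0.inv_mem_iff.1 ?_
  rw [_root_.mul_inv_rev, inv_inv]
  refine ⟨c, hc, ?_⟩
  have h2 : s.mt (F.ie (g * h)) = c • s.mt (F.ie g * F.ie h) := by rw [mt_ie, h1]; rfl
  rw [Sg.mt_mul, h2, Matrix.mul_smul, s.mt_inv_mul])

theorem ir_apply (g : G) : F.ir g = s.pr (F.ie g) := rfl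

/-- The right frame. -/
noncomputable def κ (γ : G) : s.M := s.mkm (S.kR γ) (S.kR γ)ᴴ ((S.uR γ).mul_star) (F.kR γ)

theorem mt_κ (γ : G) : s.mt (F.κ γ) = S.kR γ := rfl

theorem mt_κ_inv (γ : G) : s.mt (F.κ γ)⁻¹ = (S.kR γ)ᴴ := rfl

include F in
theorem ds_mul (γ : G) : (diagonal fun i => (S.s γ i : ℂ)) * S.X γ = 1 := by
  unfold Sv.X
  rw [diagonal_mul_diagonal, ← diagonal_one]
  congr 1
  funext i
  exact mul_inv_cancel₀ (Complex.ofReal_ne_zero.2 (S.pos γ i).ne')

/-- The inverse singular values. -/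
noncomputable def xx (γ : G) : s.M := (s.mkm _ _ (F.ds_mul γ) (F.ds γ))⁻¹

theorem mt_xx (γ : G) : s.mt (F.xx γ) = S.X γ := rfl

theorem lb_diag (v : Fin N → ℂ) : Lb q (diagonal v) := by
  rw [lb_iff]
  intro i j hi hj
  rw [diagonal_apply_ne _ (fun e : i = j => absurd (e ▸ hi) (not_le.2 hj))]

/-- The normalised inverse singular values of the block. -/
noncomputable def dd (γ : G) : s.M := s.shM (s.nbh ⟨F.xx γ, lb_diag _⟩)

theorem mt_dd (γ : G) : s.mt (F.dd γ) = nu q (S.X γ) := rfl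

theorem dd_mem (γ : G) : F.dd γ ∈ s.Qh := s.shM_mem _

/-- The point of `GG`. -/
noncomputable def gf (γ : G) : s.GG := s.pr (F.κ γ * F.dd γ)

theorem isClosed_Qh : IsClosed (s.Qh : Set s.M) := by
  have h : Continuous fun g : s.M => Ef q * s.mt g * Ee q := (continuous_const.mul s.continuous_mt).mul continuous_const
  exact isClosed_eq h continuous_const

theorem Ef_diag (v : Fin N → ℂ) : Ef q * diagonal v = diagonal v * Ef q := by
  unfold Ef
  rw [diagonal_mul_diagonal, diagonal_mul_diagonal]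
  congr 1
  funext i
  exact mul_comm _ _

theorem bk_diag (v : Fin N → ℂ) : bk q (diagonal v) = diagonal fun i => if i ≤ q then v i else 1 := by
  unfold bk Ef Ee
  rw [diagonal_mul_diagonal, diagonal_mul_diagonal, diagonal_add]
  congr 1
  funext i
  split_ifs <;> simp

theorem nu_diag (v : Fin N → ℂ) : nu q (diagonal v) =
    diagonal fun i => if i ≤ q then ((dt q (diagonal v))⁻¹ : ℝ) * v i else 1 := by
  unfold nu
  rw [bk_diag]
  unfold sc
  rw [diagonal_mul_diagonal]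
  congr 1
  funext i
  split_ifs <;> simp

theorem Ef_nu_diag {v : Fin N → ℂ} (h : dt q (diagonal v) ≠ 0) :
    Ef q * diagonal v = ((dt q (diagonal v) : ℝ) : ℂ) • (Ef q * nu q (diagonal v)) := by
  rw [nu_diag]
  unfold Ef
  rw [diagonal_mul_diagonal, diagonal_mul_diagonal, ← diagonal_smul]
  congr 1
  funext i
  rw [Pi.smul_apply, smul_eq_mul]
  have h' : ((dt q (diagonal v) : ℝ) : ℂ) ≠ 0 := Complex.ofReal_ne_zero.2 h
  split_ifs
  · rw [one_mul, one_mul, Complex.ofReal_inv, ← mul_assoc, mul_inv_cancel₀ h', one_mul]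
  · rw [zero_mul, zero_mul, mul_zero]

theorem dtX_pow (γ : G) : dt q (S.X γ) ^ ((q : ℕ) + 1) = ∏ i : Fin N, if i ≤ q then (S.s γ i)⁻¹ else 1 := by
  rw [dt_pow]
  unfold Sv.X
  rw [bk_diag, det_diagonal, norm_prod]
  refine Finset.prod_congr rfl fun i _ => ?_
  split_ifs
  · rw [norm_inv, Complex.norm_real, Real.norm_of_nonneg (S.pos γ i).le]
  · rw [norm_one]

theorem dtX_pos (γ : G) : 0 < dt q (S.X γ) := by
  refine lt_of_le_of_ne (dt_nonneg _) fun h => ?_
  have h1 := dtX_pow (q := q) (S := S) γ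
  rw [← h, zero_pow (Nat.succ_ne_zero _)] at h1
  refine (Finset.prod_ne_zero_iff.2 fun i _ => ?_) h1.symm
  split_ifs
  · exact inv_ne_zero (S.pos γ i).ne'
  · exact one_ne_zero

/-- bound of the normalised singular values -/
theorem dd_bound {γ : G} {K : ℝ} (hK : ∀ i j : Fin N, i ≤ q → j ≤ q → S.s γ i ≤ K * S.s γ j) : F.dd γ ∈ s.Bl (max K 1) := by
  have hK0 : 0 < K := by
    have h1 := hK q q le_rfl le_rfl
    have h2 := S.pos γ q
    by_contra h3
    nlinarith [not_lt.1 h3]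
  have h0 := dtX_pos (q := q) (S := S) γ
  have h1 : ∀ j : Fin N, j ≤ q → (K * S.s γ j)⁻¹ ≤ dt q (S.X γ) := by
    intro j hj
    refine le_of_pow_le_pow_left₀ (n := (q : ℕ) + 1) (Nat.succ_ne_zero _) h0.le ?_
    rw [dtX_pow]
    have h2 : (∏ i : Fin N, if i ≤ q then (K * S.s γ j)⁻¹ else 1) = (K * S.s γ j)⁻¹ ^ ((q : ℕ) + 1) := by
      rw [Finset.prod_ite, Finset.prod_const_one, mul_one, Finset.prod_const]
      congr 1
      have : Finset.univ.filter (fun i : Fin N => i ≤ q) = Finset.Iic q := by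
        ext i
        simp
      rw [this, Fin.card_Iic]
    rw [← h2]
    refine Finset.prod_le_prod (fun i _ => ?_) fun i _ => ?_
    · have := S.pos γ j
      split_ifs <;> positivity
    · split_ifs with hi
      · exact inv_anti₀ (S.pos γ i) (hK i j hi hj)
      · exact le_rfl
  refine ⟨fun i j => ?_, ?_⟩
  · rw [mt_dd]
    unfold Sv.X
    rw [nu_diag]
    by_cases hij : i = j
    · subst hij
      rw [diagonal_apply_eq]
      split_ifs with hi
      · rw [norm_mul, Complex.norm_real, norm_inv, norm_inv, Complex.norm_real, Real.norm_of_nonneg (S.pos γ i).le,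
          Real.norm_of_nonneg (dt_nonneg _)]
        refine le_trans ?_ (le_max_left _ _)
        have h3 := h1 i hi
        have h4 : (dt q (S.X γ))⁻¹ ≤ K * S.s γ i := by
          have h5 := inv_anti₀ (by have := S.pos γ i; positivity) h3
          rwa [inv_inv] at h5
        have h6 : (dt q (S.X γ))⁻¹ * (S.s γ i)⁻¹ ≤ K * S.s γ i * (S.s γ i)⁻¹ :=
          mul_le_mul_of_nonneg_right h4 (inv_nonneg.2 (S.pos γ i).le)
        rwa [mul_assoc, mul_inv_cancel₀ (S.pos γ i).ne', mul_one] at h6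
      · rw [norm_one]
        exact le_max_right _ _
    · rw [diagonal_apply_ne _ hij, norm_zero]
      exact le_max_of_le_right zero_le_one
  · exact (s.nbh ⟨F.xx γ, lb_diag _⟩).2.2.2

theorem dd_star (γ : G) : (s.mt (F.dd γ))ᴴ = s.mt (F.dd γ) := by
  rw [mt_dd]
  unfold Sv.X
  rw [nu_diag, diagonal_conjTranspose]
  congr 1
  funext i
  rw [Pi.star_apply]
  split_ifs
  · rw [star_mul, RCLike.star_def, Complex.conj_ofReal, map_inv₀, Complex.conj_ofReal, mul_comm]
  · rw [star_one]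

open scoped MatrixOrder ComplexOrder in
theorem dd_psd (γ : G) : (s.mt (F.dd γ)).PosSemidef := by
  rw [mt_dd]
  unfold Sv.X
  rw [nu_diag]
  refine PosSemidef.diagonal fun i => ?_
  simp only [Pi.zero_apply]
  split_ifs
  · rw [← Complex.ofReal_inv, ← Complex.ofReal_mul]
    exact Complex.zero_le_real.2 (mul_nonneg (inv_nonneg.2 (dt_nonneg _)) (inv_nonneg.2 (S.pos γ i).le))
  · exact zero_le_one

theorem rh_gf (γ : G) : s.rh (F.κ γ * F.dd γ) = ⟨F.dd γ, F.dd_mem γ⟩ := by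
  refine Subtype.ext (s.mt_inj ?_)
  rw [s.mt_rh]
  have h1 : (s.mt (F.κ γ * F.dd γ))ᴴ * s.mt (F.κ γ * F.dd γ) = s.mt (F.dd γ) * s.mt (F.dd γ) := by
    have h2 : (s.mt (F.κ γ))ᴴ * s.mt (F.κ γ) = 1 := S.uR γ
    rw [Sg.mt_mul, conjTranspose_mul, F.dd_star]
    calc s.mt (F.dd γ) * (s.mt (F.κ γ))ᴴ * (s.mt (F.κ γ) * s.mt (F.dd γ))
        = s.mt (F.dd γ) * ((s.mt (F.κ γ))ᴴ * s.mt (F.κ γ)) * s.mt (F.dd γ) := by simp only [Matrix.mul_assoc]
      _ = _ := by rw [h2, Matrix.mul_one]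
  rw [h1, R1_diag (F.dd_psd γ)]
  rw [mt_dd]
  unfold Sv.X
  rw [nu_diag, diagonal_mul_diagonal, Matrix.mul_assoc, ← Ef_diag, ← Matrix.mul_assoc, Ee_Ef, Matrix.zero_mul]

theorem nb_r_gf (γ : G) : s.geo.nb (s.geo.r (F.gf γ)) = s.nb0 ⟨F.dd γ, F.dd_mem γ⟩ := by
  change s.nbG (s.rG (s.pr (F.κ γ * F.dd γ))) = _
  rw [s.rG_pr, s.nbG_prQ, F.rh_gf]

/-- The blocks in the regions stay in a compact set. -/
theorem cpt_block {W : Set G} {K : ℝ} (hK : ∀ γ ∈ W, ∀ i j : Fin N, i ≤ q → j ≤ q → S.s γ i ≤ K * S.s γ j) :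
    ∃ B : Set s.SL, IsCompact B ∧ ∀ γ ∈ W, s.geo.nb (s.geo.r (F.gf γ)) ∈ B := by
  refine ⟨s.nb0 '' (Subtype.val ⁻¹' (s.Bl (max K 1))), ?_, fun γ hγ => ?_⟩
  · exact ((isClosed_Qh (s := s)).isClosedEmbedding_subtypeVal.isCompact_preimage (s.isCompact_ball _)).image s.continuous_nb0
  · rw [F.nb_r_gf]
    exact ⟨_, F.dd_bound (hK γ hγ), rfl⟩

end Fra

end Pool.Agent.Helper78.BI
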