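import Pool.Agent.Helper78.BI.Low
import Pool.Agent.Helper35.FP.Defs

/-!
# Project FP/TZ (MP_0f6f3f_an): the group `GG` with its parabolic subgroup and its block

`s.geo : Geo s.GG s.SL s.KG`.
-/

set_option autoImplicit false
set_option linter.unusedSectionVars false

open Filter Topology Matrix

namespace Pool.Agent.Helper78.BI

open Pool.Agent.Helper90.RK Pool.Agent.Helper84.NI Pool.Agent.Helper9 Pool.Agent.Helper35.FP

variable {N : ℕ} {q : Fin N}

section Alg

/-- the block is unitary up to a scalar -/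
theorem isU_nu {A : MN N} {c : ℝ} (hc : 0 < c) (h : (bk q A)ᴴ * bk q A = sc q c) : IsU (nu q A) := by
  have h1 : ‖(bk q A).det‖ ^ 2 = c ^ ((q : ℕ) + 1) := by
    have h2 := congrArg Matrix.det h
    rw [det_mul, det_conjTranspose, det_sc, RCLike.star_def, Complex.conj_mul'] at h2
    exact_mod_cast h2
  have h3 : dt q A ^ 2 = c := by
    have h4 : (dt q A ^ 2) ^ ((q : ℕ) + 1) = c ^ ((q : ℕ) + 1) := by
      rw [← pow_mul, mul_comm, pow_mul, dt_pow, h1]
    exact (pow_left_inj₀ (by positivity) hc.le (Nat.succ_ne_zero _)).1 h4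
  change (nu q A)ᴴ * nu q A = 1
  unfold nu
  rw [conjTranspose_mul, sc_star]
  calc (bk q A)ᴴ * sc q (dt q A)⁻¹ * (sc q (dt q A)⁻¹ * bk q A)
      = (bk q A)ᴴ * (sc q (dt q A)⁻¹ * sc q (dt q A)⁻¹ * bk q A) := by simp only [Matrix.mul_assoc]
    _ = (bk q A)ᴴ * bk q A * (sc q (dt q A)⁻¹ * sc q (dt q A)⁻¹) := by
        rw [sc_mul, sc_bk_comm]
        simp only [Matrix.mul_assoc]
    _ = 1 := by
        rw [h, sc_mul, sc_mul]
        have h5 : c * ((dt q A)⁻¹ * (dt q A)⁻¹) = 1 := by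
          rw [← mul_inv, ← pow_two, h3, mul_inv_cancel₀ hc.ne']
        rw [h5, sc_one]

theorem star_mul_self_of_norm {c : ℂ} (hc : ‖c‖ = 1) : star c * c = 1 := by
  rw [RCLike.star_def, Complex.conj_mul', hc]
  norm_num

theorem isU_mul {A B : MN N} (hA : IsU A) (hB : IsU B) : IsU (A * B) := by
  change (A * B)ᴴ * (A * B) = 1
  have hA' : Aᴴ * A = 1 := hA
  have hB' : Bᴴ * B = 1 := hB
  calc (A * B)ᴴ * (A * B) = Bᴴ * (Aᴴ * A) * B := by
        rw [conjTranspose_mul]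
        simp only [Matrix.mul_assoc]
    _ = 1 := by rw [hA', Matrix.mul_one, hB']

theorem isU_lb {A : MN N} (hA : IsU A) (h : Lb q A) : (bk q A)ᴴ * bk q A = sc q 1 := by
  have hA' : Aᴴ * A = 1 := hA
  have h1 : Lb q Aᴴ := h.inv (mul_eq_one_comm.1 hA')
  have h2 : bk q Aᴴ = (bk q A)ᴴ := by
    unfold bk
    rw [conjTranspose_add, conjTranspose_mul, conjTranspose_mul, Ef_star, Ee_star, Matrix.mul_assoc]
  rw [← h2, ← bk_mul h1, hA', bk_one, sc_one]

end Alg

namespace Sg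

variable (s : Sg N q)

/-- The group of the block modulo scalars. -/
abbrev SL : Type := Lin.Sh s.low ⧸ Lin.Zc s.low

/-- The projection. -/
abbrev pr : s.M →* s.GG := QuotientGroup.mk' s.Z0

/-- The parabolic subgroup. -/
def QG : Subgroup s.GG := s.Qh.map s.pr

/-- The projection of the parabolic subgroup. -/
def prQ : s.Qh →* s.QG := s.pr.subgroupMap s.Qh

theorem prQ_surj : Function.Surjective s.prQ := s.pr.subgroupMap_surjective s.Qh

theorem prQ_coe (g : s.Qh) : (s.prQ g : s.GG) = s.pr g := rfl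

theorem Z0_le : s.Z0 ≤ s.Qh := by
  rintro z ⟨c, hc, h⟩
  change Lb q (s.mt z)
  unfold Lb
  rw [h, Matrix.mul_smul, Matrix.smul_mul, Matrix.mul_one, Ef_Ee, smul_zero]

theorem isOpenMap_prQ : IsOpenMap s.prQ := by
  intro U hU
  obtain ⟨V, hV, rfl⟩ := isOpen_induced_iff.1 hU
  have h : s.prQ '' (Subtype.val ⁻¹' V) = Subtype.val ⁻¹' (s.pr '' V) := by
    ext x
    constructor
    · rintro ⟨g, hg, rfl⟩
      exact ⟨g, hg, rfl⟩
    · rintro ⟨v, hv, hx⟩
      obtain ⟨g, rfl⟩ := s.prQ_surj x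
      have h1 : (g : s.M)⁻¹ * v ∈ s.Z0 := QuotientGroup.eq.1 (show ((g : s.M) : s.GG) = (v : s.GG) from hx.symm)
      have h2 : v ∈ s.Qh := by
        have h3 := s.Qh.mul_mem g.2 (s.Z0_le h1)
        rwa [mul_inv_cancel_left] at h3
      exact ⟨⟨v, h2⟩, hv, Subtype.ext hx⟩
  rw [h]
  exact (QuotientGroup.isOpenMap_coe V hV).preimage continuous_subtype_val

theorem continuous_prQ : Continuous s.prQ :=
  Continuous.subtype_mk (f := fun g : s.Qh => s.pr g) (continuous_quotient_mk'.comp continuous_subtype_val) _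

theorem isQuotientMap_prQ : IsQuotientMap s.prQ := s.isOpenMap_prQ.isQuotientMap s.continuous_prQ s.prQ_surj

/-- The compact subgroup of the block. -/
noncomputable def KG : Subgroup s.SL := (Lin.Kc s.low).map (QuotientGroup.mk' (Lin.Zc s.low))

/-- The block modulo scalars. -/
noncomputable def nb0 : s.Qh →* s.SL := (QuotientGroup.mk' (Lin.Zc s.low)).comp s.nbl

theorem continuous_nb0 : Continuous s.nb0 := continuous_quotient_mk'.comp s.continuous_nbl

theorem nb0_ker : s.prQ.ker ≤ s.nb0.ker := by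
  intro g hg
  have h1 : s.pr (g : s.M) = 1 := congrArg Subtype.val hg
  obtain ⟨c, hc, h2⟩ := (QuotientGroup.eq_one_iff (g : s.M)).1 h1
  refine (QuotientGroup.eq_one_iff (s.nbl g)).2 ⟨c, ?_⟩
  rw [mat_nbl, h2]
  have h3 : cor q (c • (1 : MN N)) = c • 1 := by rw [cor_smul, cor_one]
  have h4 : dt q (c • (1 : MN N)) = 1 := by
    unfold dt
    rw [det_bk, h3, det_smul, det_one, mul_one, norm_pow, hc, one_pow, Real.one_rpow]
  unfold nu
  rw [h4, inv_one, sc_one, Matrix.one_mul, cor_bk, h3]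

/-- The block of an element of the parabolic subgroup. -/
noncomputable def nbG : s.QG →* s.SL := s.prQ.liftOfSurjective s.prQ_surj ⟨s.nb0, s.nb0_ker⟩

theorem nbG_prQ (g : s.Qh) : s.nbG (s.prQ g) = s.nb0 g :=
  MonoidHom.liftOfRightInverse_comp_apply s.prQ _ (Function.rightInverse_surjInv s.prQ_surj) ⟨s.nb0, s.nb0_ker⟩ g

theorem nb0_mem {g : s.Qh} (h : IsU (nu q (s.mt g))) : s.nb0 g ∈ s.KG := by
  refine Subgroup.mem_map_of_mem _ (Lin.mem_Kc.2 ?_)
  rw [mat_nbl, ← cor_star]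
  have h1 : nu q (s.mt g) * (nu q (s.mt g))ᴴ = 1 := mul_eq_one_comm.1 h
  have h2 : Lb q (nu q (s.mt g)) := by
    rw [← bk_nu]
    exact lb_bk _
  rw [← cor_mul h2, h1, cor_one]

theorem rh_eq {a b : s.M} (h1 : a⁻¹ * b ∈ s.Z0) : s.rh a = s.rh b := by
  obtain ⟨c, hc, h2⟩ := h1
  refine s.rh_congr ?_
  have h3 : s.mt b = c • s.mt a := by
    have h4 : s.mt a * s.mt (a⁻¹ * b) = s.mt b := by rw [← mt_mul, mul_inv_cancel_left]
    rw [← h4, h2, Matrix.mul_smul, Matrix.mul_one]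
  rw [h3, conjTranspose_smul, Matrix.smul_mul, Matrix.mul_smul, smul_smul, star_mul_self_of_norm hc, one_smul]

/-- the decomposition -/
noncomputable def rG : s.GG → s.QG := Quotient.lift (fun g : s.M => s.prQ (s.rh g))
  fun a b hab => congrArg s.prQ (s.rh_eq (QuotientGroup.leftRel_apply.1 hab))

theorem rG_pr (g : s.M) : s.rG (s.pr g) = s.prQ (s.rh g) := rfl

theorem continuous_rG : Continuous s.rG := (s.continuous_prQ.comp s.continuous_rh).quotient_lift _

/-- The group with its parabolic subgroup and its block. -/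
noncomputable def geo : Geo s.GG s.SL s.KG where
  Q := s.QG
  nb := s.nbG
  nbc := by
    rw [s.isQuotientMap_prQ.continuous_iff]
    exact s.continuous_nb0.congr fun g => (s.nbG_prQ g).symm
  nbs := by
    intro x
    obtain ⟨y, rfl⟩ := QuotientGroup.mk'_surjective (Lin.Zc s.low) x
    obtain ⟨g, rfl⟩ := s.surjective_nbl y
    exact ⟨s.prQ g, s.nbG_prQ g⟩
  K := s.pr '' s.UU
  Kc := s.isCompact_UU.image continuous_quotient_mk'
  r := s.rG
  rc := s.continuous_rG
  kr := by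
    intro g
    obtain ⟨g, rfl⟩ := QuotientGroup.mk'_surjective s.Z0 g
    exact ⟨g * ((s.rh g : s.M))⁻¹, s.isU_mul_rh_inv g, rfl⟩
  rK := by
    rintro _ ⟨u, hu, rfl⟩
    rw [rG_pr, s.rh_unitary hu, map_one, map_one]
    exact s.KG.one_mem
  KK := by
    rintro _ ⟨u, hu, rfl⟩ _ ⟨u', hu', rfl⟩ x hx
    obtain ⟨p, rfl⟩ := s.prQ_surj x
    rw [nbG_prQ]
    have h1 : ((u' * (p : s.M) : s.M))⁻¹ * u ∈ s.Z0 :=
      QuotientGroup.eq.1 (show ((u' * (p : s.M) : s.M) : s.GG) = (u : s.GG) from hx.symm)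
    obtain ⟨c, hc, h2⟩ := h1
    have h3 : s.mt u = c • (s.mt u' * s.mt p) := by
      have h4 : s.mt (u' * (p : s.M)) * s.mt ((u' * (p : s.M))⁻¹ * u) = s.mt u := by rw [← mt_mul, mul_inv_cancel_left]
      rw [← h4, h2, Matrix.mul_smul, Matrix.mul_one, mt_mul]
    have hu1 : (s.mt u)ᴴ * s.mt u = 1 := hu
    have hu2 : (s.mt u')ᴴ * s.mt u' = 1 := hu'
    have h5 : IsU (s.mt p) := by
      change (s.mt p)ᴴ * s.mt p = 1
      rw [h3, conjTranspose_smul, Matrix.smul_mul, Matrix.mul_smul, smul_smul, star_mul_self_of_norm hc, one_smul,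
        conjTranspose_mul] at hu1
      have h6 : (s.mt p)ᴴ * (s.mt u')ᴴ * (s.mt u' * s.mt p) = (s.mt p)ᴴ * s.mt p := by
        calc (s.mt p)ᴴ * (s.mt u')ᴴ * (s.mt u' * s.mt p) = (s.mt p)ᴴ * ((s.mt u')ᴴ * s.mt u') * s.mt p := by
              simp only [Matrix.mul_assoc]
          _ = _ := by rw [hu2, Matrix.mul_one]
      rwa [h6] at hu1
    exact s.nb0_mem (isU_nu one_pos (isU_lb h5 p.2))

end Sg

end Pool.Agent.Helper78.BI
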