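import Pool.Agent.Helper78.BI.Sq
import Pool.Agent.Helper78.BM.Phi

/-!
# Project FP/TZ (MP_0f6f3f_an): multiplication operators at infinity: positivity and limits; reflections
-/

set_option autoImplicit false
set_option linter.unusedSectionVars false

open MeasureTheory Filter Topology
open scoped MatrixOrder ComplexOrder

namespace Pool.Agent.Helper78.BI

open Pool.Agent.Helper84 Pool.Agent.Helper84.GN Pool.Agent.Helper84.GN.S3 Pool.Agent.Helper84.GN.S3.X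
open Pool.Agent.Helper84.NI Pool.Agent.Helper84.GVN Pool.Agent.Helper90.RK
open Pool.Agent.Helper96.RK Pool.Agent.Helper66.FR Pool.Agent.Helper84.FR Pool.Agent.Helper55.FR Pool.Agent.Helper78.BM

variable {G X : Type} [Group G] [MeasurableSpace X] {μ : Measure X} {R : Reg G}

theorem Mf_sum {ι : Type} (s : Finset ι) (f : ι → G → ℂ) {C : ℝ} (hC : ∀ i γ, ‖f i γ‖ ≤ C) (x : XUa μ R) :
    Mf μ R (fun γ => ∑ i ∈ s, f i γ) x = ∑ i ∈ s, Mf μ R (f i) x := by
  classical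
  induction s using Finset.induction_on with
  | empty =>
    simp only [Finset.sum_empty]
    rw [Mf_const, zero_smul]
  | insert a s ha ih =>
    simp only [Finset.sum_insert ha]
    rw [Mf_add (hC a) (D := s.card * C) (fun γ => (norm_sum_le_of_le s fun i _ => hC i γ).trans (by simp)), ih]

/-- **Positivity.** -/
theorem Mf_pos {n : ℕ} (a : Fin n → Fin n → G → ℂ) {C : ℝ} (hC : ∀ i j γ, ‖a i j γ‖ ≤ C)
    (h : ∀ (γ : G) (z : Fin n → ℂ), 0 ≤ (∑ i, ∑ j, (starRingEnd ℂ) (z i) * a i j γ * z j).re) (u : Fin n → XUa μ R) :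
    0 ≤ (∑ i, ∑ j, inner ℂ (u i) (Mf μ R (a i j) (u j))).re := by
  obtain ⟨H, hH⟩ : ∃ H : G → MN n, ∀ γ i j, H γ i j = a i j γ + (starRingEnd ℂ) (a j i γ) :=
    ⟨fun γ => Matrix.of fun i j => a i j γ + (starRingEnd ℂ) (a j i γ), fun γ i j => rfl⟩
  have hherm : ∀ γ, (H γ).IsHermitian := by
    intro γ
    ext i j
    rw [Matrix.conjTranspose_apply, hH, hH, RCLike.star_def, map_add, Complex.conj_conj, add_comm]
  have hpsd : ∀ γ, (H γ).PosSemidef := by
    intro γ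
    refine Matrix.PosSemidef.of_dotProduct_mulVec_nonneg (hherm γ) fun z => ?_
    have him := (hherm γ).im_star_dotProduct_mulVec_self z
    have h1 : star z ⬝ᵥ (H γ).mulVec z = (∑ i, ∑ j, (starRingEnd ℂ) (z i) * a i j γ * z j) +
        (starRingEnd ℂ) (∑ i, ∑ j, (starRingEnd ℂ) (z i) * a i j γ * z j) := by
      have h2 : (starRingEnd ℂ) (∑ i, ∑ j, (starRingEnd ℂ) (z i) * a i j γ * z j) =
          ∑ i, ∑ j, (starRingEnd ℂ) (z i) * (starRingEnd ℂ) (a j i γ) * z j := by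
        rw [map_sum, Finset.sum_comm]
        rw [show (∑ i, (starRingEnd ℂ) (∑ j, (starRingEnd ℂ) (z i) * a i j γ * z j)) =
          ∑ i, ∑ j, (starRingEnd ℂ) ((starRingEnd ℂ) (z i) * a i j γ * z j) from
          Finset.sum_congr rfl fun i _ => map_sum _ _ _, Finset.sum_comm]
        rw [Finset.sum_comm]
        refine Finset.sum_congr rfl fun i _ => Finset.sum_congr rfl fun j _ => ?_
        rw [map_mul, map_mul, Complex.conj_conj]
        ring
      rw [h2, ← Finset.sum_add_distrib]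
      unfold dotProduct
      refine Finset.sum_congr rfl fun i _ => ?_
      rw [← Finset.sum_add_distrib, Matrix.mulVec, dotProduct, Finset.mul_sum]
      refine Finset.sum_congr rfl fun j _ => ?_
      rw [hH, Pi.star_apply, RCLike.star_def]
      ring
    rw [Complex.le_def]
    refine ⟨?_, ?_⟩
    · rw [h1, Complex.add_re, Complex.conj_re, Complex.zero_re]
      have := h γ z
      linarith
    · rw [Complex.zero_im]
      exact him.symm
  obtain ⟨b, hb⟩ : ∃ b : Fin n → Fin n → G → ℂ, b = fun i j γ => sq (H γ) i j := ⟨_, rfl⟩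
  have hbC : ∀ i j γ, ‖b i j γ‖ ≤ Real.sqrt (2 * C) := by
    intro i j γ
    refine Real.le_sqrt_of_sq_le ?_
    have h1 := norm_sq_le (hpsd γ) i j
    rw [hb]
    refine h1.trans ?_
    rw [hH]
    refine (norm_add_le _ _).trans ?_
    rw [RCLike.norm_conj]
    linarith [hC j j γ]
  have hfac : ∀ i j, (fun γ => a i j γ + (starRingEnd ℂ) (a j i γ)) =
      fun γ => ∑ k, (starRingEnd ℂ) (b k i γ) * b k j γ := by
    intro i j
    funext γ
    have h1 : (sq (H γ)) * sq (H γ) = H γ := sq_mul (hpsd γ)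
    have h2 : (sq (H γ)).conjTranspose = sq (H γ) := sq_herm _
    rw [← hH γ i j]
    conv_lhs => rw [← h1, ← h2]
    rw [Matrix.mul_apply]
    refine Finset.sum_congr rfl fun k _ => ?_
    rw [Matrix.conjTranspose_apply, h2, hb, RCLike.star_def]
  have hcc : ∀ i j γ, ‖(starRingEnd ℂ) (a i j γ)‖ ≤ C := fun i j γ => by
    rw [RCLike.norm_conj]
    exact hC i j γ
  have hbc : ∀ i j γ, ‖(starRingEnd ℂ) (b i j γ)‖ ≤ Real.sqrt (2 * C) := fun i j γ => by
    rw [RCLike.norm_conj]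
    exact hbC i j γ
  have e1 : ∀ i j, inner ℂ (u i) (Mf μ R (fun γ => a i j γ + (starRingEnd ℂ) (a j i γ)) (u j)) =
      inner ℂ (u i) (Mf μ R (a i j) (u j)) + (starRingEnd ℂ) (inner ℂ (u j) (Mf μ R (a j i) (u i))) := by
    intro i j
    rw [Mf_add (hC i j) (hcc j i), inner_add_right, ← Mf_adj (hC j i), inner_conj_symm]
  have e2 : ∀ i j, inner ℂ (u i) (Mf μ R (fun γ => a i j γ + (starRingEnd ℂ) (a j i γ)) (u j)) =
      ∑ k, inner ℂ (Mf μ R (b k i) (u i)) (Mf μ R (b k j) (u j)) := by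
    intro i j
    rw [hfac i j, Mf_sum Finset.univ (fun k γ => (starRingEnd ℂ) (b k i γ) * b k j γ)
      (C := Real.sqrt (2 * C) * Real.sqrt (2 * C)) (fun k γ => by
        rw [norm_mul]
        exact mul_le_mul (hbc k i γ) (hbC k j γ) (norm_nonneg _) (Real.sqrt_nonneg _)), inner_sum]
    refine Finset.sum_congr rfl fun k _ => ?_
    rw [← Mf_mul (hbc k i) (hbC k j), ← Mf_adj (hbC k i)]
  have e3 : (∑ i, ∑ j, inner ℂ (u i) (Mf μ R (fun γ => a i j γ + (starRingEnd ℂ) (a j i γ)) (u j)) : ℂ) =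
      ∑ k, inner ℂ (∑ i, Mf μ R (b k i) (u i)) (∑ j, Mf μ R (b k j) (u j)) := by
    rw [show (∑ i, ∑ j, inner ℂ (u i) (Mf μ R (fun γ => a i j γ + (starRingEnd ℂ) (a j i γ)) (u j)) : ℂ) =
      ∑ i, ∑ j, ∑ k, inner ℂ (Mf μ R (b k i) (u i)) (Mf μ R (b k j) (u j)) from
      Finset.sum_congr rfl fun i _ => Finset.sum_congr rfl fun j _ => e2 i j]
    have e4 : ∀ k, (inner ℂ (∑ i, Mf μ R (b k i) (u i)) (∑ j, Mf μ R (b k j) (u j)) : ℂ) =
        ∑ i, ∑ j, inner ℂ (Mf μ R (b k i) (u i)) (Mf μ R (b k j) (u j)) := by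
      intro k
      rw [sum_inner]
      exact Finset.sum_congr rfl fun i _ => inner_sum _ _ _
    rw [show (∑ k, inner ℂ (∑ i, Mf μ R (b k i) (u i)) (∑ j, Mf μ R (b k j) (u j)) : ℂ) =
      ∑ k, ∑ i, ∑ j, inner ℂ (Mf μ R (b k i) (u i)) (Mf μ R (b k j) (u j)) from Finset.sum_congr rfl fun k _ => e4 k]
    rw [Finset.sum_comm (s := Finset.univ) (t := Finset.univ) (f := fun k i =>
      ∑ j, (inner ℂ (Mf μ R (b k i) (u i)) (Mf μ R (b k j) (u j)) : ℂ))]
    exact Finset.sum_congr rfl fun i _ => Finset.sum_comm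
  have e5 : 0 ≤ (∑ i, ∑ j, inner ℂ (u i) (Mf μ R (fun γ => a i j γ + (starRingEnd ℂ) (a j i γ)) (u j)) : ℂ).re := by
    rw [e3, Complex.re_sum]
    exact Finset.sum_nonneg fun k _ => inner_self_nonneg (𝕜 := ℂ)
  have e6 : (∑ i, ∑ j, inner ℂ (u i) (Mf μ R (fun γ => a i j γ + (starRingEnd ℂ) (a j i γ)) (u j)) : ℂ).re =
      2 * (∑ i, ∑ j, inner ℂ (u i) (Mf μ R (a i j) (u j)) : ℂ).re := by
    rw [show (∑ i, ∑ j, inner ℂ (u i) (Mf μ R (fun γ => a i j γ + (starRingEnd ℂ) (a j i γ)) (u j)) : ℂ) =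
      ∑ i, ∑ j, (inner ℂ (u i) (Mf μ R (a i j) (u j)) + (starRingEnd ℂ) (inner ℂ (u j) (Mf μ R (a j i) (u i)))) from
      Finset.sum_congr rfl fun i _ => Finset.sum_congr rfl fun j _ => e1 i j]
    rw [show (∑ i, ∑ j, (inner ℂ (u i) (Mf μ R (a i j) (u j)) + (starRingEnd ℂ) (inner ℂ (u j) (Mf μ R (a j i) (u i)))) : ℂ) =
      (∑ i, ∑ j, inner ℂ (u i) (Mf μ R (a i j) (u j))) + ∑ i, ∑ j, (starRingEnd ℂ) (inner ℂ (u j) (Mf μ R (a j i) (u i))) by
      rw [← Finset.sum_add_distrib]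
      exact Finset.sum_congr rfl fun i _ => Finset.sum_add_distrib]
    rw [Finset.sum_comm (s := Finset.univ) (t := Finset.univ) (f := fun i j =>
      (starRingEnd ℂ) (inner ℂ (u j) (Mf μ R (a j i) (u i))))]
    rw [show (∑ j, ∑ i, (starRingEnd ℂ) (inner ℂ (u j) (Mf μ R (a j i) (u i))) : ℂ) =
      (starRingEnd ℂ) (∑ j, ∑ i, inner ℂ (u j) (Mf μ R (a j i) (u i))) by
      rw [map_sum]
      exact Finset.sum_congr rfl fun i _ => (map_sum _ _ _).symm]
    rw [Complex.add_re, Complex.conj_re]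
    ring
  linarith

theorem Mf_small' {f : G → ℂ} {C : ℝ} (hC : ∀ γ, ‖f γ‖ ≤ C) {ε : ℝ} (hε : 0 ≤ ε) (x : XUa μ R)
    (hx : UE.map μ (ind ℂ {γ | ‖f γ‖ ≤ ε}) (x : UE μ (L2 G)) = x) : ‖Mf μ R f x‖ ≤ ε * ‖x‖ := by
  classical
  have hC' : ∀ γ, ‖({γ | ‖f γ‖ ≤ ε} : Set G).indicator f γ‖ ≤ ε := by
    intro γ
    unfold Set.indicator
    split_ifs with h2
    · exact h2
    · rw [norm_zero]
      exact hε
  have e : (mulop f).comp (ind ℂ {γ | ‖f γ‖ ≤ ε}) = mulop (({γ | ‖f γ‖ ≤ ε} : Set G).indicator f) := by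
    ext y : 1
    refine l2_ext fun γ => ?_
    rw [ContinuousLinearMap.comp_apply, mulop_app hC, mulop_app hC', ind_apply]
    unfold Set.indicator
    split_ifs <;> simp
  have h2 : (Mf μ R f x : UE μ (L2 G)) =
      UE.map μ (mulop (({γ | ‖f γ‖ ≤ ε} : Set G).indicator f)) (x : UE μ (L2 G)) := by
    rw [coe_Mf, ← e, UE.map_comp, hx]
  change ‖(Mf μ R f x : UE μ (L2 G))‖ ≤ ε * ‖(x : UE μ (L2 G))‖
  rw [h2]
  exact UE.norm_map_le_of hε (norm_mulop_app hε hC') _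

theorem mem_span_XUaSet {y : UE μ (L2 G)} (hy : y ∈ Submodule.span ℂ (XUaSet μ R)) : y ∈ XUaSet μ R := by
  have mono : ∀ n m, n ≤ m → R.F n ≤ R.F m := fun n m h => monotone_nat_of_le_succ R.monoF h
  induction hy using Submodule.span_induction with
  | mem x hx => exact hx
  | zero => exact ⟨0, fun s _ => map_zero _⟩
  | add x y _ _ hx hy =>
    obtain ⟨n, hn⟩ := hx
    obtain ⟨m, hm⟩ := hy
    refine ⟨max n m, fun s hs => ?_⟩
    rw [map_add, hn s (mono _ _ (le_max_left n m) hs), hm s (mono _ _ (le_max_right n m) hs)]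
  | smul c x _ hx =>
    obtain ⟨n, hn⟩ := hx
    exact ⟨n, fun s hs => by rw [map_smul, hn s hs]⟩

/-- **Limits.** -/
theorem Mf_lim {f : ℕ → G → ℂ} {C : ℝ} (hC : ∀ j γ, ‖f j γ‖ ≤ C)
    (h : ∀ (n : ℕ) (ε : ℝ), 0 < ε → ∀ᶠ j in atTop, ∀ᶠ γ in R.F n, ‖f j γ‖ ≤ ε) (x : XUa μ R) :
    Tendsto (fun j => Mf μ R (f j) x) atTop (𝓝 0) := by
  have hC0 : 0 ≤ C := (norm_nonneg _).trans (hC 0 1)
  rw [tendsto_zero_iff_norm_tendsto_zero, Metric.tendsto_atTop]
  intro ε hε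
  have hx : (x : UE μ (L2 G)) ∈ closure (Submodule.span ℂ (XUaSet μ R) : Set (UE μ (L2 G))) := x.2
  obtain ⟨y, hy, hxy⟩ := Metric.mem_closure_iff.1 hx (ε / (2 * (C + 1))) (by positivity)
  obtain ⟨n, hn⟩ := mem_span_XUaSet hy
  have hyU : y ∈ XUa μ R := Submodule.le_topologicalClosure _ hy
  have h1 := h n (ε / (4 * (‖y‖ + 1))) (by positivity)
  obtain ⟨j0, hj0⟩ := eventually_atTop.1 h1
  refine ⟨j0, fun j hj => ?_⟩
  have h2 := Mf_small' (hC j) (ε := ε / (4 * (‖y‖ + 1))) (by positivity) (⟨y, hyU⟩ : XUa μ R) (hn _ (hj0 j hj))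
  have h3 : ‖Mf μ R (f j) (x - ⟨y, hyU⟩)‖ ≤ C * ‖x - ⟨y, hyU⟩‖ := norm_Mf_le (hC j) _
  have h4 : ‖x - ⟨y, hyU⟩‖ < ε / (2 * (C + 1)) := by
    rw [dist_eq_norm] at hxy
    exact hxy
  have h5 : Mf μ R (f j) x = Mf μ R (f j) (x - ⟨y, hyU⟩) + Mf μ R (f j) ⟨y, hyU⟩ := by rw [← map_add, sub_add_cancel]
  have h6 : ε / (4 * (‖y‖ + 1)) * ‖y‖ ≤ ε / 4 := by
    rw [div_mul_eq_mul_div, div_le_div_iff₀ (by positivity) (by positivity)]
    nlinarith [norm_nonneg y]
  have h7 : C * (ε / (2 * (C + 1))) ≤ ε / 2 := by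
    rw [mul_div_assoc', div_le_div_iff₀ (by positivity) (by positivity)]
    nlinarith
  have h8 : ‖(⟨y, hyU⟩ : XUa μ R)‖ = ‖y‖ := rfl
  rw [Real.dist_eq, sub_zero, abs_of_nonneg (norm_nonneg _)]
  calc ‖Mf μ R (f j) x‖ ≤ ‖Mf μ R (f j) (x - ⟨y, hyU⟩)‖ + ‖Mf μ R (f j) ⟨y, hyU⟩‖ := by rw [h5]; exact norm_add_le _ _
    _ ≤ C * ‖x - ⟨y, hyU⟩‖ + ε / (4 * (‖y‖ + 1)) * ‖y‖ := add_le_add h3 (h8 ▸ h2)
    _ ≤ C * (ε / (2 * (C + 1))) + ε / (4 * (‖y‖ + 1)) * ‖y‖ := by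
        have := mul_le_mul_of_nonneg_left h4.le hC0
        linarith
    _ < ε := by linarith

/-- The reflection of a projection of a projection valued measure. -/
noncomputable def refl {Y H : Type} [MeasurableSpace Y] [NormedAddCommGroup H] [InnerProductSpace ℂ H] (p : PV Y H)
    (D : Set Y) (hD : MeasurableSet D) : H ≃ₗᵢ[ℂ] H :=
  have hinv : ∀ x, (x - (2 : ℂ) • p.p D x) - (2 : ℂ) • p.p D (x - (2 : ℂ) • p.p D x) = x := fun x => by
    rw [map_sub, map_smul, p.inter D D hD hD, Set.inter_self]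
    module
  { toFun := fun x => x - (2 : ℂ) • p.p D x
    invFun := fun x => x - (2 : ℂ) • p.p D x
    map_add' := fun x y => by
      rw [map_add]
      module
    map_smul' := fun c x => by
      rw [map_smul, RingHom.id_apply]
      module
    left_inv := hinv
    right_inv := hinv
    norm_map' := fun x => by
      change ‖x - (2 : ℂ) • p.p D x‖ = ‖x‖
      have h1 : (inner ℂ (x - (2 : ℂ) • p.p D x) (x - (2 : ℂ) • p.p D x) : ℂ) = inner ℂ x x := by
        have h2 : (inner ℂ (p.p D x) (p.p D x) : ℂ) = inner ℂ x (p.p D x) := by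
          rw [p.symm D hD, p.inter D D hD hD, Set.inter_self]
        have h3 : (inner ℂ (p.p D x) x : ℂ) = inner ℂ x (p.p D x) := p.symm D hD x x
        rw [inner_sub_left, inner_sub_right, inner_sub_right, inner_smul_left, inner_smul_right, inner_smul_left,
          inner_smul_right, h2, h3, show (starRingEnd ℂ) (2 : ℂ) = 2 from map_ofNat _ 2]
        ring
      rw [inner_self_eq_norm_sq_to_K, inner_self_eq_norm_sq_to_K] at h1
      have h4 : ‖x - (2 : ℂ) • p.p D x‖ ^ 2 = ‖x‖ ^ 2 := by exact_mod_cast h1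
      exact (pow_left_inj₀ (norm_nonneg _) (norm_nonneg _) two_ne_zero).1 h4 }

theorem refl_apply {Y H : Type} [MeasurableSpace Y] [NormedAddCommGroup H] [InnerProductSpace ℂ H] (p : PV Y H)
    (D : Set Y) (hD : MeasurableSet D) (x : H) : refl p D hD x = x - (2 : ℂ) • p.p D x := rfl

end Pool.Agent.Helper78.BI
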