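import Pool.Agent.Helper78.BI.Cov
import Pool.Agent.Helper78.BI.Ops
import Pool.Agent.Helper78.BM.Main
import Pool.Agent.Helper78.BM.Erg

/-!
# Project FP/TZ (MP_0f6f3f_an): the boundary data

`bdOf F T hb B h3 hK hE : BD s.geo G (cen b) (XL μ (L2 G)) (XUa μ (GN.toReg T))`: the boundary data given by a boundary map `B` for the positions of a stratum `T` with the blocks `{i ≤ q}` and `{i > q}`.
-/

set_option autoImplicit false
set_option linter.unusedSectionVars false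

open MeasureTheory Filter Topology

namespace Pool.Agent.Helper78.BI

open Pool.Agent.Helper84 Pool.Agent.Helper84.GN Pool.Agent.Helper84.GN.S3 Pool.Agent.Helper84.GN.S3.X
open Pool.Agent.Helper84.NI Pool.Agent.Helper84.GVN Pool.Agent.Helper90.RK Pool.Agent.Helper9
open Pool.Agent.Helper96.RK Pool.Agent.Helper66.FR Pool.Agent.Helper84.FR Pool.Agent.Helper55.FR Pool.Agent.Helper78.BM
open Pool.Agent.Helper35.FP (BD Geo Bf Yf)
open Pool.Agent.Helper96.FR (contVec mem_contVec isClosed_contVec)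

variable {G1 X G Λ : Type} [Group G1] [TopologicalSpace G1] [IsTopologicalGroup G1] [MeasurableSpace X] [MulAction G1 X]
  [MeasurableConstSMul G1 X] [Group G] [Group Λ] [Countable Λ] {μ : Measure X} [SMulInvariantMeasure G1 X μ]
  [IsProbabilityMeasure μ] {a : Cocy G1 X Λ} {E : Emb Λ G} {R : Reg G} {pd : PD G} {b : ℕ → G1}

section Iso

variable (B : BMap μ a E R pd b)

/-- The isometry of the boundary map. -/
noncomputable def iso : XL μ (L2 G) →ₗᵢ[ℂ] XUa μ R where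
  toLinearMap := (((Real.sqrt B.p : ℝ) : ℂ)⁻¹ • Tb μ a E R b : XL μ (L2 G) →L[ℂ] XUa μ R)
  norm_map' x := by
    change ‖((Real.sqrt B.p : ℝ) : ℂ)⁻¹ • Tb μ a E R b x‖ = ‖x‖
    have h1 := B.inner_T x x
    rw [inner_self_eq_norm_sq_to_K, inner_self_eq_norm_sq_to_K] at h1
    have h2 : ‖Tb μ a E R b x‖ ^ 2 = B.p * ‖x‖ ^ 2 := by
      apply Complex.ofReal_injective
      rw [Complex.ofReal_mul, Complex.ofReal_pow, Complex.ofReal_pow]
      exact h1
    have h3 : 0 < Real.sqrt B.p := Real.sqrt_pos.2 B.pos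
    rw [norm_smul, norm_inv, Complex.norm_real, Real.norm_of_nonneg h3.le]
    have h4 : ((Real.sqrt B.p)⁻¹ * ‖Tb μ a E R b x‖) ^ 2 = ‖x‖ ^ 2 := by
      rw [mul_pow, h2, inv_pow, Real.sq_sqrt B.pos.le, ← mul_assoc, inv_mul_cancel₀ B.pos.ne', one_mul]
    exact (pow_left_inj₀ (by positivity) (norm_nonneg _) two_ne_zero).1 h4

theorem iso_apply (x : XL μ (L2 G)) : iso B x = ((Real.sqrt B.p : ℝ) : ℂ)⁻¹ • Tb μ a E R b x := rfl

theorem adj_iso (f : G → ℂ) (x : XL μ (L2 G)) :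
    ContinuousLinearMap.adjoint (iso B).toContinuousLinearMap (Mf μ R f (iso B x)) = B.Ph f x := by
  refine ext_inner_left ℂ fun y => ?_
  rw [ContinuousLinearMap.adjoint_inner_right, B.inner_Ph]
  change inner ℂ (iso B y) (Mf μ R f (iso B x)) = _
  rw [iso_apply, iso_apply, map_smul, inner_smul_left, inner_smul_right, map_inv₀, Complex.conj_ofReal, ← mul_assoc,
    ← mul_inv, ← Complex.ofReal_mul, Real.mul_self_sqrt B.pos.le]

end Iso

/-- The shifts of the base point as unitaries. -/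
noncomputable def sSE (μ : Measure X) [SMulInvariantMeasure G1 X μ] [IsProbabilityMeasure μ] (R : Reg G) (c : ℕ → G1) :
    XUa μ R ≃ₗᵢ[ℂ] XUa μ R where
  toFun := sSU μ R c
  invFun := sSU μ R fun n => (c n)⁻¹
  map_add' := map_add _
  map_smul' := map_smul _
  left_inv x := Subtype.ext (by rw [coe_sSU, coe_sSU, sS_inv])
  right_inv x := Subtype.ext (by rw [coe_sSU, coe_sSU, sS_inv'])
  norm_map' x := norm_sSU c x

theorem sSE_apply (c : ℕ → G1) (x : XUa μ R) : sSE μ R c x = sSU μ R c x := rfl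

theorem cl_xE' {H H' : Type} [NormedAddCommGroup H] [InnerProductSpace ℂ H] [NormedAddCommGroup H'] [InnerProductSpace ℂ H']
    (T : H →L[ℂ] H') {D : Set X} (hD : MeasurableSet D) (φ : XL μ H) : cl μ T (xE μ H D φ) = xE μ H' D (cl μ T φ) := by
  refine xl_ext ?_
  filter_upwards [cl_apply T (xE μ H D φ), xE_apply hD φ, xE_apply hD (cl μ T φ), cl_apply T φ] with x h1 h2 h3 h4
  rw [h1, h2, h3, h4]
  by_cases h : x ∈ D
  · rw [Set.indicator_of_mem h, one_smul, one_smul]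
  · rw [Set.indicator_of_notMem h, zero_smul, zero_smul, map_zero]

theorem Vq_Wk (q : G1) (k : G) (φ : XL μ (L2 G)) : Vq μ a E q (Wk μ k φ) = Wk μ k (Vq μ a E q φ) :=
  (cl_vg a (A0 := jjR E) (A1 := jjR E) (T := ((lamU k).toContinuousLinearEquiv : L2 G →L[ℂ] L2 G))
    (fun l v => ((E.conj.comm l).jjU_lam k v).symm) q φ).symm

theorem py_XBU {D : Set X} (hD : MeasurableSet D) (k : G) (x : XUa μ R) :
    (pyU μ b R).p D (XBU R k x) = XBU R k ((pyU μ b R).p D x) :=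
  (((mrep_XU (μ := μ) (R := R) b).hB k).y D hD x).symm

theorem py_Mf {D : Set X} (hD : MeasurableSet D) (f : G → ℂ) (x : XUa μ R) :
    (pyU μ b R).p D (Mf μ R f x) = Mf μ R f ((pyU μ b R).p D x) :=
  ((hom_rst (xmU_hom b (mulop f)) _ _ fun _ hx => mulop_memX R hx).y D hD x).symm

/-- The unitaries which commute with everything. -/
def CCs (μ : Measure X) [SMulInvariantMeasure G1 X μ] [IsProbabilityMeasure μ] (a : Cocy G1 X Λ) (E : Emb Λ G) (R : Reg G)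
    (b : ℕ → G1) : Set ((XL μ (L2 G) ≃ₗᵢ[ℂ] XL μ (L2 G)) × (XUa μ R ≃ₗᵢ[ℂ] XUa μ R)) :=
  {c | (∃ q ∈ Ctr b, c = (vgR μ a (jjR E) q, sSE μ R fun n => b n * q * (b n)⁻¹)) ∨
    ∃ (D : Set X) (hD : MeasurableSet D), c = (refl (pv0 μ (L2 G)) D hD, refl (pyU μ b R) D hD)}

theorem ctr_conj {q : G1} (hq : q ∈ Ctr b) (s : cen b) : (s : G1) * q * (s : G1)⁻¹ ∈ Ctr b := by
  have h1 : Tendsto (fun n => (s : G1) * (b n * q * (b n)⁻¹) * (s : G1)⁻¹) (hyperfilter ℕ : Filter ℕ) (𝓝 1) := by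
    have h2 := (Tendsto.const_mul (s : G1) (show Tendsto (fun n => b n * q * (b n)⁻¹) (hyperfilter ℕ : Filter ℕ) (𝓝 1)
      from hq)).mul_const (s : G1)⁻¹
    rwa [mul_one, mul_inv_cancel] at h2
  refine h1.congr fun n => ?_
  have h2 := mem_cen.1 s.2 n
  have h3 : (s : G1)⁻¹ * (b n)⁻¹ = (b n)⁻¹ * (s : G1)⁻¹ := by rw [← mul_inv_rev, ← mul_inv_rev, h2]
  calc (s : G1) * (b n * q * (b n)⁻¹) * (s : G1)⁻¹ = (s : G1) * b n * q * ((b n)⁻¹ * (s : G1)⁻¹) := by group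
    _ = b n * ((s : G1) * q * (s : G1)⁻¹) * (b n)⁻¹ := by
        rw [← h2, ← h3]
        group

theorem yf_bdd {𝔾 𝕊 : Type} [Group 𝔾] [TopologicalSpace 𝔾] [Group 𝕊] [TopologicalSpace 𝕊] {𝕂 : Subgroup 𝕊}
    {geo : Geo 𝔾 𝕊 𝕂} {f : 𝔾 → ℂ} (hf : Yf geo f) : ∃ C : ℝ, ∀ g, ‖f g‖ ≤ C := by
  obtain ⟨C, hC⟩ := geo.Kc.exists_bound_of_continuousOn hf.cont.continuousOn
  refine ⟨C, fun g => ?_⟩
  have h1 := hf.inv g (geo.r g)⁻¹
  rw [← h1]
  exact hC _ (geo.kr g)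

variable {N : ℕ} {q : Fin N} {P : PH G N} {s : Sg N q} {S : Sv P}

/-- **The boundary data.** -/
noncomputable def bdOf (F : Fra s S) (T : Str S) (hb : ∀ i, T.b i = if q < i then 1 else 0)
    (B : BMap μ a E (Pool.Agent.Helper84.GN.toReg T) (posPD S T.b) b)
    (h3 : Tendsto (fun g : G1 => μ {x | a.a g x ≠ 1}) (𝓝 1) (𝓝 0)) (hK : Kcont G1 μ) (hE : ErgU μ a E (Ctr b)) :
    BD s.geo G (cen b) (XL μ (L2 G)) (XUa μ (Pool.Agent.Helper84.GN.toReg T)) where
  ir := F.ir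
  W := clR μ (lamR G)
  WU := XBU (Pool.Agent.Helper84.GN.toReg T)
  T := iso B
  TW k x := by
    rw [iso_apply, iso_apply, map_smul]
    congr 1
    exact Tb_W k x
  E f := Mf μ _ fun γ => f (F.gf γ)
  E_one x := by rw [Mf_const, one_smul]
  E_add f f' hf hf' x := by
    obtain ⟨C, hC⟩ := hf.bdd
    obtain ⟨C', hC'⟩ := hf'.bdd
    exact Mf_add (fun γ => hC _) (fun γ => hC' _) x
  E_smul c f hf x := by
    obtain ⟨C, hC⟩ := hf.bdd
    exact Mf_smul (fun γ => hC _) c x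
  E_mul f f' hf hf' x := by
    obtain ⟨C, hC⟩ := hf.bdd
    obtain ⟨C', hC'⟩ := hf'.bdd
    exact (Mf_mul (fun γ => hC _) (fun γ => hC' _) x).symm
  E_star f hf x y := by
    obtain ⟨C, hC⟩ := hf.bdd
    exact Mf_adj (fun γ => hC _) x y
  E_pos n c hc h u := by
    choose C hC using fun i j => (hc i j).bdd
    refine Mf_pos (C := ∑ i, ∑ j, |C i j|) (fun i j γ => c i j (F.gf γ)) (fun i j γ => ?_) (fun γ z => h (F.gf γ) z) u
    refine ((hC i j _).trans (le_abs_self _)).trans ?_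
    refine (Finset.single_le_sum (f := fun j => |C i j|) (fun j _ => abs_nonneg _) (Finset.mem_univ j)).trans ?_
    exact Finset.single_le_sum (f := fun i => ∑ j, |C i j|) (fun i _ => Finset.sum_nonneg fun j _ => abs_nonneg _)
      (Finset.mem_univ i)
  E_cov k f hf x := by
    obtain ⟨C, hC⟩ := hf.bdd
    rw [Mf_XBU (fun γ => hC _) k x]
    exact Mf_congr (fun γ => hC _) (fun γ => hC _) (fun n => F.cov T hb hf.cont hf.inv k n) _
  E_lim f C hf hC hlim x := by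
    refine Mf_lim (fun j γ => hC j _) (fun n ε hε => ?_) x
    obtain ⟨K, hK⟩ := T.cpt n
    obtain ⟨D, hD, hD'⟩ := F.cpt_block (W := T.W n) (K := K) fun γ hγ i j hi hj =>
      hK γ hγ i j (by rw [hb, hb, if_neg (not_lt.2 hi), if_neg (not_lt.2 hj)])
    filter_upwards [hlim D hD ε hε] with j hj
    filter_upwards [le_principal_iff.1 (T.le n)] with γ hγ
    exact hj _ (hD' γ hγ)
  pvm f hf x := by
    rw [adj_iso, iso_apply, iso_apply, map_smul]
    congr 1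
    obtain ⟨C, hC⟩ := yf_bdd hf
    exact (B.T_Ph (AV.of_uc (F.uc hb hf) (fun γ => hC _)) x).symm
  CC := CCs μ a E _ b
  CC_T := by
    rintro c (⟨v, hv, rfl⟩ | ⟨D, hD, rfl⟩) x
    · change iso B (Vq μ a E v x) = sSU μ _ _ (iso B x)
      rw [iso_apply, iso_apply, map_smul, Tb_contr h3 hv]
    · change iso B (x - (2 : ℂ) • xE μ (L2 G) D x) = iso B x - (2 : ℂ) • (pyU μ b _).p D (iso B x)
      rw [map_sub, map_smul, iso_apply, iso_apply, map_smul, Tb_xE hD]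
  CC_W := by
    rintro c (⟨v, hv, rfl⟩ | ⟨D, hD, rfl⟩) k x
    · exact Vq_Wk v k x
    · change Wk μ k x - (2 : ℂ) • xE μ (L2 G) D (Wk μ k x) = Wk μ k (x - (2 : ℂ) • xE μ (L2 G) D x)
      rw [map_sub, map_smul, ← cl_xE' _ hD]
  CC_WU := by
    rintro c (⟨v, hv, rfl⟩ | ⟨D, hD, rfl⟩) k x
    · exact sSU_XBU _ k x
    · change XBU _ k x - (2 : ℂ) • (pyU μ b _).p D (XBU _ k x) = XBU _ k (x - (2 : ℂ) • (pyU μ b _).p D x)
      rw [map_sub, map_smul, py_XBU hD]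
  CC_E := by
    rintro c (⟨v, hv, rfl⟩ | ⟨D, hD, rfl⟩) f hf x
    · exact Mf_sSU _ x
    · change Mf μ _ _ x - (2 : ℂ) • (pyU μ b _).p D (Mf μ _ _ x) = Mf μ _ _ (x - (2 : ℂ) • (pyU μ b _).p D x)
      rw [map_sub, map_smul, py_Mf hD]
  erg Y hW hC := by
    refine hE Y (fun D hD φ => ?_) (fun k φ => hW k φ) fun u hu φ => ?_
    · have h1 : Y (φ - (2 : ℂ) • xE μ (L2 G) D φ) = Y φ - (2 : ℂ) • xE μ (L2 G) D (Y φ) :=
        hC _ (Or.inr ⟨D, hD, rfl⟩) φ
      rw [map_sub, map_smul, sub_right_inj] at h1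
      exact smul_right_injective _ (two_ne_zero : (2 : ℂ) ≠ 0) h1
    · exact hC _ (Or.inl ⟨u, hu, rfl⟩) φ
  V := (vgR μ a (jjR E)).comp (cen b).subtype
  VW v k x := Vq_Wk (v : G1) k x
  VΦ v f hf x := by
    rw [adj_iso, adj_iso]
    obtain ⟨C, hC⟩ := yf_bdd hf
    exact (B.Ph_cen (plf_pos T) (AV.of_uc (F.uc hb hf) (fun γ => hC _)) v x).symm
  Vc x := by
    rw [continuous_iff_continuousAt]
    intro v
    exact (tendsto_contVec (contVec_vg h3 hK (jjR E) x) (v : G1)).comp (continuous_subtype_val.tendsto v)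
  VCC := by
    rintro v c (⟨u, hu, rfl⟩ | ⟨D, hD, rfl⟩)
    · refine ⟨_, Or.inl ⟨(v : G1) * u * (v : G1)⁻¹, ctr_conj hu v, rfl⟩, fun x => ?_⟩
      change (vgR μ a (jjR E) (v : G1)) ((vgR μ a (jjR E) u) x) =
        (vgR μ a (jjR E) ((v : G1) * u * (v : G1)⁻¹)) ((vgR μ a (jjR E) (v : G1)) x)
      change (vgR μ a (jjR E) (v : G1) * vgR μ a (jjR E) u) x =
        (vgR μ a (jjR E) ((v : G1) * u * (v : G1)⁻¹) * vgR μ a (jjR E) (v : G1)) x
      rw [← map_mul, ← map_mul, inv_mul_cancel_right]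
    · have hD' : MeasurableSet ((fun x => (v : G1)⁻¹ • x) ⁻¹' D) := (measurable_const_smul _) hD
      refine ⟨_, Or.inr ⟨_, hD', rfl⟩, fun x => ?_⟩
      change Vq μ a E (v : G1) (x - (2 : ℂ) • xE μ (L2 G) D x) =
        Vq μ a E (v : G1) x - (2 : ℂ) • xE μ (L2 G) _ (Vq μ a E (v : G1) x)
      rw [map_sub, map_smul, vg_xE a (jjR E) (v : G1) hD]
  nontriv := by
    refine ⟨cst μ (dl 1), 0, fun h => ?_⟩
    have h1 : ‖(cst μ (dl (1 : G)) : XL μ (L2 G))‖ = 0 := by rw [h, norm_zero]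
    rw [LinearIsometry.norm_map, norm_dl] at h1
    exact one_ne_zero h1

end Pool.Agent.Helper78.BI
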