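import Pool.Agent.Helper78.BI.Rq
import Pool.Agent.Helper9.FP.Lin

/-!
# Project FP/TZ (MP_0f6f3f_an): the block as a group of `(q + 1) × (q + 1)` matrices

`s.low`: the real form of the block, `s.nbl : s.Qh →* Sh s.low`: the normalised block.
-/

set_option autoImplicit false
set_option linter.unusedSectionVars false

open Filter Topology Matrix

namespace Pool.Agent.Helper78.BI

open Pool.Agent.Helper90.RK Pool.Agent.Helper84.NI Pool.Agent.Helper9

variable {N : ℕ} {q : Fin N}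

/-- coordinates of the block -/
def ci (q : Fin N) (i : Fin ((q : ℕ) + 1)) : Fin N := ⟨i, lt_of_lt_of_le i.2 q.2⟩

theorem ci_le (i : Fin ((q : ℕ) + 1)) : ci q i ≤ q := by
  rw [Fin.le_def]
  exact Nat.le_of_lt_succ i.2

/-- A matrix of the block. -/
def emb (q : Fin N) (X : Matrix (Fin ((q : ℕ) + 1)) (Fin ((q : ℕ) + 1)) ℂ) : MN N := fun i j =>
  if h : i ≤ q ∧ j ≤ q then X ⟨i, Nat.lt_succ_of_le h.1⟩ ⟨j, Nat.lt_succ_of_le h.2⟩ else 0

/-- The block. -/
def cor (q : Fin N) (A : MN N) : Matrix (Fin ((q : ℕ) + 1)) (Fin ((q : ℕ) + 1)) ℂ := fun i j => A (ci q i) (ci q j)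

theorem cor_emb (X : Matrix (Fin ((q : ℕ) + 1)) (Fin ((q : ℕ) + 1)) ℂ) : cor q (emb q X) = X := by
  ext i j
  change (if h : ci q i ≤ q ∧ ci q j ≤ q then X ⟨ci q i, _⟩ ⟨ci q j, _⟩ else 0) = X i j
  rw [dif_pos ⟨ci_le i, ci_le j⟩]
  rfl

theorem emb_cor (A : MN N) : emb q (cor q A) = Ef q * A * Ef q := by
  ext i j
  rw [mul_Ef_apply, Ef_mul_apply]
  unfold emb
  by_cases h : i ≤ q ∧ j ≤ q
  · rw [dif_pos h, if_pos h.2, if_pos h.1]
    rfl
  · rw [dif_neg h]
    by_cases h2 : j ≤ q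
    · rw [if_pos h2, if_neg fun h1 => h ⟨h1, h2⟩]
    · rw [if_neg h2]

theorem cor_Ef (A : MN N) : cor q (Ef q * A * Ef q) = cor q A := by rw [← emb_cor, cor_emb]

theorem emb_Ef (X : Matrix (Fin ((q : ℕ) + 1)) (Fin ((q : ℕ) + 1)) ℂ) : Ef q * emb q X * Ef q = emb q X := by
  rw [← emb_cor, cor_emb]

theorem Ef_emb (X : Matrix (Fin ((q : ℕ) + 1)) (Fin ((q : ℕ) + 1)) ℂ) : Ef q * emb q X = emb q X := by
  rw [← emb_Ef X, ← Matrix.mul_assoc, ← Matrix.mul_assoc, Ef_Ef]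

theorem emb_mul_Ef (X : Matrix (Fin ((q : ℕ) + 1)) (Fin ((q : ℕ) + 1)) ℂ) : emb q X * Ef q = emb q X := by
  rw [← emb_Ef X, Matrix.mul_assoc _ (Ef q) (Ef q), Ef_Ef]

theorem cor_mul_aux (A B : MN N) : cor q (A * Ef q * B) = cor q A * cor q B := by
  ext i j
  change (A * Ef q * B) (ci q i) (ci q j) = (cor q A * cor q B) i j
  rw [Matrix.mul_apply, Matrix.mul_apply]
  have h : ∀ k : Fin N, (A * Ef q) (ci q i) k * B k (ci q j) = if k ≤ q then A (ci q i) k * B k (ci q j) else 0 := by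
    intro k
    rw [mul_Ef_apply]
    split_ifs
    · rfl
    · rw [zero_mul]
  rw [Finset.sum_congr rfl fun k _ => h k, ← Finset.sum_filter]
  symm
  refine Finset.sum_bij (fun (k : Fin ((q : ℕ) + 1)) _ => ci q k) ?_ ?_ ?_ ?_
  · intro k _
    rw [Finset.mem_filter]
    exact ⟨Finset.mem_univ _, ci_le k⟩
  · intro k _ l _ e
    exact Fin.ext (Fin.mk.inj_iff.1 e)
  · intro k hk
    rw [Finset.mem_filter] at hk
    exact ⟨⟨k, Nat.lt_succ_of_le hk.2⟩, Finset.mem_univ _, rfl⟩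
  · intro k _
    rfl

theorem cor_mul {A B : MN N} (h : Lb q A) : cor q (A * B) = cor q A * cor q B := by
  rw [← cor_mul_aux, ← cor_Ef (A * B), ← cor_Ef (A * Ef q * B)]
  congr 1
  have h1 : Ef q * A * (Ef q + Ee q) = Ef q * A * Ef q := by
    rw [Matrix.mul_add, show Ef q * A * Ee q = 0 from h, add_zero]
  calc Ef q * (A * B) * Ef q = Ef q * A * (Ef q + Ee q) * B * Ef q := by
        rw [Ef_add_Ee, Matrix.mul_one]
        simp only [Matrix.mul_assoc]
    _ = Ef q * (A * Ef q * B) * Ef q := by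
        rw [h1]
        simp only [Matrix.mul_assoc]

theorem lb_emb (X : Matrix (Fin ((q : ℕ) + 1)) (Fin ((q : ℕ) + 1)) ℂ) : Lb q (emb q X) := by
  unfold Lb
  rw [Ef_emb, ← emb_mul_Ef X, Matrix.mul_assoc, Ef_Ee, Matrix.mul_zero]

theorem emb_mul (X Y : Matrix (Fin ((q : ℕ) + 1)) (Fin ((q : ℕ) + 1)) ℂ) : emb q (X * Y) = emb q X * emb q Y := by
  have h : X * Y = cor q (emb q X * emb q Y) := by rw [cor_mul (lb_emb X), cor_emb, cor_emb]
  rw [h, emb_cor, ← Matrix.mul_assoc, Ef_emb, Matrix.mul_assoc, emb_mul_Ef]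

theorem cor_one : cor q (1 : MN N) = 1 := by
  ext i j
  change (1 : MN N) (ci q i) (ci q j) = _
  rw [Matrix.one_apply, Matrix.one_apply]
  have h : ci q i = ci q j ↔ i = j := ⟨fun e => Fin.ext (Fin.mk.inj_iff.1 e), fun e => by rw [e]⟩
  by_cases e : i = j
  · rw [if_pos e, if_pos (h.2 e)]
  · rw [if_neg e, if_neg fun e' => e (h.1 e')]

theorem emb_one : emb q (1 : Matrix (Fin ((q : ℕ) + 1)) (Fin ((q : ℕ) + 1)) ℂ) = Ef q := by
  rw [← cor_one, emb_cor, Matrix.mul_one, Ef_Ef]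

theorem emb_add (X Y : Matrix (Fin ((q : ℕ) + 1)) (Fin ((q : ℕ) + 1)) ℂ) : emb q (X + Y) = emb q X + emb q Y := by
  ext i j
  rw [Matrix.add_apply]
  unfold emb
  split_ifs <;> simp

theorem emb_smul (c : ℂ) (X : Matrix (Fin ((q : ℕ) + 1)) (Fin ((q : ℕ) + 1)) ℂ) : emb q (c • X) = c • emb q X := by
  ext i j
  rw [Matrix.smul_apply]
  unfold emb
  split_ifs <;> simp

theorem emb_star (X : Matrix (Fin ((q : ℕ) + 1)) (Fin ((q : ℕ) + 1)) ℂ) : emb q Xᴴ = (emb q X)ᴴ := by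
  ext i j
  rw [Matrix.conjTranspose_apply]
  unfold emb
  by_cases h : i ≤ q ∧ j ≤ q
  · rw [dif_pos h, dif_pos ⟨h.2, h.1⟩]
    rfl
  · rw [dif_neg h, dif_neg fun h' => h ⟨h'.2, h'.1⟩, star_zero]

theorem cor_add (A B : MN N) : cor q (A + B) = cor q A + cor q B := rfl

theorem cor_smul (c : ℂ) (A : MN N) : cor q (c • A) = c • cor q A := rfl

theorem cor_star (A : MN N) : cor q Aᴴ = (cor q A)ᴴ := rfl

theorem continuous_cor : Continuous (cor q : MN N → _) :=
  continuous_pi fun i => continuous_pi fun j => continuous_id.matrix_elem (ci q i) (ci q j)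

theorem bk_eq (A : MN N) : bk q A = emb q (cor q A) + Ee q := by rw [emb_cor]; rfl

theorem det_bk (A : MN N) : (bk q A).det = (cor q A).det := by
  have h1 := Matrix.twoBlockTriangular_det (bk q A) (fun i => i ≤ q) (by
    intro i hi j hj
    have h2 : (Ee q * bk q A) i j = (Ee q) i j := by rw [Ee_bk]
    rw [Ee_mul_apply, if_neg hi] at h2
    rw [h2]
    unfold Ee
    rw [diagonal_apply_ne _ (fun e : i = j => hi (by rw [e]; exact hj))])
  rw [h1]
  have h3 : (toSquareBlockProp (bk q A) fun i => ¬ i ≤ q) = 1 := by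
    ext i j
    have h2 : (Ee q * bk q A) i j = (Ee q) i j := by rw [Ee_bk]
    rw [Ee_mul_apply, if_neg i.2] at h2
    change bk q A i j = _
    rw [h2]
    unfold Ee
    rw [diagonal_apply, Matrix.one_apply]
    by_cases e : i = j
    · rw [if_pos e, if_pos (congrArg Subtype.val e), if_neg i.2]
    · rw [if_neg e, if_neg fun e' => e (Subtype.ext e')]
  rw [h3, det_one, mul_one]
  let e : Fin ((q : ℕ) + 1) ≃ {i : Fin N // i ≤ q} :=
    { toFun := fun i => ⟨ci q i, ci_le i⟩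
      invFun := fun i => ⟨i.1, Nat.lt_succ_of_le i.2⟩
      left_inv := fun i => rfl
      right_inv := fun i => rfl }
  rw [← Matrix.det_submatrix_equiv_self e]
  congr 1
  ext i j
  change bk q A (ci q i) (ci q j) = A (ci q i) (ci q j)
  have h2 : cor q (bk q A) = cor q A := by
    rw [← cor_Ef, Ef_bk, Matrix.mul_assoc _ (Ef q) (Ef q), Ef_Ef, cor_Ef]
  exact congrFun (congrFun h2 i) j

theorem cor_bk (A : MN N) : cor q (bk q A) = cor q A := by
  rw [← cor_Ef, Ef_bk, Matrix.mul_assoc _ (Ef q) (Ef q), Ef_Ef, cor_Ef]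

namespace Sg

variable (s : Sg N q)

/-- The real form of the block. -/
def low : Lin.Sig ((q : ℕ) + 1) where
  f X := cor q (s.σ (emb q X))
  add X Y := by rw [emb_add, s.add, cor_add]
  mul X Y := by
    rw [emb_mul, s.mul, cor_mul]
    rw [← Ef_emb X, s.mul, s.blk, ← emb_mul_Ef X, s.mul, s.blk]
    unfold Lb
    rw [Matrix.mul_assoc _ _ (Ee q), Matrix.mul_assoc, Matrix.mul_assoc _ (Ef q) (Ee q), Ef_Ee, Matrix.mul_zero,
      Matrix.mul_zero, Matrix.mul_zero]
  one := by rw [emb_one, s.blk, ← emb_one, cor_emb]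
  smul r X := by rw [emb_smul, s.smul, cor_smul]
  star X := by rw [emb_star, s.star, cor_star]

theorem low_cor {A : MN N} (h : s.σ A = A) : s.low.f (cor q A) = cor q A := by
  change cor q (s.σ (emb q (cor q A))) = _
  rw [emb_cor, s.mul, s.mul, s.blk, h, cor_Ef]

theorem σ_emb {X : Matrix (Fin ((q : ℕ) + 1)) (Fin ((q : ℕ) + 1)) ℂ} (h : s.low.f X = X) : s.σ (emb q X) = emb q X := by
  have h1 : s.σ (emb q X) = Ef q * s.σ (emb q X) * Ef q := by
    conv_lhs => rw [← emb_Ef X]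
    rw [s.mul, s.mul, s.blk]
  rw [h1, ← emb_cor]
  congr 1

theorem det_cor_nu {A B : MN N} (hA : Lb q A) (h : A * B = 1) : ‖(cor q (nu q A)).det‖ = 1 := by
  rw [← det_bk, bk_nu]
  exact norm_det_nu hA h

/-- The normalised block. -/
noncomputable def nbl : s.Qh →* Lin.Sh s.low where
  toFun g := Lin.mkS (cor q (nu q (s.mt g))) ⟨s.low_cor (s.σ_nu (s.σ_mt g)), det_cor_nu g.2 (s.mt_mul_inv g)⟩
  map_one' := by
    refine Lin.mat_injective ?_
    rw [Lin.mat_mkS, Lin.mat_one, Subgroup.coe_one, mt_one, nu_one, cor_one]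
  map_mul' g h := by
    refine Lin.mat_injective ?_
    rw [Lin.mat_mul, Lin.mat_mkS, Lin.mat_mkS, Lin.mat_mkS, Subgroup.coe_mul, mt_mul, nu_mul g.2, cor_mul]
    rw [← bk_nu]
    exact lb_bk _

theorem mat_nbl (g : s.Qh) : Lin.mat (s.nbl g) = cor q (nu q (s.mt g)) := rfl

theorem continuous_nu' : Continuous fun g : s.Qh => nu q (s.mt g) := by
  unfold nu
  have h1 : Continuous fun g : s.Qh => s.mt (g : s.M) := s.continuous_mt.comp continuous_subtype_val
  refine (continuous_sc.comp ((continuous_dt.comp h1).inv₀ fun g => dt_ne g.2 (s.mt_mul_inv g))).mul (continuous_bk.comp h1)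

theorem continuous_nbl : Continuous s.nbl := by
  rw [Lin.isClosedEmbedding_mat.isEmbedding.continuous_iff]
  exact continuous_cor.comp s.continuous_nu'

theorem surjective_nbl : Function.Surjective s.nbl := by
  intro h
  have h1 : (emb q (Lin.mat h) + Ee q) * (emb q (Lin.mat h⁻¹) + Ee q) = 1 := by
    rw [Matrix.add_mul, Matrix.mul_add, Matrix.mul_add, ← emb_mul, Lin.mat_mul_inv, emb_one, Ee_Ee]
    have h2 : emb q (Lin.mat h) * Ee q = 0 := by rw [← emb_mul_Ef, Matrix.mul_assoc, Ef_Ee, Matrix.mul_zero]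
    have h3 : Ee q * emb q (Lin.mat h⁻¹) = 0 := by rw [← Ef_emb, ← Matrix.mul_assoc, Ee_Ef, Matrix.zero_mul]
    rw [h2, h3, add_zero, zero_add, Ef_add_Ee]
  have h4 : s.σ (emb q (Lin.mat h) + Ee q) = emb q (Lin.mat h) + Ee q := by
    rw [s.add, s.σ_emb (Lin.sig_mat h), s.blk']
  have h5 : cor q (emb q (Lin.mat h) + Ee q) = Lin.mat h := by
    rw [cor_add, cor_emb]
    have : cor q (Ee q) = 0 := by rw [← cor_Ef, Ef_Ee, Matrix.zero_mul]; rfl
    rw [this, add_zero]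
  have h6 : Pool.Agent.Helper78.BI.bk q (emb q (Lin.mat h) + Ee q) = emb q (Lin.mat h) + Ee q := by rw [bk_eq, h5]
  have h7 : Lb q (emb q (Lin.mat h) + Ee q) := by
    rw [← h6]
    exact lb_bk _
  refine ⟨⟨s.mkm _ _ h1 h4, h7⟩, Lin.mat_injective ?_⟩
  rw [mat_nbl]
  change cor q (nu q (emb q (Lin.mat h) + Ee q)) = Lin.mat h
  have h8 : dt q (emb q (Lin.mat h) + Ee q) = 1 := by
    unfold dt
    rw [det_bk, h5, Lin.norm_det, Real.one_rpow]
  unfold nu
  rw [h8, inv_one, sc_one, Matrix.one_mul, h6, h5]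

end Sg

end Pool.Agent.Helper78.BI
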