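import Mathlib
import Pool.Agent.Helper78.BI.Defs

/-!
# Numerical values (block N, helper24)
-/

open scoped Real
open Filter Topology Finset

namespace Pool.Agent.Helper78.BI

namespace Num

theorem le_of_tele {a F : ℕ → ℝ} {L : ℝ} (hL : Tendsto (fun n => ∑ k ∈ range n, a k) atTop (𝓝 L))
    {N : ℕ} (hF : ∀ n ≥ N, 0 ≤ F n) (h : ∀ n ≥ N, a n ≤ F n - F (n + 1)) :
    L ≤ ∑ k ∈ range N, a k + F N := by
  refine le_of_tendsto hL (eventually_atTop.2 ⟨N, fun n hn => ?_⟩)
  have key : ∀ d : ℕ, ∑ k ∈ range (N + d), a k ≤ ∑ k ∈ range N, a k + F N - F (N + d) := by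
    intro d
    induction d with
    | zero => simp
    | succ d ih =>
      rw [← add_assoc, sum_range_succ]
      have := h (N + d) (by omega)
      linarith
  obtain ⟨d, rfl⟩ := Nat.exists_eq_add_of_le hn
  have h1 := key d
  have h2 := hF (N + d) (by omega)
  linarith

theorem ge_of_tele {a G : ℕ → ℝ} {L : ℝ} (hL : Tendsto (fun n => ∑ k ∈ range n, a k) atTop (𝓝 L))
    {N : ℕ} (hG : Tendsto G atTop (𝓝 0)) (h : ∀ n ≥ N, G n - G (n + 1) ≤ a n) :
    ∑ k ∈ range N, a k + G N ≤ L := by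
  have key : ∀ d : ℕ, ∑ k ∈ range N, a k + G N - G (N + d) ≤ ∑ k ∈ range (N + d), a k := by
    intro d
    induction d with
    | zero => simp
    | succ d ih =>
      rw [← add_assoc, sum_range_succ]
      have := h (N + d) (by omega)
      linarith
  have h1 : Tendsto (fun n => ∑ k ∈ range n, a k + G n) atTop (𝓝 (L + 0)) := hL.add hG
  rw [add_zero] at h1
  refine ge_of_tendsto h1 (eventually_atTop.2 ⟨N, fun n hn => ?_⟩)
  obtain ⟨d, rfl⟩ := Nat.exists_eq_add_of_le hn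
  have := key d
  linarith

/-- the terms -/
noncomputable def f (x : ℝ) : ℝ := x ^ (-(3 / 2) : ℝ)

theorem f_eq {x : ℝ} (hx : 0 < x) : f x = 1 / (x * √x) := by
  unfold f
  rw [Real.sqrt_eq_rpow, Real.rpow_neg hx.le, show (3 / 2 : ℝ) = 1 + 1 / 2 by norm_num,
    Real.rpow_add hx, Real.rpow_one, one_div, one_div]

theorem f_zero : f 0 = 0 := Real.zero_rpow (by norm_num)

theorem f_nonneg {x : ℝ} (hx : 0 ≤ x) : 0 ≤ f x := Real.rpow_nonneg hx _

theorem f_sq {x : ℝ} (hx : 0 < x) : f x ^ 2 = 1 / x ^ 3 := by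
  rw [f_eq hx, div_pow, mul_pow, Real.sq_sqrt hx.le]
  ring

theorem f_lo {x a : ℝ} (hx : 0 < x) (h : a ^ 2 * x ^ 3 ≤ 1) : a ≤ f x := by
  refine abs_le_of_sq_le_sq' ?_ (f_nonneg hx.le) |>.2
  rw [f_sq hx, le_div_iff₀ (by positivity)]
  exact h

theorem f_hi {x a : ℝ} (hx : 0 < x) (ha : 0 ≤ a) (h : 1 ≤ a ^ 2 * x ^ 3) : f x ≤ a := by
  refine abs_le_of_sq_le_sq' ?_ ha |>.2
  rw [f_sq hx, div_le_iff₀ (by positivity)]
  exact h

theorem f_up {x : ℝ} (hx1 : 1 ≤ x) : f x ≤ 2 / √(x - 1 / 2) - 2 / √(x + 1 / 2) := by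
  rw [f_eq (by linarith)]
  set a := √(x - 1 / 2) with ha
  set b := √(x + 1 / 2) with hb
  have ha2 : a ^ 2 = x - 1 / 2 := Real.sq_sqrt (by linarith)
  have hb2 : b ^ 2 = x + 1 / 2 := Real.sq_sqrt (by linarith)
  have ha0 : 0 < a := Real.sqrt_pos.2 (by linarith)
  have hb0 : 0 < b := Real.sqrt_pos.2 (by linarith)
  set c := √x with hc
  have hc2 : c ^ 2 = x := Real.sq_sqrt (by linarith)
  have hc0 : 0 < c := Real.sqrt_pos.2 (by linarith)
  have h1 : a + b ≤ 2 * c := by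
    refine abs_le_of_sq_le_sq' ?_ (by positivity) |>.2
    nlinarith [sq_nonneg (a - b)]
  have h2 : a * b ≤ x := by nlinarith [sq_nonneg (a - b)]
  have h3 : 2 / a - 2 / b = 2 / ((a + b) * (a * b)) := by
    have e : (b - a) * (b + a) = 1 := by nlinarith
    field_simp
    nlinarith
  rw [h3, div_le_div_iff₀ (by positivity) (by positivity)]
  have h4 : (a + b) * (a * b) ≤ 2 * c * x := mul_le_mul h1 h2 (by positivity) (by positivity)
  linarith

theorem f_dn {x : ℝ} (hn' : 1 ≤ x) :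
    (2 / √x + f x / 2) - (2 / √(x + 1) + f (x + 1) / 2) ≤ f x := by
  rw [f_eq (by linarith), f_eq (by linarith)]
  set a := √x with ha
  set b := √(x + 1) with hb
  have ha2 : a ^ 2 = x := Real.sq_sqrt (by linarith)
  have hb2 : b ^ 2 = x + 1 := Real.sq_sqrt (by linarith)
  have ha0 : 0 < a := Real.sqrt_pos.2 (by linarith)
  have hb0 : 0 < b := Real.sqrt_pos.2 (by linarith)
  have hx : x = a ^ 2 := ha2.symm
  have hx1 : x + 1 = b ^ 2 := hb2.symm
  rw [hx1, hx]
  have h3 : 2 / a - 2 / b = 2 / ((a + b) * (a * b)) := by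
    have e : (b - a) * (b + a) = 1 := by nlinarith
    field_simp
    nlinarith
  have h4 : 2 / ((a + b) * (a * b)) ≤ 1 / (a ^ 2 * a) / 2 + 1 / (b ^ 2 * b) / 2 := by
    have e1 : 1 / (a ^ 2 * a) / 2 + 1 / (b ^ 2 * b) / 2 = (a ^ 3 + b ^ 3) / (2 * a ^ 3 * b ^ 3) := by
      field_simp
      ring
    rw [e1, div_le_div_iff₀ (by positivity) (by positivity)]
    have e2 : 4 * a ^ 2 * b ^ 2 ≤ (a ^ 3 + b ^ 3) * (a + b) := by
      nlinarith [sq_nonneg (a ^ 2 - b ^ 2), mul_nonneg (mul_nonneg ha0.le hb0.le) (sq_nonneg (a - b)),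
        sq_nonneg (a * b), mul_pos ha0 hb0]
    have e3 : 0 < a * b := by positivity
    nlinarith [mul_le_mul_of_nonneg_left e2 e3.le]
  linarith

theorem f_mid {x : ℝ} (hx : 0 < x) : 2 * f (x + 2) ≤ f x + f (x + 4) := by
  have h1 := f_sq hx
  have h2 := f_sq (show 0 < x + 2 by linarith)
  have h3 := f_sq (show 0 < x + 4 by linarith)
  have g1 := f_nonneg hx.le
  have g2 := f_nonneg (show 0 ≤ x + 2 by linarith)
  have g3 := f_nonneg (show 0 ≤ x + 4 by linarith)
  refine abs_le_of_sq_le_sq' ?_ (by linarith) |>.2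
  -- `f x * f (x + 4) ≥ f (x + 2) ^ 2`
  have h4 : f (x + 2) ^ 2 ≤ f x * f (x + 4) := by
    refine abs_le_of_sq_le_sq' ?_ (by positivity) |>.2
    rw [mul_pow, h1, h3, h2, div_pow, one_pow, div_mul_div_comm, one_mul,
      div_le_div_iff₀ (by positivity) (by positivity), one_mul, one_mul]
    have h5 : x * (x + 4) ≤ (x + 2) ^ 2 := by nlinarith
    have h6 : 0 ≤ x * (x + 4) := by positivity
    calc x ^ 3 * (x + 4) ^ 3 = (x * (x + 4)) ^ 3 := by ring
      _ ≤ ((x + 2) ^ 2) ^ 3 := pow_le_pow_left₀ h6 h5 3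
      _ = ((x + 2) ^ 3) ^ 2 := by ring
  nlinarith [sq_nonneg (f x - f (x + 4))]

theorem f_anti {x y : ℝ} (hx : 0 < x) (h : x ≤ y) : f y ≤ f x :=
  Real.rpow_le_rpow_of_nonpos hx h (by norm_num)

theorem tendsto_f : Tendsto (fun n : ℕ => f n) atTop (𝓝 0) :=
  (tendsto_rpow_neg_atTop (by norm_num : (0 : ℝ) < 3 / 2)).comp tendsto_natCast_atTop_atTop

theorem tendsto_G : Tendsto (fun n : ℕ => 2 / √(n : ℝ) + f n / 2) atTop (𝓝 0) := by
  have h1 : Tendsto (fun n : ℕ => √(n : ℝ)) atTop atTop :=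
    Real.tendsto_sqrt_atTop.comp tendsto_natCast_atTop_atTop
  have h2 : Tendsto (fun n : ℕ => 2 / √(n : ℝ)) atTop (𝓝 0) := h1.const_div_atTop 2
  have h3 := h2.add (tendsto_f.div_const 2)
  simpa using h3

theorem tendsto_G' : Tendsto (fun k : ℕ => f (4 * k + 1) / 2) atTop (𝓝 0) := by
  have h1 : Tendsto (fun k : ℕ => 4 * k + 1) atTop atTop :=
    tendsto_atTop_mono (fun k => by simp only [id]; omega) tendsto_id
  have h2 := (tendsto_f.comp h1).div_const 2
  simp only [zero_div] at h2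
  refine h2.congr fun k => ?_
  simp

theorem tendsto_L32 : Tendsto (fun K => ∑ k ∈ range K, (f (4 * (k : ℕ) + 1) - f (4 * k + 3)))
    atTop (𝓝 L32) := by
  have hs : Summable (fun n : ℕ => ((ZMod.χ₄ (n : ZMod 4) : ℤ) : ℝ) * (n : ℝ) ^ (-(3 / 2) : ℝ)) := by
    refine Summable.of_norm_bounded (g := fun n : ℕ => f n)
      (Real.summable_nat_rpow.2 (by norm_num)) fun n => ?_
    rw [norm_mul]
    have h1 : ‖((ZMod.χ₄ (n : ZMod 4) : ℤ) : ℝ)‖ ≤ 1 := by
      have : ∀ z : ZMod 4, |((ZMod.χ₄ z : ℤ))| ≤ 1 := by decide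
      rw [Real.norm_eq_abs]
      exact_mod_cast this n
    have h2 : ‖(n : ℝ) ^ (-(3 / 2) : ℝ)‖ = f n := by
      rw [Real.norm_eq_abs, abs_of_nonneg (Real.rpow_nonneg (Nat.cast_nonneg n) _)]
      rfl
    rw [h2]
    have h3 := f_nonneg (Nat.cast_nonneg (α := ℝ) n)
    nlinarith
  have h1 : Tendsto (fun k : ℕ => 4 * k) atTop atTop :=
    tendsto_atTop_mono (fun k => by simp only [id]; omega) tendsto_id
  refine (hs.hasSum.tendsto_sum_nat.comp h1).congr fun K => ?_
  simp only [Function.comp]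
  induction K with
  | zero => simp
  | succ K ih =>
    rw [sum_range_succ, ← ih, show 4 * (K + 1) = 4 * K + 1 + 1 + 1 + 1 by ring]
    simp only [sum_range_succ]
    have e0 : ((4 * K : ℕ) : ZMod 4) = 0 := by
      push_cast
      rw [show (4 : ZMod 4) = 0 from rfl, zero_mul]
    have e1 : ((4 * K + 1 : ℕ) : ZMod 4) = 1 := by
      rw [Nat.cast_add, e0]; rfl
    have e2 : ((4 * K + 1 + 1 : ℕ) : ZMod 4) = 2 := by
      rw [Nat.cast_add, e1]; rfl
    have e3 : ((4 * K + 1 + 1 + 1 : ℕ) : ZMod 4) = 3 := by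
      rw [Nat.cast_add, e2]; rfl
    rw [e0, e1, e2, e3]
    have c0 : ZMod.χ₄ 0 = 0 := by decide
    have c1 : ZMod.χ₄ 1 = 1 := by decide
    have c2 : ZMod.χ₄ 2 = 0 := by decide
    have c3 : ZMod.χ₄ 3 = -1 := by decide
    rw [c0, c1, c2, c3]
    unfold f
    push_cast
    ring

end Num

open Pool.Agent.Helper78.BI.Num

theorem Z32_bounds : 2.612 < Z32 ∧ Z32 < 2.613 := by
  have hs : Summable (fun n : ℕ => f n) := Real.summable_nat_rpow.2 (by norm_num)
  have hL : Tendsto (fun n => ∑ k ∈ range n, f ((k : ℕ) : ℝ)) atTop (𝓝 Z32) :=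
    hs.hasSum.tendsto_sum_nat
  have h1 : f 1 = 1 := by unfold f; exact Real.one_rpow _
  have l2 : (353553 / 1000000 : ℝ) ≤ f 2 := f_lo (by norm_num) (by norm_num)
  have u2 : f 2 ≤ (353554 / 1000000 : ℝ) := f_hi (by norm_num) (by norm_num) (by norm_num)
  have l3 : (192450 / 1000000 : ℝ) ≤ f 3 := f_lo (by norm_num) (by norm_num)
  have u3 : f 3 ≤ (192451 / 1000000 : ℝ) := f_hi (by norm_num) (by norm_num) (by norm_num)
  have l4 : (125000 / 1000000 : ℝ) ≤ f 4 := f_lo (by norm_num) (by norm_num)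
  have u4 : f 4 ≤ (125000 / 1000000 : ℝ) := f_hi (by norm_num) (by norm_num) (by norm_num)
  have l5 : (89442 / 1000000 : ℝ) ≤ f 5 := f_lo (by norm_num) (by norm_num)
  have u5 : f 5 ≤ (89443 / 1000000 : ℝ) := f_hi (by norm_num) (by norm_num) (by norm_num)
  have l6 : (68041 / 1000000 : ℝ) ≤ f 6 := f_lo (by norm_num) (by norm_num)
  have u6 : f 6 ≤ (68042 / 1000000 : ℝ) := f_hi (by norm_num) (by norm_num) (by norm_num)
  have l7 : (53994 / 1000000 : ℝ) ≤ f 7 := f_lo (by norm_num) (by norm_num)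
  have u7 : f 7 ≤ (53995 / 1000000 : ℝ) := f_hi (by norm_num) (by norm_num) (by norm_num)
  have l8 : (44194 / 1000000 : ℝ) ≤ f 8 := f_lo (by norm_num) (by norm_num)
  have u8 : f 8 ≤ (44195 / 1000000 : ℝ) := f_hi (by norm_num) (by norm_num) (by norm_num)
  have l9 : (37037 / 1000000 : ℝ) ≤ f 9 := f_lo (by norm_num) (by norm_num)
  have u9 : f 9 ≤ (37038 / 1000000 : ℝ) := f_hi (by norm_num) (by norm_num) (by norm_num)
  have l10 : (31622 / 1000000 : ℝ) ≤ f 10 := f_lo (by norm_num) (by norm_num)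
  have u10 : f 10 ≤ (31623 / 1000000 : ℝ) := f_hi (by norm_num) (by norm_num) (by norm_num)
  have l11 : (27410 / 1000000 : ℝ) ≤ f 11 := f_lo (by norm_num) (by norm_num)
  have u11 : f 11 ≤ (27411 / 1000000 : ℝ) := f_hi (by norm_num) (by norm_num) (by norm_num)
  have l12 : (24056 / 1000000 : ℝ) ≤ f 12 := f_lo (by norm_num) (by norm_num)
  have u12 : f 12 ≤ (24057 / 1000000 : ℝ) := f_hi (by norm_num) (by norm_num) (by norm_num)
  have l13 : (21334 / 1000000 : ℝ) ≤ f 13 := f_lo (by norm_num) (by norm_num)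
  have u13 : f 13 ≤ (21335 / 1000000 : ℝ) := f_hi (by norm_num) (by norm_num) (by norm_num)
  have l14 : (19090 / 1000000 : ℝ) ≤ f 14 := f_lo (by norm_num) (by norm_num)
  have u14 : f 14 ≤ (19091 / 1000000 : ℝ) := f_hi (by norm_num) (by norm_num) (by norm_num)
  have l15 : (17213 / 1000000 : ℝ) ≤ f 15 := f_lo (by norm_num) (by norm_num)
  have s15 : √(15 : ℝ) ≤ 3872984 / 1000000 := by
    rw [Real.sqrt_le_left (by norm_num)]
    norm_num
  have s145 : (3807886 / 1000000 : ℝ) ≤ √((15 : ℝ) - 1 / 2) := by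
    apply Real.le_sqrt_of_sq_le
    norm_num
  have p15 : 0 < √(15 : ℝ) := Real.sqrt_pos.2 (by norm_num)
  have t15 : (2 / (3872984 / 1000000) : ℝ) ≤ 2 / √(15 : ℝ) :=
    div_le_div_of_nonneg_left (by norm_num) p15 s15
  have t145 : 2 / √((15 : ℝ) - 1 / 2) ≤ (2 / (3807886 / 1000000) : ℝ) :=
    div_le_div_of_nonneg_left (by norm_num) (by norm_num) s145
  have hup := le_of_tele (N := 15) (F := fun n : ℕ => 2 / √((n : ℝ) - 1 / 2)) hL
    (fun n _ => by positivity) (fun n hn => by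
      have hn' : (1 : ℝ) ≤ n := by exact_mod_cast (show 1 ≤ n by omega)
      have h := f_up hn'
      push_cast
      rw [show (n : ℝ) + 1 - 1 / 2 = n + 1 / 2 by ring]
      exact h)
  have hdn := ge_of_tele (N := 15) (G := fun n : ℕ => 2 / √(n : ℝ) + f n / 2) hL
    tendsto_G (fun n hn => by
      have hn' : (1 : ℝ) ≤ n := by exact_mod_cast (show 1 ≤ n by omega)
      have h := f_dn hn'
      push_cast
      exact h)
  simp only [sum_range_succ, range_zero, sum_empty, Nat.cast_zero, f_zero, Nat.cast_one, h1,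
    Nat.cast_ofNat] at hup hdn
  constructor
  · have : (2.612 : ℝ) < 1 + (1087223 / 1000000 : ℝ) + 2 / (3872984 / 1000000) +
        17213 / 2000000 := by norm_num
    linarith
  · have : 1 + (1087235 / 1000000 : ℝ) + 2 / (3807886 / 1000000) < 2.613 := by norm_num
    linarith

theorem L32_bounds : 0.864 < L32 ∧ L32 < 0.865 := by
  have h1 : f 1 = 1 := by unfold f; exact Real.one_rpow _
  have l3 : (192450 / 1000000 : ℝ) ≤ f 3 := f_lo (by norm_num) (by norm_num)
  have u3 : f 3 ≤ (192451 / 1000000 : ℝ) := f_hi (by norm_num) (by norm_num) (by norm_num)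
  have l5 : (89442 / 1000000 : ℝ) ≤ f 5 := f_lo (by norm_num) (by norm_num)
  have u5 : f 5 ≤ (89443 / 1000000 : ℝ) := f_hi (by norm_num) (by norm_num) (by norm_num)
  have l7 : (53994 / 1000000 : ℝ) ≤ f 7 := f_lo (by norm_num) (by norm_num)
  have u7 : f 7 ≤ (53995 / 1000000 : ℝ) := f_hi (by norm_num) (by norm_num) (by norm_num)
  have l9 : (37037 / 1000000 : ℝ) ≤ f 9 := f_lo (by norm_num) (by norm_num)
  have u9 : f 9 ≤ (37038 / 1000000 : ℝ) := f_hi (by norm_num) (by norm_num) (by norm_num)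
  have l11 : (27410 / 1000000 : ℝ) ≤ f 11 := f_lo (by norm_num) (by norm_num)
  have u11 : f 11 ≤ (27411 / 1000000 : ℝ) := f_hi (by norm_num) (by norm_num) (by norm_num)
  have l13 : (21334 / 1000000 : ℝ) ≤ f 13 := f_lo (by norm_num) (by norm_num)
  have u13 : f 13 ≤ (21335 / 1000000 : ℝ) := f_hi (by norm_num) (by norm_num) (by norm_num)
  have l15 : (17213 / 1000000 : ℝ) ≤ f 15 := f_lo (by norm_num) (by norm_num)
  have u15 : f 15 ≤ (17214 / 1000000 : ℝ) := f_hi (by norm_num) (by norm_num) (by norm_num)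
  have l17 : (14266 / 1000000 : ℝ) ≤ f 17 := f_lo (by norm_num) (by norm_num)
  have u17 : f 17 ≤ (14267 / 1000000 : ℝ) := f_hi (by norm_num) (by norm_num) (by norm_num)
  have l19 : (12074 / 1000000 : ℝ) ≤ f 19 := f_lo (by norm_num) (by norm_num)
  have u19 : f 19 ≤ (12075 / 1000000 : ℝ) := f_hi (by norm_num) (by norm_num) (by norm_num)
  have l21 : (10391 / 1000000 : ℝ) ≤ f 21 := f_lo (by norm_num) (by norm_num)
  have u21 : f 21 ≤ (10392 / 1000000 : ℝ) := f_hi (by norm_num) (by norm_num) (by norm_num)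
  have l23 : (9065 / 1000000 : ℝ) ≤ f 23 := f_lo (by norm_num) (by norm_num)
  have u23 : f 23 ≤ (9066 / 1000000 : ℝ) := f_hi (by norm_num) (by norm_num) (by norm_num)
  have l25 : (8000 / 1000000 : ℝ) ≤ f 25 := f_lo (by norm_num) (by norm_num)
  have u25 : f 25 ≤ (8000 / 1000000 : ℝ) := f_hi (by norm_num) (by norm_num) (by norm_num)
  have l27 : (7127 / 1000000 : ℝ) ≤ f 27 := f_lo (by norm_num) (by norm_num)
  have hup := le_of_tele (N := 6) (F := fun k : ℕ => f (4 * k + 1) - f (4 * k + 3) / 2) tendsto_L32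
    (fun k _ => by
      have hk : (0 : ℝ) ≤ k := Nat.cast_nonneg k
      have := f_mid (x := 4 * k + 1) (by positivity)
      have h2 := f_nonneg (x := 4 * (k : ℝ) + 1) (by positivity)
      have h3 : f (4 * k + 3) ≤ f (4 * k + 1) := f_anti (by positivity) (by linarith)
      linarith) (fun k hk => by
      have := f_mid (x := 4 * k + 3) (by positivity)
      push_cast
      rw [show (4 * ((k : ℝ) + 1) + 1) = 4 * k + 3 + 2 by ring,
        show (4 * ((k : ℝ) + 1) + 3) = 4 * k + 3 + 4 by ring]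
      linarith)
  have hdn := ge_of_tele (N := 6) (G := fun k : ℕ => f (4 * k + 1) / 2) tendsto_L32
    tendsto_G' (fun k hk => by
      have := f_mid (x := 4 * k + 1) (by positivity)
      push_cast
      rw [show (4 * ((k : ℝ) + 1) + 1) = 4 * k + 1 + 4 by ring]
      rw [show (4 * (k : ℝ) + 1 + 2) = 4 * k + 3 by ring] at this
      linarith)
  simp only [sum_range_succ, range_zero, sum_empty] at hup hdn
  norm_num at hup hdn
  rw [h1] at hup hdn
  constructor
  · linarith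
  · linarith

theorem Z3_bounds : 1.202 < Z3 ∧ Z3 < 1.2021 := by
  have hs : Summable (fun n : ℕ => (n : ℝ) ^ (-3 : ℝ)) := Real.summable_nat_rpow.2 (by norm_num)
  have he : ∀ n : ℕ, (n : ℝ) ^ (-3 : ℝ) = 1 / (n : ℝ) ^ 3 := by
    intro n
    rw [Real.rpow_neg (Nat.cast_nonneg n), one_div]
    norm_cast
  have hL : Tendsto (fun n => ∑ k ∈ range n, (1 / ((k : ℕ) : ℝ) ^ 3)) atTop (𝓝 Z3) := by
    refine hs.hasSum.tendsto_sum_nat.congr fun n => ?_
    exact sum_congr rfl fun k _ => he k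
  have hup := le_of_tele (N := 10) (F := fun n : ℕ => 1 / (2 * ((n : ℝ) - 1 / 2) ^ 2)) hL
    (fun n _ => by positivity) (fun n hn => by
      have hn' : (1 : ℝ) ≤ n := by exact_mod_cast (show 1 ≤ n by omega)
      push_cast
      generalize (n : ℝ) = x at hn'
      rw [show x + 1 - 1 / 2 = x + 1 / 2 by ring]
      have p1 : 0 < x - 1 / 2 := by linarith
      have e : 1 / (2 * (x - 1 / 2) ^ 2) - 1 / (2 * (x + 1 / 2) ^ 2) =
          x / ((x - 1 / 2) ^ 2 * (x + 1 / 2) ^ 2) := by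
        have p2 : 0 < x + 1 / 2 := by linarith
        rw [div_sub_div _ _ (by positivity) (by positivity), div_eq_div_iff (by positivity)
          (by positivity)]
        ring
      rw [e, div_le_div_iff₀ (by positivity) (by positivity)]
      have h4 : (x - 1 / 2) ^ 2 * (x + 1 / 2) ^ 2 ≤ x ^ 4 := by
        have : (x - 1 / 2) ^ 2 * (x + 1 / 2) ^ 2 = (x ^ 2 - 1 / 4) ^ 2 := by ring
        rw [this]
        nlinarith [sq_nonneg x]
      calc 1 * ((x - 1 / 2) ^ 2 * (x + 1 / 2) ^ 2) ≤ x ^ 4 := by linarith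
        _ = x * x ^ 3 := by ring)
  have ht : Tendsto (fun n : ℕ => 1 / (2 * (n : ℝ) ^ 2) + 1 / (2 * (n : ℝ) ^ 3)) atTop (𝓝 0) := by
    have h0 : Tendsto (fun n : ℕ => (n : ℝ)) atTop atTop := tendsto_natCast_atTop_atTop
    have h2 : Tendsto (fun n : ℕ => 2 * (n : ℝ) ^ 2) atTop atTop :=
      ((tendsto_pow_atTop (by norm_num)).comp h0).const_mul_atTop (by norm_num)
    have h3 : Tendsto (fun n : ℕ => 2 * (n : ℝ) ^ 3) atTop atTop :=
      ((tendsto_pow_atTop (by norm_num)).comp h0).const_mul_atTop (by norm_num)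
    have := (h2.const_div_atTop 1).add (h3.const_div_atTop 1)
    simpa using this
  have hdn := ge_of_tele (N := 10)
    (G := fun n : ℕ => 1 / (2 * (n : ℝ) ^ 2) + 1 / (2 * (n : ℝ) ^ 3)) hL ht (fun n hn => by
      have hn' : (1 : ℝ) ≤ n := by exact_mod_cast (show 1 ≤ n by omega)
      push_cast
      generalize (n : ℝ) = x at hn'
      have p1 : 0 < x := by linarith
      have e : 1 / x ^ 3 - (1 / (2 * x ^ 2) + 1 / (2 * x ^ 3) - (1 / (2 * (x + 1) ^ 2) +
          1 / (2 * (x + 1) ^ 3))) = (2 * x + 1) / (2 * x ^ 3 * (x + 1) ^ 3) := by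
        field_simp
        ring
      have : 0 ≤ (2 * x + 1) / (2 * x ^ 3 * (x + 1) ^ 3) := by positivity
      linarith)
  simp only [sum_range_succ, range_zero, sum_empty] at hup hdn
  norm_num at hup hdn
  constructor
  · linarith
  · linarith

end Pool.Agent.Helper78.BI
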