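import Mathlib
import Pool.Agent.Helper78.BI.E
import Pool.Agent.Helper78.BI.N

/-!
# Numerical bounds for the mean
-/

open scoped Real

namespace Pool.Agent.Helper78.BI

lemma two_rpow : (2 : ℝ) ^ (-(3 / 2) : ℝ) = √2 / 4 := by
  have h : (-(3 / 2) : ℝ) = 1 / 2 - (2 : ℕ) := by norm_num
  rw [h, Real.rpow_sub_natCast (by norm_num), ← Real.sqrt_eq_rpow]
  norm_num

lemma sqrt_two_bounds : 1.41421 < √2 ∧ √2 < 1.41422 := by
  constructor
  · rw [Real.lt_sqrt (by norm_num)]; norm_num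
  · rw [Real.sqrt_lt' (by norm_num)]; norm_num

theorem mean_bounds : 3.261 < M1 / (√2 * π) ∧ M1 / (√2 * π) < 3.27 := by
  obtain ⟨z1, z2⟩ := Z32_bounds
  obtain ⟨l1, l2⟩ := L32_bounds
  obtain ⟨t1, t2⟩ := Z3_bounds
  obtain ⟨s1, s2⟩ := sqrt_two_bounds
  have p1 := Real.pi_gt_d6
  have p2 := Real.pi_lt_d6
  rw [M1_eq, two_rpow]
  have hz0 : 0 < Z32 := by linarith
  have hl0 : 0 < L32 := by linarith
  have ht0 : 0 < Z3 := by linarith
  have hs0 : 0 < √2 := by linarith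
  have hπ0 : 0 < π := by linarith
  have hq1 : 2.612 ^ 2 < Z32 ^ 2 := pow_lt_pow_left₀ z1 (by norm_num) (by norm_num)
  have hq2 : Z32 ^ 2 < 2.613 ^ 2 := pow_lt_pow_left₀ z2 hz0.le (by norm_num)
  have n1 : 4 * 2.612 ^ 2 * 0.864 < 4 * Z32 ^ 2 * L32 := by
    have := mul_lt_mul'' (mul_lt_mul_of_pos_left hq1 (by norm_num : (0 : ℝ) < 4)) l1 (by norm_num) (by norm_num)
    linarith
  have n2 : 4 * Z32 ^ 2 * L32 < 4 * 2.613 ^ 2 * 0.865 := by
    have := mul_lt_mul'' (mul_lt_mul_of_pos_left hq2 (by norm_num : (0 : ℝ) < 4)) l2 (by positivity) hl0.le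
    linarith
  have d1 : (1 + √2 / 4) * Z3 < (1 + 1.41422 / 4) * 1.2021 :=
    mul_lt_mul'' (by linarith) t2 (by positivity) ht0.le
  have d2 : (1 + 1.41421 / 4) * 1.202 < (1 + √2 / 4) * Z3 :=
    mul_lt_mul'' (by linarith) t1 (by norm_num) (by norm_num)
  have e1 : √2 * π < 1.41422 * 3.141593 := mul_lt_mul'' s2 p2 hs0.le hπ0.le
  have e2 : 1.41421 * 3.141592 < √2 * π := mul_lt_mul'' s1 p1 (by norm_num) (by norm_num)
  have f1 := mul_lt_mul'' d1 e1 (by positivity) (by positivity)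
  have f2 := mul_lt_mul'' d2 e2 (by norm_num) (by norm_num)
  rw [div_div]
  constructor
  · rw [lt_div_iff₀ (by positivity)]
    norm_num at f1 n1 ⊢
    linarith
  · rw [div_lt_iff₀ (by positivity)]
    norm_num at f2 n2 ⊢
    linarith

end Pool.Agent.Helper78.BI
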