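import Pool.Agent.Helper78.BI.Sig

/-!
# Project FP/TZ (MP_0f6f3f_an): the block decomposition

`s.rh g`: the block lower triangular element with `r* r = g* g` (positive blocks). `s.isCompact_ball`: the elements with bounded entries and determinant of modulus one form a compact set.
-/

set_option autoImplicit false
set_option linter.unusedSectionVars false

open Filter Topology Matrix
open scoped MatrixOrder ComplexOrder

namespace Pool.Agent.Helper78.BI

open Pool.Agent.Helper90.RK Pool.Agent.Helper84.NI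

variable {N : ℕ} {q : Fin N}

section Alg

/-- `Ef + Ee P Ee` -/
def D1 (q : Fin N) (P : MN N) : MN N := Ef q + Ee q * P * Ee q

/-- the inverse of `D1` -/
noncomputable def D1i (q : Fin N) (P : MN N) : MN N := (D1 q P).det⁻¹ • (D1 q P).adjugate

/-- the lower left part of `L` -/
noncomputable def XL1 (q : Fin N) (P : MN N) : MN N := D1i q P * (Ee q * P * Ef q)

/-- the block diagonal part -/
noncomputable def B1 (q : Fin N) (P : MN N) : MN N := (1 - XL1 q P)ᴴ * P * (1 - XL1 q P)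

/-- the block triangular square root -/
noncomputable def R1 (q : Fin N) (P : MN N) : MN N := sq (B1 q P) * (1 + XL1 q P)

theorem dot_star_mul (A : MN N) (v : Fin N → ℂ) : star v ⬝ᵥ ((Aᴴ * A) *ᵥ v) = star (A *ᵥ v) ⬝ᵥ (A *ᵥ v) := by
  rw [← Matrix.mulVec_mulVec, Matrix.dotProduct_mulVec, ← Matrix.star_mulVec]

theorem det_D1_ne {g g' : MN N} (h : g' * g = 1) : (D1 q (gᴴ * g)).det ≠ 0 := by
  intro h0
  obtain ⟨v, hv, h1⟩ := Matrix.exists_mulVec_eq_zero_iff.2 h0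
  have e1 : D1 q (gᴴ * g) = (Ef q)ᴴ * Ef q + (g * Ee q)ᴴ * (g * Ee q) := by
    unfold D1
    rw [Ef_star, Ef_Ef, conjTranspose_mul, Ee_star]
    simp only [Matrix.mul_assoc]
  have h2 : star v ⬝ᵥ (D1 q (gᴴ * g) *ᵥ v) = 0 := by rw [h1, dotProduct_zero]
  rw [e1, Matrix.add_mulVec, dotProduct_add, dot_star_mul, dot_star_mul] at h2
  have h3 : (0 : ℂ) ≤ star (Ef q *ᵥ v) ⬝ᵥ (Ef q *ᵥ v) := dotProduct_star_self_nonneg _
  have h4 : (0 : ℂ) ≤ star ((g * Ee q) *ᵥ v) ⬝ᵥ ((g * Ee q) *ᵥ v) := dotProduct_star_self_nonneg _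
  have h5 := (add_eq_zero_iff_of_nonneg h3 h4).1 h2
  have h6 : Ef q *ᵥ v = 0 := dotProduct_star_self_eq_zero.1 h5.1
  have h7 : (g * Ee q) *ᵥ v = 0 := dotProduct_star_self_eq_zero.1 h5.2
  have h8 : Ee q *ᵥ v = 0 := by
    have h9 : g' *ᵥ ((g * Ee q) *ᵥ v) = 0 := by rw [h7, Matrix.mulVec_zero]
    rwa [Matrix.mulVec_mulVec, ← Matrix.mul_assoc, h, Matrix.one_mul] at h9
  apply hv
  have h10 : (Ef q + Ee q) *ᵥ v = 0 := by rw [Matrix.add_mulVec, h6, h8, add_zero]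
  rwa [Ef_add_Ee, Matrix.one_mulVec] at h10

variable {P : MN N}

theorem D1_mul_D1i (h : (D1 q P).det ≠ 0) : D1 q P * D1i q P = 1 := by
  unfold D1i
  rw [Matrix.mul_smul, Matrix.mul_adjugate, smul_smul, inv_mul_cancel₀ h, one_smul]

theorem Ef_D1i (h : (D1 q P).det ≠ 0) : Ef q * D1i q P = Ef q := by
  have h1 : Ef q * D1 q P = Ef q := by
    unfold D1
    rw [Matrix.mul_add, Ef_Ef, ← Matrix.mul_assoc, ← Matrix.mul_assoc, Ef_Ee, Matrix.zero_mul, Matrix.zero_mul, add_zero]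
  calc Ef q * D1i q P = Ef q * D1 q P * D1i q P := by rw [h1]
    _ = Ef q := by rw [Matrix.mul_assoc, D1_mul_D1i h, Matrix.mul_one]

theorem Ef_XL1 (h : (D1 q P).det ≠ 0) : Ef q * XL1 q P = 0 := by
  unfold XL1
  rw [← Matrix.mul_assoc, Ef_D1i h, ← Matrix.mul_assoc, ← Matrix.mul_assoc, Ef_Ee, Matrix.zero_mul, Matrix.zero_mul]

theorem XL1_Ee : XL1 q P * Ee q = 0 := by
  unfold XL1
  rw [Matrix.mul_assoc, Matrix.mul_assoc _ (Ef q) (Ee q), Ef_Ee, Matrix.mul_zero, Matrix.mul_zero]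

theorem XL1_Ef : XL1 q P * Ef q = XL1 q P := by
  unfold XL1
  rw [Matrix.mul_assoc, Matrix.mul_assoc _ (Ef q) (Ef q), Ef_Ef]

theorem Ee_XL1 (h : (D1 q P).det ≠ 0) : Ee q * XL1 q P = XL1 q P := by
  rw [Ee_eq, Matrix.sub_mul, Matrix.one_mul, Ef_XL1 h, sub_zero]

theorem XL1_XL1 (h : (D1 q P).det ≠ 0) : XL1 q P * XL1 q P = 0 := by
  calc XL1 q P * XL1 q P = XL1 q P * Ef q * XL1 q P := by rw [XL1_Ef]
    _ = 0 := by rw [Matrix.mul_assoc, Ef_XL1 h, Matrix.mul_zero]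

theorem one_sub_mul (h : (D1 q P).det ≠ 0) : (1 - XL1 q P) * (1 + XL1 q P) = 1 := by
  rw [Matrix.sub_mul, Matrix.mul_add, Matrix.mul_add, XL1_XL1 h, Matrix.mul_one, Matrix.one_mul, Matrix.mul_one, add_zero]
  abel

theorem EPE_XL1 (h : (D1 q P).det ≠ 0) : Ee q * P * XL1 q P = Ee q * P * Ef q := by
  have h1 : D1 q P * XL1 q P = Ee q * P * Ef q := by
    unfold XL1
    rw [← Matrix.mul_assoc, D1_mul_D1i h, Matrix.one_mul]
  rw [← h1]
  unfold D1
  rw [Matrix.add_mul, Ef_XL1 h, zero_add, Matrix.mul_assoc _ (Ee q) (XL1 q P), Ee_XL1 h]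

theorem B1_off (h : (D1 q P).det ≠ 0) : Ee q * B1 q P * Ef q = 0 := by
  have h1 : Ee q * (1 - XL1 q P)ᴴ = Ee q := by
    rw [conjTranspose_sub, conjTranspose_one, Matrix.mul_sub, Matrix.mul_one]
    have h2 : Ee q * (XL1 q P)ᴴ = 0 := by
      have h3 := congrArg conjTranspose (XL1_Ee (q := q) (P := P))
      rwa [conjTranspose_mul, Ee_star, conjTranspose_zero] at h3
    rw [h2, sub_zero]
  unfold B1
  calc Ee q * ((1 - XL1 q P)ᴴ * P * (1 - XL1 q P)) * Ef q
      = Ee q * (1 - XL1 q P)ᴴ * P * ((1 - XL1 q P) * Ef q) := by simp only [Matrix.mul_assoc]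
    _ = Ee q * P * (Ef q - XL1 q P) := by rw [h1, Matrix.sub_mul, Matrix.one_mul, XL1_Ef]
    _ = 0 := by rw [Matrix.mul_sub, EPE_XL1 h, sub_self]

theorem B1_herm (hP : Pᴴ = P) : (B1 q P)ᴴ = B1 q P := by
  unfold B1
  rw [conjTranspose_mul, conjTranspose_mul, conjTranspose_conjTranspose, hP]
  simp only [Matrix.mul_assoc]

theorem B1_psd {g : MN N} : (B1 q (gᴴ * g)).PosSemidef := by
  have h : B1 q (gᴴ * g) = (g * (1 - XL1 q (gᴴ * g)))ᴴ * (g * (1 - XL1 q (gᴴ * g))) := by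
    unfold B1
    rw [conjTranspose_mul]
    simp only [Matrix.mul_assoc]
  rw [h]
  exact posSemidef_conjTranspose_mul_self _

theorem B1_comm (h : (D1 q P).det ≠ 0) (hP : Pᴴ = P) : Ef q * B1 q P = B1 q P * Ef q := by
  have h1 := B1_off h
  have h2 : Ef q * B1 q P * Ee q = 0 := by
    have h3 := congrArg conjTranspose h1
    rw [conjTranspose_mul, conjTranspose_mul, B1_herm hP, Ef_star, Ee_star, conjTranspose_zero, ← Matrix.mul_assoc] at h3
    exact h3
  calc Ef q * B1 q P = Ef q * B1 q P * (Ef q + Ee q) := by rw [Ef_add_Ee, Matrix.mul_one]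
    _ = Ef q * B1 q P * Ef q + Ee q * B1 q P * Ef q := by rw [Matrix.mul_add, h2, h1]
    _ = (Ef q + Ee q) * B1 q P * Ef q := by rw [Matrix.add_mul, Matrix.add_mul]
    _ = B1 q P * Ef q := by rw [Ef_add_Ee, Matrix.one_mul]

/-- The square root commutes with the projection. -/
theorem sq_comm {B : MN N} (hB : B.PosSemidef) (h : Ef q * B = B * Ef q) : Ef q * sq B = sq B * Ef q := by
  let u : MN N := Ef q - Ee q
  have hu : u * u = 1 := by
    change (Ef q - Ee q) * (Ef q - Ee q) = 1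
    rw [Matrix.sub_mul, Matrix.mul_sub, Matrix.mul_sub, Ef_Ef, Ef_Ee, Ee_Ef, Ee_Ee, sub_zero, zero_sub, sub_neg_eq_add,
      Ef_add_Ee]
  have hu' : uᴴ = u := by
    change (Ef q - Ee q)ᴴ = _
    rw [conjTranspose_sub, Ef_star, Ee_star]
  have hEe : Ee q * B = B * Ee q := by rw [Ee_eq, Matrix.sub_mul, Matrix.mul_sub, h, Matrix.one_mul, Matrix.mul_one]
  have huB : u * B = B * u := by
    change (Ef q - Ee q) * B = B * (Ef q - Ee q)
    rw [Matrix.sub_mul, Matrix.mul_sub, h, hEe]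
  have h1 : sq B = u * sq B * u := by
    refine sq_uniq hB ?_ ?_
    · have h2 := (sq_psd B).conjTranspose_mul_mul_same u
      rwa [hu'] at h2
    · calc u * sq B * u * (u * sq B * u) = u * sq B * (u * u) * sq B * u := by simp only [Matrix.mul_assoc]
        _ = u * (sq B * sq B) * u := by
            rw [hu, Matrix.mul_one]
            simp only [Matrix.mul_assoc]
        _ = B := by rw [sq_mul hB, huB, Matrix.mul_assoc, hu, Matrix.mul_one]
  have h2 : u * sq B = sq B * u := by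
    conv_lhs => rw [h1]
    rw [← Matrix.mul_assoc, ← Matrix.mul_assoc, hu, Matrix.one_mul]
  have h3 : Ef q = (1 / 2 : ℂ) • (1 + u) := by
    change Ef q = (1 / 2 : ℂ) • (1 + (Ef q - Ee q))
    rw [← Ef_add_Ee (q := q)]
    have : Ef q + Ee q + (Ef q - Ee q) = (2 : ℂ) • Ef q := by rw [two_smul]; abel
    rw [this, smul_smul]
    norm_num
  rw [h3, Matrix.smul_mul, Matrix.mul_smul, Matrix.add_mul, Matrix.mul_add, Matrix.one_mul, Matrix.mul_one, h2]

theorem R1_star_mul {g g' : MN N} (h : g' * g = 1) : (R1 q (gᴴ * g))ᴴ * R1 q (gᴴ * g) = gᴴ * g := by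
  have hd := det_D1_ne (q := q) h
  have h1 : (1 + XL1 q (gᴴ * g)) = (1 + XL1 q (gᴴ * g)) := rfl
  have h2 : (1 + XL1 q (gᴴ * g))ᴴ * (1 - XL1 q (gᴴ * g))ᴴ = 1 := by
    rw [← conjTranspose_mul, one_sub_mul hd, conjTranspose_one]
  unfold R1
  rw [conjTranspose_mul, sq_herm]
  calc (1 + XL1 q (gᴴ * g))ᴴ * sq (B1 q (gᴴ * g)) * (sq (B1 q (gᴴ * g)) * (1 + XL1 q (gᴴ * g)))
      = (1 + XL1 q (gᴴ * g))ᴴ * (sq (B1 q (gᴴ * g)) * sq (B1 q (gᴴ * g))) * (1 + XL1 q (gᴴ * g)) := by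
        simp only [Matrix.mul_assoc]
    _ = ((1 + XL1 q (gᴴ * g))ᴴ * (1 - XL1 q (gᴴ * g))ᴴ) * (gᴴ * g) * ((1 - XL1 q (gᴴ * g)) * (1 + XL1 q (gᴴ * g))) := by
        rw [sq_mul B1_psd]
        unfold B1
        simp only [Matrix.mul_assoc]
    _ = gᴴ * g := by rw [h2, one_sub_mul hd, Matrix.one_mul, Matrix.mul_one]

theorem lb_R1 {g g' : MN N} (h : g' * g = 1) : Lb q (R1 q (gᴴ * g)) := by
  have hd := det_D1_ne (q := q) h
  have hP : (gᴴ * g)ᴴ = gᴴ * g := by rw [conjTranspose_mul, conjTranspose_conjTranspose]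
  unfold Lb R1
  rw [← Matrix.mul_assoc, sq_comm B1_psd (B1_comm hd hP), Matrix.mul_assoc (sq _), Matrix.mul_add, Matrix.mul_one,
    Ef_XL1 hd, add_zero, Matrix.mul_assoc, Ef_Ee, Matrix.mul_zero]

/-- The case of block diagonal positive matrices. -/
theorem R1_diag {d : MN N} (hd : d.PosSemidef) (hc : Ee q * (d * d) * Ef q = 0) : R1 q (d * d) = d := by
  have h1 : XL1 q (d * d) = 0 := by
    unfold XL1
    rw [hc, Matrix.mul_zero]
  have h2 : B1 q (d * d) = d * d := by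
    unfold B1
    rw [h1, sub_zero, conjTranspose_one, Matrix.one_mul, Matrix.mul_one]
  have h3 : (d * d).PosSemidef := by
    have h4 := posSemidef_conjTranspose_mul_self d
    rwa [hd.isHermitian.eq] at h4
  unfold R1
  rw [h1, h2, add_zero, Matrix.mul_one, sq_uniq h3 hd rfl]

end Alg

namespace Sg

variable (s : Sg N q)

theorem psd_σ {A : MN N} (hA : A.PosSemidef) : (s.σ A).PosSemidef := by
  have h1 : A = (sq A)ᴴ * sq A := by rw [sq_herm, sq_mul hA]
  rw [h1, s.mul, s.star]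
  exact posSemidef_conjTranspose_mul_self _

theorem σ_sq {A : MN N} (hA : A.PosSemidef) (h : s.σ A = A) : s.σ (sq A) = sq A := by
  refine (sq_uniq hA (s.psd_σ (sq_psd A)) ?_).symm
  rw [← s.mul, sq_mul hA, h]

theorem σ_R1 {g g' : MN N} (h : g' * g = 1) (hg : s.σ g = g) : s.σ (R1 q (gᴴ * g)) = R1 q (gᴴ * g) := by
  have hd := det_D1_ne (q := q) h
  have hP : s.σ (gᴴ * g) = gᴴ * g := by rw [s.mul, s.star, hg]
  have hD : s.σ (D1 q (gᴴ * g)) = D1 q (gᴴ * g) := by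
    unfold D1
    rw [s.add, s.mul, s.mul, s.blk, s.blk', hP]
  have hDi : s.σ (D1i q (gᴴ * g)) = D1i q (gᴴ * g) := s.inv (D1_mul_D1i hd) hD
  have hX : s.σ (XL1 q (gᴴ * g)) = XL1 q (gᴴ * g) := by
    unfold XL1
    rw [s.mul, s.mul, s.mul, hDi, s.blk, s.blk', hP]
  have hB : s.σ (B1 q (gᴴ * g)) = B1 q (gᴴ * g) := by
    unfold B1
    rw [s.mul, s.mul, s.star, s.sub, s.one, hX, hP]
  unfold R1
  rw [s.mul, s.add, s.one, hX, s.σ_sq B1_psd hB]

/-- The block decomposition. -/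
noncomputable def rh0 (g : s.M) : s.M :=
  s.mkm (R1 q ((s.mt g)ᴴ * s.mt g)) (s.mt g⁻¹ * (s.mt g⁻¹)ᴴ * (R1 q ((s.mt g)ᴴ * s.mt g))ᴴ)
    (by
      refine mul_eq_one_comm.1 ?_
      rw [Matrix.mul_assoc, R1_star_mul (s.mt_inv_mul g)]
      calc s.mt g⁻¹ * (s.mt g⁻¹)ᴴ * ((s.mt g)ᴴ * s.mt g) = s.mt g⁻¹ * (s.mt g * s.mt g⁻¹)ᴴ * s.mt g := by
            rw [conjTranspose_mul]
            simp only [Matrix.mul_assoc]
        _ = 1 := by rw [s.mt_mul_inv, conjTranspose_one, Matrix.mul_one, s.mt_inv_mul])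
    (s.σ_R1 (s.mt_inv_mul g) (s.σ_mt g))

theorem mt_rh0 (g : s.M) : s.mt (s.rh0 g) = R1 q ((s.mt g)ᴴ * s.mt g) := rfl

/-- The block decomposition. -/
noncomputable def rh (g : s.M) : s.Qh := ⟨s.rh0 g, lb_R1 (s.mt_inv_mul g)⟩

theorem mt_rh (g : s.M) : s.mt (s.rh g) = R1 q ((s.mt g)ᴴ * s.mt g) := rfl

theorem rh_star_mul (g : s.M) : (s.mt (s.rh g))ᴴ * s.mt (s.rh g) = (s.mt g)ᴴ * s.mt g :=
  R1_star_mul (s.mt_inv_mul g)

theorem rh_congr {g h : s.M} (e : (s.mt g)ᴴ * s.mt g = (s.mt h)ᴴ * s.mt h) : s.rh g = s.rh h :=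
  Subtype.ext (s.mt_inj (by rw [mt_rh, mt_rh, e]))

theorem isU_mul_rh_inv (g : s.M) : IsU (s.mt (g * ((s.rh g : s.M))⁻¹)) := by
  have h1 := s.rh_star_mul g
  have h2 : s.mt (s.rh g : s.M) * s.mt ((s.rh g : s.M))⁻¹ = 1 := s.mt_mul_inv _
  change (s.mt (g * ((s.rh g : s.M))⁻¹))ᴴ * s.mt (g * ((s.rh g : s.M))⁻¹) = 1
  rw [mt_mul, conjTranspose_mul]
  calc (s.mt ((s.rh g : s.M))⁻¹)ᴴ * (s.mt g)ᴴ * (s.mt g * s.mt ((s.rh g : s.M))⁻¹)
      = (s.mt ((s.rh g : s.M))⁻¹)ᴴ * ((s.mt g)ᴴ * s.mt g) * s.mt ((s.rh g : s.M))⁻¹ := by simp only [Matrix.mul_assoc]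
    _ = (s.mt (s.rh g : s.M) * s.mt ((s.rh g : s.M))⁻¹)ᴴ * (s.mt (s.rh g : s.M) * s.mt ((s.rh g : s.M))⁻¹) := by
        rw [← h1, conjTranspose_mul]
        simp only [Matrix.mul_assoc]
    _ = 1 := by rw [h2, conjTranspose_one, Matrix.mul_one]

theorem rh_unitary {g : s.M} (hg : IsU (s.mt g)) : s.rh g = 1 := by
  refine Subtype.ext (s.mt_inj ?_)
  have hg' : (s.mt g)ᴴ * s.mt g = 1 * 1 := by rw [Matrix.mul_one]; exact hg
  rw [mt_rh, hg', R1_diag PosSemidef.one (by rw [Matrix.mul_one, Matrix.mul_one, Ee_Ef])]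
  rfl

theorem continuous_D1 : Continuous fun P : MN N => D1 q P :=
  continuous_const.add ((continuous_const.mul continuous_id).mul continuous_const)

theorem continuous_rh : Continuous s.rh := by
  have hP : Continuous fun g : s.M => (s.mt g)ᴴ * s.mt g := s.continuous_mt.matrix_conjTranspose.mul s.continuous_mt
  have hD : Continuous fun g : s.M => D1 q ((s.mt g)ᴴ * s.mt g) := continuous_D1.comp hP
  have hDi : Continuous fun g : s.M => D1i q ((s.mt g)ᴴ * s.mt g) :=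
    (hD.matrix_det.inv₀ fun g => det_D1_ne (s.mt_inv_mul g)).smul hD.matrix_adjugate
  have hX : Continuous fun g : s.M => XL1 q ((s.mt g)ᴴ * s.mt g) :=
    hDi.mul ((continuous_const.mul hP).mul continuous_const)
  have hB : Continuous fun g : s.M => B1 q ((s.mt g)ᴴ * s.mt g) :=
    ((continuous_const.sub hX).matrix_conjTranspose.mul hP).mul (continuous_const.sub hX)
  have hS : Continuous fun g : s.M => sq (B1 q ((s.mt g)ᴴ * s.mt g)) :=
    continuousOn_sq.comp_continuous hB fun g => B1_psd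
  have hR : Continuous fun g : s.M => R1 q ((s.mt g)ᴴ * s.mt g) := hS.mul (continuous_const.add hX)
  have hi : Continuous fun g : s.M => s.mt g⁻¹ := s.continuous_mt.comp continuous_inv
  refine Continuous.subtype_mk (s.continuous_to hR ?_) _
  change Continuous fun g : s.M => s.mt g⁻¹ * (s.mt g⁻¹)ᴴ * (R1 q ((s.mt g)ᴴ * s.mt g))ᴴ
  exact (hi.mul hi.matrix_conjTranspose).mul hR.matrix_conjTranspose

/-- Elements with bounded entries and determinant of modulus one. -/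
def Bl (R : ℝ) : Set s.M := {g | (∀ i j, ‖s.mt g i j‖ ≤ R) ∧ ‖(s.mt g).det‖ = 1}

theorem isCompact_ball (R : ℝ) : IsCompact (s.Bl R) := by
  let C : Set (MN N) := {A | (∀ i j, ‖A i j‖ ≤ R) ∧ ‖A.det‖ = 1 ∧ s.σ A = A}
  have hC : IsCompact C := by
    have h1 : IsCompact {A : MN N | ∀ i j, A i j ∈ Metric.closedBall (0 : ℂ) R} := by
      have h2 : IsCompact (Set.pi Set.univ fun _ : Fin N => Set.pi Set.univ fun _ : Fin N => Metric.closedBall (0 : ℂ) R) :=
        isCompact_univ_pi fun _ => isCompact_univ_pi fun _ => isCompact_closedBall _ _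
      convert! h2 using 1
      ext A
      exact ⟨fun h i _ j _ => h i j, fun h i j => h i (Set.mem_univ i) j (Set.mem_univ j)⟩
    have h2 : IsClosed {A : MN N | ‖A.det‖ = 1 ∧ s.σ A = A} :=
      (isClosed_eq continuous_id.matrix_det.norm continuous_const).inter (isClosed_eq s.cont continuous_id)
    refine (h1.inter_right h2).of_isClosed_subset ?_ fun A hA => ⟨fun i j => ?_, hA.2.1, hA.2.2⟩
    · have h3 : C = {A : MN N | ∀ i j, A i j ∈ Metric.closedBall (0 : ℂ) R} ∩ {A : MN N | ‖A.det‖ = 1 ∧ s.σ A = A} := by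
        ext A
        simp only [C, Set.mem_inter_iff, Set.mem_ofPred_eq, mem_closedBall_zero_iff]
      rw [h3]
      exact h1.isClosed.inter h2
    · rw [mem_closedBall_zero_iff]
      exact hA.1 i j
  have hdet : ∀ A : C, (A : MN N).det ≠ 0 := fun A h0 => by
    have := A.2.2.1
    rw [h0, norm_zero] at this
    exact zero_ne_one this
  let F : C → s.M := fun A => s.mkm (A : MN N) ((A : MN N).det⁻¹ • (A : MN N).adjugate)
    (by rw [Matrix.mul_smul, Matrix.mul_adjugate, smul_smul, inv_mul_cancel₀ (hdet A), one_smul]) A.2.2.2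
  have hF : Continuous F := by
    refine s.continuous_to ?_ ?_
    · exact continuous_subtype_val
    · change Continuous fun A : C => (A : MN N).det⁻¹ • (A : MN N).adjugate
      exact (continuous_subtype_val.matrix_det.inv₀ hdet).smul continuous_subtype_val.matrix_adjugate
  have hR : s.Bl R = Set.range F := by
    ext g
    constructor
    · intro hg
      exact ⟨⟨s.mt g, hg.1, hg.2, s.σ_mt g⟩, s.mt_inj rfl⟩
    · rintro ⟨A, rfl⟩
      exact ⟨A.2.1, A.2.2.1⟩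
  rw [hR]
  have : CompactSpace C := isCompact_iff_compactSpace.1 hC
  exact isCompact_range hF

theorem unitary_mem_Bl {g : s.M} (hg : IsU (s.mt g)) : g ∈ s.Bl 1 := by
  refine ⟨fun i j => ?_, hg.norm_det⟩
  have h1 : ((s.mt g)ᴴ * s.mt g) j j = 1 := by
    rw [show (s.mt g)ᴴ * s.mt g = 1 from hg, Matrix.one_apply_eq]
  rw [Matrix.mul_apply] at h1
  have h2 : ∑ k, ‖s.mt g k j‖ ^ 2 = 1 := by
    have h3 : ((∑ k, ‖s.mt g k j‖ ^ 2 : ℝ) : ℂ) = 1 := by
      rw [← h1]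
      push_cast
      refine Finset.sum_congr rfl fun k _ => ?_
      rw [Matrix.conjTranspose_apply, RCLike.star_def, RCLike.conj_mul]
      norm_cast
    exact_mod_cast h3
  have h4 : ‖s.mt g i j‖ ^ 2 ≤ 1 := by
    rw [← h2]
    exact Finset.single_le_sum (f := fun k => ‖s.mt g k j‖ ^ 2) (fun _ _ => by positivity) (Finset.mem_univ i)
  nlinarith [norm_nonneg (s.mt g i j)]

/-- The unitary elements. -/
def UU : Set s.M := {g | IsU (s.mt g)}

theorem isCompact_UU : IsCompact s.UU := by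
  refine (s.isCompact_ball 1).of_isClosed_subset ?_ fun g hg => s.unitary_mem_Bl hg
  exact isClosed_eq (s.continuous_mt.matrix_conjTranspose.mul s.continuous_mt) continuous_const

end Sg

end Pool.Agent.Helper78.BI
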