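import Pool.Agent.Helper78.BI.J

/-!
# Two inequalities for the number of representations (block S of MP_fb29e9_nt)
-/

open scoped Real

namespace Pool.Agent.Helper78.BI

open Pool.Agent.Helper22.GC (gr gS)

theorem prime_cases {p : ℕ} (hp : p.Prime) : p = 2 ∨ p % 4 = 1 ∨ p % 4 = 3 := by
  rcases hp.eq_two_or_odd with h | h
  · exact Or.inl h
  · omega

theorem gr_pow_mul_sq_le {p : ℕ} (hp : p.Prime) (a b : ℕ) :
    4 * gr (p ^ (a + 2 * b)) ≤ gr (p ^ a) * gr (p ^ (2 * b)) := by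
  rcases prime_cases hp with h | h | h
  · subst h
    rw [gr_two_pow, gr_two_pow, gr_two_pow]
  · rw [gr_pow_one hp h, gr_pow_one hp h, gr_pow_one hp h]
    nlinarith [Nat.zero_le (a * b)]
  · rw [gr_pow_three hp h, gr_pow_three hp h, gr_pow_three hp h, if_pos (even_two_mul b)]
    by_cases ha : Even a
    · rw [if_pos ha, if_pos (ha.add (even_two_mul b))]
    · rw [if_neg ha, if_neg (fun h1 => ha ((Nat.even_add.1 h1).2 (even_two_mul b)))]

theorem gr_mul_sq_le {q j : ℕ} (hq : 0 < q) (hj : 0 < j) :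
    4 * gr (q * j ^ 2) ≤ gr q * gr (j ^ 2) := by
  induction j using Nat.strong_induction_on generalizing q with
  | _ j ih =>
    by_cases h1 : j = 1
    · subst h1
      rw [one_pow, mul_one, gr_one, mul_comm]
    · obtain ⟨p, hp, hpj⟩ := Nat.exists_prime_and_dvd h1
      obtain ⟨b, j', hj', rfl⟩ := Nat.exists_eq_pow_mul_and_not_dvd hj.ne' p hp.ne_one
      obtain ⟨a, q', hq', rfl⟩ := Nat.exists_eq_pow_mul_and_not_dvd hq.ne' p hp.ne_one
      have hb : b ≠ 0 := by
        rintro rfl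
        rw [pow_zero, one_mul] at hpj
        exact hj' hpj
      have hj'0 : 0 < j' := Nat.pos_of_mul_pos_left hj
      have hq'0 : 0 < q' := Nat.pos_of_mul_pos_left hq
      have hlt : j' < p ^ b * j' :=
        lt_mul_of_one_lt_left hj'0 (Nat.one_lt_pow hb hp.one_lt)
      have h2 := ih j' hlt hq'0 hj'0
      have h3 := gr_pow_mul_sq_le hp a b
      have hcq : Nat.Coprime p q' := (Nat.Prime.coprime_iff_not_dvd hp).2 hq'
      have hcj : Nat.Coprime p j' := (Nat.Prime.coprime_iff_not_dvd hp).2 hj'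
      have e1 : p ^ a * q' * (p ^ b * j') ^ 2 = p ^ (a + 2 * b) * (q' * j' ^ 2) := by ring
      have e2 : (p ^ b * j') ^ 2 = p ^ (2 * b) * j' ^ 2 := by ring
      have h4 := gr_coprime (pow_pos hp.pos (a + 2 * b)) (Nat.mul_pos hq'0 (pow_pos hj'0 2))
        ((hcq.mul_right (hcj.pow_right 2)).pow_left (a + 2 * b))
      have h5 := gr_coprime (pow_pos hp.pos a) hq'0 (hcq.pow_left a)
      have h6 := gr_coprime (pow_pos hp.pos (2 * b)) (pow_pos hj'0 2)
        ((hcj.pow_right 2).pow_left (2 * b))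
      rw [e1, e2]
      have h7 : (4 * gr (p ^ (a + 2 * b))) * (4 * gr (q' * j' ^ 2)) ≤
          (gr (p ^ a) * gr (p ^ (2 * b))) * (gr q' * gr (j' ^ 2)) := Nat.mul_le_mul h3 h2
      have h8 : 16 * (4 * gr (p ^ (a + 2 * b) * (q' * j' ^ 2))) ≤
          16 * (gr (p ^ a * q') * gr (p ^ (2 * b) * j' ^ 2)) := by
        calc 16 * (4 * gr (p ^ (a + 2 * b) * (q' * j' ^ 2)))
            = (4 * gr (p ^ (a + 2 * b))) * (4 * gr (q' * j' ^ 2)) := by rw [h4]; ring
          _ ≤ (gr (p ^ a) * gr (p ^ (2 * b))) * (gr q' * gr (j' ^ 2)) := h7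
          _ = (gr (p ^ a) * gr q') * (gr (p ^ (2 * b)) * gr (j' ^ 2)) := by ring
          _ = (4 * gr (p ^ a * q')) * (4 * gr (p ^ (2 * b) * j' ^ 2)) := by rw [h5, h6]
          _ = 16 * (gr (p ^ a * q') * gr (p ^ (2 * b) * j' ^ 2)) := by ring
      exact Nat.le_of_mul_le_mul_left h8 (by norm_num)

theorem gr_pow_four_prime {p : ℕ} (hp : p.Prime) (e : ℕ) :
    gr (p ^ e) ^ 4 ≤ 256 * (p ^ e) ^ 3 := by
  have h0 : 1 ≤ (p ^ e) ^ 3 := Nat.one_le_pow _ _ (pow_pos hp.pos e)
  rcases prime_cases hp with h | h | h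
  · subst h
    rw [gr_two_pow]
    omega
  · rw [gr_pow_one hp h]
    have h5 : 5 ≤ p := by
      have := hp.two_le
      omega
    have h1 : e + 1 ≤ 2 ^ e := Nat.lt_two_pow_self
    calc (4 * (e + 1)) ^ 4 = 256 * (e + 1) ^ 4 := by ring
      _ ≤ 256 * (2 ^ e) ^ 4 := Nat.mul_le_mul_left _ (Nat.pow_le_pow_left h1 4)
      _ = 256 * (2 ^ 4) ^ e := by rw [← pow_mul, ← pow_mul, mul_comm e 4]
      _ ≤ 256 * (p ^ 3) ^ e := by
          refine Nat.mul_le_mul_left _ (Nat.pow_le_pow_left ?_ e)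
          calc 2 ^ 4 ≤ 5 ^ 3 := by norm_num
            _ ≤ p ^ 3 := Nat.pow_le_pow_left h5 3
      _ = 256 * (p ^ e) ^ 3 := by rw [← pow_mul, ← pow_mul, mul_comm e 3]
  · rw [gr_pow_three hp h]
    split_ifs
    · omega
    · omega

theorem gr_pow_four {n : ℕ} (hn : 0 < n) : gr n ^ 4 ≤ 256 * n ^ 3 := by
  induction n using Nat.strong_induction_on with
  | _ n ih =>
    by_cases h1 : n = 1
    · subst h1
      rw [gr_one]
      norm_num
    · obtain ⟨p, hp, hpn⟩ := Nat.exists_prime_and_dvd h1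
      obtain ⟨b, n', hn', rfl⟩ := Nat.exists_eq_pow_mul_and_not_dvd hn.ne' p hp.ne_one
      have hb : b ≠ 0 := by
        rintro rfl
        rw [pow_zero, one_mul] at hpn
        exact hn' hpn
      have hn'0 : 0 < n' := Nat.pos_of_mul_pos_left hn
      have hlt : n' < p ^ b * n' :=
        lt_mul_of_one_lt_left hn'0 (Nat.one_lt_pow hb hp.one_lt)
      have h2 := ih n' hlt hn'0
      have h3 := gr_pow_four_prime hp b
      have hc : Nat.Coprime p n' := (Nat.Prime.coprime_iff_not_dvd hp).2 hn'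
      have h4 := gr_coprime (pow_pos hp.pos b) hn'0 (hc.pow_left b)
      have h5 : 256 * gr (p ^ b * n') ^ 4 ≤ 256 * (256 * (p ^ b * n') ^ 3) := by
        calc 256 * gr (p ^ b * n') ^ 4 = (4 * gr (p ^ b * n')) ^ 4 := by ring
          _ = gr (p ^ b) ^ 4 * gr n' ^ 4 := by rw [h4]; ring
          _ ≤ (256 * (p ^ b) ^ 3) * (256 * n' ^ 3) := Nat.mul_le_mul h3 h2
          _ = 256 * (256 * (p ^ b * n') ^ 3) := by ring
      exact Nat.le_of_mul_le_mul_left h5 (by norm_num)

theorem gr_prime_one {p : ℕ} (hp : p.Prime) (h : p % 4 = 1) : gr p = 8 := by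
  have h1 := gr_pow_one hp h 1
  rw [pow_one] at h1
  exact h1

theorem gr_eq_zero {q p : ℕ} (hq : Squarefree q) (hp : p.Prime) (h : p % 4 = 3) (hpq : p ∣ q) :
    gr q = 0 := by
  obtain ⟨q', rfl⟩ := hpq
  have hc : Nat.Coprime p q' := Nat.coprime_of_squarefree_mul hq
  have hq' : 0 < q' := Nat.pos_of_ne_zero (by
    rintro rfl
    rw [mul_zero] at hq
    exact not_squarefree_zero hq)
  have h1 := gr_coprime hp.pos hq' hc
  have h2 := gr_pow_three hp h 1
  rw [pow_one, if_neg (by decide)] at h2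
  rw [h2, zero_mul] at h1
  omega

theorem gr_small_nat {q : ℕ} (hq : Squarefree q) (h1 : q ≠ 1) (h2 : q ≠ 2) (h5 : q ≠ 5)
    (h10 : q ≠ 10) (h13 : q ≠ 13) : gr q ^ 4 * 17 ^ 3 ≤ 4096 * q ^ 3 := by
  have hq0 : q ≠ 0 := hq.ne_zero
  by_cases hbig : ∃ p, p.Prime ∧ p ∣ q ∧ (17 ≤ p ∨ p % 4 = 3)
  · obtain ⟨p, hp, hpq, h⟩ := hbig
    rcases prime_cases hp with h3 | h3 | h3
    · omega
    · have hp17 : 17 ≤ p := by omega
      obtain ⟨q', rfl⟩ := hpq
      have hc : Nat.Coprime p q' := Nat.coprime_of_squarefree_mul hq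
      have hq' : 0 < q' := Nat.pos_of_ne_zero (by
        rintro rfl
        exact hq0 (mul_zero p))
      have h4 := gr_coprime hp.pos hq' hc
      rw [gr_prime_one hp h3] at h4
      have h6 : gr (p * q') = 2 * gr q' := by omega
      have h7 := gr_pow_four hq'
      calc gr (p * q') ^ 4 * 17 ^ 3 = 16 * gr q' ^ 4 * 17 ^ 3 := by rw [h6]; ring
        _ ≤ 16 * (256 * q' ^ 3) * p ^ 3 :=
          Nat.mul_le_mul (Nat.mul_le_mul_left _ h7) (Nat.pow_le_pow_left hp17 3)
        _ = 4096 * (p * q') ^ 3 := by ring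
    · rw [gr_eq_zero hq hp h3 hpq]
      simp
  · push Not at hbig
    have hsub : q.primeFactors ⊆ ({2, 5, 13} : Finset ℕ) := by
      intro p hp
      rw [Nat.mem_primeFactors] at hp
      have h3 := hbig p hp.1 hp.2.1
      have h4 : p < 17 := h3.1
      have hpp := hp.1
      interval_cases p <;> first | decide | exact absurd rfl h3.2 | exact absurd hpp (by norm_num)
    have hdvd : q ∣ 130 := by
      have h3 : ∏ p ∈ q.primeFactors, p ∣ ∏ p ∈ ({2, 5, 13} : Finset ℕ), p :=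
        Finset.prod_dvd_prod_of_subset _ _ _ hsub
      rw [Nat.prod_primeFactors_of_squarefree hq] at h3
      exact h3
    have hmem : q ∈ Nat.divisors 130 := Nat.mem_divisors.2 ⟨hdvd, by norm_num⟩
    have hdiv : Nat.divisors 130 = {1, 2, 5, 10, 13, 26, 65, 130} := by decide
    rw [hdiv] at hmem
    have g2 : gr 2 = 4 := by
      have := gr_two_pow 1
      rwa [pow_one] at this
    have g5 : gr 5 = 8 := gr_prime_one (by norm_num) (by norm_num)
    have g13 : gr 13 = 8 := gr_prime_one (by norm_num) (by norm_num)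
    have g26 : gr 26 = 8 := by
      have := gr_coprime (m := 2) (n := 13) (by norm_num) (by norm_num) (by norm_num)
      rw [g2, g13] at this
      norm_num at this
      omega
    have g65 : gr 65 = 16 := by
      have := gr_coprime (m := 5) (n := 13) (by norm_num) (by norm_num) (by norm_num)
      rw [g5, g13] at this
      norm_num at this
      omega
    have g130 : gr 130 = 16 := by
      have := gr_coprime (m := 2) (n := 65) (by norm_num) (by norm_num) (by norm_num)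
      rw [g2, g65] at this
      norm_num at this
      omega
    simp only [Finset.mem_insert, Finset.mem_singleton] at hmem
    rcases hmem with rfl | rfl | rfl | rfl | rfl | rfl | rfl | rfl
    · exact (h1 rfl).elim
    · exact (h2 rfl).elim
    · exact (h5 rfl).elim
    · exact (h10 rfl).elim
    · exact (h13 rfl).elim
    · rw [g26]; norm_num
    · rw [g65]; norm_num
    · rw [g130]; norm_num

theorem rpow_neg_three_half_sq {x : ℝ} (hx : 0 < x) : (x ^ (-(3 / 2) : ℝ)) ^ 2 = (x ^ 3)⁻¹ := by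
  rw [← Real.rpow_natCast, ← Real.rpow_mul hx.le, ← Real.rpow_natCast x 3, ← Real.rpow_neg hx.le]
  norm_num

theorem gr_small {q : ℕ} (hq : Squarefree q) (h1 : q ≠ 1) (h2 : q ≠ 2) (h5 : q ≠ 5)
    (h10 : q ≠ 10) (h13 : q ≠ 13) :
    (gr q : ℝ) ^ 2 * (q : ℝ) ^ (-(3 / 2) : ℝ) ≤ 64 * (17 : ℝ) ^ (-(3 / 2) : ℝ) := by
  have h := gr_small_nat hq h1 h2 h5 h10 h13
  have hq0 : (0 : ℝ) < q := by exact_mod_cast Nat.pos_of_ne_zero hq.ne_zero
  have h' : (gr q : ℝ) ^ 4 * 17 ^ 3 ≤ 4096 * (q : ℝ) ^ 3 := by exact_mod_cast h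
  refine (pow_le_pow_iff_left₀ (by positivity) (by positivity) (two_ne_zero)).1 ?_
  rw [mul_pow, mul_pow, rpow_neg_three_half_sq hq0, rpow_neg_three_half_sq (by norm_num : (0:ℝ) < 17),
    ← div_eq_mul_inv, ← div_eq_mul_inv, div_le_div_iff₀ (by positivity) (by positivity)]
  calc ((gr q : ℝ) ^ 2) ^ 2 * 17 ^ 3 = (gr q : ℝ) ^ 4 * 17 ^ 3 := by ring
    _ ≤ 4096 * (q : ℝ) ^ 3 := h'
    _ = 64 ^ 2 * (q : ℝ) ^ 3 := by norm_num

end Pool.Agent.Helper78.BI
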