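import Pool.Agent.Helper78.BI.Sq
import Pool.Agent.Helper90.RK.GD

/-!
# Project FP/TZ (MP_0f6f3f_an): matrix groups over `ℝ`, `ℂ`, `ℍ`

`Sg N q`: an additive multiplicative map `σ` of the complex `N × N` matrices which commutes with the adjoint and fixes the block projection `Ef q` (coordinates `≤ q`): entrywise conjugation (real matrices), the identity
(complex matrices), `J conj(·) J⁻¹` (quaternionic matrices). `s.M`: the invertible matrices fixed by `σ`; `s.Qh`: the block lower triangular ones; `s.Sh`: the ones which are supported in the block and have determinant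
of modulus one. `s.Z0`, `s.Zs`: scalars of modulus one. `s.GG = s.M / s.Z0`, `s.SS = s.Sh / s.Zs`. `s.nbh : s.Qh → s.Sh`: the normalised block.
-/

set_option autoImplicit false
set_option linter.unusedSectionVars false

open Filter Topology Matrix

namespace Pool.Agent.Helper78.BI

open Pool.Agent.Helper90.RK Pool.Agent.Helper84.NI

variable {N : ℕ} {q : Fin N}

section Proj

/-- the projection on the coordinates `≤ q` -/
def Ef (q : Fin N) : MN N := diagonal fun i => if i ≤ q then 1 else 0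

/-- the projection on the coordinates `> q` -/
def Ee (q : Fin N) : MN N := diagonal fun i => if i ≤ q then 0 else 1

theorem Ef_mul_apply (A : MN N) (i j : Fin N) : (Ef q * A) i j = if i ≤ q then A i j else 0 := by
  unfold Ef
  rw [diagonal_mul]
  split_ifs <;> simp

theorem mul_Ef_apply (A : MN N) (i j : Fin N) : (A * Ef q) i j = if j ≤ q then A i j else 0 := by
  unfold Ef
  rw [mul_diagonal]
  split_ifs <;> simp

theorem Ee_mul_apply (A : MN N) (i j : Fin N) : (Ee q * A) i j = if i ≤ q then 0 else A i j := by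
  unfold Ee
  rw [diagonal_mul]
  split_ifs <;> simp

theorem mul_Ee_apply (A : MN N) (i j : Fin N) : (A * Ee q) i j = if j ≤ q then 0 else A i j := by
  unfold Ee
  rw [mul_diagonal]
  split_ifs <;> simp

theorem Ef_add_Ee : Ef q + Ee q = 1 := by
  unfold Ef Ee
  rw [diagonal_add, ← diagonal_one]
  congr 1
  funext i
  split_ifs <;> simp

theorem Ef_Ef : Ef q * Ef q = Ef q := by
  unfold Ef
  rw [diagonal_mul_diagonal]
  congr 1
  funext i
  split_ifs <;> simp

theorem Ee_Ee : Ee q * Ee q = Ee q := by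
  unfold Ee
  rw [diagonal_mul_diagonal]
  congr 1
  funext i
  split_ifs <;> simp

theorem Ef_Ee : Ef q * Ee q = 0 := by
  unfold Ef Ee
  rw [diagonal_mul_diagonal, ← diagonal_zero]
  congr 1
  funext i
  split_ifs <;> simp

theorem Ee_Ef : Ee q * Ef q = 0 := by
  unfold Ef Ee
  rw [diagonal_mul_diagonal, ← diagonal_zero]
  congr 1
  funext i
  split_ifs <;> simp

theorem Ef_star : (Ef q)ᴴ = Ef q := by
  unfold Ef
  rw [diagonal_conjTranspose]
  congr 1
  funext i
  rw [Pi.star_apply]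
  split_ifs <;> simp

theorem Ee_star : (Ee q)ᴴ = Ee q := by
  unfold Ee
  rw [diagonal_conjTranspose]
  congr 1
  funext i
  rw [Pi.star_apply]
  split_ifs <;> simp

theorem Ee_eq : Ee q = 1 - Ef q := by rw [← Ef_add_Ee (q := q)]; abel

/-- block lower triangular -/
def Lb (q : Fin N) (A : MN N) : Prop := Ef q * A * Ee q = 0

theorem lb_iff {A : MN N} : Lb q A ↔ ∀ i j : Fin N, i ≤ q → q < j → A i j = 0 := by
  constructor
  · intro h i j hi hj
    have h1 := congrFun (congrFun h i) j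
    rw [mul_Ee_apply, Ef_mul_apply, if_neg (not_le.2 hj), if_pos hi] at h1
    exact h1
  · intro h
    unfold Lb
    ext i j
    rw [mul_Ee_apply, Ef_mul_apply]
    split_ifs with h1 h2
    · rfl
    · exact h i j h2 (not_le.1 h1)
    · rfl

/-- the block -/
def bk (q : Fin N) (A : MN N) : MN N := Ef q * A * Ef q + Ee q

theorem bk_one : bk q (1 : MN N) = 1 := by
  unfold bk
  rw [Matrix.mul_one, Ef_Ef, Ef_add_Ee]

theorem bk_mul {A B : MN N} (hA : Lb q A) : bk q (A * B) = bk q A * bk q B := by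
  unfold bk Lb at *
  have h1 : Ef q * (A * B) * Ef q = Ef q * A * Ef q * (Ef q * B * Ef q) := by
    calc Ef q * (A * B) * Ef q = Ef q * A * (Ef q + Ee q) * B * Ef q := by
          rw [Ef_add_Ee, Matrix.mul_one]
          simp only [Matrix.mul_assoc]
      _ = Ef q * A * Ef q * B * Ef q + Ef q * A * Ee q * B * Ef q := by
          rw [Matrix.mul_add, Matrix.add_mul, Matrix.add_mul]
      _ = Ef q * A * (Ef q * Ef q) * B * Ef q := by
          rw [hA, Matrix.zero_mul, Matrix.zero_mul, add_zero, Ef_Ef]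
      _ = _ := by simp only [Matrix.mul_assoc]
  have h2 : Ef q * A * Ef q * Ee q = 0 := by
    rw [Matrix.mul_assoc _ (Ef q) (Ee q), Ef_Ee, Matrix.mul_zero]
  have h3 : Ee q * (Ef q * B * Ef q) = 0 := by
    rw [← Matrix.mul_assoc, ← Matrix.mul_assoc, Ee_Ef, Matrix.zero_mul, Matrix.zero_mul]
  rw [h1, Matrix.add_mul, Matrix.mul_add, Matrix.mul_add, h2, h3, Ee_Ee, add_zero, zero_add]

theorem Ef_bk (A : MN N) : Ef q * bk q A = Ef q * A * Ef q := by
  unfold bk
  rw [Matrix.mul_add, Ef_Ee, add_zero, ← Matrix.mul_assoc, ← Matrix.mul_assoc, Ef_Ef]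

theorem bk_Ef (A : MN N) : bk q A * Ef q = Ef q * A * Ef q := by
  unfold bk
  rw [Matrix.add_mul, Ee_Ef, add_zero, Matrix.mul_assoc _ (Ef q) (Ef q), Ef_Ef]

theorem Ee_bk (A : MN N) : Ee q * bk q A = Ee q := by
  unfold bk
  rw [Matrix.mul_add, Ee_Ee, ← Matrix.mul_assoc, ← Matrix.mul_assoc, Ee_Ef, Matrix.zero_mul, Matrix.zero_mul, zero_add]

theorem bk_Ee (A : MN N) : bk q A * Ee q = Ee q := by
  unfold bk
  rw [Matrix.add_mul, Ee_Ee, Matrix.mul_assoc _ (Ef q) (Ee q), Ef_Ee, Matrix.mul_zero, zero_add]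

theorem bk_bk (A : MN N) : bk q (bk q A) = bk q A := by
  have h : bk q (bk q A) = Ef q * (bk q A * Ef q) + Ee q := by
    rw [← Matrix.mul_assoc]
    rfl
  rw [h, bk_Ef, ← Matrix.mul_assoc, ← Matrix.mul_assoc, Ef_Ef]
  rfl

theorem lb_bk (A : MN N) : Lb q (bk q A) := by
  unfold Lb
  rw [Ef_bk, Matrix.mul_assoc _ (Ef q) (Ee q), Ef_Ee, Matrix.mul_zero]

theorem Lb.mul {A B : MN N} (hA : Lb q A) (hB : Lb q B) : Lb q (A * B) := by
  unfold Lb at *
  calc Ef q * (A * B) * Ee q = Ef q * A * (Ef q + Ee q) * B * Ee q := by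
        rw [Ef_add_Ee, Matrix.mul_one]
        simp only [Matrix.mul_assoc]
    _ = Ef q * A * Ef q * B * Ee q + Ef q * A * Ee q * B * Ee q := by
        rw [Matrix.mul_add, Matrix.add_mul, Matrix.add_mul]
    _ = Ef q * A * (Ef q * B * Ee q) + Ef q * A * Ee q * B * Ee q := by simp only [Matrix.mul_assoc]
    _ = 0 := by rw [hA, hB, Matrix.mul_zero, Matrix.zero_mul, Matrix.zero_mul, add_zero]

theorem lb_one : Lb q (1 : MN N) := by
  unfold Lb
  rw [Matrix.mul_one, Ef_Ee]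

theorem Lb.inv {A B : MN N} (hA : Lb q A) (h : A * B = 1) : Lb q B := by
  have h1 : bk q A * bk q B = 1 := by rw [← bk_mul hA, h, bk_one]
  have h2 : bk q B * bk q A = 1 := mul_eq_one_comm.1 h1
  unfold Lb
  have h3 : Ef q * A * Ef q * (B * Ee q) = 0 := by
    have h4 : Ef q * (A * B) * Ee q = 0 := by rw [h, Matrix.mul_one, Ef_Ee]
    calc Ef q * A * Ef q * (B * Ee q) = Ef q * A * Ef q * B * Ee q + Ef q * A * Ee q * B * Ee q := by
          rw [hA, Matrix.zero_mul, Matrix.zero_mul, add_zero]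
          simp only [Matrix.mul_assoc]
      _ = Ef q * A * (Ef q + Ee q) * B * Ee q := by rw [Matrix.mul_add, Matrix.add_mul, Matrix.add_mul]
      _ = 0 := by
          rw [Ef_add_Ee, Matrix.mul_one]
          rw [← h4]
          simp only [Matrix.mul_assoc]
  have h5 : bk q A * (Ef q * B * Ee q) = 0 := by
    rw [← Matrix.mul_assoc, ← Matrix.mul_assoc, bk_Ef, Matrix.mul_assoc, h3]
  calc Ef q * B * Ee q = bk q B * bk q A * (Ef q * B * Ee q) := by rw [h2, Matrix.one_mul]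
    _ = 0 := by rw [Matrix.mul_assoc, h5, Matrix.mul_zero]

/-- scaling of the block -/
def sc (q : Fin N) (t : ℝ) : MN N := diagonal fun i => if i ≤ q then (t : ℂ) else 1

theorem sc_eq (t : ℝ) : sc q t = (t : ℂ) • Ef q + Ee q := by
  unfold sc Ef Ee
  rw [← diagonal_smul, diagonal_add]
  congr 1
  funext i
  simp only [Pi.smul_apply]
  split_ifs <;> simp

theorem sc_mul (t t' : ℝ) : sc q t * sc q t' = sc q (t * t') := by
  unfold sc
  rw [diagonal_mul_diagonal]
  congr 1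
  funext i
  split_ifs <;> simp

theorem sc_one : sc q 1 = 1 := by
  unfold sc
  rw [← diagonal_one]
  congr 1
  funext i
  split_ifs <;> simp

theorem sc_bk_comm (t : ℝ) (A : MN N) : sc q t * bk q A = bk q A * sc q t := by
  rw [sc_eq, Matrix.add_mul, Matrix.mul_add, Matrix.smul_mul, Matrix.mul_smul, Ef_bk, bk_Ef, Ee_bk, bk_Ee]

theorem bk_sc (t : ℝ) : bk q (sc q t) = sc q t := by
  unfold bk
  rw [sc_eq, Matrix.mul_add, Ef_Ee, add_zero, Matrix.mul_smul, Ef_Ef, Matrix.smul_mul, Ef_Ef]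

theorem sc_star (t : ℝ) : (sc q t)ᴴ = sc q t := by
  rw [sc_eq, conjTranspose_add, conjTranspose_smul, Ef_star, Ee_star]
  congr 2
  exact Complex.conj_ofReal t

theorem det_sc (t : ℝ) : (sc q t).det = (t : ℂ) ^ ((q : ℕ) + 1) := by
  unfold sc
  rw [det_diagonal, Finset.prod_ite, Finset.prod_const_one, mul_one, Finset.prod_const]
  congr 1
  have : Finset.univ.filter (fun i : Fin N => i ≤ q) = Finset.Iic q := by
    ext i
    simp
  rw [this, Fin.card_Iic]

/-- size of the block -/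
noncomputable def dt (q : Fin N) (A : MN N) : ℝ := ‖(bk q A).det‖ ^ (1 / ((q : ℕ) + 1 : ℝ))

theorem dt_mul {A B : MN N} (hA : Lb q A) : dt q (A * B) = dt q A * dt q B := by
  unfold dt
  rw [bk_mul hA, det_mul, norm_mul, Real.mul_rpow (norm_nonneg _) (norm_nonneg _)]

theorem dt_one : dt q (1 : MN N) = 1 := by
  unfold dt
  rw [bk_one, det_one, norm_one, Real.one_rpow]

theorem dt_nonneg (A : MN N) : 0 ≤ dt q A := Real.rpow_nonneg (norm_nonneg _) _

theorem dt_pow (A : MN N) : dt q A ^ ((q : ℕ) + 1) = ‖(bk q A).det‖ := by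
  unfold dt
  rw [← Real.rpow_natCast, ← Real.rpow_mul (norm_nonneg _)]
  push_cast
  rw [one_div, inv_mul_cancel₀ (by positivity), Real.rpow_one]

theorem dt_ne {A B : MN N} (hA : Lb q A) (h : A * B = 1) : dt q A ≠ 0 := by
  intro h0
  have h1 := dt_mul (B := B) hA
  rw [h, dt_one, h0, zero_mul] at h1
  exact one_ne_zero h1

/-- the normalised block -/
noncomputable def nu (q : Fin N) (A : MN N) : MN N := sc q (dt q A)⁻¹ * bk q A

theorem nu_mul {A B : MN N} (hA : Lb q A) : nu q (A * B) = nu q A * nu q B := by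
  unfold nu
  rw [bk_mul hA, dt_mul hA, mul_inv, ← sc_mul]
  calc sc q (dt q A)⁻¹ * sc q (dt q B)⁻¹ * (bk q A * bk q B)
      = sc q (dt q A)⁻¹ * (sc q (dt q B)⁻¹ * bk q A) * bk q B := by simp only [Matrix.mul_assoc]
    _ = _ := by
        rw [sc_bk_comm]
        simp only [Matrix.mul_assoc]

theorem nu_one : nu q (1 : MN N) = 1 := by
  unfold nu
  rw [dt_one, inv_one, sc_one, bk_one, Matrix.mul_one]

theorem bk_nu (A : MN N) : bk q (nu q A) = nu q A := by
  unfold nu
  have h : Lb q (sc q (dt q A)⁻¹) := by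
    rw [← bk_sc]
    exact lb_bk _
  rw [bk_mul h, bk_bk, bk_sc]

theorem norm_det_nu {A B : MN N} (hA : Lb q A) (h : A * B = 1) : ‖(nu q A).det‖ = 1 := by
  unfold nu
  rw [det_mul, norm_mul, det_sc, ← dt_pow A, norm_pow, Complex.norm_real, norm_inv, Real.norm_eq_abs,
    abs_of_nonneg (dt_nonneg A), ← mul_pow, inv_mul_cancel₀ (dt_ne hA h), one_pow]

theorem continuous_bk : Continuous (bk q : MN N → MN N) :=
  ((continuous_const.mul continuous_id).mul continuous_const).add continuous_const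

theorem continuous_sc : Continuous (sc q : ℝ → MN N) := by
  have h : (sc q : ℝ → MN N) = fun t : ℝ => (t : ℂ) • Ef q + Ee q := funext fun t => sc_eq t
  rw [h]
  exact (Complex.continuous_ofReal.smul continuous_const).add continuous_const

theorem continuous_dt : Continuous (dt q : MN N → ℝ) :=
  (continuous_bk.matrix_det.norm).rpow_const fun _ => Or.inr (by positivity)

end Proj

/-- Real `*`-algebras of complex matrices given by an involution. -/
structure Sg (N : ℕ) (q : Fin N) where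
  /-- the involution -/
  σ : MN N → MN N
  add : ∀ A B, σ (A + B) = σ A + σ B
  mul : ∀ A B, σ (A * B) = σ A * σ B
  one : σ 1 = 1
  star : ∀ A, σ Aᴴ = (σ A)ᴴ
  smul : ∀ (t : ℝ) A, σ ((t : ℂ) • A) = (t : ℂ) • σ A
  cont : Continuous σ
  blk : σ (Ef q) = Ef q

namespace Sg

variable (s : Sg N q)

theorem sub (A B : MN N) : s.σ (A - B) = s.σ A - s.σ B := by
  have h := s.add (A - B) B
  rw [sub_add_cancel] at h
  rw [h, add_sub_cancel_right]

theorem blk' : s.σ (Ee q) = Ee q := by rw [Ee_eq, s.sub, s.one, s.blk]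

theorem bk (A : MN N) : s.σ (bk q A) = Pool.Agent.Helper78.BI.bk q (s.σ A) := by
  unfold Pool.Agent.Helper78.BI.bk
  rw [s.add, s.mul, s.mul, s.blk, s.blk']

theorem sc (t : ℝ) : s.σ (sc q t) = Pool.Agent.Helper78.BI.sc q t := by
  rw [sc_eq, s.add, s.smul, s.blk, s.blk']

theorem inv {A B : MN N} (h : A * B = 1) (hA : s.σ A = A) : s.σ B = B := by
  have h1 : A * s.σ B = 1 := by
    rw [← s.one, ← h, s.mul, hA]
  have h2 : B * A = 1 := mul_eq_one_comm.1 h
  calc s.σ B = B * A * s.σ B := by rw [h2, Matrix.one_mul]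
    _ = B := by rw [Matrix.mul_assoc, h1, Matrix.mul_one]

/-- the group -/
def M : Subgroup (GL (Fin N) ℂ) where
  carrier := {g | s.σ (g : MN N) = g}
  mul_mem' {a b} ha hb := by
    show s.σ ((a * b : GL (Fin N) ℂ) : MN N) = ((a * b : GL (Fin N) ℂ) : MN N)
    have ha' : s.σ (a : MN N) = a := ha
    have hb' : s.σ (b : MN N) = b := hb
    rw [Units.val_mul, s.mul, ha', hb']
  one_mem' := s.one
  inv_mem' {a} ha := s.inv (A := (a : MN N)) a.mul_inv ha

theorem mem_M {g : GL (Fin N) ℂ} : g ∈ s.M ↔ s.σ (g : MN N) = g := Iff.rfl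

/-- matrix of an element -/
def mt (g : s.M) : MN N := ((g : GL (Fin N) ℂ) : MN N)

theorem mt_mul (g h : s.M) : s.mt (g * h) = s.mt g * s.mt h := rfl

theorem mt_one : s.mt 1 = 1 := rfl

theorem σ_mt (g : s.M) : s.σ (s.mt g) = s.mt g := g.2

theorem mt_mul_inv (g : s.M) : s.mt g * s.mt g⁻¹ = 1 := by rw [← mt_mul, mul_inv_cancel, mt_one]

theorem mt_inv_mul (g : s.M) : s.mt g⁻¹ * s.mt g = 1 := by rw [← mt_mul, inv_mul_cancel, mt_one]

theorem mt_inj {g h : s.M} (e : s.mt g = s.mt h) : g = h := Subtype.ext (Units.ext e)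

theorem continuous_mt : Continuous s.mt := Units.continuous_val.comp continuous_subtype_val

/-- an element from a matrix and its inverse -/
def mkm (A B : MN N) (h : A * B = 1) (hA : s.σ A = A) : s.M := ⟨⟨A, B, h, mul_eq_one_comm.1 h⟩, hA⟩

theorem mt_mkm (A B : MN N) (h : A * B = 1) (hA : s.σ A = A) : s.mt (s.mkm A B h hA) = A := rfl

theorem mt_mkm_inv (A B : MN N) (h : A * B = 1) (hA : s.σ A = A) : s.mt (s.mkm A B h hA)⁻¹ = B := rfl

theorem continuous_to {X : Type} [TopologicalSpace X] {f : X → s.M} (h1 : Continuous fun x => s.mt (f x))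
    (h2 : Continuous fun x => s.mt (f x)⁻¹) : Continuous f := by
  refine Continuous.subtype_mk (f := fun x => ((f x : s.M) : GL (Fin N) ℂ)) ?_ _
  rw [Units.continuous_iff]
  exact ⟨h1, h2⟩

theorem tendsto_to {X : Type} {l : Filter X} {f : X → s.M} {g : s.M} (h1 : Tendsto (fun x => s.mt (f x)) l (𝓝 (s.mt g)))
    (h2 : Tendsto (fun x => s.mt (f x)⁻¹) l (𝓝 (s.mt g⁻¹))) : Tendsto f l (𝓝 g) := by
  rw [tendsto_subtype_rng]
  rw [(Units.isInducing_embedProduct).tendsto_nhds_iff]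
  rw [nhds_prod_eq]
  refine h1.prodMk ?_
  exact (MulOpposite.continuous_op.tendsto _).comp h2

/-- block lower triangular elements -/
def Qh : Subgroup s.M where
  carrier := {g | Lb q (s.mt g)}
  mul_mem' ha hb := Lb.mul ha hb
  one_mem' := lb_one
  inv_mem' {a} ha := Lb.inv ha (s.mt_mul_inv a)

theorem mem_Qh {g : s.M} : g ∈ s.Qh ↔ Lb q (s.mt g) := Iff.rfl

/-- elements of the block -/
def Sh : Subgroup (GL (Fin N) ℂ) where
  carrier := {g | s.σ (g : MN N) = g ∧ Pool.Agent.Helper78.BI.bk q (g : MN N) = g ∧ ‖(g : MN N).det‖ = 1}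
  mul_mem' {a b} ha hb := by
    obtain ⟨ha1, ha2, ha3⟩ := ha
    obtain ⟨hb1, hb2, hb3⟩ := hb
    refine ⟨s.M.mul_mem (show a ∈ s.M from ha1) (show b ∈ s.M from hb1), ?_, ?_⟩
    · have h : Lb q (a : MN N) := by
        rw [← ha2]
        exact lb_bk _
      rw [Units.val_mul, bk_mul h, ha2, hb2]
    · rw [Units.val_mul, det_mul, norm_mul, ha3, hb3, one_mul]
  one_mem' := ⟨s.one, bk_one, by simp⟩
  inv_mem' {a} ha := by
    obtain ⟨ha1, ha2, ha3⟩ := ha
    refine ⟨s.M.inv_mem (show a ∈ s.M from ha1), ?_, ?_⟩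
    · have h : Lb q (a : MN N) := by
        rw [← ha2]
        exact lb_bk _
      have h1 : Pool.Agent.Helper78.BI.bk q (a : MN N) * Pool.Agent.Helper78.BI.bk q ((a⁻¹ : GL (Fin N) ℂ) : MN N) = 1 := by
        rw [← bk_mul h, a.mul_inv, bk_one]
      rw [ha2] at h1
      calc Pool.Agent.Helper78.BI.bk q ((a⁻¹ : GL (Fin N) ℂ) : MN N)
          = ((a⁻¹ : GL (Fin N) ℂ) : MN N) * ((a : MN N) * Pool.Agent.Helper78.BI.bk q ((a⁻¹ : GL (Fin N) ℂ) : MN N)) := by
            rw [← Matrix.mul_assoc, a.inv_mul, Matrix.one_mul]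
        _ = _ := by rw [h1, Matrix.mul_one]
    · have h1 : ‖((a⁻¹ : GL (Fin N) ℂ) : MN N).det‖ * ‖(a : MN N).det‖ = 1 := by
        rw [← norm_mul, ← det_mul, a.inv_mul, det_one, norm_one]
      rwa [ha3, mul_one] at h1

/-- matrix of an element -/
def ms (g : s.Sh) : MN N := ((g : GL (Fin N) ℂ) : MN N)

theorem ms_mul (g h : s.Sh) : s.ms (g * h) = s.ms g * s.ms h := rfl

theorem ms_one : s.ms 1 = 1 := rfl

theorem ms_mul_inv (g : s.Sh) : s.ms g * s.ms g⁻¹ = 1 := by rw [← ms_mul, mul_inv_cancel, ms_one]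

theorem bk_ms (g : s.Sh) : Pool.Agent.Helper78.BI.bk q (s.ms g) = s.ms g := g.2.2.1

theorem ms_inj {g h : s.Sh} (e : s.ms g = s.ms h) : g = h := Subtype.ext (Units.ext e)

theorem continuous_ms : Continuous s.ms := Units.continuous_val.comp continuous_subtype_val

/-- scalars of modulus one in `M` -/
def Z0 : Subgroup s.M where
  carrier := {g | ∃ c : ℂ, ‖c‖ = 1 ∧ s.mt g = c • (1 : MN N)}
  mul_mem' := by
    rintro a b ⟨c, hc, h⟩ ⟨d, hd, h'⟩
    refine ⟨c * d, by rw [norm_mul, hc, hd, one_mul], ?_⟩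
    rw [mt_mul, h, h', Matrix.smul_mul, Matrix.mul_smul, Matrix.mul_one, smul_smul]
  one_mem' := ⟨1, norm_one, by rw [mt_one, one_smul]⟩
  inv_mem' := by
    rintro a ⟨c, hc, h⟩
    have hc0 : c ≠ 0 := ne_zero_of_norm_one hc
    refine ⟨c⁻¹, by rw [norm_inv, hc, inv_one], ?_⟩
    have h1 := s.mt_mul_inv a
    rw [h, Matrix.smul_mul, Matrix.one_mul] at h1
    rw [← h1, smul_smul, inv_mul_cancel₀ hc0, one_smul]

theorem mem_Z0 {g : s.M} : g ∈ s.Z0 ↔ ∃ c : ℂ, ‖c‖ = 1 ∧ s.mt g = c • (1 : MN N) := Iff.rfl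

instance normal_Z0 : s.Z0.Normal := ⟨by
  rintro z ⟨c, hc, h⟩ g
  refine ⟨c, hc, ?_⟩
  rw [mt_mul, mt_mul, h, Matrix.mul_smul, Matrix.mul_one, Matrix.smul_mul, mt_mul_inv]⟩

/-- scalars of modulus one in `Sh` -/
def Zs : Subgroup s.Sh where
  carrier := {g | ∃ c : ℂ, ‖c‖ = 1 ∧ s.ms g = c • Ef q + Ee q}
  mul_mem' := by
    rintro a b ⟨c, hc, h⟩ ⟨d, hd, h'⟩
    refine ⟨c * d, by rw [norm_mul, hc, hd, one_mul], ?_⟩
    rw [ms_mul, h, h', Matrix.add_mul, Matrix.mul_add, Matrix.mul_add, Matrix.smul_mul, Matrix.mul_smul, Matrix.smul_mul,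
      Matrix.mul_smul, Ef_Ef, Ef_Ee, Ee_Ef, Ee_Ee, smul_zero, smul_zero, add_zero, zero_add, smul_smul]
  one_mem' := ⟨1, norm_one, by rw [ms_one, one_smul, Ef_add_Ee]⟩
  inv_mem' := by
    rintro a ⟨c, hc, h⟩
    have hc0 : c ≠ 0 := ne_zero_of_norm_one hc
    refine ⟨c⁻¹, by rw [norm_inv, hc, inv_one], ?_⟩
    have h2 : (c⁻¹ • Ef q + Ee q) * (c • Ef q + Ee q) = (1 : MN N) := by
      rw [Matrix.add_mul, Matrix.mul_add, Matrix.mul_add, Matrix.smul_mul, Matrix.mul_smul, Matrix.smul_mul,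
        Matrix.mul_smul, Ef_Ef, Ef_Ee, Ee_Ef, Ee_Ee, smul_zero, smul_zero, add_zero, zero_add, smul_smul,
        inv_mul_cancel₀ hc0, one_smul, Ef_add_Ee]
    rw [← h] at h2
    calc s.ms a⁻¹ = (c⁻¹ • Ef q + Ee q) * s.ms a * s.ms a⁻¹ := by rw [h2, Matrix.one_mul]
      _ = _ := by rw [Matrix.mul_assoc, ms_mul_inv, Matrix.mul_one]

theorem mem_Zs {g : s.Sh} : g ∈ s.Zs ↔ ∃ c : ℂ, ‖c‖ = 1 ∧ s.ms g = c • Ef q + Ee q := Iff.rfl

instance normal_Zs : s.Zs.Normal := ⟨by
  rintro z ⟨c, hc, h⟩ g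
  refine ⟨c, hc, ?_⟩
  have h1 : s.ms g * (c • Ef q + Ee q) = (c • Ef q + Ee q) * s.ms g := by
    rw [← bk_ms, Matrix.add_mul, Matrix.mul_add, Matrix.smul_mul, Matrix.mul_smul, Ef_bk, bk_Ef, Ee_bk, bk_Ee]
  rw [ms_mul, ms_mul, h, h1, Matrix.mul_assoc, ms_mul_inv, Matrix.mul_one]⟩

/-- The group `M` modulo scalars. -/
abbrev GG : Type := s.M ⧸ s.Z0

/-- The group of the block modulo scalars. -/
abbrev SS : Type := s.Sh ⧸ s.Zs

theorem σ_nu {A : MN N} (hA : s.σ A = A) : s.σ (nu q A) = nu q A := by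
  unfold nu
  rw [s.mul, s.sc, s.bk, hA]

/-- The normalised block. -/
noncomputable def nbh : s.Qh →* s.Sh where
  toFun g := ⟨⟨nu q (s.mt g), nu q (s.mt (g⁻¹ : s.Qh)), by
      rw [← nu_mul g.2, ← mt_mul, ← Subgroup.coe_mul, mul_inv_cancel, Subgroup.coe_one, mt_one, nu_one], by
      rw [← nu_mul (g⁻¹).2, ← mt_mul, ← Subgroup.coe_mul, inv_mul_cancel, Subgroup.coe_one, mt_one, nu_one]⟩,
    s.σ_nu (s.σ_mt g), bk_nu _, norm_det_nu g.2 (s.mt_mul_inv g)⟩
  map_one' := s.ms_inj nu_one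
  map_mul' g h := s.ms_inj (nu_mul (A := s.mt g) (B := s.mt h) g.2)

theorem ms_nbh (g : s.Qh) : s.ms (s.nbh g) = nu q (s.mt g) := rfl

end Sg

end Pool.Agent.Helper78.BI
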