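import Pool.Agent.Helper90.RK.Geo

/-!
# Project FP/TZ (MP_0f6f3f_an): square roots of positive matrices

`sq B`: the positive square root. `continuousOn_sq`.
-/

set_option autoImplicit false
set_option linter.unusedSectionVars false

open Filter Topology Matrix
open scoped MatrixOrder ComplexOrder

namespace Pool.Agent.Helper78.BI

open Pool.Agent.Helper90.RK

variable {N : ℕ}

/-- The positive square root. -/
noncomputable def sq (B : MN N) : MN N := CFC.sqrt B

theorem sq_psd (B : MN N) : (sq B).PosSemidef := (CFC.sqrt_nonneg B).posSemidef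

theorem sq_mul {B : MN N} (hB : B.PosSemidef) : sq B * sq B = B := CFC.sqrt_mul_sqrt_self B hB.nonneg

theorem sq_uniq {B T : MN N} (hB : B.PosSemidef) (hT : T.PosSemidef) (h : T * T = B) : sq B = T :=
  (CFC.sqrt_eq_iff _ _ hB.nonneg hT.nonneg).2 h

theorem sq_herm (B : MN N) : (sq B)ᴴ = sq B := (sq_psd B).isHermitian

theorem isClosed_psd : IsClosed {B : MN N | B.PosSemidef} := by
  have h : {B : MN N | B.PosSemidef} = {B | Bᴴ = B} ∩ ⋂ x : Fin N → ℂ, {B | 0 ≤ star x ⬝ᵥ (B *ᵥ x)} := by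
    ext B
    simp only [Set.mem_inter_iff, Set.mem_iInter, Set.mem_ofPred_eq]
    constructor
    · intro h
      exact ⟨h.isHermitian, fun x => h.dotProduct_mulVec_nonneg x⟩
    · rintro ⟨h1, h2⟩
      exact PosSemidef.of_dotProduct_mulVec_nonneg h1 h2
  rw [h]
  refine (isClosed_eq (continuous_id.matrix_conjTranspose) continuous_id).inter (isClosed_iInter fun x => ?_)
  have hc : Continuous fun B : MN N => star x ⬝ᵥ (B *ᵥ x) :=
    continuous_const.dotProduct (continuous_id.matrix_mulVec continuous_const)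
  exact isClosed_Ici.preimage hc

theorem norm_sq_le {B : MN N} (hB : B.PosSemidef) (i j : Fin N) : ‖sq B i j‖ ^ 2 ≤ ‖B j j‖ := by
  have h1 : (sq B)ᴴ * sq B = B := by rw [sq_herm, sq_mul hB]
  have h2 : B j j = ((∑ k, ‖sq B k j‖ ^ 2 : ℝ) : ℂ) := by
    conv_lhs => rw [← h1]
    rw [Matrix.mul_apply]
    push_cast
    refine Finset.sum_congr rfl fun k _ => ?_
    rw [Matrix.conjTranspose_apply, RCLike.star_def, RCLike.conj_mul]
    norm_cast
  rw [h2, Complex.norm_real, Real.norm_of_nonneg (Finset.sum_nonneg fun _ _ => by positivity)]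
  exact Finset.single_le_sum (f := fun k => ‖sq B k j‖ ^ 2) (fun _ _ => by positivity) (Finset.mem_univ i)

theorem continuousOn_sq : ContinuousOn (sq : MN N → MN N) {B | B.PosSemidef} := by
  rw [continuousOn_iff_continuous_domRestrict, continuous_iff_ultrafilter]
  rintro ⟨B, hB⟩ 𝒰 h𝒰
  have hB' : B.PosSemidef := hB
  have h1 : Tendsto (fun x : {B : MN N | B.PosSemidef} => (x : MN N)) 𝒰 (𝓝 B) :=
    (continuous_subtype_val.tendsto _).mono_left h𝒰
  -- boundedness
  have hb : ∀ᶠ x : {B : MN N | B.PosSemidef} in 𝒰, sq (x : MN N) ∈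
      Set.pi Set.univ fun _ : Fin N => Set.pi Set.univ fun j : Fin N => Metric.closedBall (0 : ℂ) (Real.sqrt (‖B j j‖ + 1)) := by
    have h2 : ∀ j : Fin N, ∀ᶠ x : {B : MN N | B.PosSemidef} in 𝒰, ‖(x : MN N) j j‖ < ‖B j j‖ + 1 := by
      intro j
      have h3 : Tendsto (fun x : {B : MN N | B.PosSemidef} => ‖(x : MN N) j j‖) 𝒰 (𝓝 ‖B j j‖) :=
        (((continuous_id.matrix_elem j j).tendsto B).comp h1).norm
      exact h3.eventually (gt_mem_nhds (lt_add_one _))
    filter_upwards [eventually_all.2 h2] with x hx i _ j _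
    rw [mem_closedBall_zero_iff]
    refine Real.le_sqrt_of_sq_le ((norm_sq_le x.2 i j).trans (hx j).le)
  have hcpt : IsCompact (Set.pi Set.univ fun _ : Fin N => Set.pi Set.univ fun j : Fin N =>
      Metric.closedBall (0 : ℂ) (Real.sqrt (‖B j j‖ + 1))) :=
    isCompact_univ_pi fun _ => isCompact_univ_pi fun j => isCompact_closedBall _ _
  obtain ⟨T0, -, hT⟩ := hcpt.ultrafilter_le_nhds (𝒰.map fun x => sq (x : MN N)) (le_principal_iff.2 hb)
  obtain ⟨T, hTT0⟩ : ∃ T : MN N, T = T0 := ⟨T0, rfl⟩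
  have hT' : Tendsto (fun x : {B : MN N | B.PosSemidef} => sq (x : MN N)) 𝒰 (𝓝 T) := by
    rw [hTT0]
    exact hT
  have hTp : T.PosSemidef := isClosed_psd.mem_of_tendsto hT' (Eventually.of_forall fun x => sq_psd _)
  have hTT : T * T = B := by
    have h2 : Tendsto (fun x : {B : MN N | B.PosSemidef} => sq (x : MN N) * sq (x : MN N)) 𝒰 (𝓝 (T * T)) := hT'.mul hT'
    have h3 : Tendsto (fun x : {B : MN N | B.PosSemidef} => sq (x : MN N) * sq (x : MN N)) 𝒰 (𝓝 B) := by
      refine h1.congr fun x => (sq_mul x.2).symm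
    exact tendsto_nhds_unique h2 h3
  have : sq B = T := sq_uniq hB' hTp hTT
  change Tendsto (fun x : {B : MN N | B.PosSemidef} => sq (x : MN N)) 𝒰 (𝓝 (sq B))
  rw [this]
  exact hT'

end Pool.Agent.Helper78.BI
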