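import Mathlib
import Pool.Agent.Helper78.BI.Defs
import Pool.Agent.Helper78.BI.Sum
import Pool.Agent.Helper78.BI.J
import Pool.Agent.Helper78.BI.S
import Pool.Agent.Helper78.BI.E
import Pool.Agent.Helper78.BI.N
import Pool.Agent.Helper53.GC.Tgr

/-!
# Bounds for the variances and the fourth cumulants (block V, helper22)
-/

open scoped Real
open Finset

namespace Pool.Agent.Helper78.BI
open Pool.Agent.Helper22.GC (gr rho)
open Pool.Agent.Helper78.GC (sqf sqj mem_sqf mem_sqj mem_sqj' sum_sqf)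

namespace Vb

open Eu (F1 F1_nonneg F1_hasSum F1_zero F1_one)
open Pool.Agent.Helper78.BI.Num (f f_lo f_hi f_sq f_nonneg)

/-! ### Values of `gr` -/

lemma gr_mul_four {m n : ℕ} (h4 : gr m = 4) (hm : 0 < m) (hn : 0 < n) (h : Nat.Coprime m n) :
    gr (m * n) = gr n := by
  have := gr_coprime hm hn h
  rw [h4] at this
  omega

lemma gr_sq_three {p : ℕ} (hp : p.Prime) (h : p % 4 = 3) : gr (p ^ 2) = 4 := by
  rw [gr_pow_three hp h 2, if_pos (by decide)]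

lemma gr_sq_one {p : ℕ} (hp : p.Prime) (h : p % 4 = 1) : gr (p ^ 2) = 12 := by
  rw [gr_pow_one hp h 2]

/-- The weights of the first twenty squares. -/
def w (j : ℕ) : ℕ := if j = 5 ∨ j = 10 ∨ j = 13 ∨ j = 15 ∨ j = 17 ∨ j = 20 then 3 else 1

lemma g81 : gr 81 = 4 := by
  have := gr_pow_three Nat.prime_three (by norm_num) 4
  rw [if_pos (by decide)] at this
  exact this

lemma gr_sq_val {j : ℕ} (h1 : 1 ≤ j) (h2 : j ≤ 20) : gr (j ^ 2) = 4 * w j := by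
  have p3 := gr_sq_three Nat.prime_three (by norm_num)
  have p7 := gr_sq_three (p := 7) (by norm_num) (by norm_num)
  have p11 := gr_sq_three (p := 11) (by norm_num) (by norm_num)
  have p19 := gr_sq_three (p := 19) (by norm_num) (by norm_num)
  have p5 := gr_sq_one Nat.prime_five (by norm_num)
  have p13 := gr_sq_one (p := 13) (by norm_num) (by norm_num)
  have p17 := gr_sq_one (p := 17) (by norm_num) (by norm_num)
  norm_num at p3 p7 p11 p19 p5 p13 p17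
  have t2 := gr_two_pow 2
  have t4 := gr_two_pow 4
  have t6 := gr_two_pow 6
  have t8 := gr_two_pow 8
  norm_num at t2 t4 t6 t8
  have e36 : gr 36 = 4 := by
    rw [← p3]; exact gr_mul_four (n := 9) t2 (by norm_num) (by norm_num) (by norm_num)
  have e100 : gr 100 = 12 := by
    rw [← p5]; exact gr_mul_four (n := 25) t2 (by norm_num) (by norm_num) (by norm_num)
  have e144 : gr 144 = 4 := by
    rw [← p3]; exact gr_mul_four (n := 9) t4 (by norm_num) (by norm_num) (by norm_num)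
  have e196 : gr 196 = 4 := by
    rw [← p7]; exact gr_mul_four (n := 49) t2 (by norm_num) (by norm_num) (by norm_num)
  have e225 : gr 225 = 12 := by
    rw [← p5]; exact gr_mul_four (n := 25) p3 (by norm_num) (by norm_num) (by norm_num)
  have e324 : gr 324 = 4 := by
    rw [← g81]; exact gr_mul_four (n := 81) t2 (by norm_num) (by norm_num) (by norm_num)
  have e400 : gr 400 = 12 := by
    rw [← p5]; exact gr_mul_four (n := 25) t4 (by norm_num) (by norm_num) (by norm_num)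
  have e81 := g81
  have e1 := gr_one
  interval_cases j <;> norm_num [w, *]

/-! ### The coefficients -/

lemma f_mul {x y : ℝ} (hx : 0 ≤ x) (hy : 0 ≤ y) : f (x * y) = f x * f y :=
  Real.mul_rpow hx hy

lemma f_sq_arg {x : ℝ} (hx : 0 < x) : f (x ^ 2) = 1 / x ^ 3 := by
  rw [← f_sq hx, pow_two x, f_mul hx.le hx.le, pow_two]

lemma F1_eq (j : ℕ) : F1 j = (gr (j ^ 2) : ℝ) / 4 * f j := rfl

lemma F1_val {j : ℕ} (h1 : 1 ≤ j) (h2 : j ≤ 20) : F1 j = (w j : ℝ) * f j := by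
  rw [F1_eq, gr_sq_val h1 h2]
  push_cast
  ring

lemma cq_sq {q j : ℕ} : cq q j ^ 2 = 1 / π ^ 2 * ((gr (q * j ^ 2) : ℝ) ^ 2 * f ((q * j ^ 2 : ℕ) : ℝ)) := by
  rw [cq, rho, mul_pow, mul_pow, div_pow, one_pow]
  congr 2
  rw [← Real.rpow_natCast, ← Real.rpow_mul (Nat.cast_nonneg _)]
  unfold f
  norm_num

lemma cq_sq' {q j : ℕ} (hj : 0 < j) :
    cq q j ^ 2 = 1 / π ^ 2 * ((gr (q * j ^ 2) : ℝ) ^ 2 * f q / (j : ℝ) ^ 3) := by
  rw [cq_sq]
  have hj' : (0 : ℝ) < j := by exact_mod_cast hj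
  push_cast
  rw [f_mul (Nat.cast_nonneg _) (by positivity), f_sq_arg hj']
  ring

lemma cq_le {q j : ℕ} (hq : 0 < q) (hj : 0 < j) : cq q j ≤ cq q 1 * F1 j := by
  have h := gr_mul_sq_le hq hj
  have h' : (4 : ℝ) * gr (q * j ^ 2) ≤ gr q * gr (j ^ 2) := by exact_mod_cast h
  have hq' : (0 : ℝ) < q := by exact_mod_cast hq
  have hj' : (0 : ℝ) < j := by exact_mod_cast hj
  rw [cq, cq, rho, rho, F1_eq, one_pow, mul_one]
  have e : ((q * j ^ 2 : ℕ) : ℝ) ^ (-(3 / 4) : ℝ) = (q : ℝ) ^ (-(3 / 4) : ℝ) * f j := by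
    push_cast
    rw [Real.mul_rpow hq'.le (by positivity), ← Real.rpow_natCast (j : ℝ) 2, ← Real.rpow_mul hj'.le]
    unfold f
    norm_num
  rw [e]
  have h0 : 0 ≤ (q : ℝ) ^ (-(3 / 4) : ℝ) * f j := mul_nonneg (by positivity) (f_nonneg hj'.le)
  have hp : 0 ≤ 1 / π := by positivity
  calc 1 / π * ((gr (q * j ^ 2) : ℝ) * ((q : ℝ) ^ (-(3 / 4) : ℝ) * f j))
      ≤ 1 / π * ((gr q * gr (j ^ 2) / 4 : ℝ) * ((q : ℝ) ^ (-(3 / 4) : ℝ) * f j)) := by
        refine mul_le_mul_of_nonneg_left (mul_le_mul_of_nonneg_right ?_ h0) hp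
        linarith
    _ = _ := by ring

/-! ### Numerical bounds -/

lemma ipi_le : 1 / π ^ 2 ≤ 0.10133 := by
  rw [div_le_iff₀ (by positivity)]
  have := Real.pi_gt_d4
  nlinarith

lemma ipi_pos : 0 < 1 / π ^ 2 := by positivity

lemma c2_lo : (0.3535 : ℝ) ≤ (2 : ℝ) ^ (-(3 / 2) : ℝ) := by
  have := f_lo (x := 2) (a := 0.3535) (by norm_num) (by norm_num)
  exact this

lemma den_lo : (1.626907 : ℝ) ≤ (1 + (2 : ℝ) ^ (-(3 / 2) : ℝ)) * Z3 := by
  have h1 := c2_lo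
  have h2 := Z3_bounds.1
  nlinarith

lemma Z32_sq_le : Z32 ^ 2 ≤ 6.827769 := by
  have h1 := Z32_bounds.1
  have h2 := Z32_bounds.2
  nlinarith

lemma L32_sq_le : L32 ^ 2 ≤ 0.748225 := by
  have h1 := L32_bounds.1
  have h2 := L32_bounds.2
  nlinarith

lemma M1_le : M1 / 4 ≤ 3.6303 := by
  rw [M1_eq, div_right_comm, div_le_iff₀ (by linarith [den_lo])]
  have h1 := den_lo
  have h2 := Z32_sq_le
  have h3 := L32_bounds.2
  have h4 := L32_bounds.1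
  have h5 : Z32 ^ 2 * L32 ≤ 6.827769 * 0.865 := mul_le_mul h2 h3.le (by linarith) (by norm_num)
  nlinarith

lemma T2_le : T2 ≤ 50.25 := by
  rw [T2_eq, div_le_iff₀ (by linarith [den_lo])]
  have h1 := den_lo
  have h2 := Z32_sq_le
  have h3 := L32_sq_le
  have h5 : Z32 ^ 2 * L32 ^ 2 ≤ 6.827769 * 0.748225 := mul_le_mul h2 h3 (sq_nonneg _) (by norm_num)
  nlinarith

lemma sum_F1_lo : (2.54 : ℝ) ≤ ∑ j ∈ Icc 1 20, F1 j := by
  have h1 : (1 : ℝ) ≤ f 1 := f_lo (by norm_num) (by norm_num)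
  have h2 : (0.35355 : ℝ) ≤ f 2 := f_lo (by norm_num) (by norm_num)
  have h3 : (0.19245 : ℝ) ≤ f 3 := f_lo (by norm_num) (by norm_num)
  have h4 : (0.12500 : ℝ) ≤ f 4 := f_lo (by norm_num) (by norm_num)
  have h5 : (0.08944 : ℝ) ≤ f 5 := f_lo (by norm_num) (by norm_num)
  have h6 : (0.06804 : ℝ) ≤ f 6 := f_lo (by norm_num) (by norm_num)
  have h7 : (0.05399 : ℝ) ≤ f 7 := f_lo (by norm_num) (by norm_num)
  have h8 : (0.04419 : ℝ) ≤ f 8 := f_lo (by norm_num) (by norm_num)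
  have h9 : (0.03703 : ℝ) ≤ f 9 := f_lo (by norm_num) (by norm_num)
  have h10 : (0.03162 : ℝ) ≤ f 10 := f_lo (by norm_num) (by norm_num)
  have h11 : (0.02741 : ℝ) ≤ f 11 := f_lo (by norm_num) (by norm_num)
  have h12 : (0.02405 : ℝ) ≤ f 12 := f_lo (by norm_num) (by norm_num)
  have h13 : (0.02133 : ℝ) ≤ f 13 := f_lo (by norm_num) (by norm_num)
  have h14 : (0.01909 : ℝ) ≤ f 14 := f_lo (by norm_num) (by norm_num)
  have h15 : (0.01721 : ℝ) ≤ f 15 := f_lo (by norm_num) (by norm_num)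
  have h16 : (0.01562 : ℝ) ≤ f 16 := f_lo (by norm_num) (by norm_num)
  have h17 : (0.01426 : ℝ) ≤ f 17 := f_lo (by norm_num) (by norm_num)
  have h18 : (0.01309 : ℝ) ≤ f 18 := f_lo (by norm_num) (by norm_num)
  have h19 : (0.01207 : ℝ) ≤ f 19 := f_lo (by norm_num) (by norm_num)
  have h20 : (0.01118 : ℝ) ≤ f 20 := f_lo (by norm_num) (by norm_num)
  have e : ∑ j ∈ Icc 1 20, F1 j = ∑ j ∈ Icc 1 20, (w j : ℝ) * f j :=
    sum_congr rfl fun j hj => F1_val (mem_Icc.1 hj).1 (mem_Icc.1 hj).2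
  rw [e]
  simp only [Finset.sum_Icc_succ_top (Nat.le_add_left 1 _), show (20 : ℕ) = 19 + 1 from rfl]
  norm_num [Finset.sum_Icc_succ_top, w]
  linarith

lemma sum_F1_sq_hi : ∑ j ∈ Icc 2 20, F1 j ^ 2 ≤ 0.2816 := by
  have e : ∑ j ∈ Icc 2 20, F1 j ^ 2 = ∑ j ∈ Icc 2 20, (w j : ℝ) ^ 2 / (j : ℝ) ^ 3 := by
    refine sum_congr rfl fun j hj => ?_
    have h := mem_Icc.1 hj
    have hj' : (0 : ℝ) < j := by exact_mod_cast (by omega : 0 < j)
    rw [F1_val (by omega) h.2, mul_pow, f_sq hj']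
    ring
  rw [e]
  norm_num [Finset.sum_Icc_succ_top, w]

lemma sum_q1_lo : (20.5 : ℝ) ≤ ∑ j ∈ Icc 1 20, (gr (j ^ 2) : ℝ) ^ 2 / (j : ℝ) ^ 3 := by
  have e : ∑ j ∈ Icc 1 20, (gr (j ^ 2) : ℝ) ^ 2 / (j : ℝ) ^ 3
      = ∑ j ∈ Icc 1 20, 16 * (w j : ℝ) ^ 2 / (j : ℝ) ^ 3 := by
    refine sum_congr rfl fun j hj => ?_
    have h := mem_Icc.1 hj
    rw [gr_sq_val h.1 h.2]
    push_cast
    ring
  rw [e]
  norm_num [Finset.sum_Icc_succ_top, w]

lemma F1_small {j : ℕ} (hj : 21 ≤ j) : F1 j ≤ 0.0876 := by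
  have hj0 : 0 < j := by omega
  have hj' : (0 : ℝ) < j := by exact_mod_cast hj0
  have hj21 : (21 : ℝ) ≤ j := by exact_mod_cast hj
  have h1 := Pool.Agent.Helper53.GC.gr_sq_mul_le j 1 hj0
  rw [mul_one, gr_one] at h1
  have h2 : F1 j ≤ (j : ℝ) ^ (-(4 / 5) : ℝ) := by
    rw [F1_eq]
    calc (gr (j ^ 2) : ℝ) / 4 * f j ≤ (j : ℝ) ^ (7 / 10 : ℝ) * f j := by
          refine mul_le_mul_of_nonneg_right ?_ (f_nonneg hj'.le)
          push_cast at h1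
          linarith
      _ = (j : ℝ) ^ (-(4 / 5) : ℝ) := by
          unfold f
          rw [← Real.rpow_add hj']
          norm_num
  refine h2.trans ?_
  refine (pow_le_pow_iff_left₀ (by positivity) (by norm_num) (by norm_num : (5 : ℕ) ≠ 0)).1 ?_
  rw [← Real.rpow_natCast, ← Real.rpow_mul hj'.le]
  have e : (-(4 / 5) : ℝ) * ((5 : ℕ) : ℝ) = -((4 : ℕ) : ℝ) := by norm_num
  rw [e, Real.rpow_neg hj'.le, Real.rpow_natCast, inv_le_comm₀ (by positivity) (by norm_num)]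
  calc ((0.0876 : ℝ) ^ 5)⁻¹ ≤ 21 ^ 4 := by norm_num
    _ ≤ (j : ℝ) ^ 4 := by gcongr

/-- Sums of `F1` over sets without one. -/
lemma sum_F1_le {J : Finset ℕ} (h1 : 1 ∉ J) : ∑ j ∈ J, F1 j ≤ 2.6303 := by
  have h := sum_le_hasSum (insert 1 J) (fun j _ => F1_nonneg j) F1_hasSum
  rw [sum_insert h1, F1_one] at h
  have := M1_le
  linarith

lemma sum_F1_sq_le {J : Finset ℕ} (h1 : 1 ∉ J) (h0 : 0 ∉ J) : ∑ j ∈ J, F1 j ^ 2 ≤ 0.3772 := by
  classical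
  have e := sum_filter_add_sum_filter_not J (fun j => j ≤ 20) (fun j => F1 j ^ 2)
  rw [← e]
  have ha : ∑ j ∈ J with j ≤ 20, F1 j ^ 2 ≤ 0.2816 := by
    refine (sum_le_sum_of_subset_of_nonneg ?_ fun j _ _ => sq_nonneg _).trans sum_F1_sq_hi
    intro j hj
    rw [mem_filter] at hj
    rw [mem_Icc]
    refine ⟨?_, hj.2⟩
    by_contra h
    have : j = 0 ∨ j = 1 := by omega
    rcases this with rfl | rfl
    · exact h0 hj.1
    · exact h1 hj.1
  have hb : ∑ j ∈ J with ¬ j ≤ 20, F1 j ^ 2 ≤ 0.0876 * ∑ j ∈ J with ¬ j ≤ 20, F1 j := by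
    rw [mul_sum]
    refine sum_le_sum fun j hj => ?_
    rw [mem_filter] at hj
    rw [pow_two]
    exact mul_le_mul_of_nonneg_right (F1_small (by omega)) (F1_nonneg j)
  have hc : ∑ j ∈ Icc 1 20, F1 j + ∑ j ∈ J with ¬ j ≤ 20, F1 j ≤ M1 / 4 := by
    rw [← sum_union]
    · exact sum_le_hasSum _ (fun j _ => F1_nonneg j) F1_hasSum
    · rw [disjoint_left]
      intro j hj hj'
      rw [mem_Icc] at hj
      rw [mem_filter] at hj'
      exact hj'.2 hj.2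
  have h2 := sum_F1_lo
  have h3 := M1_le
  linarith

/-! ### The variances -/

lemma total_le (K : ℕ) : ∑ q ∈ sqf K, ∑ j ∈ sqj K q, cq q j ^ 2 ≤ 1 / π ^ 2 * 50.25 := by
  have e := sum_sqf K (fun k => 1 / π ^ 2 * ((gr k : ℝ) ^ 2 * f (k : ℝ)))
  have e' : ∑ q ∈ sqf K, ∑ j ∈ sqj K q, cq q j ^ 2
      = ∑ q ∈ sqf K, ∑ j ∈ sqj K q,
        (fun k : ℕ => 1 / π ^ 2 * ((gr k : ℝ) ^ 2 * f (k : ℝ))) (q * j ^ 2) :=
    sum_congr rfl fun q _ => sum_congr rfl fun j _ => cq_sq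
  rw [e', ← e, ← mul_sum]
  refine mul_le_mul_of_nonneg_left ?_ ipi_pos.le
  refine le_trans ?_ T2_le
  exact summable_T2.sum_le_tsum _ fun k _ => mul_nonneg (by positivity) (f_nonneg (Nat.cast_nonneg k))

lemma one_lo {K : ℕ} (hK : 400 ≤ K) : 1 / π ^ 2 * 20.5 ≤ ∑ j ∈ sqj K 1, cq 1 j ^ 2 := by
  have h1 : Icc 1 20 ⊆ sqj K 1 := by
    intro j hj
    rw [mem_Icc] at hj
    rw [mem_sqj' le_rfl]
    refine ⟨hj.1, ?_⟩
    nlinarith [hj.2]
  refine le_trans ?_ (sum_le_sum_of_subset_of_nonneg h1 fun j _ _ => sq_nonneg _)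
  have e : ∑ j ∈ Icc 1 20, cq 1 j ^ 2 = 1 / π ^ 2 * ∑ j ∈ Icc 1 20, (gr (j ^ 2) : ℝ) ^ 2 / (j : ℝ) ^ 3 := by
    rw [mul_sum]
    refine sum_congr rfl fun j hj => ?_
    rw [mem_Icc] at hj
    have hf : f ((1 : ℕ) : ℝ) = 1 := by rw [Nat.cast_one]; exact Real.one_rpow _
    rw [cq_sq' (by omega), one_mul, hf, mul_one]
  rw [e]
  exact mul_le_mul_of_nonneg_left sum_q1_lo ipi_pos.le

lemma rest_le {K : ℕ} (hK : 400 ≤ K) :
    ∑ q ∈ (sqf K).erase 1, ∑ j ∈ sqj K q, cq q j ^ 2 ≤ 1 / π ^ 2 * 29.75 := by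
  have h1 : 1 ∈ sqf K := mem_sqf.2 ⟨le_rfl, by omega, squarefree_one⟩
  have h2 := add_sum_erase (sqf K) (fun q => ∑ j ∈ sqj K q, cq q j ^ 2) h1
  have h3 := total_le K
  have h4 := one_lo hK
  have h5 : 1 / π ^ 2 * 50.25 = 1 / π ^ 2 * 20.5 + 1 / π ^ 2 * 29.75 := by ring
  linarith

/-! ### The fourth cumulants -/

/-- The sum of the squares. -/
noncomputable def v2 (K q : ℕ) : ℝ := ∑ j ∈ sqj K q, cq q j ^ 2

/-- The cumulant. -/
noncomputable def tm (K q : ℕ) : ℝ :=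
  3 / 8 * (cq q 1 ^ 4 + (2 * cq q 1 + ∑ j ∈ (sqj K q).erase 1, cq q j) ^ 2
    * ∑ j ∈ (sqj K q).erase 1, cq q j ^ 2) - 3 * (v2 K q / 2) ^ 2

lemma tm_le {K q : ℕ} (hq : 0 < q) : tm K q ≤ 3.41 * (cq q 1 ^ 2) ^ 2 - 3 / 4 * v2 K q ^ 2 := by
  have hpos : ∀ j ∈ (sqj K q).erase 1, 0 < j := fun j hj => by
    have := (mem_sqj.1 (mem_of_mem_erase hj)).1
    omega
  have h1 : ∑ j ∈ (sqj K q).erase 1, cq q j ≤ cq q 1 * 2.6303 := by
    calc ∑ j ∈ (sqj K q).erase 1, cq q j ≤ ∑ j ∈ (sqj K q).erase 1, cq q 1 * F1 j :=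
          sum_le_sum fun j hj => cq_le hq (hpos j hj)
      _ = cq q 1 * ∑ j ∈ (sqj K q).erase 1, F1 j := by rw [mul_sum]
      _ ≤ cq q 1 * 2.6303 :=
          mul_le_mul_of_nonneg_left (sum_F1_le (notMem_erase _ _)) (cq_nonneg q 1)
  have h2 : ∑ j ∈ (sqj K q).erase 1, cq q j ^ 2 ≤ cq q 1 ^ 2 * 0.3772 := by
    calc ∑ j ∈ (sqj K q).erase 1, cq q j ^ 2 ≤ ∑ j ∈ (sqj K q).erase 1, cq q 1 ^ 2 * F1 j ^ 2 :=
          sum_le_sum fun j hj => by
            rw [← mul_pow]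
            exact pow_le_pow_left₀ (cq_nonneg q j) (cq_le hq (hpos j hj)) 2
      _ = cq q 1 ^ 2 * ∑ j ∈ (sqj K q).erase 1, F1 j ^ 2 := by rw [mul_sum]
      _ ≤ cq q 1 ^ 2 * 0.3772 :=
          mul_le_mul_of_nonneg_left (sum_F1_sq_le (notMem_erase _ _) fun h => by
            have := hpos 0 h
            omega) (sq_nonneg _)
  have h3 : 0 ≤ ∑ j ∈ (sqj K q).erase 1, cq q j := sum_nonneg fun j _ => cq_nonneg q j
  have h4 : 0 ≤ ∑ j ∈ (sqj K q).erase 1, cq q j ^ 2 := sum_nonneg fun j _ => sq_nonneg _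
  have h0 := cq_nonneg q 1
  rw [tm]
  generalize (∑ j ∈ (sqj K q).erase 1, cq q j) = R at *
  generalize (∑ j ∈ (sqj K q).erase 1, cq q j ^ 2) = S at *
  generalize cq q 1 = a at *
  have h5 : (2 * a + R) ^ 2 ≤ (a * 4.6303) ^ 2 := pow_le_pow_left₀ (by linarith) (by linarith) 2
  have h6 : (2 * a + R) ^ 2 * S ≤ (a * 4.6303) ^ 2 * (a ^ 2 * 0.3772) :=
    mul_le_mul h5 h2 h4 (sq_nonneg _)
  have h7 : (a * 4.6303) ^ 2 * (a ^ 2 * 0.3772) = a ^ 4 * (4.6303 ^ 2 * 0.3772) := by ring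
  have h8 : (0 : ℝ) ≤ a ^ 4 := by positivity
  have h9 : (a ^ 2) ^ 2 = a ^ 4 := by ring
  rw [h9]
  nlinarith

lemma cq_sq_one (q : ℕ) : cq q 1 ^ 2 = 1 / π ^ 2 * ((gr q : ℝ) ^ 2 * f q) := by
  rw [cq_sq, one_pow, mul_one]

lemma le_v2 {K q : ℕ} (h : q ∈ sqf K) : cq q 1 ^ 2 ≤ v2 K q := by
  rw [mem_sqf] at h
  refine single_le_sum (f := fun j => cq q j ^ 2) (fun j _ => sq_nonneg _) ?_
  rw [mem_sqj' h.1]
  exact ⟨le_rfl, by rw [one_pow, mul_one]; exact h.2.1⟩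

lemma v2_lo {K q : ℕ} (hK : 400 ≤ K) (hq : 0 < q) (hq' : q ≤ 25) (h2 : gr (q * 2 ^ 2) = gr q)
    (h3 : gr (q * 3 ^ 2) = gr q) (h4 : gr (q * 4 ^ 2) = gr q) :
    1.177 * cq q 1 ^ 2 ≤ v2 K q := by
  have hs : Icc 1 4 ⊆ sqj K q := by
    intro j hj
    rw [mem_Icc] at hj
    rw [mem_sqj' (by omega)]
    refine ⟨hj.1, ?_⟩
    have : j ^ 2 ≤ 4 ^ 2 := Nat.pow_le_pow_left hj.2 2
    nlinarith
  refine le_trans ?_ (sum_le_sum_of_subset_of_nonneg hs fun j _ _ => sq_nonneg _)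
  have e : ∑ j ∈ Icc 1 4, cq q j ^ 2 = cq q 1 ^ 2 + cq q 2 ^ 2 + cq q 3 ^ 2 + cq q 4 ^ 2 := by
    simp [Finset.sum_Icc_succ_top]
  rw [e, cq_sq_one, cq_sq' (j := 2) (by norm_num), cq_sq' (j := 3) (by norm_num),
    cq_sq' (j := 4) (by norm_num), h2, h3, h4]
  have h0 : 0 ≤ 1 / π ^ 2 * ((gr q : ℝ) ^ 2 * f q) :=
    mul_nonneg ipi_pos.le (mul_nonneg (by positivity) (f_nonneg (Nat.cast_nonneg q)))
  push_cast
  have e1 : 1 / π ^ 2 * ((gr q : ℝ) ^ 2 * f q) + 1 / π ^ 2 * ((gr q : ℝ) ^ 2 * f q / 2 ^ 3)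
      + 1 / π ^ 2 * ((gr q : ℝ) ^ 2 * f q / 3 ^ 3) + 1 / π ^ 2 * ((gr q : ℝ) ^ 2 * f q / 4 ^ 3)
      = (1 + 1 / 8 + 1 / 27 + 1 / 64) * (1 / π ^ 2 * ((gr q : ℝ) ^ 2 * f q)) := by ring
  rw [e1]
  exact mul_le_mul_of_nonneg_right (by norm_num) h0

/-- The special frequencies. -/
def P : Finset ℕ := {2, 5, 10, 13}

lemma gr_spec {q : ℕ} (h : q ∈ P) : gr (q * 2 ^ 2) = gr q ∧ gr (q * 3 ^ 2) = gr q ∧
    gr (q * 4 ^ 2) = gr q ∧ gr q = if q = 2 then 4 else 8 := by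
  have p3 := gr_sq_three Nat.prime_three (by norm_num)
  norm_num at p3
  have t1 := gr_two_pow 1
  have t2 := gr_two_pow 2
  have t3 := gr_two_pow 3
  have t4 := gr_two_pow 4
  have t5 := gr_two_pow 5
  norm_num at t1 t2 t3 t4 t5
  have p5 := gr_prime_one Nat.prime_five (by norm_num)
  have p13 := gr_prime_one (p := 13) (by norm_num) (by norm_num)
  have e18 : gr 18 = 4 := by
    rw [← p3]; exact gr_mul_four (n := 9) t1 (by norm_num) (by norm_num) (by norm_num)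
  have e20 : gr 20 = 8 := by
    rw [← p5]; exact gr_mul_four (n := 5) t2 (by norm_num) (by norm_num) (by norm_num)
  have e45 : gr 45 = 8 := by
    rw [← p5]; exact gr_mul_four (n := 5) p3 (by norm_num) (by norm_num) (by norm_num)
  have e80 : gr 80 = 8 := by
    rw [← p5]; exact gr_mul_four (n := 5) t4 (by norm_num) (by norm_num) (by norm_num)
  have e10 : gr 10 = 8 := by
    rw [← p5]; exact gr_mul_four (n := 5) t1 (by norm_num) (by norm_num) (by norm_num)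
  have e40 : gr 40 = 8 := by
    rw [← p5]; exact gr_mul_four (n := 5) t3 (by norm_num) (by norm_num) (by norm_num)
  have e90 : gr 90 = 8 := by
    rw [← p5]; exact gr_mul_four (n := 5) e18 (by norm_num) (by norm_num) (by norm_num)
  have e160 : gr 160 = 8 := by
    rw [← p5]; exact gr_mul_four (n := 5) t5 (by norm_num) (by norm_num) (by norm_num)
  have e52 : gr 52 = 8 := by
    rw [← p13]; exact gr_mul_four (n := 13) t2 (by norm_num) (by norm_num) (by norm_num)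
  have e117 : gr 117 = 8 := by
    rw [← p13]; exact gr_mul_four (n := 13) p3 (by norm_num) (by norm_num) (by norm_num)
  have e208 : gr 208 = 8 := by
    rw [← p13]; exact gr_mul_four (n := 13) t4 (by norm_num) (by norm_num) (by norm_num)
  simp only [P, mem_insert, mem_singleton] at h
  rcases h with rfl | rfl | rfl | rfl <;> norm_num [*]

lemma P_sub {K : ℕ} (hK : 400 ≤ K) : P ⊆ (sqf K).erase 1 := by
  intro q hq
  simp only [P, mem_insert, mem_singleton] at hq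
  rw [mem_erase, mem_sqf]
  have h5 : Squarefree (2 * 5) := (Nat.squarefree_mul (by norm_num)).2
    ⟨Nat.prime_two.prime.irreducible.squarefree, Nat.prime_five.prime.irreducible.squarefree⟩
  rcases hq with rfl | rfl | rfl | rfl
  · exact ⟨by norm_num, by norm_num, by omega, Nat.prime_two.prime.irreducible.squarefree⟩
  · exact ⟨by norm_num, by norm_num, by omega, Nat.prime_five.prime.irreducible.squarefree⟩
  · exact ⟨by norm_num, by norm_num, by omega, h5⟩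
  · exact ⟨by norm_num, by norm_num, by omega,
      (show Nat.Prime 13 by norm_num).prime.irreducible.squarefree⟩

lemma sum_P (g : ℕ → ℝ) : ∑ q ∈ P, g q = g 2 + g 5 + g 10 + g 13 := by
  simp only [P]
  rw [sum_insert (by decide), sum_insert (by decide), sum_insert (by decide), sum_singleton]
  ring

/-- `π²` times the squares of the first coefficients. -/
noncomputable def A (q : ℕ) : ℝ := (gr q : ℝ) ^ 2 * f q

lemma A_nonneg (q : ℕ) : 0 ≤ A q := mul_nonneg (by positivity) (f_nonneg (Nat.cast_nonneg q))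

lemma sum_A_lo : (14.7632 : ℝ) ≤ ∑ q ∈ P, A q := by
  rw [sum_P]
  have h2 : (0.3535 : ℝ) ≤ f 2 := f_lo (by norm_num) (by norm_num)
  have h5 : (0.0894 : ℝ) ≤ f 5 := f_lo (by norm_num) (by norm_num)
  have h10 : (0.0316 : ℝ) ≤ f 10 := f_lo (by norm_num) (by norm_num)
  have h13 : (0.0213 : ℝ) ≤ f 13 := f_lo (by norm_num) (by norm_num)
  have g2 := (gr_spec (q := 2) (by decide)).2.2.2
  have g5 := (gr_spec (q := 5) (by decide)).2.2.2
  have g10 := (gr_spec (q := 10) (by decide)).2.2.2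
  have g13 := (gr_spec (q := 13) (by decide)).2.2.2
  norm_num at g2 g5 g10 g13
  rw [A, A, A, A, g2, g5, g10, g13]
  push_cast
  linarith

lemma sum_A_sq : ∑ q ∈ P, A q ^ 2 ≤ 70.73 := by
  rw [sum_P]
  have h2 := f_sq (x := 2) (by norm_num)
  have h5 := f_sq (x := 5) (by norm_num)
  have h10 := f_sq (x := 10) (by norm_num)
  have h13 := f_sq (x := 13) (by norm_num)
  have g2 := (gr_spec (q := 2) (by decide)).2.2.2
  have g5 := (gr_spec (q := 5) (by decide)).2.2.2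
  have g10 := (gr_spec (q := 10) (by decide)).2.2.2
  have g13 := (gr_spec (q := 13) (by decide)).2.2.2
  norm_num at g2 g5 g10 g13
  rw [A, A, A, A, g2, g5, g10, g13, mul_pow, mul_pow, mul_pow, mul_pow]
  push_cast
  rw [h2, h5, h10, h13]
  norm_num

lemma A_small {q : ℕ} (hq : Squarefree q) (h1 : q ≠ 1) (hP : q ∉ P) : A q ≤ 0.91309 := by
  simp only [P, mem_insert, mem_singleton, not_or] at hP
  have h := gr_small hq h1 hP.1 hP.2.1 hP.2.2.1 hP.2.2.2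
  have h17 : f 17 ≤ 0.014267 := f_hi (by norm_num) (by norm_num) (by norm_num)
  have h' : A q ≤ 64 * f 17 := h
  linarith

lemma tm_P {K q : ℕ} (hK : 400 ≤ K) (h : q ∈ P) :
    tm K q ≤ 2.3711 * ((1 / π ^ 2) ^ 2 * A q ^ 2) := by
  have hq := mem_sqf.1 (mem_of_mem_erase (P_sub hK h))
  have hq25 : q ≤ 25 := by
    simp only [P, mem_insert, mem_singleton] at h
    omega
  have hs := gr_spec h
  have h1 := v2_lo hK (by omega) hq25 hs.1 hs.2.1 hs.2.2.1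
  have h2 := tm_le (K := K) (q := q) (by omega)
  have h3 : (1.177 * cq q 1 ^ 2) ^ 2 ≤ v2 K q ^ 2 := pow_le_pow_left₀ (by positivity) h1 2
  have h4 : (1 / π ^ 2) ^ 2 * A q ^ 2 = (cq q 1 ^ 2) ^ 2 := by
    rw [cq_sq_one, A]; ring
  rw [h4]
  have h5 : 0 ≤ (cq q 1 ^ 2) ^ 2 := by positivity
  nlinarith

lemma tm_other {K q : ℕ} (h : q ∈ (sqf K).erase 1) (hP : q ∉ P) : tm K q ≤ 0.3156 * v2 K q := by
  have h1 := ne_of_mem_erase h
  have hq := mem_sqf.1 (mem_of_mem_erase h)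
  have h2 := tm_le (K := K) (q := q) (by omega)
  have h3 := le_v2 (mem_of_mem_erase h)
  have h4 := A_small hq.2.2 h1 hP
  have h5 : cq q 1 ^ 2 ≤ 0.09253 := by
    rw [cq_sq_one]
    calc 1 / π ^ 2 * ((gr q : ℝ) ^ 2 * f q) ≤ 0.10133 * 0.91309 :=
          mul_le_mul ipi_le h4 (A_nonneg q) (by norm_num)
      _ ≤ 0.09253 := by norm_num
  have h6 : 0 ≤ cq q 1 ^ 2 := sq_nonneg _
  have h7 : 0 ≤ v2 K q ^ 2 := sq_nonneg _
  nlinarith

end Vb

open Vb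

theorem var_bound {K : ℕ} (hK : 400 ≤ K) :
    ∑ q ∈ (sqf K).erase 1, (∑ j ∈ sqj K q, cq q j ^ 2) / 2 ≤ 1.51 := by
  rw [← sum_div]
  have h1 := rest_le hK
  have h2 := ipi_le
  linarith

theorem four_bound {K : ℕ} (hK : 400 ≤ K) :
    ∑ q ∈ (sqf K).erase 1, (3 / 8 * (cq q 1 ^ 4 + (2 * cq q 1 + ∑ j ∈ (sqj K q).erase 1, cq q j) ^ 2
      * ∑ j ∈ (sqj K q).erase 1, cq q j ^ 2) - 3 * ((∑ j ∈ sqj K q, cq q j ^ 2) / 2) ^ 2) ≤ 2.36 := by
  show ∑ q ∈ (sqf K).erase 1, tm K q ≤ 2.36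
  have hr : ∑ q ∈ (sqf K).erase 1, v2 K q ≤ 1 / π ^ 2 * 29.75 := rest_le hK
  rw [← sum_sdiff (P_sub hK)] at hr ⊢
  have h1 : ∑ q ∈ P, tm K q ≤ ∑ q ∈ P, 2.3711 * ((1 / π ^ 2) ^ 2 * A q ^ 2) :=
    sum_le_sum fun q hq => tm_P hK hq
  have h2 : ∑ q ∈ (sqf K).erase 1 \ P, tm K q ≤ ∑ q ∈ (sqf K).erase 1 \ P, 0.3156 * v2 K q :=
    sum_le_sum fun q hq => tm_other (mem_sdiff.1 hq).1 (mem_sdiff.1 hq).2
  have h3 : ∑ q ∈ P, 1.177 * (1 / π ^ 2 * A q) ≤ ∑ q ∈ P, v2 K q := by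
    refine sum_le_sum fun q h => ?_
    have hq := mem_sqf.1 (mem_of_mem_erase (P_sub hK h))
    have hq25 : q ≤ 25 := by
      simp only [P, mem_insert, mem_singleton] at h
      omega
    have hs := gr_spec h
    have h1 := v2_lo hK (by omega) hq25 hs.1 hs.2.1 hs.2.2.1
    rw [cq_sq_one] at h1
    exact h1
  rw [← mul_sum, ← mul_sum] at h1 h3
  rw [← mul_sum] at h2
  have h4 := sum_A_lo
  have h5 := sum_A_sq
  have h6 := ipi_le
  have h7 := ipi_pos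
  generalize (1 / π ^ 2) = u at *
  have h8 : u ^ 2 ≤ 0.10133 ^ 2 := pow_le_pow_left₀ h7.le h6 2
  have h9 : u ^ 2 * ∑ q ∈ P, A q ^ 2 ≤ 0.10133 ^ 2 * 70.73 :=
    mul_le_mul h8 h5 (sum_nonneg fun q _ => sq_nonneg _) (by norm_num)
  have h10 : u * 14.7632 ≤ u * ∑ q ∈ P, A q := mul_le_mul_of_nonneg_left h4 h7.le
  linarith

end Pool.Agent.Helper78.BI
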